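import Pool.Agent.Helper24.HB.Comb
set_option autoImplicit false
noncomputable section
namespace HB
namespace BOOST
/-- the vector `J t` -/
def bstJ (t : Fin 5 → ℝ) : Fin 5 → ℝ := ![t 0, t 1, t 2, t 3, -t 4]

lemma bstJ_dot (t x : Fin 5 → ℝ) : dotProduct (bstJ t) x = B x t := by
  simp [dotProduct, Fin.sum_univ_five, bstJ, B]
  ring

/-- the reflection in the vector `t` as a matrix -/
def bstM (t : Fin 5 → ℝ) : Matrix (Fin 5) (Fin 5) ℝ :=
  1 + Matrix.vecMulVec ((-(2 / B t t)) • t) (bstJ t)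

lemma bstM_mulVec (t x : Fin 5 → ℝ) : (bstM t).mulVec x = x - (2 / B t t * B x t) • t := by
  unfold bstM
  rw [Matrix.add_mulVec, Matrix.one_mulVec, Matrix.vecMulVec_mulVec, bstJ_dot]
  ext i
  simp only [Pi.add_apply, Pi.smul_apply, Pi.sub_apply, smul_eq_mul, MulOpposite.smul_eq_mul_unop,
    MulOpposite.unop_op]
  ring

lemma bstM_B {t : Fin 5 → ℝ} (ht : B t t ≠ 0) (x y : Fin 5 → ℝ) :
    B ((bstM t).mulVec x) ((bstM t).mulVec y) = B x y := by
  rw [bstM_mulVec, bstM_mulVec]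
  simp only [B_sub_left, B_sub_right, B_smul_left, B_smul_right, B_symm t y]
  field_simp
  ring

lemma bstM_invol {t : Fin 5 → ℝ} (ht : B t t ≠ 0) : bstM t * bstM t = 1 := by
  rw [Matrix.ext_iff_mulVec]
  intro x
  rw [← Matrix.mulVec_mulVec, Matrix.one_mulVec, bstM_mulVec, bstM_mulVec, B_sub_left, B_smul_left]
  have h1 : 2 / B t t * (B x t - 2 / B t t * B x t * B t t) = -(2 / B t t * B x t) := by
    field_simp
    ring
  rw [h1, neg_smul]
  abel

lemma bstM_det {t : Fin 5 → ℝ} (ht : B t t ≠ 0) : (bstM t).det = -1 := by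
  unfold bstM
  rw [Matrix.vecMulVec_eq Unit, Matrix.det_one_add_replicateCol_mul_replicateRow, bstJ_dot,
    B_smul_left]
  field_simp
  ring

lemma bst_oo : B o o = -1 := o_mem.1

lemma bst_op {p : Fin 5 → ℝ} (hp : p ∈ Hyp) : B (o + p) (o + p) = 2 * (-p 4 - 1) := by
  rw [B_add_left, B_add_right, B_add_right, bst_oo, hp.1, B_o_left, B_o_right]
  ring

lemma bst_op_ne {p : Fin 5 → ℝ} (hp : p ∈ Hyp) : B (o + p) (o + p) ≠ 0 := by
  rw [bst_op hp]
  have := hp.2
  intro h0
  linarith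

lemma bst_oo_ne : B o o ≠ 0 := by
  rw [bst_oo]
  norm_num

lemma bst_apply {p : Fin 5 → ℝ} (hp : p ∈ Hyp) : (bstM (o + p) * bstM o).mulVec o = p := by
  rw [← Matrix.mulVec_mulVec, bstM_mulVec, bstM_mulVec, bst_op hp, bst_oo]
  have h1 : o - ((2 : ℝ) / -1 * -1) • o = -o := by
    module
  rw [h1]
  have h2 : B (-o) (o + p) = 1 + p 4 := by
    have h3 : (-o : Fin 5 → ℝ) = (-1 : ℝ) • o := by module
    rw [h3, B_smul_left, B_add_right, bst_oo, B_o_left]
    ring
  rw [h2]
  have h4 : 2 / (2 * (-p 4 - 1)) * (1 + p 4) = -1 := by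
    have := hp.2
    have h5 : -p 4 - 1 ≠ 0 := by linarith
    field_simp
    ring
  rw [h4]
  module

/-- the boost as an element of the general linear group -/
def bstG (p : Hyp) : GL (Fin 5) ℝ :=
  ⟨bstM (o + p.1) * bstM o, bstM o * bstM (o + p.1), by
    rw [Matrix.mul_assoc, ← Matrix.mul_assoc (bstM o), bstM_invol bst_oo_ne, Matrix.one_mul,
      bstM_invol (bst_op_ne p.2)], by
    rw [Matrix.mul_assoc, ← Matrix.mul_assoc (bstM (o + p.1)), bstM_invol (bst_op_ne p.2),
      Matrix.one_mul, bstM_invol bst_oo_ne]⟩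

lemma bstG_mem (p : Hyp) : bstG p ∈ G5 := by
  refine ⟨?_, ?_, ?_⟩
  · intro x y
    show B ((bstM (o + p.1) * bstM o).mulVec x) ((bstM (o + p.1) * bstM o).mulVec y) = B x y
    rw [← Matrix.mulVec_mulVec, ← Matrix.mulVec_mulVec, bstM_B (bst_op_ne p.2), bstM_B bst_oo_ne]
  · show (bstM (o + p.1) * bstM o).det = 1
    rw [Matrix.det_mul, bstM_det (bst_op_ne p.2), bstM_det bst_oo_ne]
    norm_num
  · have h1 := mulVec_o_four (bstM (o + p.1) * bstM o)
    rw [bst_apply p.2] at h1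
    show 0 < (bstM (o + p.1) * bstM o) 4 4
    rw [← h1]
    exact p.2.2

lemma bstM_continuous : Continuous (fun p : Hyp => bstM (o + p.1)) := by
  have h0 : Continuous (fun p : Hyp => (o + p.1 : Fin 5 → ℝ)) :=
    continuous_const.add continuous_subtype_val
  have h1 : Continuous (fun p : Hyp => B (o + p.1) (o + p.1)) := continuous_B h0 h0
  have h2 : Continuous (fun p : Hyp => (-(2 / B (o + p.1) (o + p.1))) • (o + p.1 : Fin 5 → ℝ)) :=
    (continuous_const.div h1 fun p => bst_op_ne p.2).neg.smul h0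
  have h3 : Continuous (fun p : Hyp => bstJ (o + p.1)) := by
    unfold bstJ
    have h4 : ∀ i, Continuous (fun p : Hyp => (o + p.1 : Fin 5 → ℝ) i) :=
      fun i => (continuous_apply i).comp h0
    apply continuous_pi
    intro i
    fin_cases i
    · exact h4 0
    · exact h4 1
    · exact h4 2
    · exact h4 3
    · exact (h4 4).neg
  unfold bstM
  apply continuous_const.add
  apply continuous_matrix
  intro i j
  simp only [Matrix.vecMulVec_apply]
  exact ((continuous_apply i).comp h2).mul ((continuous_apply j).comp h3)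

theorem boost : ∃ b : Hyp → G5, Continuous b ∧ ∀ p : Hyp, gact (b p) o = p := by
  refine ⟨fun p => ⟨bstG p, bstG_mem p⟩, ?_, ?_⟩
  · apply Continuous.subtype_mk
    rw [Units.continuous_iff]
    constructor
    · exact bstM_continuous.matrix_mul continuous_const
    · exact Continuous.matrix_mul continuous_const bstM_continuous
  · intro p
    exact bst_apply p.2

lemma hyp_aux_pos (u : Fin 4 → ℝ) : 0 < 1 + u 0 ^ 2 + u 1 ^ 2 + u 2 ^ 2 + u 3 ^ 2 := by positivity

/-- the inverse chart -/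
def hypInv (u : Fin 4 → ℝ) : Fin 5 → ℝ :=
  ![u 0, u 1, u 2, u 3, Real.sqrt (1 + u 0 ^ 2 + u 1 ^ 2 + u 2 ^ 2 + u 3 ^ 2)]

lemma hypInv_mem (u : Fin 4 → ℝ) : hypInv u ∈ Hyp := by
  have h1 := Real.sq_sqrt (hyp_aux_pos u).le
  refine ⟨?_, ?_⟩
  · show u 0 * u 0 + u 1 * u 1 + u 2 * u 2 + u 3 * u 3 -
      Real.sqrt (1 + u 0 ^ 2 + u 1 ^ 2 + u 2 ^ 2 + u 3 ^ 2) *
        Real.sqrt (1 + u 0 ^ 2 + u 1 ^ 2 + u 2 ^ 2 + u 3 ^ 2) = -1
    rw [← sq (Real.sqrt _), h1]
    ring
  · exact Real.sqrt_pos.2 (hyp_aux_pos u)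
theorem Hyp_homeo : Nonempty (Hyp ≃ₜ (Fin 4 → ℝ)) := by
  refine ⟨{ toFun := fun p => ![p.1 0, p.1 1, p.1 2, p.1 3]
            invFun := fun u => ⟨hypInv u, hypInv_mem u⟩
            left_inv := ?_
            right_inv := ?_
            continuous_toFun := ?_
            continuous_invFun := ?_ }⟩
  · rintro ⟨p, hp⟩
    apply Subtype.ext
    funext i
    have h1 : p 4 = Real.sqrt (1 + p 0 ^ 2 + p 1 ^ 2 + p 2 ^ 2 + p 3 ^ 2) := by
      have h2 := hp.1
      unfold B at h2
      rw [eq_comm, Real.sqrt_eq_iff_mul_self_eq (by positivity) hp.2.le]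
      nlinarith
    fin_cases i
    · rfl
    · rfl
    · rfl
    · rfl
    · exact h1.symm
  · intro u
    funext i
    fin_cases i <;> rfl
  · have h0 : ∀ i, Continuous (fun p : Hyp => p.1 i) :=
      fun i => (continuous_apply i).comp continuous_subtype_val
    apply continuous_pi
    intro i
    fin_cases i
    · exact h0 0
    · exact h0 1
    · exact h0 2
    · exact h0 3
  · apply Continuous.subtype_mk
    unfold hypInv
    apply continuous_pi
    intro i
    fin_cases i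
    · exact continuous_apply 0
    · exact continuous_apply 1
    · exact continuous_apply 2
    · exact continuous_apply 3
    · show Continuous (fun u : Fin 4 → ℝ => Real.sqrt (1 + u 0 ^ 2 + u 1 ^ 2 + u 2 ^ 2 + u 3 ^ 2))
      fun_prop
end BOOST
end HB
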