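import Mathlib
set_option autoImplicit false
noncomputable section
namespace HB

/-- Lorentz form of signature (4,1) on ℝ⁵. -/
def B (x y : Fin 5 → ℝ) : ℝ := x 0 * y 0 + x 1 * y 1 + x 2 * y 2 + x 3 * y 3 - x 4 * y 4
/-- base point -/
def o : Fin 5 → ℝ := ![0, 0, 0, 0, 1]
/-- upper sheet of the hyperboloid = hyperbolic 4-space -/
def Hyp : Set (Fin 5 → ℝ) := {x | B x x = -1 ∧ 0 < x 4}
/-- reflection in the hyperplane orthogonal to `e` -/
def refl (e x : Fin 5 → ℝ) : Fin 5 → ℝ := x - (2 * B x e) • e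

lemma B_symm (x y : Fin 5 → ℝ) : B x y = B y x := by unfold B; ring
lemma B_add_left (x y z : Fin 5 → ℝ) : B (x + y) z = B x z + B y z := by simp only [B, Pi.add_apply]; ring
lemma B_add_right (x y z : Fin 5 → ℝ) : B x (y + z) = B x y + B x z := by simp only [B, Pi.add_apply]; ring
lemma B_sub_left (x y z : Fin 5 → ℝ) : B (x - y) z = B x z - B y z := by simp only [B, Pi.sub_apply]; ring
lemma B_sub_right (x y z : Fin 5 → ℝ) : B x (y - z) = B x y - B x z := by simp only [B, Pi.sub_apply]; ring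
lemma B_smul_left (c : ℝ) (x z : Fin 5 → ℝ) : B (c • x) z = c * B x z := by simp only [B, Pi.smul_apply, smul_eq_mul]; ring
lemma B_smul_right (c : ℝ) (x z : Fin 5 → ℝ) : B x (c • z) = c * B x z := by simp only [B, Pi.smul_apply, smul_eq_mul]; ring
lemma B_o_right (x : Fin 5 → ℝ) : B x o = - x 4 := by simp [B, o]
lemma B_o_left (x : Fin 5 → ℝ) : B o x = - x 4 := by simp [B, o]
lemma o_mem : o ∈ Hyp := by constructor <;> simp [B, o]
lemma continuous_B {X : Type*} [TopologicalSpace X] {f g : X → Fin 5 → ℝ} (hf : Continuous f) (hg : Continuous g) :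
    Continuous fun t => B (f t) (g t) := by
  unfold B
  have h : ∀ i, Continuous fun t => f t i := fun i => (continuous_apply i).comp hf
  have h' : ∀ i, Continuous fun t => g t i := fun i => (continuous_apply i).comp hg
  exact (((((h 0).mul (h' 0)).add ((h 1).mul (h' 1))).add ((h 2).mul (h' 2))).add ((h 3).mul (h' 3))).sub ((h 4).mul (h' 4))
lemma refl_refl (e x : Fin 5 → ℝ) (he : B e e = 1) : refl e (refl e x) = x := by
  unfold refl
  rw [B_sub_left, B_smul_left, he]
  module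
lemma B_refl_refl (e x y : Fin 5 → ℝ) (he : B e e = 1) : B (refl e x) (refl e y) = B x y := by
  unfold refl
  simp only [B_sub_left, B_sub_right, B_smul_left, B_smul_right, he, B_symm e y]
  ring
lemma refl_comm (e f x : Fin 5 → ℝ) (h : B e f = 0) : refl e (refl f x) = refl f (refl e x) := by
  unfold refl
  simp only [B_sub_left, B_smul_left, B_symm f e, h]
  module
/-- reversed Cauchy–Schwarz consequence: two points of the hyperboloid -/
lemma B_le_neg_one {x y : Fin 5 → ℝ} (hx : x ∈ Hyp) (hy : y ∈ Hyp) : B x y ≤ -1 := by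
  obtain ⟨hx1, hx2⟩ := hx
  obtain ⟨hy1, hy2⟩ := hy
  unfold B at *
  have h1 : (x 0 * y 0 + x 1 * y 1 + x 2 * y 2 + x 3 * y 3)^2 ≤ (x 0^2+x 1^2+x 2^2+x 3^2) * (y 0^2+y 1^2+y 2^2+y 3^2) := by
    nlinarith [sq_nonneg (x 0 * y 1 - x 1 * y 0), sq_nonneg (x 0 * y 2 - x 2 * y 0), sq_nonneg (x 0 * y 3 - x 3 * y 0), sq_nonneg (x 1 * y 2 - x 2 * y 1), sq_nonneg (x 1 * y 3 - x 3 * y 1), sq_nonneg (x 2 * y 3 - x 3 * y 2)]
  have hx3 : x 0^2+x 1^2+x 2^2+x 3^2 = x 4 ^2 - 1 := by linarith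
  have hy3 : y 0^2+y 1^2+y 2^2+y 3^2 = y 4 ^2 - 1 := by linarith
  rw [hx3, hy3] at h1
  have hx5 : 1 ≤ x 4 := by nlinarith [sq_nonneg (x 0), sq_nonneg (x 1), sq_nonneg (x 2), sq_nonneg (x 3)]
  have hy5 : 1 ≤ y 4 := by nlinarith [sq_nonneg (y 0), sq_nonneg (y 1), sq_nonneg (y 2), sq_nonneg (y 3)]
  have hxy : 1 ≤ x 4 * y 4 := by nlinarith
  have h2 : (x 4 ^2 - 1) * (y 4 ^2 - 1) ≤ (x 4 * y 4 - 1)^2 := by nlinarith [sq_nonneg (x 4 - y 4)]
  have h3 : x 0 * y 0 + x 1 * y 1 + x 2 * y 2 + x 3 * y 3 ≤ x 4 * y 4 - 1 := by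
    apply le_of_sq_le_sq _ (by linarith) |>.trans' (le_refl _)
    exact h1.trans h2
  linarith

/-- a unit timelike vector pairing negatively with a point of `Hyp` is in `Hyp` -/
lemma mem_Hyp_of_neg {y p : Fin 5 → ℝ} (hy : B y y = -1) (hp : p ∈ Hyp) (h : B y p < 0) : y ∈ Hyp := by
  refine ⟨hy, ?_⟩
  by_contra hc
  push Not at hc
  have hne : y 4 ≠ 0 := by
    intro h0
    unfold B at hy
    nlinarith [sq_nonneg (y 0), sq_nonneg (y 1), sq_nonneg (y 2), sq_nonneg (y 3)]
  have hlt : y 4 < 0 := lt_of_le_of_ne hc hne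
  have hm : (-1 : ℝ) • y ∈ Hyp := by
    refine ⟨by rw [B_smul_left, B_smul_right, hy]; ring, ?_⟩
    simp only [Pi.smul_apply, smul_eq_mul]; linarith
  have := B_le_neg_one hm hp
  rw [B_smul_left] at this
  linarith
lemma refl_mem_Hyp {e x : Fin 5 → ℝ} (he : B e e = 1) (hx : x ∈ Hyp) : refl e x ∈ Hyp := by
  apply mem_Hyp_of_neg (p := x) _ hx
  · unfold refl
    rw [B_sub_left, B_smul_left, hx.1, B_symm e x]
    nlinarith [sq_nonneg (B x e)]
  · rw [B_refl_refl e x x he, hx.1]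
lemma continuous_refl (e : Fin 5 → ℝ) : Continuous (refl e) := by
  unfold refl
  exact continuous_id.sub ((continuous_const.mul (continuous_B continuous_id continuous_const)).smul continuous_const)

/-- right-angled polytope data: unit outer normals `e i`, adjacency -/
structure Cell (ι : Type) where
  e : ι → (Fin 5 → ℝ)
  adj : ι → ι → Prop
  symm : ∀ i j, adj i j → adj j i
  self : ∀ i, B (e i) (e i) = 1
  orth : ∀ i j, adj i j → B (e i) (e j) = 0
  far : ∀ i j, i ≠ j → ¬ adj i j → B (e i) (e j) ≤ -(3/2)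
  cen : ∀ i, B o (e i) < 0

/-- the polytope -/
def Cell.P {ι : Type} (C : Cell ι) : Set (Fin 5 → ℝ) := {x | x ∈ Hyp ∧ ∀ i, B x (C.e i) ≤ 0}
/-- product of reflections given by a word (the last letter acts first) -/
def Cell.rho {ι : Type} (C : Cell ι) (w : List ι) (x : Fin 5 → ℝ) : Fin 5 → ℝ :=
  w.foldr (fun i y => refl (C.e i) y) x

/-- set with an action of the right-angled Coxeter group of the cell -/
structure WSet {ι : Type} (C : Cell ι) (R : Type) where
  act : ι → R → R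
  inv : ∀ i r, act i (act i r) = r
  comm : ∀ i j, C.adj i j → ∀ r, act i (act j r) = act j (act i r)
def WSet.tau {ι : Type} {C : Cell ι} {R : Type} (W : WSet C R) (w : List ι) (r : R) : R :=
  w.foldr W.act r

section
variable {ι : Type} (C : Cell ι)
@[simp] lemma rho_nil (x : Fin 5 → ℝ) : C.rho [] x = x := rfl
@[simp] lemma rho_cons (i : ι) (w : List ι) (x : Fin 5 → ℝ) : C.rho (i :: w) x = refl (C.e i) (C.rho w x) := rfl
lemma rho_append (v w : List ι) (x : Fin 5 → ℝ) : C.rho (v ++ w) x = C.rho v (C.rho w x) := by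
  simp [Cell.rho, List.foldr_append]
lemma rho_reverse (w : List ι) (x : Fin 5 → ℝ) : C.rho w.reverse (C.rho w x) = x := by
  induction w with
  | nil => rfl
  | cons i w ih => rw [List.reverse_cons, rho_append, rho_cons, rho_cons, rho_nil, refl_refl _ _ (C.self i), ih]
lemma rho_reverse' (w : List ι) (x : Fin 5 → ℝ) : C.rho w (C.rho w.reverse x) = x := by
  have := rho_reverse C w.reverse x
  rwa [List.reverse_reverse] at this
lemma B_rho (w : List ι) (x y : Fin 5 → ℝ) : B (C.rho w x) (C.rho w y) = B x y := by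
  induction w with
  | nil => rfl
  | cons i w ih => rw [rho_cons, rho_cons, B_refl_refl _ _ _ (C.self i), ih]
lemma rho_mem_Hyp (w : List ι) {x : Fin 5 → ℝ} (hx : x ∈ Hyp) : C.rho w x ∈ Hyp := by
  induction w with
  | nil => exact hx
  | cons i w ih => exact refl_mem_Hyp (C.self i) ih
lemma continuous_rho (w : List ι) : Continuous (C.rho w) := by
  induction w with
  | nil => exact continuous_id
  | cons i w ih => exact (continuous_refl _).comp ih
lemma o_mem_P : o ∈ C.P := ⟨o_mem, fun i => (C.cen i).le⟩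
variable {C} {R : Type} (W : WSet C R)
@[simp] lemma tau_nil (r : R) : W.tau [] r = r := rfl
@[simp] lemma tau_cons (i : ι) (w : List ι) (r : R) : W.tau (i :: w) r = W.act i (W.tau w r) := rfl
lemma tau_append (v w : List ι) (r : R) : W.tau (v ++ w) r = W.tau v (W.tau w r) := by
  simp [WSet.tau, List.foldr_append]
lemma tau_reverse (w : List ι) (r : R) : W.tau w.reverse (W.tau w r) = r := by
  induction w with
  | nil => rfl
  | cons i w ih => rw [List.reverse_cons, tau_append, tau_cons, tau_cons, tau_nil, W.inv, ih]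
lemma tau_reverse' (w : List ι) (r : R) : W.tau w (W.tau w.reverse r) = r := by
  have := tau_reverse W w.reverse r
  rwa [List.reverse_reverse] at this
end

/-- matrices preserving `B` with positive corner entry preserve `Hyp` -/
lemma mulVec_mem_Hyp {A : Matrix (Fin 5) (Fin 5) ℝ} (h1 : ∀ x y : Fin 5 → ℝ, B (A.mulVec x) (A.mulVec y) = B x y)
    (h2 : 0 < A 4 4) {x : Fin 5 → ℝ} (hx : x ∈ Hyp) : A.mulVec x ∈ Hyp := by
  have hp : A.mulVec o ∈ Hyp := by
    refine ⟨by rw [h1]; exact o_mem.1, ?_⟩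
    have : A.mulVec o 4 = A 4 4 := by
      simp [Matrix.mulVec, dotProduct, o, Fin.sum_univ_five]
    rw [this]; exact h2
  apply mem_Hyp_of_neg (p := A.mulVec o) _ hp
  · rw [h1, B_o_right]; linarith [hx.2]
  · rw [h1]; exact hx.1
lemma mulVec_o_four (A : Matrix (Fin 5) (Fin 5) ℝ) : A.mulVec o 4 = A 4 4 := by
  simp [Matrix.mulVec, dotProduct, o, Fin.sum_univ_five]

/-- the connected Lorentz group SO⁺(4,1) -/
def G5 : Subgroup (GL (Fin 5) ℝ) where
  carrier := {A | (∀ x y : Fin 5 → ℝ, B ((A : Matrix (Fin 5) (Fin 5) ℝ).mulVec x) ((A : Matrix (Fin 5) (Fin 5) ℝ).mulVec y) = B x y) ∧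
    (A : Matrix (Fin 5) (Fin 5) ℝ).det = 1 ∧ 0 < (A : Matrix (Fin 5) (Fin 5) ℝ) 4 4}
  mul_mem' := by
    rintro A A' ⟨h1, h2, h3⟩ ⟨h1', h2', h3'⟩
    refine ⟨?_, ?_, ?_⟩
    · intro x y
      simp only [Units.val_mul, ← Matrix.mulVec_mulVec]
      rw [h1, h1']
    · simp [Units.val_mul, Matrix.det_mul, h2, h2']
    · have := (mulVec_mem_Hyp h1 h3 (mulVec_mem_Hyp h1' h3' o_mem)).2
      rw [Matrix.mulVec_mulVec, mulVec_o_four] at this
      simpa [Units.val_mul] using this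
  one_mem' := by
    refine ⟨?_, ?_, ?_⟩ <;> simp
  inv_mem' := by
    rintro A ⟨h1, h2, h3⟩
    have hinv : ∀ x : Fin 5 → ℝ, (A : Matrix (Fin 5) (Fin 5) ℝ).mulVec ((A⁻¹ : GL (Fin 5) ℝ).val.mulVec x) = x := by
      intro x
      rw [Matrix.mulVec_mulVec, ← Units.val_mul, mul_inv_cancel]; simp
    have h1' : ∀ x y : Fin 5 → ℝ, B ((A⁻¹ : GL (Fin 5) ℝ).val.mulVec x) ((A⁻¹ : GL (Fin 5) ℝ).val.mulVec y) = B x y := by
      intro x y
      rw [← h1, hinv, hinv]
    refine ⟨h1', ?_, ?_⟩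
    · have : ((A : Matrix (Fin 5) (Fin 5) ℝ) * (A⁻¹ : GL (Fin 5) ℝ).val).det = 1 := by
        rw [← Units.val_mul, mul_inv_cancel]; simp
      rw [Matrix.det_mul, h2, one_mul] at this
      exact this
    · have hq : (A⁻¹ : GL (Fin 5) ℝ).val.mulVec o ∈ Hyp := by
        apply mem_Hyp_of_neg (p := o) _ o_mem
        · have := h1' ((A : Matrix (Fin 5) (Fin 5) ℝ).mulVec o) o
          rw [← h1, hinv] 
          have hp := mulVec_mem_Hyp h1 h3 o_mem
          rw [B_o_left]
          linarith [hp.2]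
        · rw [h1']; exact o_mem.1
      have := hq.2
      rwa [mulVec_o_four] at this

/-- the action of `G5` on ℝ⁵ -/
def gact (g : G5) (x : Fin 5 → ℝ) : Fin 5 → ℝ := ((g : GL (Fin 5) ℝ) : Matrix (Fin 5) (Fin 5) ℝ).mulVec x
lemma gact_mul (g h : G5) (x : Fin 5 → ℝ) : gact (g * h) x = gact g (gact h x) := by
  simp [gact, Matrix.mulVec_mulVec]
@[simp] lemma gact_one (x : Fin 5 → ℝ) : gact 1 x = x := by simp [gact]
lemma gact_inv_cancel (g : G5) (x : Fin 5 → ℝ) : gact g⁻¹ (gact g x) = x := by rw [← gact_mul]; simp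
lemma gact_cancel_inv (g : G5) (x : Fin 5 → ℝ) : gact g (gact g⁻¹ x) = x := by rw [← gact_mul]; simp
lemma B_gact (g : G5) (x y : Fin 5 → ℝ) : B (gact g x) (gact g y) = B x y := g.2.1 x y
lemma gact_mem_Hyp (g : G5) {x : Fin 5 → ℝ} (hx : x ∈ Hyp) : gact g x ∈ Hyp := mulVec_mem_Hyp g.2.1 g.2.2.2 hx
lemma continuous_gact : Continuous fun q : G5 × (Fin 5 → ℝ) => gact q.1 q.2 := by
  unfold gact
  exact (Units.continuous_val.comp (continuous_subtype_val.comp continuous_fst)).matrix_mulVec continuous_snd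
end HB
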