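import Pool.Agent.Helper24.HB.Comb
set_option autoImplicit false
noncomputable section
namespace HB
namespace CPT
/-- the pairs (A, A⁻¹) -/
def j12423_C (K : Set (Fin 5 → ℝ)) : Set (Matrix (Fin 5) (Fin 5) ℝ × Matrix (Fin 5) (Fin 5) ℝ) :=
  {p | p.1 * p.2 = 1 ∧ p.2 * p.1 = 1 ∧ (∀ x y : Fin 5 → ℝ, B (p.1.mulVec x) (p.1.mulVec y) = B x y) ∧
    p.1.det = 1 ∧ 1 ≤ p.1 4 4 ∧ p.2.mulVec o ∈ K}

lemma j12423_cont_mulVec_fst (x : Fin 5 → ℝ) :
    Continuous fun p : Matrix (Fin 5) (Fin 5) ℝ × Matrix (Fin 5) (Fin 5) ℝ => p.1.mulVec x :=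
  continuous_fst.matrix_mulVec continuous_const
lemma j12423_cont_mulVec_snd (x : Fin 5 → ℝ) :
    Continuous fun p : Matrix (Fin 5) (Fin 5) ℝ × Matrix (Fin 5) (Fin 5) ℝ => p.2.mulVec x :=
  continuous_snd.matrix_mulVec continuous_const

lemma j12423_closed (K : Set (Fin 5 → ℝ)) (hK : IsClosed K) : IsClosed (j12423_C K) := by
  unfold j12423_C
  refine IsClosed.inter (isClosed_eq (continuous_fst.matrix_mul continuous_snd) continuous_const) ?_
  refine IsClosed.inter (isClosed_eq (continuous_snd.matrix_mul continuous_fst) continuous_const) ?_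
  refine IsClosed.inter ?_ ?_
  · have : {p : Matrix (Fin 5) (Fin 5) ℝ × Matrix (Fin 5) (Fin 5) ℝ |
        ∀ x y : Fin 5 → ℝ, B (p.1.mulVec x) (p.1.mulVec y) = B x y} =
        ⋂ (x : Fin 5 → ℝ) (y : Fin 5 → ℝ), {p | B (p.1.mulVec x) (p.1.mulVec y) = B x y} := by
      ext p; simp
    show IsClosed {p : Matrix (Fin 5) (Fin 5) ℝ × Matrix (Fin 5) (Fin 5) ℝ |
        ∀ x y : Fin 5 → ℝ, B (p.1.mulVec x) (p.1.mulVec y) = B x y}
    rw [this]
    exact isClosed_iInter fun x => isClosed_iInter fun y => isClosed_eq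
      (continuous_B (j12423_cont_mulVec_fst x) (j12423_cont_mulVec_fst y)) continuous_const
  refine IsClosed.inter (isClosed_eq continuous_fst.matrix_det continuous_const) ?_
  refine IsClosed.inter (isClosed_le continuous_const (continuous_fst.matrix_elem 4 4)) ?_
  exact hK.preimage (j12423_cont_mulVec_snd o)

/-- sum of squares in a column -/
lemma j12423_col (A : Matrix (Fin 5) (Fin 5) ℝ)
    (h : ∀ x y : Fin 5 → ℝ, B (A.mulVec x) (A.mulVec y) = B x y) (j : Fin 5) (N : ℝ)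
    (hN : |A 4 j| ≤ N) (i : Fin 5) : |A i j| ≤ N + 1 := by
  have hN0 : 0 ≤ N := le_trans (abs_nonneg _) hN
  have h1 := h (Pi.single j 1) (Pi.single j 1)
  simp only [Matrix.mulVec_single_one, B, Matrix.col_apply] at h1
  have h2 : B (Pi.single j (1:ℝ)) (Pi.single j 1) ≤ 1 := by
    unfold B
    fin_cases j <;> simp [Pi.single_apply]
  unfold B at h2
  rw [← h1] at h2
  have h3 : A 4 j ^ 2 ≤ N ^ 2 := by rw [← sq_abs]; exact pow_le_pow_left₀ (abs_nonneg _) hN 2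
  have h4 : ∀ i : Fin 5, A i j ^ 2 ≤ (N + 1) ^ 2 := by
    intro i
    fin_cases i
    · show A 0 j ^ 2 ≤ _; nlinarith [sq_nonneg (A 0 j), sq_nonneg (A 1 j), sq_nonneg (A 2 j), sq_nonneg (A 3 j)]
    · show A 1 j ^ 2 ≤ _; nlinarith [sq_nonneg (A 0 j), sq_nonneg (A 1 j), sq_nonneg (A 2 j), sq_nonneg (A 3 j)]
    · show A 2 j ^ 2 ≤ _; nlinarith [sq_nonneg (A 0 j), sq_nonneg (A 1 j), sq_nonneg (A 2 j), sq_nonneg (A 3 j)]
    · show A 3 j ^ 2 ≤ _; nlinarith [sq_nonneg (A 0 j), sq_nonneg (A 1 j), sq_nonneg (A 2 j), sq_nonneg (A 3 j)]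
    · show A 4 j ^ 2 ≤ _; nlinarith
  exact abs_le_of_sq_le_sq (h4 i) (by linarith)

/-- `|A 4 j| = |A' j 4|` -/
lemma j12423_row (A A' : Matrix (Fin 5) (Fin 5) ℝ) (h1 : A * A' = 1)
    (h : ∀ x y : Fin 5 → ℝ, B (A.mulVec x) (A.mulVec y) = B x y) (j : Fin 5) :
    |A 4 j| = |A' j 4| := by
  have e1 : A'.mulVec o = fun i => A' i 4 := by
    ext i
    simp [Matrix.mulVec, dotProduct, o, Fin.sum_univ_five]
  have e2 : B (A.mulVec (Pi.single j 1)) o = B (Pi.single j 1) (A'.mulVec o) := by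
    have := h (Pi.single j 1) (A'.mulVec o)
    rw [Matrix.mulVec_mulVec, h1, Matrix.one_mulVec] at this
    exact this
  rw [B_o_right, e1, Matrix.mulVec_single_one, Matrix.col_apply] at e2
  have e3 : A 4 j = - B (Pi.single j 1) (fun i => A' i 4) := by linarith
  rw [e3, abs_neg]
  unfold B
  fin_cases j <;> simp [Pi.single_apply]

lemma j12423_inv_B (A A' : Matrix (Fin 5) (Fin 5) ℝ) (h1 : A * A' = 1)
    (h : ∀ x y : Fin 5 → ℝ, B (A.mulVec x) (A.mulVec y) = B x y) :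
    ∀ x y : Fin 5 → ℝ, B (A'.mulVec x) (A'.mulVec y) = B x y := by
  intro x y
  rw [← h, Matrix.mulVec_mulVec, Matrix.mulVec_mulVec, h1, Matrix.one_mulVec, Matrix.one_mulVec]

lemma j12423_compact (K : Set (Fin 5 → ℝ)) (hK : IsCompact K) : IsCompact (j12423_C K) := by
  obtain ⟨M, hM⟩ := hK.isBounded.exists_norm_le
  have hcpt : ∀ N : ℝ, IsCompact (Set.pi Set.univ fun _ : Fin 5 => Set.pi Set.univ fun _ : Fin 5 =>
      Set.Icc (-N) N) := fun N => isCompact_univ_pi fun _ => isCompact_univ_pi fun _ => isCompact_Icc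
  have hcpt2 : IsCompact ((Set.pi Set.univ fun _ : Fin 5 => Set.pi Set.univ fun _ : Fin 5 =>
      Set.Icc (-(M+2)) (M+2) : Set (Fin 5 → Fin 5 → ℝ)) ×ˢ
      (Set.pi Set.univ fun _ : Fin 5 => Set.pi Set.univ fun _ : Fin 5 =>
      Set.Icc (-(M+2)) (M+2) : Set (Fin 5 → Fin 5 → ℝ))) := (hcpt _).prod (hcpt _)
  refine IsCompact.of_isClosed_subset hcpt2 (j12423_closed K hK.isClosed) ?_
  rintro ⟨A, A'⟩ ⟨h1, h2, h3, h4, h5, h6⟩
  dsimp only at h1 h2 h3 h4 h5 h6
  have hM' := hM _ h6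
  have e1 : A'.mulVec o = fun i => A' i 4 := by
    ext i
    simp [Matrix.mulVec, dotProduct, o, Fin.sum_univ_five]
  have b1 : ∀ j, |A' j 4| ≤ M := by
    intro j
    have := norm_le_pi_norm (A'.mulVec o) j
    rw [e1, Real.norm_eq_abs] at this
    exact le_trans this (by rw [← e1]; exact hM')
  have b2 : ∀ j, |A 4 j| ≤ M := fun j => by rw [j12423_row A A' h1 h3 j]; exact b1 j
  have b3 : ∀ i j, |A i j| ≤ M + 1 := fun i j => j12423_col A h3 j M (b2 j) i
  have h3' := j12423_inv_B A A' h1 h3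
  have b4 : ∀ j, |A' 4 j| ≤ M + 1 := fun j => by
    rw [j12423_row A' A h2 h3' j]; exact b3 j 4
  have b5 : ∀ i j, |A' i j| ≤ M + 2 := fun i j => by
    have := j12423_col A' h3' j (M + 1) (b4 j) i
    linarith
  refine ⟨?_, ?_⟩
  · intro i _ j _
    have := abs_le.1 (b3 i j)
    exact ⟨by linarith, by linarith⟩
  · intro i _ j _
    have := abs_le.1 (b5 i j)
    exact ⟨by linarith, by linarith⟩

/-- back to the group -/
def j12423_psi (K : Set (Fin 5 → ℝ)) (c : j12423_C K) : G5 :=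
  ⟨⟨c.1.1, c.1.2, c.2.1, c.2.2.1⟩, c.2.2.2.1, c.2.2.2.2.1, lt_of_lt_of_le one_pos c.2.2.2.2.2.1⟩

lemma j12423_psi_cont (K : Set (Fin 5 → ℝ)) : Continuous (j12423_psi K) := by
  unfold j12423_psi
  refine Continuous.subtype_mk ?_ _
  rw [Units.continuous_iff]
  exact ⟨continuous_fst.comp continuous_subtype_val, continuous_snd.comp continuous_subtype_val⟩

theorem cpt_G (K : Set (Fin 5 → ℝ)) (hK : IsCompact K) (hKH : K ⊆ Hyp) :
    IsCompact {g : G5 | gact g⁻¹ o ∈ K} := by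
  have : CompactSpace (j12423_C K) := isCompact_iff_compactSpace.1 (j12423_compact K hK)
  have h1 : {g : G5 | gact g⁻¹ o ∈ K} = Set.range (j12423_psi K) := by
    ext g
    constructor
    · intro hg
      have h44 : 1 ≤ ((g : GL (Fin 5) ℝ) : Matrix (Fin 5) (Fin 5) ℝ) 4 4 := by
        have hq := gact_mem_Hyp g o_mem
        have h2 := B_le_neg_one hq o_mem
        rw [B_o_right] at h2
        unfold gact at h2
        rw [mulVec_o_four] at h2
        linarith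
      refine ⟨⟨(((g : GL (Fin 5) ℝ) : Matrix (Fin 5) (Fin 5) ℝ),
        (((g⁻¹ : G5) : GL (Fin 5) ℝ) : Matrix (Fin 5) (Fin 5) ℝ)), ?_, ?_, g.2.1, g.2.2.1, h44, hg⟩, ?_⟩
      · show ((g : GL (Fin 5) ℝ) : Matrix (Fin 5) (Fin 5) ℝ) *
          (((g⁻¹ : G5) : GL (Fin 5) ℝ) : Matrix (Fin 5) (Fin 5) ℝ) = 1
        rw [← Units.val_mul, ← Subgroup.coe_mul, mul_inv_cancel]
        simp
      · show (((g⁻¹ : G5) : GL (Fin 5) ℝ) : Matrix (Fin 5) (Fin 5) ℝ) *
          ((g : GL (Fin 5) ℝ) : Matrix (Fin 5) (Fin 5) ℝ) = 1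
        rw [← Units.val_mul, ← Subgroup.coe_mul, inv_mul_cancel]
        simp
      · apply Subtype.ext
        apply Units.ext
        rfl
    · rintro ⟨c, rfl⟩
      show gact (j12423_psi K c)⁻¹ o ∈ K
      exact c.2.2.2.2.2.2
  rw [h1]
  exact isCompact_range (j12423_psi_cont K)

/-- matrix of a reflection -/
def j12423_R (e : Fin 5 → ℝ) : Matrix (Fin 5) (Fin 5) ℝ :=
  1 + Matrix.replicateCol (Fin 1) ((-2 : ℝ) • e) *
    Matrix.replicateRow (Fin 1) (![e 0, e 1, e 2, e 3, - e 4] : Fin 5 → ℝ)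

lemma j12423_R_mulVec (e x : Fin 5 → ℝ) : (j12423_R e).mulVec x = refl e x := by
  unfold j12423_R refl
  ext i
  rw [Matrix.add_mulVec, Matrix.one_mulVec]
  simp only [Pi.add_apply, Pi.sub_apply, Pi.smul_apply, smul_eq_mul, Matrix.mulVec, dotProduct,
    Matrix.mul_apply, Matrix.replicateCol_apply, Matrix.replicateRow_apply, Fin.sum_univ_five,
    Finset.univ_unique, Finset.sum_singleton, B]
  simp
  ring

lemma j12423_R_det (e : Fin 5 → ℝ) (he : B e e = 1) : (j12423_R e).det = -1 := by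
  unfold j12423_R
  have h := Matrix.det_one_add_replicateCol_mul_replicateRow (ι := Fin 1) ((-2 : ℝ) • e)
    (![e 0, e 1, e 2, e 3, - e 4] : Fin 5 → ℝ)
  have h2 : (1 + Matrix.replicateCol (Fin 1) ((-2 : ℝ) • e) *
    Matrix.replicateRow (Fin 1) (![e 0, e 1, e 2, e 3, - e 4] : Fin 5 → ℝ)).det =
    1 + (![e 0, e 1, e 2, e 3, - e 4] : Fin 5 → ℝ) ⬝ᵥ ((-2 : ℝ) • e) := by
    convert h <;> rfl
  rw [h2]
  unfold B at he
  simp only [dotProduct, Fin.sum_univ_five, Pi.smul_apply, smul_eq_mul]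
  simp
  linarith

lemma j12423_mat {ι : Type} (C : Cell ι) (w : List ι) :
    ∃ M : Matrix (Fin 5) (Fin 5) ℝ, (∀ x, M.mulVec x = C.rho w x) ∧ M.det = (-1) ^ w.length := by
  induction w with
  | nil => exact ⟨1, fun x => by simp, by simp⟩
  | cons i w ih =>
    obtain ⟨M, h1, h2⟩ := ih
    refine ⟨j12423_R (C.e i) * M, ?_, ?_⟩
    · intro x
      rw [← Matrix.mulVec_mulVec, h1, j12423_R_mulVec, rho_cons]
    · rw [Matrix.det_mul, h2, j12423_R_det _ (C.self i), List.length_cons, pow_succ]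
      ring

theorem even_word {ι : Type} (C : Cell ι) (w : List ι) (hw : Even w.length) :
    ∃ g : G5, ∀ x, gact g x = C.rho w x := by
  obtain ⟨M, h1, h2⟩ := j12423_mat C w
  rw [hw.neg_one_pow] at h2
  refine ⟨⟨Matrix.GeneralLinearGroup.mkOfDetNeZero M (by rw [h2]; exact one_ne_zero), ?_, ?_, ?_⟩, ?_⟩
  · intro x y
    show B (M.mulVec x) (M.mulVec y) = B x y
    rw [h1, h1, B_rho]
  · exact h2
  · have h44 : 0 < (M.mulVec o) 4 := by
      rw [h1]
      exact (rho_mem_Hyp C w o_mem).2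
    rw [mulVec_o_four] at h44
    exact h44
  · intro x
    exact h1 x
end CPT
end HB
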