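import Pool.Agent.Helper24.HB.Comb
set_option autoImplicit false
noncomputable section
namespace HB
open scoped Manifold ContDiff

abbrev M5 := Matrix (Fin 5) (Fin 5) ℝ

/-- the Gram matrix of the form -/
def J5 : M5 := Matrix.diagonal ![1, 1, 1, 1, -1]

lemma J5_sq : J5 * J5 = 1 := by
  unfold J5
  rw [Matrix.diagonal_mul_diagonal, ← Matrix.diagonal_one]
  congr 1
  funext i
  fin_cases i <;> simp

lemma J5_T : J5.transpose = J5 := by
  unfold J5
  exact Matrix.diagonal_transpose _

lemma J5_det : J5.det ≠ 0 := by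
  intro h
  have h1 := congrArg Matrix.det J5_sq
  rw [Matrix.det_mul, h, Matrix.det_one] at h1
  norm_num at h1

lemma B_eq_dot (x y : Fin 5 → ℝ) : B x y = x ⬝ᵥ (J5.mulVec y) := by
  unfold B J5
  simp only [Matrix.mulVec_diagonal, dotProduct, Fin.sum_univ_five]
  simp
  ring

lemma B_mulVec (A : M5) (x y : Fin 5 → ℝ) :
    B (A.mulVec x) (A.mulVec y) = x ⬝ᵥ ((A.transpose * J5 * A).mulVec y) := by
  rw [B_eq_dot, Matrix.dotProduct_mulVec, ← Matrix.mulVec_mulVec, ← Matrix.mulVec_mulVec,
    Matrix.dotProduct_mulVec x A.transpose, Matrix.vecMul_transpose, ← Matrix.dotProduct_mulVec]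

lemma pres_iff (A : M5) :
    (∀ x y : Fin 5 → ℝ, B (A.mulVec x) (A.mulVec y) = B x y) ↔ A.transpose * J5 * A = J5 := by
  constructor
  · intro h
    ext i j
    have h1 := h (Pi.single i 1) (Pi.single j 1)
    rw [B_mulVec, B_eq_dot] at h1
    simpa using h1
  · intro h x y
    rw [B_mulVec, h, B_eq_dot]

/-- the Cayley transform -/
def cay (A : M5) : M5 := (1 - A) * (1 + A)⁻¹

lemma cay_mul (A : M5) (h : (1 + A).det ≠ 0) : cay A * (1 + A) = 1 - A := by
  unfold cay
  rw [Matrix.mul_assoc, Matrix.nonsing_inv_mul _ (isUnit_iff_ne_zero.2 h), Matrix.mul_one]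

lemma cay_add (A : M5) (h : (1 + A).det ≠ 0) : (1 + cay A) * (1 + A) = (2 : ℝ) • 1 := by
  rw [Matrix.add_mul, cay_mul A h, Matrix.one_mul, two_smul]
  abel

lemma cay_det (A : M5) (h : (1 + A).det ≠ 0) : (1 + cay A).det ≠ 0 := by
  intro h0
  have h1 := congrArg Matrix.det (cay_add A h)
  rw [Matrix.det_mul, h0, zero_mul, Matrix.det_smul, Matrix.det_one] at h1
  norm_num at h1

lemma cancel_right {X Y P : M5} (hP : P.det ≠ 0) (h : X * P = Y * P) : X = Y := by
  have h1 := congrArg (fun Z => Z * P⁻¹) h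
  simp only [Matrix.mul_assoc, Matrix.mul_nonsing_inv _ (isUnit_iff_ne_zero.2 hP),
    Matrix.mul_one] at h1
  exact h1

lemma cancel_both {X Y P : M5} (hP : P.det ≠ 0) (h : P.transpose * X * P = P.transpose * Y * P) :
    X = Y := by
  have h1 := cancel_right hP h
  have h2 := congrArg Matrix.transpose h1
  rw [Matrix.transpose_mul, Matrix.transpose_mul, Matrix.transpose_transpose] at h2
  exact Matrix.transpose_injective (cancel_right hP h2)

lemma cay_cay (A : M5) (h : (1 + A).det ≠ 0) : cay (cay A) = A := by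
  have h1 : 1 - cay A = A * (1 + cay A) := by
    apply cancel_right h
    rw [Matrix.sub_mul, cay_mul A h, Matrix.mul_assoc, cay_add A h, Matrix.one_mul,
      Matrix.mul_smul, Matrix.mul_one, two_smul]
    abel
  apply cancel_right (cay_det A h)
  rw [cay_mul _ (cay_det A h), h1]

/-- the Lie algebra -/
def so5 (S : M5) : Prop := S.transpose * J5 + J5 * S = 0

lemma cay_so (A : M5) (h : (1 + A).det ≠ 0) (hA : A.transpose * J5 * A = J5) : so5 (cay A) := by
  unfold so5
  apply cancel_both h
  have h1 := cay_mul A h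
  have h2 : (1 + A).transpose * (cay A).transpose = (1 - A).transpose := by
    rw [← Matrix.transpose_mul, h1]
  calc (1 + A).transpose * ((cay A).transpose * J5 + J5 * cay A) * (1 + A)
      = ((1 + A).transpose * (cay A).transpose) * J5 * (1 + A) +
        (1 + A).transpose * J5 * (cay A * (1 + A)) := by
        noncomm_ring
    _ = (1 - A).transpose * J5 * (1 + A) + (1 + A).transpose * J5 * (1 - A) := by rw [h1, h2]
    _ = (2 : ℝ) • (J5 - A.transpose * J5 * A) := by
        rw [Matrix.transpose_sub, Matrix.transpose_add, Matrix.transpose_one]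
        rw [two_smul]
        noncomm_ring
    _ = (1 + A).transpose * 0 * (1 + A) := by rw [hA]; simp

lemma cay_pres (S : M5) (h : (1 + S).det ≠ 0) (hS : so5 S) :
    (cay S).transpose * J5 * cay S = J5 := by
  apply cancel_both h
  have h1 := cay_mul S h
  have h2 : (1 + S).transpose * (cay S).transpose = (1 - S).transpose := by
    rw [← Matrix.transpose_mul, h1]
  unfold so5 at hS
  calc (1 + S).transpose * ((cay S).transpose * J5 * cay S) * (1 + S)
      = ((1 + S).transpose * (cay S).transpose) * J5 * (cay S * (1 + S)) := by noncomm_ring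
    _ = (1 - S).transpose * J5 * (1 - S) := by rw [h1, h2]
    _ = (1 + S).transpose * J5 * (1 + S) - (2 : ℝ) • (S.transpose * J5 + J5 * S) := by
        rw [Matrix.transpose_sub, Matrix.transpose_add, Matrix.transpose_one]
        rw [two_smul]
        noncomm_ring
    _ = (1 + S).transpose * J5 * (1 + S) := by rw [hS]; simp

lemma so_det (S : M5) (hS : so5 S) : (1 - S).det = (1 + S).det := by
  unfold so5 at hS
  have h1 : (1 - S).transpose * J5 = J5 * (1 + S) := by
    rw [Matrix.transpose_sub, Matrix.transpose_one, Matrix.sub_mul, Matrix.mul_add, Matrix.one_mul,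
      Matrix.mul_one, sub_eq_iff_eq_add, add_assoc, add_comm (J5 * S), hS, add_zero]
  have h2 := congrArg Matrix.det h1
  rw [Matrix.det_mul, Matrix.det_mul, Matrix.det_transpose, mul_comm] at h2
  exact mul_left_cancel₀ J5_det h2

lemma cay_det_one (S : M5) (h : (1 + S).det ≠ 0) (hS : so5 S) : (cay S).det = 1 := by
  have h1 := congrArg Matrix.det (cay_mul S h)
  rw [Matrix.det_mul, so_det S hS] at h1
  exact mul_right_cancel₀ h (h1.trans (one_mul _).symm)

/-- the matrix of an element -/
def valM (g : G5) : M5 := ((g : GL (Fin 5) ℝ) : Matrix (Fin 5) (Fin 5) ℝ)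

lemma valM_mul (g h : G5) : valM (g * h) = valM g * valM h := rfl

lemma valM_one : valM 1 = 1 := rfl

lemma valM_pres (g : G5) : (valM g).transpose * J5 * valM g = J5 := (pres_iff _).1 g.2.1

lemma valM_det (g : G5) : (valM g).det = 1 := g.2.2.1

lemma valM_inv (g : G5) : valM g⁻¹ = J5 * (valM g).transpose * J5 := by
  have h1 : valM g * valM g⁻¹ = 1 := by
    rw [← valM_mul, mul_inv_cancel, valM_one]
  calc valM g⁻¹ = J5 * J5 * valM g⁻¹ := by rw [J5_sq, Matrix.one_mul]
    _ = J5 * ((valM g).transpose * J5 * valM g) * valM g⁻¹ := by rw [valM_pres]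
    _ = J5 * (valM g).transpose * J5 * (valM g * valM g⁻¹) := by noncomm_ring
    _ = _ := by rw [h1, Matrix.mul_one]

lemma valM_inj : Function.Injective valM := by
  intro g h hgh
  exact Subtype.ext (Units.ext hgh)

open Classical in
/-- the element with the given matrix -/
def mkG (A : M5) : G5 :=
  if h : A.transpose * J5 * A = J5 ∧ A.det = 1 ∧ 0 < A 4 4 then
    ⟨Matrix.GeneralLinearGroup.mkOfDetNeZero A (by rw [h.2.1]; norm_num),
      ⟨(pres_iff A).2 h.1, h.2.1, h.2.2⟩⟩
  else 1

lemma valM_mkG (A : M5) (h : A.transpose * J5 * A = J5 ∧ A.det = 1 ∧ 0 < A 4 4) :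
    valM (mkG A) = A := by
  unfold mkG
  rw [dif_pos h]
  rfl

lemma continuous_valM : Continuous valM :=
  Units.continuous_val.comp continuous_subtype_val

lemma contOn_G {X : Type*} [TopologicalSpace X] {F : X → G5} {s : Set X}
    (h : ContinuousOn (fun x => valM (F x)) s) : ContinuousOn F s := by
  rw [continuousOn_iff_continuous_domRestrict] at h ⊢
  apply continuous_induced_rng.2
  apply Units.continuous_iff.2
  refine ⟨h, ?_⟩
  have h1 : (fun x => ((((Subtype.val ∘ s.domRestrict F) x)⁻¹ : GL (Fin 5) ℝ) : M5)) =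
      fun x => J5 * (s.domRestrict (fun x => valM (F x)) x).transpose * J5 := by
    funext x
    exact valM_inv (F x)
  rw [h1]
  exact (continuous_const.mul (h.matrix_transpose)).mul continuous_const

/-- linear parametrisation of the Lie algebra -/
def Smat (x : EuclideanSpace ℝ (Fin 10)) : M5 :=
  !![0, x 0, x 1, x 2, x 6; -x 0, 0, x 3, x 4, x 7; -x 1, -x 3, 0, x 5, x 8;
    -x 2, -x 4, -x 5, 0, x 9; x 6, x 7, x 8, x 9, 0]

/-- coordinates -/
def coord (S : M5) : EuclideanSpace ℝ (Fin 10) :=
  WithLp.toLp 2 ![S 0 1, S 0 2, S 0 3, S 1 2, S 1 3, S 2 3, S 0 4, S 1 4, S 2 4, S 3 4]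

lemma coord_Smat (x : EuclideanSpace ℝ (Fin 10)) : coord (Smat x) = x := by
  ext i
  fin_cases i <;> rfl

lemma so5_entry (S : M5) (hS : so5 S) (i j : Fin 5) :
    S j i * (![1, 1, 1, 1, -1] : Fin 5 → ℝ) j + (![1, 1, 1, 1, -1] : Fin 5 → ℝ) i * S i j = 0 := by
  have h1 := congrFun (congrFun hS i) j
  simpa [J5, Matrix.mul_diagonal, Matrix.diagonal_mul] using h1

lemma so5_Smat (x : EuclideanSpace ℝ (Fin 10)) : so5 (Smat x) := by
  unfold so5
  ext i j
  simp only [J5, Matrix.add_apply, Matrix.mul_diagonal, Matrix.diagonal_mul,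
    Matrix.transpose_apply, Matrix.zero_apply]
  fin_cases i <;> fin_cases j <;> simp [Smat]

lemma Smat_coord (S : M5) (hS : so5 S) : Smat (coord S) = S := by
  have h := so5_entry S hS
  have h00 := h 0 0
  have h11 := h 1 1
  have h22 := h 2 2
  have h33 := h 3 3
  have h44 := h 4 4
  have h01 := h 0 1
  have h02 := h 0 2
  have h03 := h 0 3
  have h12 := h 1 2
  have h13 := h 1 3
  have h23 := h 2 3
  have h04 := h 0 4
  have h14 := h 1 4
  have h24 := h 2 4
  have h34 := h 3 4
  simp at h00 h11 h22 h33 h44 h01 h02 h03 h12 h13 h23 h04 h14 h24 h34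
  ext i j
  fin_cases i <;> fin_cases j <;> simp [Smat, coord] <;> linarith

/-! smoothness -/

/-- entrywise smoothness -/
def SmM {X : Type} [NormedAddCommGroup X] [NormedSpace ℝ X] (f : X → M5) (s : Set X) : Prop :=
  ∀ i j, ContDiffOn ℝ ∞ (fun x => f x i j) s

section
variable {X : Type} [NormedAddCommGroup X] [NormedSpace ℝ X] {s : Set X} {f g : X → M5}

lemma SmM.const (A : M5) : SmM (fun _ : X => A) s := fun i j => contDiffOn_const

lemma SmM.add (hf : SmM f s) (hg : SmM g s) : SmM (fun x => f x + g x) s := fun i j =>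
  (hf i j).add (hg i j)

lemma SmM.sub (hf : SmM f s) (hg : SmM g s) : SmM (fun x => f x - g x) s := fun i j =>
  (hf i j).sub (hg i j)

lemma SmM.mul (hf : SmM f s) (hg : SmM g s) : SmM (fun x => f x * g x) s := by
  intro i j
  simp only [Matrix.mul_apply]
  exact ContDiffOn.sum fun k _ => (hf i k).mul (hg k j)

lemma SmM.tr (hf : SmM f s) : SmM (fun x => (f x).transpose) s := fun i j => hf j i

lemma SmM.det (hf : SmM f s) : ContDiffOn ℝ ∞ (fun x => (f x).det) s := by
  simp only [Matrix.det_apply]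
  apply ContDiffOn.sum
  intro σ _
  apply ContDiffOn.const_smul
  exact contDiffOn_prod fun i _ => hf _ _

lemma SmM.adj (hf : SmM f s) : SmM (fun x => (f x).adjugate) s := by
  intro i j
  simp only [Matrix.adjugate_apply]
  apply SmM.det
  intro k l
  by_cases hk : k = j
  · subst hk
    simp only [Matrix.updateRow_self]
    exact contDiffOn_const
  · simp only [Matrix.updateRow_ne hk]
    exact hf k l

lemma SmM.inv (hf : SmM f s) (h : ∀ x ∈ s, (f x).det ≠ 0) : SmM (fun x => (f x)⁻¹) s := by
  intro i j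
  simp only [Matrix.inv_def, Ring.inverse_eq_inv', Matrix.smul_apply, smul_eq_mul]
  exact (hf.det.inv h).mul (hf.adj i j)

lemma SmM.cay (hf : SmM f s) (h : ∀ x ∈ s, (1 + f x).det ≠ 0) : SmM (fun x => HB.cay (f x)) s :=
  ((SmM.const 1).sub hf).mul (((SmM.const 1).add hf).inv h)

lemma SmM.coord (hf : SmM f s) : ContDiffOn ℝ ∞ (fun x => HB.coord (f x)) s := by
  rw [contDiffOn_euclidean]
  intro i
  fin_cases i <;> exact hf _ _

lemma SmM.Smat {u : X → EuclideanSpace ℝ (Fin 10)} (hu : ContDiffOn ℝ ∞ u s) :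
    SmM (fun x => HB.Smat (u x)) s := by
  have h : ∀ i, ContDiffOn ℝ ∞ (fun x => u x i) s := contDiffOn_euclidean.1 hu
  intro i j
  fin_cases i <;> fin_cases j <;>
    first
    | exact h _
    | exact (h _).neg
    | exact contDiffOn_const

end

lemma continuousOn_cay : ContinuousOn cay {A | (1 + A).det ≠ 0} := by
  unfold cay
  apply ContinuousOn.mul (by fun_prop)
  simp only [Matrix.inv_def, Ring.inverse_eq_inv']
  have h1 : ContinuousOn (fun A : M5 => ((1 + A).det)⁻¹) {A | (1 + A).det ≠ 0} := by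
    apply ContinuousOn.inv₀
    · exact (Continuous.matrix_det (by fun_prop)).continuousOn
    · intro A hA; exact hA
  have h2 : ContinuousOn (fun A : M5 => (1 + A).adjugate) {A | (1 + A).det ≠ 0} :=
    (Continuous.matrix_adjugate (by fun_prop)).continuousOn
  exact h1.smul h2

lemma continuous_coord : Continuous coord := by
  unfold coord
  apply (PiLp.continuous_toLp 2 _).comp
  apply continuous_pi
  intro i
  fin_cases i <;> exact continuous_id.matrix_elem _ _

lemma continuous_Smat : Continuous Smat := by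
  apply continuous_matrix
  intro i j
  have h : ∀ k, Continuous (fun x : EuclideanSpace ℝ (Fin 10) => x k) := fun k => by fun_prop
  fin_cases i <;> fin_cases j <;>
    first
    | exact h _
    | exact (h _).neg
    | exact continuous_const

/-- the target of the chart -/
def tgt : Set (EuclideanSpace ℝ (Fin 10)) :=
  {x | (1 + Smat x).det ≠ 0 ∧ 0 < cay (Smat x) 4 4}

lemma tgt_good {x : EuclideanSpace ℝ (Fin 10)} (hx : x ∈ tgt) :
    valM (mkG (cay (Smat x))) = cay (Smat x) :=
  valM_mkG _ ⟨cay_pres _ hx.1 (so5_Smat x), cay_det_one _ hx.1 (so5_Smat x), hx.2⟩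

/-- the chart -/
def chartG : OpenPartialHomeomorph G5 (EuclideanSpace ℝ (Fin 10)) where
  toFun g := coord (cay (valM g))
  invFun x := mkG (cay (Smat x))
  source := {g | (1 + valM g).det ≠ 0}
  target := tgt
  map_source' := by
    intro g hg
    have hS := cay_so _ hg (valM_pres g)
    refine ⟨?_, ?_⟩
    · rw [Smat_coord _ hS]
      exact cay_det _ hg
    · rw [Smat_coord _ hS, cay_cay _ hg]
      exact g.2.2.2
  map_target' := by
    intro x hx
    show (1 + valM (mkG (cay (Smat x)))).det ≠ 0
    rw [tgt_good hx]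
    exact cay_det _ hx.1
  left_inv' := by
    intro g hg
    have hS := cay_so _ hg (valM_pres g)
    show mkG (cay (Smat (coord (cay (valM g))))) = g
    rw [Smat_coord _ hS, cay_cay _ hg]
    apply valM_inj
    exact valM_mkG _ ⟨valM_pres g, valM_det g, g.2.2.2⟩
  right_inv' := by
    intro x hx
    show coord (cay (valM (mkG (cay (Smat x))))) = x
    rw [tgt_good hx, cay_cay _ hx.1, coord_Smat]
  open_source := by
    have : Continuous (fun g : G5 => (1 + valM g).det) :=
      (continuous_const.add continuous_valM).matrix_det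
    exact isOpen_ne.preimage this
  open_target := by
    have h1 : IsOpen {x | (1 + Smat x).det ≠ 0} :=
      isOpen_ne.preimage ((continuous_const.add continuous_Smat).matrix_det)
    have h2 : ContinuousOn (fun x => cay (Smat x) 4 4) {x | (1 + Smat x).det ≠ 0} := by
      have h3 : ContinuousOn (fun x => cay (Smat x)) {x | (1 + Smat x).det ≠ 0} :=
        continuousOn_cay.comp continuous_Smat.continuousOn (fun x hx => hx)
      exact (continuous_id.matrix_elem 4 4).comp_continuousOn h3
    exact h2.isOpen_inter_preimage h1 isOpen_Ioi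
  continuousOn_toFun :=
    continuous_coord.comp_continuousOn
      (continuousOn_cay.comp continuous_valM.continuousOn (fun g hg => hg))
  continuousOn_invFun := by
    apply contOn_G
    have h3 : ContinuousOn (fun x => cay (Smat x)) tgt :=
      continuousOn_cay.comp continuous_Smat.continuousOn (fun x hx => hx.1)
    exact h3.congr fun x hx => tgt_good hx

/-- Cayley chart of SO⁺(4,1) around the identity. -/
theorem cayley_chart : ∃ φ : OpenPartialHomeomorph G5 (EuclideanSpace ℝ (Fin 10)), (1 : G5) ∈ φ.source ∧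
    (∀ g h : G5, ContDiffOn ℝ ∞ (fun p : EuclideanSpace ℝ (Fin 10) × EuclideanSpace ℝ (Fin 10) =>
        φ (g * φ.symm p.1 * h * φ.symm p.2))
      {p | p.1 ∈ φ.target ∧ p.2 ∈ φ.target ∧ g * φ.symm p.1 * h * φ.symm p.2 ∈ φ.source}) ∧
    (∀ g h : G5, ContDiffOn ℝ ∞ (fun x : EuclideanSpace ℝ (Fin 10) => φ (g * (φ.symm x)⁻¹ * h))
      {x | x ∈ φ.target ∧ g * (φ.symm x)⁻¹ * h ∈ φ.source}) := by
  refine ⟨chartG, ?_, ?_, ?_⟩
  · show (1 + valM 1).det ≠ 0
    rw [valM_one, one_add_one_eq_two]
    have : (2 : M5) = (2 : ℝ) • 1 := by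
      ext i j
      simp [Matrix.ofNat_apply, Matrix.one_apply]
    rw [this, Matrix.det_smul, Matrix.det_one]
    norm_num
  · intro g h
    have key : ∀ p ∈ {p : EuclideanSpace ℝ (Fin 10) × EuclideanSpace ℝ (Fin 10) |
        p.1 ∈ chartG.target ∧ p.2 ∈ chartG.target ∧
          g * chartG.symm p.1 * h * chartG.symm p.2 ∈ chartG.source},
        valM (g * chartG.symm p.1 * h * chartG.symm p.2) =
          valM g * cay (Smat p.1) * valM h * cay (Smat p.2) := by
      rintro p ⟨h1, h2, _⟩
      rw [valM_mul, valM_mul, valM_mul]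
      have e1 : valM (chartG.symm p.1) = cay (Smat p.1) := tgt_good h1
      have e2 : valM (chartG.symm p.2) = cay (Smat p.2) := tgt_good h2
      rw [e1, e2]
    have hsm : SmM (fun p : EuclideanSpace ℝ (Fin 10) × EuclideanSpace ℝ (Fin 10) =>
        valM g * cay (Smat p.1) * valM h * cay (Smat p.2))
        {p | p.1 ∈ chartG.target ∧ p.2 ∈ chartG.target ∧
          g * chartG.symm p.1 * h * chartG.symm p.2 ∈ chartG.source} := by
      have s1 := (SmM.Smat (contDiffOn_fst (𝕜 := ℝ) (n := ∞)
        (s := {p : EuclideanSpace ℝ (Fin 10) × EuclideanSpace ℝ (Fin 10) |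
          p.1 ∈ chartG.target ∧ p.2 ∈ chartG.target ∧
          g * chartG.symm p.1 * h * chartG.symm p.2 ∈ chartG.source}))).cay (fun p hp => hp.1.1)
      have s2 := (SmM.Smat (contDiffOn_snd (𝕜 := ℝ) (n := ∞)
        (s := {p : EuclideanSpace ℝ (Fin 10) × EuclideanSpace ℝ (Fin 10) |
          p.1 ∈ chartG.target ∧ p.2 ∈ chartG.target ∧
          g * chartG.symm p.1 * h * chartG.symm p.2 ∈ chartG.source}))).cay (fun p hp => hp.2.1.1)
      exact (((SmM.const (valM g)).mul s1).mul (SmM.const (valM h))).mul s2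
    have hsm2 := (hsm.cay (fun p hp => by
      rw [← key p hp]
      exact hp.2.2)).coord
    refine hsm2.congr fun p hp => ?_
    show coord (cay (valM (g * chartG.symm p.1 * h * chartG.symm p.2))) = _
    rw [key p hp]
  · intro g h
    have key : ∀ x ∈ {x : EuclideanSpace ℝ (Fin 10) |
        x ∈ chartG.target ∧ g * (chartG.symm x)⁻¹ * h ∈ chartG.source},
        valM (g * (chartG.symm x)⁻¹ * h) =
          valM g * (J5 * (cay (Smat x)).transpose * J5) * valM h := by
      rintro x ⟨h1, _⟩
      rw [valM_mul, valM_mul, valM_inv]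
      have e1 : valM (chartG.symm x) = cay (Smat x) := tgt_good h1
      rw [e1]
    have hsm : SmM (fun x : EuclideanSpace ℝ (Fin 10) =>
        valM g * (J5 * (cay (Smat x)).transpose * J5) * valM h)
        {x | x ∈ chartG.target ∧ g * (chartG.symm x)⁻¹ * h ∈ chartG.source} := by
      have s1 := (SmM.Smat (contDiffOn_id (𝕜 := ℝ) (n := ∞)
        (s := {x : EuclideanSpace ℝ (Fin 10) |
          x ∈ chartG.target ∧ g * (chartG.symm x)⁻¹ * h ∈ chartG.source}))).cay (fun x hx => hx.1.1)
      exact ((SmM.const (valM g)).mul (((SmM.const J5).mul s1.tr).mul (SmM.const J5))).mul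
        (SmM.const (valM h))
    have hsm2 := (hsm.cay (fun x hx => by
      rw [← key x hx]
      exact hx.2)).coord
    refine hsm2.congr fun x hx => ?_
    show coord (cay (valM (g * (chartG.symm x)⁻¹ * h))) = _
    rw [key x hx]
end HB
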