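import Pool.Agent.Helper24.HB.Tab
set_option autoImplicit false
namespace HB
theorem dot_self_all : (List.range 120).all (fun F => decide (dA F F = 4) && decide (dB F F = 0)) = true := by decide +kernel
def dot_row_p (F : ℕ) : Bool := (List.range 120).all (fun G => F == G || adjb F G ||
   (decide (dA F G = 2) && decide (dB F G = 0)) || (decide (dA F G = 2) && decide (dB F G = -2)) ||
   (decide (dA F G = 0) && decide (dB F G = 0)) || (decide (dA F G = 0) && decide (dB F G = -2)) ||
   (decide (dA F G = -2) && decide (dB F G = 2)) || (decide (dA F G = -2) && decide (dB F G = 0)) ||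
   (decide (dA F G = -4) && decide (dB F G = 0)))
theorem dot_row_0 : (List.range 20).all (fun F => dot_row_p (0 + F)) = true := by decide +kernel
theorem dot_row_1 : (List.range 20).all (fun F => dot_row_p (20 + F)) = true := by decide +kernel
theorem dot_row_2 : (List.range 20).all (fun F => dot_row_p (40 + F)) = true := by decide +kernel
theorem dot_row_3 : (List.range 20).all (fun F => dot_row_p (60 + F)) = true := by decide +kernel
theorem dot_row_4 : (List.range 20).all (fun F => dot_row_p (80 + F)) = true := by decide +kernel
theorem dot_row_5 : (List.range 20).all (fun F => dot_row_p (100 + F)) = true := by decide +kernel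
theorem dot_row (F : ℕ) (hF : F < 120) : dot_row_p F = true := by
  rcases lt_or_ge F 20 with h | h
  · have := List.all_eq_true.1 dot_row_0 (F - 0) (List.mem_range.2 (by omega))
    rwa [show 0 + (F - 0) = F by omega] at this
  rcases lt_or_ge F 40 with h | h
  · have := List.all_eq_true.1 dot_row_1 (F - 20) (List.mem_range.2 (by omega))
    rwa [show 20 + (F - 20) = F by omega] at this
  rcases lt_or_ge F 60 with h | h
  · have := List.all_eq_true.1 dot_row_2 (F - 40) (List.mem_range.2 (by omega))
    rwa [show 40 + (F - 40) = F by omega] at this
  rcases lt_or_ge F 80 with h | h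
  · have := List.all_eq_true.1 dot_row_3 (F - 60) (List.mem_range.2 (by omega))
    rwa [show 60 + (F - 60) = F by omega] at this
  rcases lt_or_ge F 100 with h | h
  · have := List.all_eq_true.1 dot_row_4 (F - 80) (List.mem_range.2 (by omega))
    rwa [show 80 + (F - 80) = F by omega] at this
  have := List.all_eq_true.1 dot_row_5 (F - 100) (List.mem_range.2 (by omega))
  rwa [show 100 + (F - 100) = F by omega] at this
theorem dot_all : (List.range 120).all (fun F => (List.range 120).all (fun G => F == G || adjb F G ||
   (decide (dA F G = 2) && decide (dB F G = 0)) || (decide (dA F G = 2) && decide (dB F G = -2)) ||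
   (decide (dA F G = 0) && decide (dB F G = 0)) || (decide (dA F G = 0) && decide (dB F G = -2)) ||
   (decide (dA F G = -2) && decide (dB F G = 2)) || (decide (dA F G = -2) && decide (dB F G = 0)) ||
   (decide (dA F G = -4) && decide (dB F G = 0)))) = true := by
  rw [List.all_eq_true]
  intro F hF
  exact dot_row F (List.mem_range.1 hF)
end HB
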