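import Pool.Agent.Helper24.HB.Tab
set_option autoImplicit false
namespace HB
def c_nb_p (F : ℕ) : Bool := (List.range 120).all (fun G => adjb F G == (nbl F).any (fun H => Nat.beq H G))
theorem c_nb_0 : (List.range 20).all (fun F => c_nb_p (0 + F)) = true := by decide +kernel
theorem c_nb_1 : (List.range 20).all (fun F => c_nb_p (20 + F)) = true := by decide +kernel
theorem c_nb_2 : (List.range 20).all (fun F => c_nb_p (40 + F)) = true := by decide +kernel
theorem c_nb_3 : (List.range 20).all (fun F => c_nb_p (60 + F)) = true := by decide +kernel
theorem c_nb_4 : (List.range 20).all (fun F => c_nb_p (80 + F)) = true := by decide +kernel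
theorem c_nb_5 : (List.range 20).all (fun F => c_nb_p (100 + F)) = true := by decide +kernel
theorem c_nb (F : ℕ) (hF : F < 120) : c_nb_p F = true := by
  rcases lt_or_ge F 20 with h | h
  · have := List.all_eq_true.1 c_nb_0 (F - 0) (List.mem_range.2 (by omega))
    rwa [show 0 + (F - 0) = F by omega] at this
  rcases lt_or_ge F 40 with h | h
  · have := List.all_eq_true.1 c_nb_1 (F - 20) (List.mem_range.2 (by omega))
    rwa [show 20 + (F - 20) = F by omega] at this
  rcases lt_or_ge F 60 with h | h
  · have := List.all_eq_true.1 c_nb_2 (F - 40) (List.mem_range.2 (by omega))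
    rwa [show 40 + (F - 40) = F by omega] at this
  rcases lt_or_ge F 80 with h | h
  · have := List.all_eq_true.1 c_nb_3 (F - 60) (List.mem_range.2 (by omega))
    rwa [show 60 + (F - 60) = F by omega] at this
  rcases lt_or_ge F 100 with h | h
  · have := List.all_eq_true.1 c_nb_4 (F - 80) (List.mem_range.2 (by omega))
    rwa [show 80 + (F - 80) = F by omega] at this
  have := List.all_eq_true.1 c_nb_5 (F - 100) (List.mem_range.2 (by omega))
  rwa [show 100 + (F - 100) = F by omega] at this
end HB
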