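import Pool.Agent.Helper24.HB.Tab
set_option autoImplicit false
namespace HB
theorem c_bd : (List.range 120).all (fun F => (List.range 25).all (fun x => Nat.blt (actb F x) 25 && Nat.beq (actb F (actb F x)) x)) = true := by decide +kernel
theorem c_trbd : (List.range 25).all (fun x => (List.range 25).all (fun y => (List.range 5).all fun k => Nat.blt (trb x y k) 5 && Nat.beq (trb y x (trb x y k)) k && (!(Nat.beq x y) || Nat.beq (trb x y k) k))) = true := by decide +kernel
def c_comm_p (F : ℕ) : Bool := (nbl F).all (fun G => (List.range 25).all (fun x =>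
  (Nat.beq (actb F x) x && Nat.beq (actb G x) x) || (Nat.beq (actb F (actb G x)) (actb G (actb F x)) &&
   (List.range 5).all fun k => Nat.beq (trb (actb F x) (actb G (actb F x)) (trb x (actb F x) k)) (trb (actb G x) (actb F (actb G x)) (trb x (actb G x) k)))))
theorem c_comm_0 : (List.range 40).all (fun F => c_comm_p (0 + F)) = true := by decide +kernel
theorem c_comm_1 : (List.range 40).all (fun F => c_comm_p (40 + F)) = true := by decide +kernel
theorem c_comm_2 : (List.range 40).all (fun F => c_comm_p (80 + F)) = true := by decide +kernel
theorem c_comm (F : ℕ) (hF : F < 120) : c_comm_p F = true := by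
  rcases lt_or_ge F 40 with h | h
  · have := List.all_eq_true.1 c_comm_0 (F - 0) (List.mem_range.2 (by omega))
    rwa [show 0 + (F - 0) = F by omega] at this
  rcases lt_or_ge F 80 with h | h
  · have := List.all_eq_true.1 c_comm_1 (F - 40) (List.mem_range.2 (by omega))
    rwa [show 40 + (F - 40) = F by omega] at this
  have := List.all_eq_true.1 c_comm_2 (F - 80) (List.mem_range.2 (by omega))
  rwa [show 80 + (F - 80) = F by omega] at this
def c_u_p (F : ℕ) : Bool := (nbl F).all (fun G => (List.range 25).all (fun x =>
  (Nat.beq (actb F x) x && Nat.beq (actb G x) x) || Nat.beq (ub x (actb F x) (actb G x)) (actb G (actb F x))))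
theorem c_u_0 : (List.range 40).all (fun F => c_u_p (0 + F)) = true := by decide +kernel
theorem c_u_1 : (List.range 40).all (fun F => c_u_p (40 + F)) = true := by decide +kernel
theorem c_u_2 : (List.range 40).all (fun F => c_u_p (80 + F)) = true := by decide +kernel
theorem c_u (F : ℕ) (hF : F < 120) : c_u_p F = true := by
  rcases lt_or_ge F 40 with h | h
  · have := List.all_eq_true.1 c_u_0 (F - 0) (List.mem_range.2 (by omega))
    rwa [show 0 + (F - 0) = F by omega] at this
  rcases lt_or_ge F 80 with h | h
  · have := List.all_eq_true.1 c_u_1 (F - 40) (List.mem_range.2 (by omega))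
    rwa [show 40 + (F - 40) = F by omega] at this
  have := List.all_eq_true.1 c_u_2 (F - 80) (List.mem_range.2 (by omega))
  rwa [show 80 + (F - 80) = F by omega] at this
theorem c_q : (List.range 25).all (fun x => (List.range 25).all (fun y => (List.range 25).all (fun z =>
  Nat.beq (ub x y z) 31 || okq x y z (ub x y z)))) = true := by decide +kernel
theorem c_q0 : (List.range 25).all (fun x => okq x x x x) = true := by decide +kernel
theorem c_sg : (List.range 25).all (fun x => (List.range 5).all (fun k => (List.range 5).all fun l =>
  ((sgb x k l).testBit 0 == Nat.ble (zre x l) (zre x k)) && ((sgb x k l).testBit 1 == Nat.ble (zre x k) (zre x l)) &&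
  ((sgb x k l).testBit 2 == (!(Nat.beq (zre x k) (zre x l)) || Nat.blt (zim x l) (zim x k))) &&
  ((sgb x k l).testBit 3 == (!(Nat.beq (zre x k) (zre x l)) || Nat.blt (zim x k) (zim x l))))) = true := by decide +kernel
end HB
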