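import Pool.Agent.Helper24.HB.Tab
set_option autoImplicit false
namespace HB
def c_tri_p (F : ℕ) : Bool := (nbl F).all (fun G => (nbl F).all (fun H => !((nbl G).any (fun K => Nat.beq K H)) || (List.range 25).all (fun x =>
  Nat.beq (actb F x) x || Nat.beq (actb G x) x || Nat.beq (actb H x) x || Nat.beq (actb F x) (actb G x) || Nat.beq (actb F x) (actb H x) || Nat.beq (actb G x) (actb H x))))
theorem c_tri_0 : (List.range 15).all (fun F => c_tri_p (0 + F)) = true := by decide +kernel
theorem c_tri_1 : (List.range 15).all (fun F => c_tri_p (15 + F)) = true := by decide +kernel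
theorem c_tri_2 : (List.range 15).all (fun F => c_tri_p (30 + F)) = true := by decide +kernel
theorem c_tri_3 : (List.range 15).all (fun F => c_tri_p (45 + F)) = true := by decide +kernel
theorem c_tri_4 : (List.range 15).all (fun F => c_tri_p (60 + F)) = true := by decide +kernel
theorem c_tri_5 : (List.range 15).all (fun F => c_tri_p (75 + F)) = true := by decide +kernel
theorem c_tri_6 : (List.range 15).all (fun F => c_tri_p (90 + F)) = true := by decide +kernel
theorem c_tri_7 : (List.range 15).all (fun F => c_tri_p (105 + F)) = true := by decide +kernel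
theorem c_tri (F : ℕ) (hF : F < 120) : c_tri_p F = true := by
  rcases lt_or_ge F 15 with h | h
  · have := List.all_eq_true.1 c_tri_0 (F - 0) (List.mem_range.2 (by omega))
    rwa [show 0 + (F - 0) = F by omega] at this
  rcases lt_or_ge F 30 with h | h
  · have := List.all_eq_true.1 c_tri_1 (F - 15) (List.mem_range.2 (by omega))
    rwa [show 15 + (F - 15) = F by omega] at this
  rcases lt_or_ge F 45 with h | h
  · have := List.all_eq_true.1 c_tri_2 (F - 30) (List.mem_range.2 (by omega))
    rwa [show 30 + (F - 30) = F by omega] at this
  rcases lt_or_ge F 60 with h | h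
  · have := List.all_eq_true.1 c_tri_3 (F - 45) (List.mem_range.2 (by omega))
    rwa [show 45 + (F - 45) = F by omega] at this
  rcases lt_or_ge F 75 with h | h
  · have := List.all_eq_true.1 c_tri_4 (F - 60) (List.mem_range.2 (by omega))
    rwa [show 60 + (F - 60) = F by omega] at this
  rcases lt_or_ge F 90 with h | h
  · have := List.all_eq_true.1 c_tri_5 (F - 75) (List.mem_range.2 (by omega))
    rwa [show 75 + (F - 75) = F by omega] at this
  rcases lt_or_ge F 105 with h | h
  · have := List.all_eq_true.1 c_tri_6 (F - 90) (List.mem_range.2 (by omega))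
    rwa [show 90 + (F - 90) = F by omega] at this
  have := List.all_eq_true.1 c_tri_7 (F - 105) (List.mem_range.2 (by omega))
  rwa [show 105 + (F - 105) = F by omega] at this
end HB
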