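import Pool.Agent.Helper24.HB.Base
set_option autoImplicit false
noncomputable section
namespace HB
/-- list of complex numbers contained in one of four lexicographic half planes -/
def LexGood (D : List ℂ) : Prop :=
  ((∀ d ∈ D, 0 ≤ d.re) ∨ (∀ d ∈ D, d.re ≤ 0)) ∧
  ((∀ d ∈ D, d.re = 0 → 0 < d.im) ∨ (∀ d ∈ D, d.re = 0 → d.im < 0))

/-- combinatorial data: a `W`-set `S`, transports of 5 roots and root positions `Z` -/
structure Comb {ι : Type} (C : Cell ι) (S : Type) where
  W : WSet C S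
  tr : S → S → Fin 5 → Fin 5
  Z : S → Fin 5 → ℂ
  tr_self : ∀ s k, tr s s k = k
  tr_inv : ∀ i s k, tr (W.act i s) s (tr s (W.act i s) k) = k
  tr_sq : ∀ i j, C.adj i j → ∀ s k, tr (W.act i s) (W.act j (W.act i s)) (tr s (W.act i s) k) =
    tr (W.act j s) (W.act i (W.act j s)) (tr s (W.act j s) k)
  tri : ∀ i j l, C.adj i j → C.adj j l → C.adj i l → ∀ s, W.act i s = s ∨ W.act j s = s ∨ W.act l s = s ∨
    W.act i s = W.act j s ∨ W.act i s = W.act l s ∨ W.act j s = W.act l s
  nbr : ∀ i, ∃ j, C.adj i j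
  pos : ∀ i j, C.adj i j → ∀ s k l, k ≠ l → LexGood
    [Z s k - Z s l,
     Z (W.act i s) (tr s (W.act i s) k) - Z (W.act i s) (tr s (W.act i s) l),
     Z (W.act j s) (tr s (W.act j s) k) - Z (W.act j s) (tr s (W.act j s) l),
     Z (W.act j (W.act i s)) (tr (W.act i s) (W.act j (W.act i s)) (tr s (W.act i s) k)) -
       Z (W.act j (W.act i s)) (tr (W.act i s) (W.act j (W.act i s)) (tr s (W.act i s) l))]

/-- action on roots -/
def Comb.ract {ι : Type} {C : Cell ι} {S : Type} (D : Comb C S) (i : ι) (r : S × Fin 5) : S × Fin 5 :=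
  (D.W.act i r.1, D.tr r.1 (D.W.act i r.1) r.2)
def Comb.rtau {ι : Type} {C : Cell ι} {S : Type} (D : Comb C S) (w : List ι) (r : S × Fin 5) : S × Fin 5 :=
  w.foldr D.ract r
/-- weight of the wall `i` at `p`: `1/2` on the wall, `0` away from it -/
def Cell.wt {ι : Type} (C : Cell ι) (p : Fin 5 → ℝ) (i : ι) : ℝ := (1/2) * max 0 (1 + 2 * B p (C.e i))
/-- averaging over the walls in a list -/
def Comb.avg {ι : Type} {C : Cell ι} {S : Type} (D : Comb C S) (p : Fin 5 → ℝ) (L : List ι) (r : S × Fin 5) : ℂ :=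
  (L.foldr (fun i (Z : S × Fin 5 → ℂ) => fun r => ((1 - C.wt p i : ℝ) : ℂ) * Z r + ((C.wt p i : ℝ) : ℂ) * Z (D.ract i r))
    (fun r => D.Z r.1 r.2)) r
/-- the lattice: even words stabilizing the state `s0` -/
def Gam {ι : Type} (C : Cell ι) {S : Type} (W : WSet C S) (s0 : S) : Subgroup G5 where
  carrier := {g | ∃ w : List ι, Even w.length ∧ W.tau w s0 = s0 ∧ ∀ x, gact g x = C.rho w x}
  mul_mem' := by
    rintro g h ⟨v, hv1, hv2, hv3⟩ ⟨w, hw1, hw2, hw3⟩
    refine ⟨v ++ w, by rw [List.length_append]; exact hv1.add hw1, by rw [tau_append, hw2, hv2], ?_⟩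
    intro x
    rw [gact_mul, rho_append, hw3, hv3]
  one_mem' := ⟨[], by simp, rfl, fun x => by simp⟩
  inv_mem' := by
    rintro g ⟨w, hw1, hw2, hw3⟩
    refine ⟨w.reverse, by simpa using hw1, ?_, ?_⟩
    · have := tau_reverse W w s0
      rwa [hw2] at this
    · intro x
      have : x = C.rho w (C.rho w.reverse x) := (rho_reverse' C w x).symm
      rw [← hw3] at this
      conv_lhs => rw [this]
      rw [gact_inv_cancel]
/-- `Y` has continuous logarithms of nowhere zero complex functions -/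
def LP (Y : Type) [TopologicalSpace Y] : Prop :=
  ∀ f : Y → ℂ, Continuous f → (∀ y, f y ≠ 0) → ∃ g : Y → ℂ, Continuous g ∧ ∀ y, f y = Complex.exp (g y)
/-- unit quaternions -/
abbrev S3 : Type := Metric.sphere (0 : Quaternion ℝ) 1
end HB
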