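import Pool.Agent.Helper24.HB.Tab
set_option autoImplicit false
namespace HB
def parN : ℕ := 0x99369cb972e6cb972e5cc973a5cda73e74d973694d97a36356afdab57ed5f9e7fa1ab56bb1ab590d5a9e90d5f3e7cd1a3e68d35be68d1f3468f9a3e7dadf3e68d1f2066cd9c167060b382820b367599b382ce0b36706b3364ca03264c993264c993264c9932650193264c993264c58b062c58b17ac58bd62c58b162c58b07ac583d62c57ae2ebd7ba5ebd7af5ebdd2e5ebd7ae2ee97ae5eb97c07cf9f403af9f3e8101f3e3af9f3e7d59f407d59f407f2a54a952a54a94fe54e94fe54a952a5418329fc19d0cd43870de43790e1bc8669e438669e4378f219a790e15084ee132850a13b850a832854ddbb650a15364ee145dcd62b58b162c56b162c58b15aee8ad5e456ad62c58911a448912244a712244887e23436d1dd3687cf9b68d96b86cd9b2d6cd9b2d6cd96b870b56ad70d96ad5ae1bb772dd6b76eddbad6eddbb76ee5bb772ddbb96eddb9bed264497b224bd932641b93564767b264bd9326abd75438ba7519d3a74e9d3aa119d3a331f8ba74e8cc674c184560dd8372cc1b9660c18308add8376ec1bb760c189b6cc58b162c58b188c58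b136d98eb6cd98b688c75c386b9cb972b9cb972b9739870d7395cb8bb95c5d72e70e17b870e17b85ee17b87109c2f5ee1c385ee17c27091224489120c6a912246a91224489062448352244835a23168d189468d1b4468d189468d18b128c5a3128c59356ac72b56ad5ab56395ab26ad58e56ad5ab56ac72b58b160e58b162c581472c58b162c1cb162c58b028e58113a74e9d3a77a9d3a7209c227149d3a77a9d38a209d42850a142892a1428512542850a09a850a1428504d4254a952a54a952a54a152a54a952a54a952a54a942a54c993424c993264d093264c9932632993264c98ca64cb5b0842850a142850a15a85b211085b0710843886c851080e891070e891220e88388441d1080289101442112a54a952a541152a541152a54a952a08a952a54a822a520c0a9520d4a970a54a9060db01520c40170200836c74ef7ce7799d3b573e73a779d53bdced6aa74ed6aa7781e3dd7a9eea7ba9eebd4f75aa7bae8ebd4f1eeb574162c58b162c5b4962da4b162c58b16cc58b162c58b162a569952b94a95a654a95cbacacca65755399335cc2b9791bd06cd9b366cd9b3794df2d194d9b366cd9bca6f91c3870e1c3870e1c39c8e723870e1c39a0e1cd1c8e19a067199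c664c99c664cd0da64ce33267199338f699e3d0d1a3468d1a346b89ac86b89ac868d1a346b8ee35b1020408106cd88106cddb1020408362041b106c41bb59fda7cfeb3e7cfeb3e7cfed3e7cf9fda7f69fda7f697d38cb97d5a4bcc2fa4bea985cb97d3934d42fa6a17306351830632983060c183060c6aca634ea31a4c18303470e1c3870e1c3868e1c3868e1c3870e818070d8180993264c993924c9932724993264c334264c9932619a14285241e2850a142878a1428524142878a142878a14224489180648912246011226489122448b222448b222489122570912244ae1224489122448912b84895c24482041412f04081025e08102040828204142820a14102030624183060c183060c183060c183060c483060c1830430102043010c040ae0c1830102040815c180ae5c18045812a045810204a81022c581026408b0204599020468d1a3468d1a3468d1a3468d1a3468d1a3490d1a349111c387401c3870e230070e223870e1c399111c459111a3468d1a3710d1a3468d1a3468d1b886ca28346ca284c70e1c3870e1c3898e1c3898e1c3870e1c4c7131c4c3100c424100cf481b9018806201831090f481b901880a1428562142850ac42850a142850a142850a14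2850a1224489122c4891224489122c48912245891224589123c28f1e3c28f1e3c78f1e1428f1e3c28f1e3c78f1e3d702041c387041c387050c3825c083820564382b20a1881004408116441711644082e200c210200971108b8808102040e10204081c20408102040810387081c384080db08060c198060c1b1060dc2d1061b08100c43170b450a1428a0a14d451414d450a142850a14fc50a14fc53426d0489262448968244892624989684c4b4124c4b4183060cc4309121988912183060c18486622433112242c591162c58b162c58b162c58b162c88b164458b1644183200c183060c1837a0c183060c18306401837a0c184081025a0840204b410204081081008102040840204023c08102b808102040811e5c081023c7ae023c097026810204097020408102046811a04081025c0811a0409688101c387101c38710b43885a203880e2038710216800000280000000000140000000005000000000002801c0001400000000000a000038000260000000000130000000000000700000070000000000038000000000e0002242000220000000000112200840220284001428800000000000000000000000000000000000000000000056000000000000000000000ac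01400000000000a0000000000000000000000000000000000000000000000000000000000000000000000000000000000000000000000000000000000000000000000000000000000000000000000000000000000000000000000000000000000000380000010000000000008380000038000000000e00000420000000000000000000009c00052840294e00020c58b162c4d5e62c481e6ec58b1626b8b135c5bb1357785de1c3870e1c2ef0e1c3870e1c2ef0e177870e176fb0607c7b03fc18301edf81f60c0f9f9ec18301e7dbefdfbf02fc7bf7efc0957efc7bf7e05fbf7efdf817efb0bd7af5ebd7985ebd7985e6179adebd7a2debcd585e366eeddbb758ddba6eeb13774dddbb76eddba6eeddba68d5cb972e5cb972e5cb86ae1ab86ae5cb972e1ab972ddbb6bed99b76edafb76ed99b76ccdbb6caddb32cadb162b6d5ab4c2d5ab5698da63696b062b56da5ab58dab2b4bd9b2b56d92f656d95a5ec97b2b4bd92e5ec97b362c58b162c372d62c16b162c58b161bd8b05ac582d62bc47056bb6af5db15af5db4488e2bc46ce1b36af122244890a24489122448512244890a2448912244851224468d1a3468d1a3468d1a3468d1a3268d1a3468d1934691224481522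448902a4489122448912240a9120548911a3468d1a3468d1a3468d1a3468d1a3468d1a3468d1a7429d08442410a108848214e8541042853a142a08214495122449512244891224a951224495122448912544391a3468d1a3468efa3468c723468d1a347851df4785224489122448912244891224489122448907244890724489120a483062415706244891224189010c480ae0c468c5a3468d1a3168d1a3468c5a3462d18b168d18b1691224481122448902244891224489122448912244891189468d189468d1a3468c48946251a3128d189128d1a142890a142850a142850a14285121428912144890a1421c3a142843a142843a1421d087421d102428810742a13a74e9d3a74e9d3a74e9d427509d3a74e9d3a84e9d2a54a142a54a952850a952a54a942a54a152a50a152a1429d08442850a108850a14285521429d3a14ea90a1428542142850a142850a142850a8428542842a142142892a24488122448912244092a244892a204891024a89126448912644891224489326448912602891014499100000000000000000000000000000000000000000000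
def depN : ℕ := 0x29425294a5294a5294a5094a5294a52886421084210812088420c842108121084210842104421084210842088421081210842108420484208842108421044210842108411084210442108221082210842108409083210842108409083210840908421084210842108409084210842108119084204841908420484204842108421084210842108421084210842102421084210841048420484210812088121084210842102420c84210832108411084210842108421082210842108421024210840908420c841848109063090842108421084210842108421084210842108421084210842108420c84190812102421084210812042421084210242044421084210840908409044210242108421084090812108421084190832108121084210842108409082210842104421084210842108421084210842108421084210842108421084210842108420842108410884208842108221104211022088411084110841108410882208823108621084210c4218843108421086210843108421046210842188421082310c4210842088420886218842088430884210842088421044210822108421044210842108421044210842108421082210842108421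084210842088421082210423108421084208862188231886318843088430884208863104430884110c421084210c4210c4210842188421086210c6210c421084218c4310c6310c6311082290a4210a5210a12088021080090a4214a42906429485010a528c84280a421084214a421484210842908121024214012148400484290a2014a018883294a41108521024294851148421024290a4210842148421485214842148429484010a4290842908029085210a4214a42948421084210a4290a429084210a521484210852908519484210a42148520ca429085210852108521085290a4290a4294842948021485010242948209044294a4210a42108521485294a5214a520c6318c6318c6318c6318c6318c6318c6318c6300c631806318c6118c6318c2318c0118c631846318c03184631846318c630846318c231846318c6218c6218c6318c6318c6318c6318c6318c6318c6318c6318c6318c6318c6318c6318c6318c6318c6318c6318c6318c6318c6318c6318c6118c4118c6318c6308c6208c6308c6318c2318c631846318c6118c6318c6318c6318c6318c6318c6318c6318c6018c631806318c6318c4318c4318c6318c4318c6318c631886418c6418c6318c631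8c6318c6318c6318c6318c6318c431806110c6318c631006110c6318c6318c6318c6318c6318c6318c631846318c6318c6308c6118c631846318c6318c6318c6318c6318c6318c6318c4318c6318c631886310c6318c6318c4318c63188611886308c6218c611882318c6318c6318c6318c6318c6218c4318c0318c6318c6418c4118c0318c641046318c63180631806318c6319463194601806318c6300c6118c6300c6008c6018c6318c6318c6318c6318c6318c6318c6318c631846318c6118c6308c6308c6318c6318c6318c6318c6318c6318c6318c631846318c6318c6118c6318c6318c631846318c631846318c6118c611846318c0318c631846118c6300c6118c0318c6318c631806300c6318c6318c010842108421084210842108421084210842108421084210842108421084210842108421084210842108421084210842208422084210844208c2208421188210842108421084210842108421084211042108421084210882108421084210842108421084210842108421084210842108421084210842108421084210842108421084210842108421084210842108421084210842108421084210842108421084210842108421084210842108421004210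84210842108821100221042018c63190831808218c6320c641886420c831886319063188631904320c43210632006318c6028c831906018c60214631906218c6420c6218c8318c632106418c6318c8318c8320c8318c83190830006318c831806400c0310c63180621800318c6318c62180601806318c6010c631906018c6418c6018c031886300864210631886318c8320c822108321083190031908300c8320060190030006018c6318c6400c6018c6318c831806300c642006418c8018c84210642108421082108021084210042108021084210042108421084210842108420084210840108421044210822108421084208841108421084210842108421084210842108431084110042088021884010c421880210842108421084210842108421084210042108421084210802108421084210842108421084210842108421086210862108421000210802108420082010440108021084200842108021004000840008421044210822108421084210842108401084010842108001004200840008421084210842108421084210842108421000210802108021004010041108201084210842108421084210842108421084210002108400084210802100420004210840108420084210842108421084210842108421084210842108421084210842108021084210042108420084010842108421084210842108420084010840000000000000000000000000000000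
def rtN : ℕ := 0xffffffffffffff688169b1c6bffffffffffffffffffe03fffffffffffffffffa01cd8934dbfffffffffffffff80fffffffffffffffffffff0f4c59742d3fffffffffffe03ffffffff9529fffffff202fffffffffffffffffffff80fffffff0903fffffffffffe782fffffffffffffffffe03ffffffffff0467ffffffc4aefffffffffffffffffff80fffff8793ffffffe4067fffffffffffffffffffffffe03fff2cd7fffffffffffef467ffffffffffffffffffff80fffffff982fffffffe997fffffff69fff9509ffffffe03ffffffffffffffffffe6c2fffe83fff2903f872dfff80fffffffffffffffffff9e0bfd6fffffffff92d7ffffe03ffffffffffffffffffe4061ba1fffff05ffffffffff80ffffffffffffff126bfff1c1fffffe67fff99ffffffe03fffffffffffffc497fe68dffffffffffe2fffffffff80ffffffffffffffaab7f890f23ffffffffffffffffffe03ffffffff9729fffff354c2fffe43fffffffffffffff80ffffffffe649fffed85fffffc67ffffffffffffffffe03ffffffff8769fff97fe784fffffffffffffffffffff80fffc0d6fffffff43fc2aefef69fffffffffffffffffe03fff042fffffed3ffffffc617fffffffffffffffffff80fffcb0bfffffffffffffffe6ffff13fff97fffc0fffe03ffffffffffffffffffffc29efe684ff2867fd605fff80fffffffffffffffffffff0a43f97abfc987fe2cb7ffe03ffffffffffffffffffffc67ffeb7fff69fff8bfffff80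
def parb (F x : ℕ) : ℕ := (parN >>> (7 * (25 * F + x))) % 128
def depb (F x : ℕ) : ℕ := (depN >>> (5 * (25 * F + x))) % 32
def rtb (x y : ℕ) : ℕ := (rtN >>> (7 * (25 * x + y))) % 128
theorem c_par : (List.range 120).all (fun F => (List.range 25).all (fun x =>
  (Nat.beq (depb F x) 0 && Nat.beq (rtb x (actb F x)) F) ||
  ((nbl F).any (fun G => Nat.beq G (parb F x)) && Nat.blt (parb F x) 120 && Nat.beq (actb (parb F x) x) (actb F x) && Nat.blt (depb (parb F x) x) (depb F x)))) = true := by decide +kernel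
/-- constancy on classes -/
theorem k_const (k : ℕ → ℕ → ℤ) (h : ∀ F < 120, ∀ G ∈ nbl F, ∀ x < 25, k F x - k G (actb G (actb F x)) + k F (actb G (actb F x)) - k G x = 0)
    (hinv : ∀ F < 120, ∀ x < 25, actb F (actb F x) = x) :
    ∀ n F x, F < 120 → x < 25 → depb F x = n → k F x = k (rtb x (actb F x)) x := by
  intro n
  induction n using Nat.strong_induction_on with
  | _ n ih =>
  intro F x hF hx hd
  have hc := c_par
  rw [List.all_eq_true] at hc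
  have hc1 := hc F (List.mem_range.2 hF)
  rw [List.all_eq_true] at hc1
  have hc2 := hc1 x (List.mem_range.2 hx)
  rw [Bool.or_eq_true] at hc2
  rcases hc2 with hc2 | hc2
  · rw [Bool.and_eq_true] at hc2
    have := Nat.eq_of_beq_eq_true hc2.2
    rw [this]
  · rw [Bool.and_eq_true, Bool.and_eq_true, Bool.and_eq_true] at hc2
    obtain ⟨⟨⟨h1, h2⟩, h3⟩, h4⟩ := hc2
    rw [List.any_eq_true] at h1
    obtain ⟨G, hG, hG'⟩ := h1
    have e1 := Nat.eq_of_beq_eq_true hG'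
    subst e1
    have h2' : parb F x < 120 := by simpa [Nat.blt] using h2
    have h3' := Nat.eq_of_beq_eq_true h3
    have h4' : depb (parb F x) x < depb F x := by simpa [Nat.blt] using h4
    have r := h F hF (parb F x) hG x hx
    have e2 : actb (parb F x) (actb F x) = x := by
      rw [← h3']; exact hinv _ h2' x hx
    rw [e2] at r
    have := ih _ (by omega) (parb F x) x h2' hx rfl
    rw [h3'] at this
    omega

/-- the linear algebra of the square complex -/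
theorem k_solve (K : ℕ → ℕ → ℤ)
    (e0 : K 0 4 - K 4 4 + K 4 0 - K 0 0 = 0)
    (e1 : K 0 7 - K 7 7 + K 7 0 - K 0 0 = 0)
    (e2 : K 0 10 - K 10 10 + K 10 0 - K 0 0 = 0)
    (e3 : K 0 13 - K 13 13 + K 13 0 - K 0 0 = 0)
    (e4 : K 1 4 - K 4 4 + K 4 1 - K 1 1 = 0)
    (e5 : K 1 5 - K 5 5 + K 5 1 - K 1 1 = 0)
    (e6 : K 1 7 - K 7 7 + K 7 1 - K 1 1 = 0)
    (e7 : K 1 8 - K 8 8 + K 8 1 - K 1 1 = 0)
    (e8 : K 1 10 - K 10 10 + K 10 1 - K 1 1 = 0)
    (e9 : K 1 11 - K 11 11 + K 11 1 - K 1 1 = 0)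
    (e10 : K 1 13 - K 13 13 + K 13 1 - K 1 1 = 0)
    (e11 : K 1 14 - K 14 14 + K 14 1 - K 1 1 = 0)
    (e12 : K 2 5 - K 5 5 + K 5 2 - K 2 2 = 0)
    (e13 : K 2 6 - K 6 6 + K 6 2 - K 2 2 = 0)
    (e14 : K 2 8 - K 8 8 + K 8 2 - K 2 2 = 0)
    (e15 : K 2 9 - K 9 9 + K 9 2 - K 2 2 = 0)
    (e16 : K 2 11 - K 11 11 + K 11 2 - K 2 2 = 0)
    (e17 : K 2 12 - K 12 12 + K 12 2 - K 2 2 = 0)
    (e18 : K 2 14 - K 14 14 + K 14 2 - K 2 2 = 0)
    (e19 : K 2 15 - K 15 15 + K 15 2 - K 2 2 = 0)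
    (e20 : K 3 6 - K 6 6 + K 6 3 - K 3 3 = 0)
    (e21 : K 3 9 - K 9 9 + K 9 3 - K 3 3 = 0)
    (e22 : K 3 12 - K 12 12 + K 12 3 - K 3 3 = 0)
    (e23 : K 3 15 - K 15 15 + K 15 3 - K 3 3 = 0)
    (e24 : K 4 16 - K 16 16 + K 16 4 - K 4 4 = 0)
    (e25 : K 4 17 - K 17 17 + K 17 4 - K 4 4 = 0)
    (e26 : K 4 22 - K 22 22 + K 22 4 - K 4 4 = 0)
    (e27 : K 5 16 - K 16 16 + K 16 5 - K 5 5 = 0)
    (e28 : K 5 17 - K 17 17 + K 17 5 - K 5 5 = 0)
    (e29 : K 5 19 - K 19 19 + K 19 5 - K 5 5 = 0)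
    (e30 : K 5 20 - K 20 20 + K 20 5 - K 5 5 = 0)
    (e31 : K 5 22 - K 22 22 + K 22 5 - K 5 5 = 0)
    (e32 : K 6 19 - K 19 19 + K 19 6 - K 6 6 = 0)
    (e33 : K 6 20 - K 20 20 + K 20 6 - K 6 6 = 0)
    (e34 : K 6 22 - K 22 22 + K 22 6 - K 6 6 = 0)
    (e35 : K 7 18 - K 18 18 + K 18 7 - K 7 7 = 0)
    (e36 : K 7 22 - K 22 22 + K 22 7 - K 7 7 = 0)
    (e37 : K 7 23 - K 23 23 + K 23 7 - K 7 7 = 0)
    (e38 : K 8 18 - K 18 18 + K 18 8 - K 8 8 = 0)
    (e39 : K 8 21 - K 21 21 + K 21 8 - K 8 8 = 0)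
    (e40 : K 8 22 - K 22 22 + K 22 8 - K 8 8 = 0)
    (e41 : K 8 23 - K 23 23 + K 23 8 - K 8 8 = 0)
    (e42 : K 9 21 - K 21 21 + K 21 9 - K 9 9 = 0)
    (e43 : K 9 22 - K 22 22 + K 22 9 - K 9 9 = 0)
    (e44 : K 9 23 - K 23 23 + K 23 9 - K 9 9 = 0)
    (e45 : K 10 16 - K 16 16 + K 16 10 - K 10 10 = 0)
    (e46 : K 10 23 - K 23 23 + K 23 10 - K 10 10 = 0)
    (e47 : K 10 24 - K 24 24 + K 24 10 - K 10 10 = 0)
    (e48 : K 11 16 - K 16 16 + K 16 11 - K 11 11 = 0)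
    (e49 : K 11 19 - K 19 19 + K 19 11 - K 11 11 = 0)
    (e50 : K 11 23 - K 23 23 + K 23 11 - K 11 11 = 0)
    (e51 : K 11 24 - K 24 24 + K 24 11 - K 11 11 = 0)
    (e52 : K 12 19 - K 19 19 + K 19 12 - K 12 12 = 0)
    (e53 : K 12 23 - K 23 23 + K 23 12 - K 12 12 = 0)
    (e54 : K 12 24 - K 24 24 + K 24 12 - K 12 12 = 0)
    (e55 : K 13 17 - K 17 17 + K 17 13 - K 13 13 = 0)
    (e56 : K 13 18 - K 18 18 + K 18 13 - K 13 13 = 0)
    (e57 : K 13 24 - K 24 24 + K 24 13 - K 13 13 = 0)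
    (e58 : K 14 17 - K 17 17 + K 17 14 - K 14 14 = 0)
    (e59 : K 14 18 - K 18 18 + K 18 14 - K 14 14 = 0)
    (e60 : K 14 20 - K 20 20 + K 20 14 - K 14 14 = 0)
    (e61 : K 14 21 - K 21 21 + K 21 14 - K 14 14 = 0)
    (e62 : K 14 24 - K 24 24 + K 24 14 - K 14 14 = 0)
    (e63 : K 15 20 - K 20 20 + K 20 15 - K 15 15 = 0)
    (e64 : K 15 21 - K 21 21 + K 21 15 - K 15 15 = 0)
    (e65 : K 15 24 - K 24 24 + K 24 15 - K 15 15 = 0)
    (q0 : K 0 4 - K 16 4 + K 16 10 - K 0 10 = 0)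
    (q1 : K 0 7 - K 22 7 + K 22 4 - K 0 4 = 0)
    (q2 : K 0 10 - K 23 10 + K 23 7 - K 0 7 = 0)
    (q3 : K 0 10 - K 24 10 + K 24 13 - K 0 13 = 0)
    (q4 : K 0 13 - K 17 13 + K 17 4 - K 0 4 = 0)
    (q5 : K 0 13 - K 18 13 + K 18 7 - K 0 7 = 0)
    (q6 : K 1 4 - K 17 4 + K 17 14 - K 1 14 = 0)
    (q7 : K 1 4 - K 22 4 + K 22 8 - K 1 8 = 0)
    (q8 : K 1 5 - K 17 5 + K 17 13 - K 1 13 = 0)
    (q9 : K 1 5 - K 19 5 + K 19 11 - K 1 11 = 0)
    (q10 : K 1 5 - K 22 5 + K 22 7 - K 1 7 = 0)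
    (q11 : K 1 7 - K 23 7 + K 23 11 - K 1 11 = 0)
    (q12 : K 1 8 - K 21 8 + K 21 14 - K 1 14 = 0)
    (q13 : K 1 8 - K 23 8 + K 23 10 - K 1 10 = 0)
    (q14 : K 1 10 - K 16 10 + K 16 5 - K 1 5 = 0)
    (q15 : K 1 11 - K 16 11 + K 16 4 - K 1 4 = 0)
    (q16 : K 1 13 - K 18 13 + K 18 8 - K 1 8 = 0)
    (q17 : K 1 13 - K 24 13 + K 24 11 - K 1 11 = 0)
    (q18 : K 1 14 - K 18 14 + K 18 7 - K 1 7 = 0)
    (q19 : K 1 14 - K 20 14 + K 20 5 - K 1 5 = 0)
    (q20 : K 1 14 - K 24 14 + K 24 10 - K 1 10 = 0)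
    (q21 : K 2 5 - K 16 5 + K 16 11 - K 2 11 = 0)
    (q22 : K 2 5 - K 17 5 + K 17 14 - K 2 14 = 0)
    (q23 : K 2 5 - K 19 5 + K 19 12 - K 2 12 = 0)
    (q24 : K 2 5 - K 20 5 + K 20 15 - K 2 15 = 0)
    (q25 : K 2 5 - K 22 5 + K 22 9 - K 2 9 = 0)
    (q26 : K 2 6 - K 22 6 + K 22 8 - K 2 8 = 0)
    (q27 : K 2 9 - K 21 9 + K 21 14 - K 2 14 = 0)
    (q28 : K 2 11 - K 19 11 + K 19 6 - K 2 6 = 0)
    (q29 : K 2 11 - K 23 11 + K 23 9 - K 2 9 = 0)
    (q30 : K 2 12 - K 23 12 + K 23 8 - K 2 8 = 0)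
    (q31 : K 2 12 - K 24 12 + K 24 14 - K 2 14 = 0)
    (q32 : K 2 14 - K 18 14 + K 18 8 - K 2 8 = 0)
    (q33 : K 2 14 - K 20 14 + K 20 6 - K 2 6 = 0)
    (q34 : K 2 15 - K 21 15 + K 21 8 - K 2 8 = 0)
    (q35 : K 2 15 - K 24 15 + K 24 11 - K 2 11 = 0)
    (q36 : K 3 6 - K 20 6 + K 20 15 - K 3 15 = 0)
    (q37 : K 3 9 - K 22 9 + K 22 6 - K 3 6 = 0)
    (q38 : K 3 12 - K 19 12 + K 19 6 - K 3 6 = 0)
    (q39 : K 3 12 - K 23 12 + K 23 9 - K 3 9 = 0)
    (q40 : K 3 15 - K 21 15 + K 21 9 - K 3 9 = 0)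
    (q41 : K 3 15 - K 24 15 + K 24 12 - K 3 12 = 0)
    : ∃ a : ℕ → ℤ, 
      (K 0 4 = a 4 + K 4 4 - a 0 ∧ K 4 0 = a 0 + K 0 0 - a 4) ∧
      (K 0 7 = a 7 + K 7 7 - a 0 ∧ K 7 0 = a 0 + K 0 0 - a 7) ∧
      (K 0 10 = a 10 + K 10 10 - a 0 ∧ K 10 0 = a 0 + K 0 0 - a 10) ∧
      (K 0 13 = a 13 + K 13 13 - a 0 ∧ K 13 0 = a 0 + K 0 0 - a 13) ∧
      (K 1 4 = a 4 + K 4 4 - a 1 ∧ K 4 1 = a 1 + K 1 1 - a 4) ∧
      (K 1 5 = a 5 + K 5 5 - a 1 ∧ K 5 1 = a 1 + K 1 1 - a 5) ∧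
      (K 1 7 = a 7 + K 7 7 - a 1 ∧ K 7 1 = a 1 + K 1 1 - a 7) ∧
      (K 1 8 = a 8 + K 8 8 - a 1 ∧ K 8 1 = a 1 + K 1 1 - a 8) ∧
      (K 1 10 = a 10 + K 10 10 - a 1 ∧ K 10 1 = a 1 + K 1 1 - a 10) ∧
      (K 1 11 = a 11 + K 11 11 - a 1 ∧ K 11 1 = a 1 + K 1 1 - a 11) ∧
      (K 1 13 = a 13 + K 13 13 - a 1 ∧ K 13 1 = a 1 + K 1 1 - a 13) ∧
      (K 1 14 = a 14 + K 14 14 - a 1 ∧ K 14 1 = a 1 + K 1 1 - a 14) ∧
      (K 2 5 = a 5 + K 5 5 - a 2 ∧ K 5 2 = a 2 + K 2 2 - a 5) ∧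
      (K 2 6 = a 6 + K 6 6 - a 2 ∧ K 6 2 = a 2 + K 2 2 - a 6) ∧
      (K 2 8 = a 8 + K 8 8 - a 2 ∧ K 8 2 = a 2 + K 2 2 - a 8) ∧
      (K 2 9 = a 9 + K 9 9 - a 2 ∧ K 9 2 = a 2 + K 2 2 - a 9) ∧
      (K 2 11 = a 11 + K 11 11 - a 2 ∧ K 11 2 = a 2 + K 2 2 - a 11) ∧
      (K 2 12 = a 12 + K 12 12 - a 2 ∧ K 12 2 = a 2 + K 2 2 - a 12) ∧
      (K 2 14 = a 14 + K 14 14 - a 2 ∧ K 14 2 = a 2 + K 2 2 - a 14) ∧
      (K 2 15 = a 15 + K 15 15 - a 2 ∧ K 15 2 = a 2 + K 2 2 - a 15) ∧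
      (K 3 6 = a 6 + K 6 6 - a 3 ∧ K 6 3 = a 3 + K 3 3 - a 6) ∧
      (K 3 9 = a 9 + K 9 9 - a 3 ∧ K 9 3 = a 3 + K 3 3 - a 9) ∧
      (K 3 12 = a 12 + K 12 12 - a 3 ∧ K 12 3 = a 3 + K 3 3 - a 12) ∧
      (K 3 15 = a 15 + K 15 15 - a 3 ∧ K 15 3 = a 3 + K 3 3 - a 15) ∧
      (K 4 16 = a 16 + K 16 16 - a 4 ∧ K 16 4 = a 4 + K 4 4 - a 16) ∧
      (K 4 17 = a 17 + K 17 17 - a 4 ∧ K 17 4 = a 4 + K 4 4 - a 17) ∧
      (K 4 22 = a 22 + K 22 22 - a 4 ∧ K 22 4 = a 4 + K 4 4 - a 22) ∧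
      (K 5 16 = a 16 + K 16 16 - a 5 ∧ K 16 5 = a 5 + K 5 5 - a 16) ∧
      (K 5 17 = a 17 + K 17 17 - a 5 ∧ K 17 5 = a 5 + K 5 5 - a 17) ∧
      (K 5 19 = a 19 + K 19 19 - a 5 ∧ K 19 5 = a 5 + K 5 5 - a 19) ∧
      (K 5 20 = a 20 + K 20 20 - a 5 ∧ K 20 5 = a 5 + K 5 5 - a 20) ∧
      (K 5 22 = a 22 + K 22 22 - a 5 ∧ K 22 5 = a 5 + K 5 5 - a 22) ∧
      (K 6 19 = a 19 + K 19 19 - a 6 ∧ K 19 6 = a 6 + K 6 6 - a 19) ∧
      (K 6 20 = a 20 + K 20 20 - a 6 ∧ K 20 6 = a 6 + K 6 6 - a 20) ∧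
      (K 6 22 = a 22 + K 22 22 - a 6 ∧ K 22 6 = a 6 + K 6 6 - a 22) ∧
      (K 7 18 = a 18 + K 18 18 - a 7 ∧ K 18 7 = a 7 + K 7 7 - a 18) ∧
      (K 7 22 = a 22 + K 22 22 - a 7 ∧ K 22 7 = a 7 + K 7 7 - a 22) ∧
      (K 7 23 = a 23 + K 23 23 - a 7 ∧ K 23 7 = a 7 + K 7 7 - a 23) ∧
      (K 8 18 = a 18 + K 18 18 - a 8 ∧ K 18 8 = a 8 + K 8 8 - a 18) ∧
      (K 8 21 = a 21 + K 21 21 - a 8 ∧ K 21 8 = a 8 + K 8 8 - a 21) ∧
      (K 8 22 = a 22 + K 22 22 - a 8 ∧ K 22 8 = a 8 + K 8 8 - a 22) ∧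
      (K 8 23 = a 23 + K 23 23 - a 8 ∧ K 23 8 = a 8 + K 8 8 - a 23) ∧
      (K 9 21 = a 21 + K 21 21 - a 9 ∧ K 21 9 = a 9 + K 9 9 - a 21) ∧
      (K 9 22 = a 22 + K 22 22 - a 9 ∧ K 22 9 = a 9 + K 9 9 - a 22) ∧
      (K 9 23 = a 23 + K 23 23 - a 9 ∧ K 23 9 = a 9 + K 9 9 - a 23) ∧
      (K 10 16 = a 16 + K 16 16 - a 10 ∧ K 16 10 = a 10 + K 10 10 - a 16) ∧
      (K 10 23 = a 23 + K 23 23 - a 10 ∧ K 23 10 = a 10 + K 10 10 - a 23) ∧
      (K 10 24 = a 24 + K 24 24 - a 10 ∧ K 24 10 = a 10 + K 10 10 - a 24) ∧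
      (K 11 16 = a 16 + K 16 16 - a 11 ∧ K 16 11 = a 11 + K 11 11 - a 16) ∧
      (K 11 19 = a 19 + K 19 19 - a 11 ∧ K 19 11 = a 11 + K 11 11 - a 19) ∧
      (K 11 23 = a 23 + K 23 23 - a 11 ∧ K 23 11 = a 11 + K 11 11 - a 23) ∧
      (K 11 24 = a 24 + K 24 24 - a 11 ∧ K 24 11 = a 11 + K 11 11 - a 24) ∧
      (K 12 19 = a 19 + K 19 19 - a 12 ∧ K 19 12 = a 12 + K 12 12 - a 19) ∧
      (K 12 23 = a 23 + K 23 23 - a 12 ∧ K 23 12 = a 12 + K 12 12 - a 23) ∧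
      (K 12 24 = a 24 + K 24 24 - a 12 ∧ K 24 12 = a 12 + K 12 12 - a 24) ∧
      (K 13 17 = a 17 + K 17 17 - a 13 ∧ K 17 13 = a 13 + K 13 13 - a 17) ∧
      (K 13 18 = a 18 + K 18 18 - a 13 ∧ K 18 13 = a 13 + K 13 13 - a 18) ∧
      (K 13 24 = a 24 + K 24 24 - a 13 ∧ K 24 13 = a 13 + K 13 13 - a 24) ∧
      (K 14 17 = a 17 + K 17 17 - a 14 ∧ K 17 14 = a 14 + K 14 14 - a 17) ∧
      (K 14 18 = a 18 + K 18 18 - a 14 ∧ K 18 14 = a 14 + K 14 14 - a 18) ∧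
      (K 14 20 = a 20 + K 20 20 - a 14 ∧ K 20 14 = a 14 + K 14 14 - a 20) ∧
      (K 14 21 = a 21 + K 21 21 - a 14 ∧ K 21 14 = a 14 + K 14 14 - a 21) ∧
      (K 14 24 = a 24 + K 24 24 - a 14 ∧ K 24 14 = a 14 + K 14 14 - a 24) ∧
      (K 15 20 = a 20 + K 20 20 - a 15 ∧ K 20 15 = a 15 + K 15 15 - a 20) ∧
      (K 15 21 = a 21 + K 21 21 - a 15 ∧ K 21 15 = a 15 + K 15 15 - a 21) ∧
      (K 15 24 = a 24 + K 24 24 - a 15 ∧ K 24 15 = a 15 + K 15 15 - a 24) := by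
  obtain ⟨A0, hA0⟩ : ∃ A : ℤ, A = 0 := ⟨_, rfl⟩
  obtain ⟨A4, hA4⟩ : ∃ A : ℤ, A = A0 + (K 0 4 - K 4 4) := ⟨_, rfl⟩
  obtain ⟨A7, hA7⟩ : ∃ A : ℤ, A = A0 + (K 0 7 - K 7 7) := ⟨_, rfl⟩
  obtain ⟨A10, hA10⟩ : ∃ A : ℤ, A = A0 + (K 0 10 - K 10 10) := ⟨_, rfl⟩
  obtain ⟨A13, hA13⟩ : ∃ A : ℤ, A = A0 + (K 0 13 - K 13 13) := ⟨_, rfl⟩
  obtain ⟨A1, hA1⟩ : ∃ A : ℤ, A = A4 + (K 4 1 - K 1 1) := ⟨_, rfl⟩
  obtain ⟨A16, hA16⟩ : ∃ A : ℤ, A = A4 + (K 4 16 - K 16 16) := ⟨_, rfl⟩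
  obtain ⟨A17, hA17⟩ : ∃ A : ℤ, A = A4 + (K 4 17 - K 17 17) := ⟨_, rfl⟩
  obtain ⟨A22, hA22⟩ : ∃ A : ℤ, A = A4 + (K 4 22 - K 22 22) := ⟨_, rfl⟩
  obtain ⟨A18, hA18⟩ : ∃ A : ℤ, A = A7 + (K 7 18 - K 18 18) := ⟨_, rfl⟩
  obtain ⟨A23, hA23⟩ : ∃ A : ℤ, A = A7 + (K 7 23 - K 23 23) := ⟨_, rfl⟩
  obtain ⟨A24, hA24⟩ : ∃ A : ℤ, A = A10 + (K 10 24 - K 24 24) := ⟨_, rfl⟩
  obtain ⟨A5, hA5⟩ : ∃ A : ℤ, A = A1 + (K 1 5 - K 5 5) := ⟨_, rfl⟩
  obtain ⟨A8, hA8⟩ : ∃ A : ℤ, A = A1 + (K 1 8 - K 8 8) := ⟨_, rfl⟩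
  obtain ⟨A11, hA11⟩ : ∃ A : ℤ, A = A1 + (K 1 11 - K 11 11) := ⟨_, rfl⟩
  obtain ⟨A14, hA14⟩ : ∃ A : ℤ, A = A1 + (K 1 14 - K 14 14) := ⟨_, rfl⟩
  obtain ⟨A6, hA6⟩ : ∃ A : ℤ, A = A22 + (K 22 6 - K 6 6) := ⟨_, rfl⟩
  obtain ⟨A9, hA9⟩ : ∃ A : ℤ, A = A22 + (K 22 9 - K 9 9) := ⟨_, rfl⟩
  obtain ⟨A12, hA12⟩ : ∃ A : ℤ, A = A23 + (K 23 12 - K 12 12) := ⟨_, rfl⟩
  obtain ⟨A15, hA15⟩ : ∃ A : ℤ, A = A24 + (K 24 15 - K 15 15) := ⟨_, rfl⟩
  obtain ⟨A2, hA2⟩ : ∃ A : ℤ, A = A5 + (K 5 2 - K 2 2) := ⟨_, rfl⟩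
  obtain ⟨A19, hA19⟩ : ∃ A : ℤ, A = A5 + (K 5 19 - K 19 19) := ⟨_, rfl⟩
  obtain ⟨A20, hA20⟩ : ∃ A : ℤ, A = A5 + (K 5 20 - K 20 20) := ⟨_, rfl⟩
  obtain ⟨A21, hA21⟩ : ∃ A : ℤ, A = A8 + (K 8 21 - K 21 21) := ⟨_, rfl⟩
  obtain ⟨A3, hA3⟩ : ∃ A : ℤ, A = A6 + (K 6 3 - K 3 3) := ⟨_, rfl⟩
  refine ⟨fun x => [A0, A1, A2, A3, A4, A5, A6, A7, A8, A9, A10, A11, A12, A13, A14, A15, A16, A17, A18, A19, A20, A21, A22, A23, A24].getD x 0, ?_, ?_, ?_, ?_, ?_, ?_, ?_, ?_, ?_, ?_, ?_, ?_, ?_, ?_, ?_, ?_, ?_, ?_, ?_, ?_, ?_, ?_, ?_, ?_, ?_, ?_, ?_, ?_, ?_, ?_, ?_, ?_, ?_, ?_, ?_, ?_, ?_, ?_, ?_, ?_, ?_, ?_, ?_, ?_, ?_, ?_, ?_, ?_, ?_, ?_, ?_, ?_, ?_, ?_, ?_, ?_, ?_, ?_, ?_, ?_, ?_, ?_, ?_, ?_, ?_, ?_⟩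
  · have t : K 0 4 = A4 + K 4 4 - A0 := by linear_combination (-1)*hA4
    refine ⟨t, ?_⟩
    change K 4 0 = A0 + K 0 0 - A4
    linear_combination e0 - t
  · have t : K 0 7 = A7 + K 7 7 - A0 := by linear_combination (-1)*hA7
    refine ⟨t, ?_⟩
    change K 7 0 = A0 + K 0 0 - A7
    linear_combination e1 - t
  · have t : K 0 10 = A10 + K 10 10 - A0 := by linear_combination (-1)*hA10
    refine ⟨t, ?_⟩
    change K 10 0 = A0 + K 0 0 - A10
    linear_combination e2 - t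
  · have t : K 0 13 = A13 + K 13 13 - A0 := by linear_combination (-1)*hA13
    refine ⟨t, ?_⟩
    change K 13 0 = A0 + K 0 0 - A13
    linear_combination e3 - t
  · have t : K 1 4 = A4 + K 4 4 - A1 := by linear_combination (1)*e4 + (1)*hA1
    refine ⟨t, ?_⟩
    change K 4 1 = A1 + K 1 1 - A4
    linear_combination e4 - t
  · have t : K 1 5 = A5 + K 5 5 - A1 := by linear_combination (-1)*hA5
    refine ⟨t, ?_⟩
    change K 5 1 = A1 + K 1 1 - A5
    linear_combination e5 - t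
  · have t : K 1 7 = A7 + K 7 7 - A1 := by linear_combination (-1)*q1 + (-1)*q7 + (-1)*q10 + (-1)*q12 + (-1)*q19 + (-1)*q24 + (1)*q25 + (1)*q26 + (1)*q27 + (1)*q33 + (-1)*q34 + (1)*q36 + (1)*q37 + (1)*q40 + (1)*e4 + (-1)*hA7 + (1)*hA1 + (1)*hA4
    refine ⟨t, ?_⟩
    change K 7 1 = A1 + K 1 1 - A7
    linear_combination e6 - t
  · have t : K 1 8 = A8 + K 8 8 - A1 := by linear_combination (-1)*hA8
    refine ⟨t, ?_⟩
    change K 8 1 = A1 + K 1 1 - A8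
    linear_combination e7 - t
  · have t : K 1 10 = A10 + K 10 10 - A1 := by linear_combination (-1)*q1 + (-1)*q2 + (-1)*q7 + (1)*q9 + (-1)*q10 + (-1)*q11 + (-1)*q13 + (-1)*q23 + (1)*q25 + (1)*q26 + (1)*q28 + (-1)*q29 + (-1)*q30 + (1)*q37 + (-1)*q38 + (1)*q39 + (1)*e4 + (-1)*hA10 + (1)*hA1 + (1)*hA4
    refine ⟨t, ?_⟩
    change K 10 1 = A1 + K 1 1 - A10
    linear_combination e8 - t
  · have t : K 1 11 = A11 + K 11 11 - A1 := by linear_combination (-1)*hA11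
    refine ⟨t, ?_⟩
    change K 11 1 = A1 + K 1 1 - A11
    linear_combination e9 - t
  · have t : K 1 13 = A13 + K 13 13 - A1 := by linear_combination (-1)*q1 + (-1)*q2 + (1)*q3 + (-1)*q7 + (-1)*q10 + (-1)*q11 + (-1)*q13 + (1)*q17 + (-1)*q19 + (1)*q20 + (-1)*q24 + (1)*q25 + (1)*q26 + (-1)*q29 + (-1)*q30 + (1)*q31 + (1)*q33 + (-1)*q35 + (1)*q36 + (1)*q37 + (1)*q39 + (1)*q41 + (1)*e4 + (-1)*hA13 + (1)*hA1 + (1)*hA4
    refine ⟨t, ?_⟩
    change K 13 1 = A1 + K 1 1 - A13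
    linear_combination e10 - t
  · have t : K 1 14 = A14 + K 14 14 - A1 := by linear_combination (-1)*hA14
    refine ⟨t, ?_⟩
    change K 14 1 = A1 + K 1 1 - A14
    linear_combination e11 - t
  · have t : K 2 5 = A5 + K 5 5 - A2 := by linear_combination (1)*e12 + (1)*hA2
    refine ⟨t, ?_⟩
    change K 5 2 = A2 + K 2 2 - A5
    linear_combination e12 - t
  · have t : K 2 6 = A6 + K 6 6 - A2 := by linear_combination (-1)*q1 + (1)*q4 + (-1)*q5 + (1)*q6 + (-2)*q7 + (1)*q8 + (-1)*q10 + (-1)*q12 + (1)*q16 + (1)*q18 + (-1)*q19 + (-1)*q22 + (-1)*q24 + (1)*q25 + (2)*q26 + (1)*q27 + (-1)*q32 + (1)*q33 + (-1)*q34 + (1)*q36 + (1)*q37 + (1)*q40 + (1)*e4 + (1)*e12 + (-1)*e26 + (-1)*hA6 + (-1)*hA22 + (1)*hA2 + (1)*hA5 + (1)*hA1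
    refine ⟨t, ?_⟩
    change K 6 2 = A2 + K 2 2 - A6
    linear_combination e13 - t
  · have t : K 2 8 = A8 + K 8 8 - A2 := by linear_combination (-1)*q1 + (1)*q4 + (-1)*q5 + (1)*q6 + (-1)*q7 + (1)*q8 + (-1)*q10 + (-1)*q12 + (1)*q16 + (1)*q18 + (-1)*q19 + (-1)*q22 + (-1)*q24 + (1)*q25 + (1)*q26 + (1)*q27 + (-1)*q32 + (1)*q33 + (-1)*q34 + (1)*q36 + (1)*q37 + (1)*q40 + (1)*e12 + (-1)*hA8 + (1)*hA2 + (1)*hA5
    refine ⟨t, ?_⟩
    change K 8 2 = A2 + K 2 2 - A8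
    linear_combination e14 - t
  · have t : K 2 9 = A9 + K 9 9 - A2 := by linear_combination (-1)*q7 + (-1)*q12 + (-1)*q19 + (-1)*q24 + (1)*q26 + (1)*q27 + (1)*q33 + (-1)*q34 + (1)*q36 + (1)*q37 + (1)*q40 + (1)*e4 + (1)*e12 + (-1)*e26 + (-1)*hA9 + (-1)*hA22 + (1)*hA2 + (1)*hA5 + (1)*hA1
    refine ⟨t, ?_⟩
    change K 9 2 = A2 + K 2 2 - A9
    linear_combination e15 - t
  · have t : K 2 11 = A11 + K 11 11 - A2 := by linear_combination (-1)*q0 + (-1)*q1 + (-1)*q2 + (-1)*q7 + (1)*q9 + (-1)*q10 + (-1)*q11 + (-1)*q13 + (-1)*q14 + (-1)*q15 + (-1)*q21 + (-1)*q23 + (1)*q25 + (1)*q26 + (1)*q28 + (-1)*q29 + (-1)*q30 + (1)*q37 + (-1)*q38 + (1)*q39 + (1)*e12 + (-1)*hA11 + (1)*hA2 + (1)*hA5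
    refine ⟨t, ?_⟩
    change K 11 2 = A2 + K 2 2 - A11
    linear_combination e16 - t
  · have t : K 2 12 = A12 + K 12 12 - A2 := by linear_combination (-2)*q1 + (1)*q4 + (-1)*q5 + (1)*q6 + (-2)*q7 + (1)*q8 + (1)*q9 + (-2)*q10 + (-1)*q11 + (-1)*q12 + (1)*q16 + (1)*q18 + (-1)*q19 + (-1)*q22 + (-1)*q23 + (-1)*q24 + (2)*q25 + (2)*q26 + (1)*q27 + (1)*q28 + (-1)*q29 + (-1)*q32 + (1)*q33 + (-1)*q34 + (1)*q36 + (2)*q37 + (-1)*q38 + (1)*q39 + (1)*q40 + (1)*e4 + (1)*e12 + (-1)*e37 + (-1)*hA12 + (-1)*hA23 + (-1)*hA7 + (1)*hA2 + (1)*hA5 + (1)*hA1 + (1)*hA4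
    refine ⟨t, ?_⟩
    change K 12 2 = A2 + K 2 2 - A12
    linear_combination e17 - t
  · have t : K 2 14 = A14 + K 14 14 - A2 := by linear_combination (-1)*q1 + (-1)*q2 + (1)*q3 + (1)*q4 + (1)*q6 + (-1)*q7 + (1)*q8 + (-1)*q10 + (-1)*q11 + (-1)*q13 + (1)*q17 + (-1)*q19 + (1)*q20 + (-1)*q22 + (-1)*q24 + (1)*q25 + (1)*q26 + (-1)*q29 + (-1)*q30 + (1)*q31 + (1)*q33 + (-1)*q35 + (1)*q36 + (1)*q37 + (1)*q39 + (1)*q41 + (1)*e12 + (-1)*hA14 + (1)*hA2 + (1)*hA5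
    refine ⟨t, ?_⟩
    change K 14 2 = A2 + K 2 2 - A14
    linear_combination e18 - t
  · have t : K 2 15 = A15 + K 15 15 - A2 := by linear_combination (-1)*q0 + (-2)*q1 + (-2)*q2 + (-2)*q7 + (1)*q9 + (-2)*q10 + (-2)*q11 + (-2)*q13 + (-1)*q14 + (-1)*q15 + (-1)*q19 + (1)*q20 + (-1)*q21 + (-1)*q23 + (-1)*q24 + (2)*q25 + (2)*q26 + (1)*q28 + (-2)*q29 + (-2)*q30 + (1)*q31 + (1)*q33 + (1)*q36 + (2)*q37 + (-1)*q38 + (2)*q39 + (1)*q41 + (1)*e4 + (1)*e12 + (-1)*e47 + (-1)*hA15 + (-1)*hA24 + (-1)*hA10 + (1)*hA2 + (1)*hA5 + (1)*hA1 + (1)*hA4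
    refine ⟨t, ?_⟩
    change K 15 2 = A2 + K 2 2 - A15
    linear_combination e19 - t
  · have t : K 3 6 = A6 + K 6 6 - A3 := by linear_combination (1)*e20 + (1)*hA3
    refine ⟨t, ?_⟩
    change K 6 3 = A3 + K 3 3 - A6
    linear_combination e20 - t
  · have t : K 3 9 = A9 + K 9 9 - A3 := by linear_combination (1)*q37 + (1)*e20 + (-1)*hA9 + (1)*hA3 + (1)*hA6
    refine ⟨t, ?_⟩
    change K 9 3 = A3 + K 3 3 - A9
    linear_combination e21 - t
  · have t : K 3 12 = A12 + K 12 12 - A3 := by linear_combination (-1)*q0 + (-2)*q1 + (-1)*q2 + (-1)*q7 + (1)*q9 + (-2)*q10 + (-2)*q11 + (-1)*q13 + (-1)*q14 + (-1)*q15 + (-1)*q21 + (-1)*q23 + (2)*q25 + (1)*q26 + (1)*q28 + (-2)*q29 + (-1)*q30 + (2)*q37 + (-1)*q38 + (2)*q39 + (1)*e20 + (1)*e26 + (-1)*e37 + (-1)*hA12 + (-1)*hA23 + (-1)*hA7 + (1)*hA3 + (1)*hA6 + (1)*hA22 + (1)*hA4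
    refine ⟨t, ?_⟩
    change K 12 3 = A3 + K 3 3 - A12
    linear_combination e22 - t
  · have t : K 3 15 = A15 + K 15 15 - A3 := by linear_combination (-1)*q0 + (-2)*q1 + (-3)*q2 + (1)*q3 + (1)*q5 + (-1)*q7 + (1)*q9 + (-2)*q10 + (-3)*q11 + (1)*q12 + (-3)*q13 + (-1)*q14 + (-1)*q15 + (-1)*q16 + (1)*q17 + (-1)*q18 + (2)*q20 + (-1)*q21 + (-1)*q23 + (2)*q25 + (1)*q26 + (-1)*q27 + (1)*q28 + (-3)*q29 + (-3)*q30 + (2)*q31 + (1)*q32 + (1)*q34 + (-1)*q35 + (2)*q37 + (-1)*q38 + (3)*q39 + (-1)*q40 + (2)*q41 + (1)*e20 + (1)*e26 + (-1)*e47 + (-1)*hA15 + (-1)*hA24 + (-1)*hA10 + (1)*hA3 + (1)*hA6 + (1)*hA22 + (1)*hA4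
    refine ⟨t, ?_⟩
    change K 15 3 = A3 + K 3 3 - A15
    linear_combination e23 - t
  · have t : K 4 16 = A16 + K 16 16 - A4 := by linear_combination (-1)*hA16
    refine ⟨t, ?_⟩
    change K 16 4 = A4 + K 4 4 - A16
    linear_combination e24 - t
  · have t : K 4 17 = A17 + K 17 17 - A4 := by linear_combination (-1)*hA17
    refine ⟨t, ?_⟩
    change K 17 4 = A4 + K 4 4 - A17
    linear_combination e25 - t
  · have t : K 4 22 = A22 + K 22 22 - A4 := by linear_combination (-1)*hA22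
    refine ⟨t, ?_⟩
    change K 22 4 = A4 + K 4 4 - A22
    linear_combination e26 - t
  · have t : K 5 16 = A16 + K 16 16 - A5 := by linear_combination (-1)*q0 + (-1)*q1 + (-1)*q2 + (-1)*q7 + (1)*q9 + (-1)*q10 + (-1)*q11 + (-1)*q13 + (-1)*q14 + (-1)*q23 + (1)*q25 + (1)*q26 + (1)*q28 + (-1)*q29 + (-1)*q30 + (1)*q37 + (-1)*q38 + (1)*q39 + (1)*e4 + (-1)*e24 + (1)*e27 + (-1)*hA16 + (1)*hA5 + (1)*hA1
    refine ⟨t, ?_⟩
    change K 16 5 = A5 + K 5 5 - A16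
    linear_combination e27 - t
  · have t : K 5 17 = A17 + K 17 17 - A5 := by linear_combination (-1)*q1 + (-1)*q2 + (1)*q3 + (1)*q4 + (-1)*q7 + (1)*q8 + (-1)*q10 + (-1)*q11 + (-1)*q13 + (1)*q17 + (-1)*q19 + (1)*q20 + (-1)*q24 + (1)*q25 + (1)*q26 + (-1)*q29 + (-1)*q30 + (1)*q31 + (1)*q33 + (-1)*q35 + (1)*q36 + (1)*q37 + (1)*q39 + (1)*q41 + (1)*e4 + (-1)*e25 + (1)*e28 + (-1)*hA17 + (1)*hA5 + (1)*hA1
    refine ⟨t, ?_⟩
    change K 17 5 = A5 + K 5 5 - A17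
    linear_combination e28 - t
  · have t : K 5 19 = A19 + K 19 19 - A5 := by linear_combination (-1)*hA19
    refine ⟨t, ?_⟩
    change K 19 5 = A5 + K 5 5 - A19
    linear_combination e29 - t
  · have t : K 5 20 = A20 + K 20 20 - A5 := by linear_combination (-1)*hA20
    refine ⟨t, ?_⟩
    change K 20 5 = A5 + K 5 5 - A20
    linear_combination e30 - t
  · have t : K 5 22 = A22 + K 22 22 - A5 := by linear_combination (-1)*q7 + (-1)*q12 + (-1)*q19 + (-1)*q24 + (1)*q25 + (1)*q26 + (1)*q27 + (1)*q33 + (-1)*q34 + (1)*q36 + (1)*q37 + (1)*q40 + (1)*e4 + (-1)*e26 + (1)*e31 + (-1)*hA22 + (1)*hA5 + (1)*hA1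
    refine ⟨t, ?_⟩
    change K 22 5 = A5 + K 5 5 - A22
    linear_combination e31 - t
  · have t : K 6 19 = A19 + K 19 19 - A6 := by linear_combination (-1)*q0 + (-1)*q2 + (-1)*q4 + (1)*q5 + (-1)*q6 + (1)*q7 + (-1)*q8 + (-1)*q11 + (1)*q12 + (-1)*q13 + (-1)*q14 + (-1)*q15 + (-1)*q16 + (-1)*q18 + (1)*q19 + (-1)*q21 + (1)*q22 + (-1)*q23 + (1)*q24 + (-1)*q26 + (-1)*q27 + (-1)*q29 + (-1)*q30 + (1)*q32 + (-1)*q33 + (1)*q34 + (-1)*q36 + (-1)*q38 + (1)*q39 + (-1)*q40 + (-1)*e4 + (1)*e26 + (-1)*e29 + (1)*e32 + (-1)*hA19 + (-1)*hA5 + (-1)*hA1 + (1)*hA6 + (1)*hA22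
    refine ⟨t, ?_⟩
    change K 19 6 = A6 + K 6 6 - A19
    linear_combination e32 - t
  · have t : K 6 20 = A20 + K 20 20 - A6 := by linear_combination (-1)*q2 + (1)*q3 + (1)*q5 + (1)*q7 + (-1)*q11 + (1)*q12 + (-1)*q13 + (-1)*q16 + (1)*q17 + (-1)*q18 + (1)*q19 + (1)*q20 + (-1)*q26 + (-1)*q27 + (-1)*q29 + (-1)*q30 + (1)*q31 + (1)*q32 + (-1)*q33 + (1)*q34 + (-1)*q35 + (1)*q39 + (-1)*q40 + (1)*q41 + (-1)*e4 + (1)*e26 + (-1)*e30 + (1)*e33 + (-1)*hA20 + (-1)*hA5 + (-1)*hA1 + (1)*hA6 + (1)*hA22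
    refine ⟨t, ?_⟩
    change K 20 6 = A6 + K 6 6 - A20
    linear_combination e33 - t
  · have t : K 6 22 = A22 + K 22 22 - A6 := by linear_combination (1)*e34 + (1)*hA6
    refine ⟨t, ?_⟩
    change K 22 6 = A6 + K 6 6 - A22
    linear_combination e34 - t
  · have t : K 7 18 = A18 + K 18 18 - A7 := by linear_combination (-1)*hA18
    refine ⟨t, ?_⟩
    change K 18 7 = A7 + K 7 7 - A18
    linear_combination e35 - t
  · have t : K 7 22 = A22 + K 22 22 - A7 := by linear_combination (1)*q1 + (-1)*e26 + (1)*e36 + (-1)*hA22 + (-1)*hA4 + (1)*hA7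
    refine ⟨t, ?_⟩
    change K 22 7 = A7 + K 7 7 - A22
    linear_combination e36 - t
  · have t : K 7 23 = A23 + K 23 23 - A7 := by linear_combination (-1)*hA23
    refine ⟨t, ?_⟩
    change K 23 7 = A7 + K 7 7 - A23
    linear_combination e37 - t
  · have t : K 8 18 = A18 + K 18 18 - A8 := by linear_combination (-1)*q1 + (-1)*q2 + (1)*q3 + (1)*q5 + (-1)*q7 + (-1)*q10 + (-1)*q11 + (-1)*q13 + (-1)*q16 + (1)*q17 + (-1)*q19 + (1)*q20 + (-1)*q24 + (1)*q25 + (1)*q26 + (-1)*q29 + (-1)*q30 + (1)*q31 + (1)*q33 + (-1)*q35 + (1)*q36 + (1)*q37 + (1)*q39 + (1)*q41 + (1)*e4 + (-1)*e35 + (1)*e38 + (-1)*hA18 + (-1)*hA7 + (1)*hA8 + (1)*hA1 + (1)*hA4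
    refine ⟨t, ?_⟩
    change K 18 8 = A8 + K 8 8 - A18
    linear_combination e38 - t
  · have t : K 8 21 = A21 + K 21 21 - A8 := by linear_combination (-1)*hA21
    refine ⟨t, ?_⟩
    change K 21 8 = A8 + K 8 8 - A21
    linear_combination e39 - t
  · have t : K 8 22 = A22 + K 22 22 - A8 := by linear_combination (-1)*q7 + (1)*e4 + (-1)*e26 + (1)*e40 + (-1)*hA22 + (1)*hA8 + (1)*hA1
    refine ⟨t, ?_⟩
    change K 22 8 = A8 + K 8 8 - A22
    linear_combination e40 - t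
  · have t : K 8 23 = A23 + K 23 23 - A8 := by linear_combination (-1)*q1 + (-1)*q7 + (1)*q9 + (-1)*q10 + (-1)*q11 + (-1)*q23 + (1)*q25 + (1)*q26 + (1)*q28 + (-1)*q29 + (-1)*q30 + (1)*q37 + (-1)*q38 + (1)*q39 + (1)*e4 + (-1)*e37 + (1)*e41 + (-1)*hA23 + (-1)*hA7 + (1)*hA8 + (1)*hA1 + (1)*hA4
    refine ⟨t, ?_⟩
    change K 23 8 = A8 + K 8 8 - A23
    linear_combination e41 - t
  · have t : K 9 21 = A21 + K 21 21 - A9 := by linear_combination (-1)*q1 + (-1)*q2 + (1)*q3 + (1)*q4 + (1)*q6 + (1)*q8 + (-1)*q10 + (-1)*q11 + (-1)*q13 + (1)*q17 + (1)*q20 + (-1)*q22 + (1)*q25 + (-1)*q29 + (-1)*q30 + (1)*q31 + (1)*q34 + (-1)*q35 + (1)*q39 + (-1)*q40 + (1)*q41 + (-1)*e4 + (1)*e26 + (-1)*e39 + (1)*e42 + (-1)*hA21 + (-1)*hA8 + (-1)*hA1 + (1)*hA9 + (1)*hA22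
    refine ⟨t, ?_⟩
    change K 21 9 = A9 + K 9 9 - A21
    linear_combination e42 - t
  · have t : K 9 22 = A22 + K 22 22 - A9 := by linear_combination (1)*e43 + (1)*hA9
    refine ⟨t, ?_⟩
    change K 22 9 = A9 + K 9 9 - A22
    linear_combination e43 - t
  · have t : K 9 23 = A23 + K 23 23 - A9 := by linear_combination (-1)*q0 + (-2)*q1 + (-1)*q2 + (-1)*q7 + (1)*q9 + (-2)*q10 + (-2)*q11 + (-1)*q13 + (-1)*q14 + (-1)*q15 + (-1)*q21 + (-1)*q23 + (2)*q25 + (1)*q26 + (1)*q28 + (-2)*q29 + (-1)*q30 + (1)*q37 + (-1)*q38 + (1)*q39 + (1)*e26 + (-1)*e37 + (1)*e44 + (-1)*hA23 + (-1)*hA7 + (1)*hA9 + (1)*hA22 + (1)*hA4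
    refine ⟨t, ?_⟩
    change K 23 9 = A9 + K 9 9 - A23
    linear_combination e44 - t
  · have t : K 10 16 = A16 + K 16 16 - A10 := by linear_combination (-1)*q0 + (-1)*e24 + (1)*e45 + (-1)*hA16 + (-1)*hA4 + (1)*hA10
    refine ⟨t, ?_⟩
    change K 16 10 = A10 + K 10 10 - A16
    linear_combination e45 - t
  · have t : K 10 23 = A23 + K 23 23 - A10 := by linear_combination (1)*q2 + (-1)*e37 + (1)*e46 + (-1)*hA23 + (-1)*hA7 + (1)*hA10
    refine ⟨t, ?_⟩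
    change K 23 10 = A10 + K 10 10 - A23
    linear_combination e46 - t
  · have t : K 10 24 = A24 + K 24 24 - A10 := by linear_combination (-1)*hA24
    refine ⟨t, ?_⟩
    change K 24 10 = A10 + K 10 10 - A24
    linear_combination e47 - t
  · have t : K 11 16 = A16 + K 16 16 - A11 := by linear_combination (1)*q15 + (1)*e4 + (-1)*e24 + (1)*e48 + (-1)*hA16 + (1)*hA11 + (1)*hA1
    refine ⟨t, ?_⟩
    change K 16 11 = A11 + K 11 11 - A16
    linear_combination e48 - t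
  · have t : K 11 19 = A19 + K 19 19 - A11 := by linear_combination (-1)*q9 + (-1)*e29 + (1)*e49 + (-1)*hA19 + (-1)*hA5 + (1)*hA11
    refine ⟨t, ?_⟩
    change K 19 11 = A11 + K 11 11 - A19
    linear_combination e49 - t
  · have t : K 11 23 = A23 + K 23 23 - A11 := by linear_combination (-1)*q1 + (-1)*q7 + (-1)*q10 + (-1)*q11 + (-1)*q12 + (-1)*q19 + (-1)*q24 + (1)*q25 + (1)*q26 + (1)*q27 + (1)*q33 + (-1)*q34 + (1)*q36 + (1)*q37 + (1)*q40 + (1)*e4 + (-1)*e37 + (1)*e50 + (-1)*hA23 + (-1)*hA7 + (1)*hA11 + (1)*hA1 + (1)*hA4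
    refine ⟨t, ?_⟩
    change K 23 11 = A11 + K 11 11 - A23
    linear_combination e50 - t
  · have t : K 11 24 = A24 + K 24 24 - A11 := by linear_combination (-1)*q1 + (-1)*q2 + (-1)*q7 + (-1)*q10 + (-1)*q11 + (-1)*q13 + (-1)*q19 + (1)*q20 + (-1)*q24 + (1)*q25 + (1)*q26 + (-1)*q29 + (-1)*q30 + (1)*q31 + (1)*q33 + (-1)*q35 + (1)*q36 + (1)*q37 + (1)*q39 + (1)*q41 + (1)*e4 + (-1)*e47 + (1)*e51 + (-1)*hA24 + (-1)*hA10 + (1)*hA11 + (1)*hA1 + (1)*hA4
    refine ⟨t, ?_⟩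
    change K 24 11 = A11 + K 11 11 - A24
    linear_combination e51 - t
  · have t : K 12 19 = A19 + K 19 19 - A12 := by linear_combination (2)*q1 + (-1)*q4 + (1)*q5 + (-1)*q6 + (2)*q7 + (-1)*q8 + (-1)*q9 + (2)*q10 + (1)*q11 + (1)*q12 + (-1)*q16 + (-1)*q18 + (1)*q19 + (1)*q22 + (1)*q24 + (-2)*q25 + (-2)*q26 + (-1)*q27 + (-1)*q28 + (1)*q29 + (1)*q32 + (-1)*q33 + (1)*q34 + (-1)*q36 + (-2)*q37 + (1)*q38 + (-1)*q39 + (-1)*q40 + (-1)*e4 + (-1)*e29 + (1)*e37 + (1)*e52 + (-1)*hA19 + (-1)*hA5 + (-1)*hA1 + (-1)*hA4 + (1)*hA12 + (1)*hA23 + (1)*hA7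
    refine ⟨t, ?_⟩
    change K 19 12 = A12 + K 12 12 - A19
    linear_combination e52 - t
  · have t : K 12 23 = A23 + K 23 23 - A12 := by linear_combination (1)*e53 + (1)*hA12
    refine ⟨t, ?_⟩
    change K 23 12 = A12 + K 12 12 - A23
    linear_combination e53 - t
  · have t : K 12 24 = A24 + K 24 24 - A12 := by linear_combination (-2)*q2 + (1)*q3 + (1)*q5 + (-1)*q11 + (1)*q12 + (-2)*q13 + (-1)*q16 + (1)*q17 + (-1)*q18 + (2)*q20 + (-1)*q27 + (-1)*q29 + (-2)*q30 + (2)*q31 + (1)*q32 + (1)*q34 + (-1)*q35 + (1)*q39 + (-1)*q40 + (1)*q41 + (1)*e37 + (-1)*e47 + (1)*e54 + (-1)*hA24 + (-1)*hA10 + (1)*hA12 + (1)*hA23 + (1)*hA7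
    refine ⟨t, ?_⟩
    change K 24 12 = A12 + K 12 12 - A24
    linear_combination e54 - t
  · have t : K 13 17 = A17 + K 17 17 - A13 := by linear_combination (1)*q4 + (-1)*e25 + (1)*e55 + (-1)*hA17 + (-1)*hA4 + (1)*hA13
    refine ⟨t, ?_⟩
    change K 17 13 = A13 + K 13 13 - A17
    linear_combination e55 - t
  · have t : K 13 18 = A18 + K 18 18 - A13 := by linear_combination (1)*q5 + (-1)*e35 + (1)*e56 + (-1)*hA18 + (-1)*hA7 + (1)*hA13
    refine ⟨t, ?_⟩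
    change K 18 13 = A13 + K 13 13 - A18
    linear_combination e56 - t
  · have t : K 13 24 = A24 + K 24 24 - A13 := by linear_combination (-1)*q3 + (-1)*e47 + (1)*e57 + (-1)*hA24 + (-1)*hA10 + (1)*hA13
    refine ⟨t, ?_⟩
    change K 24 13 = A13 + K 13 13 - A24
    linear_combination e57 - t
  · have t : K 14 17 = A17 + K 17 17 - A14 := by linear_combination (-1)*q6 + (1)*e4 + (-1)*e25 + (1)*e58 + (-1)*hA17 + (1)*hA14 + (1)*hA1
    refine ⟨t, ?_⟩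
    change K 17 14 = A14 + K 14 14 - A17
    linear_combination e58 - t
  · have t : K 14 18 = A18 + K 18 18 - A14 := by linear_combination (-1)*q1 + (-1)*q7 + (-1)*q10 + (-1)*q12 + (1)*q18 + (-1)*q19 + (-1)*q24 + (1)*q25 + (1)*q26 + (1)*q27 + (1)*q33 + (-1)*q34 + (1)*q36 + (1)*q37 + (1)*q40 + (1)*e4 + (-1)*e35 + (1)*e59 + (-1)*hA18 + (-1)*hA7 + (1)*hA14 + (1)*hA1 + (1)*hA4
    refine ⟨t, ?_⟩
    change K 18 14 = A14 + K 14 14 - A18
    linear_combination e59 - t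
  · have t : K 14 20 = A20 + K 20 20 - A14 := by linear_combination (1)*q19 + (-1)*e30 + (1)*e60 + (-1)*hA20 + (-1)*hA5 + (1)*hA14
    refine ⟨t, ?_⟩
    change K 20 14 = A14 + K 14 14 - A20
    linear_combination e60 - t
  · have t : K 14 21 = A21 + K 21 21 - A14 := by linear_combination (-1)*q12 + (-1)*e39 + (1)*e61 + (-1)*hA21 + (-1)*hA8 + (1)*hA14
    refine ⟨t, ?_⟩
    change K 21 14 = A14 + K 14 14 - A21
    linear_combination e61 - t
  · have t : K 14 24 = A24 + K 24 24 - A14 := by linear_combination (-1)*q1 + (-1)*q2 + (-1)*q7 + (1)*q9 + (-1)*q10 + (-1)*q11 + (-1)*q13 + (1)*q20 + (-1)*q23 + (1)*q25 + (1)*q26 + (1)*q28 + (-1)*q29 + (-1)*q30 + (1)*q37 + (-1)*q38 + (1)*q39 + (1)*e4 + (-1)*e47 + (1)*e62 + (-1)*hA24 + (-1)*hA10 + (1)*hA14 + (1)*hA1 + (1)*hA4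
    refine ⟨t, ?_⟩
    change K 24 14 = A14 + K 14 14 - A24
    linear_combination e62 - t
  · have t : K 15 20 = A20 + K 20 20 - A15 := by linear_combination (1)*q0 + (2)*q1 + (2)*q2 + (2)*q7 + (-1)*q9 + (2)*q10 + (2)*q11 + (2)*q13 + (1)*q14 + (1)*q15 + (1)*q19 + (-1)*q20 + (1)*q21 + (1)*q23 + (-2)*q25 + (-2)*q26 + (-1)*q28 + (2)*q29 + (2)*q30 + (-1)*q31 + (-1)*q33 + (-1)*q36 + (-2)*q37 + (1)*q38 + (-2)*q39 + (-1)*q41 + (-1)*e4 + (-1)*e30 + (1)*e47 + (1)*e63 + (-1)*hA20 + (-1)*hA5 + (-1)*hA1 + (-1)*hA4 + (1)*hA15 + (1)*hA24 + (1)*hA10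
    refine ⟨t, ?_⟩
    change K 20 15 = A15 + K 15 15 - A20
    linear_combination e63 - t
  · have t : K 15 21 = A21 + K 21 21 - A15 := by linear_combination (1)*q0 + (1)*q1 + (2)*q2 + (1)*q4 + (-1)*q5 + (1)*q6 + (1)*q7 + (1)*q8 + (-1)*q9 + (1)*q10 + (2)*q11 + (-1)*q12 + (2)*q13 + (1)*q14 + (1)*q15 + (1)*q16 + (1)*q18 + (-1)*q20 + (1)*q21 + (-1)*q22 + (1)*q23 + (-1)*q25 + (-1)*q26 + (1)*q27 + (-1)*q28 + (2)*q29 + (2)*q30 + (-1)*q31 + (-1)*q32 + (-1)*q37 + (1)*q38 + (-2)*q39 + (1)*q40 + (-1)*q41 + (-1)*e4 + (-1)*e39 + (1)*e47 + (1)*e64 + (-1)*hA21 + (-1)*hA8 + (-1)*hA1 + (-1)*hA4 + (1)*hA15 + (1)*hA24 + (1)*hA10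
    refine ⟨t, ?_⟩
    change K 21 15 = A15 + K 15 15 - A21
    linear_combination e64 - t
  · have t : K 15 24 = A24 + K 24 24 - A15 := by linear_combination (1)*e65 + (1)*hA15
    refine ⟨t, ?_⟩
    change K 24 15 = A15 + K 15 15 - A24
    linear_combination e65 - t
/-- check of an edge witness -/
def eck (x y F G : ℕ) : Bool := Nat.blt x 25 && Nat.blt y 25 && Nat.blt F 120 && Nat.blt G 120 && (nbl F).any (fun H => Nat.beq H G) &&
  Nat.beq (actb F x) y && Nat.beq (actb F y) x && Nat.beq (actb G x) x && Nat.beq (actb G y) y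
/-- check of a square witness -/
def qck (x y z w F G : ℕ) : Bool := Nat.blt x 25 && Nat.blt z 25 && Nat.blt F 120 && Nat.blt G 120 && (nbl F).any (fun H => Nat.beq H G) &&
  Nat.beq (actb F x) y && Nat.beq (actb G x) w && Nat.beq (actb G y) z && Nat.beq (actb F z) w && Nat.beq (actb G z) y
theorem e_rel (k : ℕ → ℕ → ℤ) (h : ∀ F < 120, ∀ G ∈ nbl F, ∀ x < 25, k F x - k G (actb G (actb F x)) + k F (actb G (actb F x)) - k G x = 0)
    (hk : ∀ F < 120, ∀ x < 25, k F x = k (rtb x (actb F x)) x) (x y F G : ℕ) (c : eck x y F G = true) :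
    k (rtb x y) x - k (rtb y y) y + k (rtb y x) y - k (rtb x x) x = 0 := by
  simp only [eck, Bool.and_eq_true, Nat.blt_eq, List.any_eq_true, Nat.beq_eq] at c
  obtain ⟨⟨⟨⟨⟨⟨⟨⟨h1, h2⟩, h3⟩, h4⟩, H, hH, hHG⟩, h5⟩, h6⟩, h7⟩, h8⟩ := c
  subst hHG
  have r := h F h3 H hH x h1
  rw [h5, h8] at r
  have a1 := hk F h3 x h1
  have a2 := hk F h3 y h2
  have a3 := hk H h4 x h1
  have a4 := hk H h4 y h2
  rw [h5] at a1; rw [h6] at a2; rw [h7] at a3; rw [h8] at a4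
  omega
theorem q_rel (k : ℕ → ℕ → ℤ) (h : ∀ F < 120, ∀ G ∈ nbl F, ∀ x < 25, k F x - k G (actb G (actb F x)) + k F (actb G (actb F x)) - k G x = 0)
    (hk : ∀ F < 120, ∀ x < 25, k F x = k (rtb x (actb F x)) x) (x y z w F G : ℕ) (c : qck x y z w F G = true) :
    k (rtb x y) x - k (rtb z y) z + k (rtb z w) z - k (rtb x w) x = 0 := by
  simp only [qck, Bool.and_eq_true, Nat.blt_eq, List.any_eq_true, Nat.beq_eq] at c
  obtain ⟨⟨⟨⟨⟨⟨⟨⟨⟨h1, h2⟩, h3⟩, h4⟩, H, hH, hHG⟩, h5⟩, h6⟩, h7⟩, h8⟩, h9⟩ := c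
  subst hHG
  have r := h F h3 H hH x h1
  rw [h5, h7] at r
  have a1 := hk F h3 x h1
  have a2 := hk F h3 z h2
  have a3 := hk H h4 x h1
  have a4 := hk H h4 z h2
  rw [h5] at a1; rw [h8] at a2; rw [h6] at a3; rw [h9] at a4
  omega
def edL : List (ℕ × ℕ) := [(0, 4), (0, 7), (0, 10), (0, 13), (1, 4), (1, 5), (1, 7), (1, 8), (1, 10), (1, 11), (1, 13), (1, 14), (2, 5), (2, 6), (2, 8), (2, 9), (2, 11), (2, 12), (2, 14), (2, 15), (3, 6), (3, 9), (3, 12), (3, 15), (4, 16), (4, 17), (4, 22), (5, 16), (5, 17), (5, 19), (5, 20), (5, 22), (6, 19), (6, 20), (6, 22), (7, 18), (7, 22), (7, 23), (8, 18), (8, 21), (8, 22), (8, 23), (9, 21), (9, 22), (9, 23), (10, 16), (10, 23), (10, 24), (11, 16), (11, 19), (11, 23), (11, 24), (12, 19), (12, 23), (12, 24), (13, 17), (13, 18), (13, 24), (14, 17), (14, 18), (14, 20), (14, 21), (14, 24), (15, 20), (15, 21), (15, 24)]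
theorem c_ed : (List.range 120).all (fun F => (List.range 25).all (fun x => Nat.beq (actb F x) x ||
  edL.any (fun p => (Nat.beq p.1 x && Nat.beq p.2 (actb F x)) || (Nat.beq p.2 x && Nat.beq p.1 (actb F x))))) = true := by decide +kernel
theorem k_nat (k : ℕ → ℕ → ℤ) (h : ∀ F < 120, ∀ G ∈ nbl F, ∀ x < 25, k F x - k G (actb G (actb F x)) + k F (actb G (actb F x)) - k G x = 0)
    (hinv : ∀ F < 120, ∀ x < 25, actb F (actb F x) = x) :
    ∃ a b : ℕ → ℤ, ∀ F < 120, ∀ x < 25, k F x = b (actb F x) - a x := by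
  have hk : ∀ F < 120, ∀ x < 25, k F x = k (rtb x (actb F x)) x := fun F hF x hx => k_const k h hinv _ F x hF hx rfl
  have hS := k_solve (fun x y => k (rtb x y) x)
    (e_rel k h hk 0 4 11 1 (by decide +kernel))
    (e_rel k h hk 0 7 52 9 (by decide +kernel))
    (e_rel k h hk 0 10 45 7 (by decide +kernel))
    (e_rel k h hk 0 13 12 2 (by decide +kernel))
    (e_rel k h hk 1 4 22 55 (by decide +kernel))
    (e_rel k h hk 1 5 11 1 (by decide +kernel))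
    (e_rel k h hk 1 7 7 2 (by decide +kernel))
    (e_rel k h hk 1 8 19 6 (by decide +kernel))
    (e_rel k h hk 1 10 85 30 (by decide +kernel))
    (e_rel k h hk 1 11 23 45 (by decide +kernel))
    (e_rel k h hk 1 13 16 3 (by decide +kernel))
    (e_rel k h hk 1 14 5 15 (by decide +kernel))
    (e_rel k h hk 2 5 2 15 (by decide +kernel))
    (e_rel k h hk 2 6 86 29 (by decide +kernel))
    (e_rel k h hk 2 8 25 47 (by decide +kernel))
    (e_rel k h hk 2 9 20 6 (by decide +kernel))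
    (e_rel k h hk 2 11 9 3 (by decide +kernel))
    (e_rel k h hk 2 12 26 51 (by decide +kernel))
    (e_rel k h hk 2 14 30 62 (by decide +kernel))
    (e_rel k h hk 2 15 5 15 (by decide +kernel))
    (e_rel k h hk 3 6 1 8 (by decide +kernel))
    (e_rel k h hk 3 9 23 45 (by decide +kernel))
    (e_rel k h hk 3 12 9 3 (by decide +kernel))
    (e_rel k h hk 3 15 27 49 (by decide +kernel))
    (e_rel k h hk 4 16 23 45 (by decide +kernel))
    (e_rel k h hk 4 17 12 2 (by decide +kernel))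
    (e_rel k h hk 4 22 52 9 (by decide +kernel))
    (e_rel k h hk 5 16 83 21 (by decide +kernel))
    (e_rel k h hk 5 17 61 6 (by decide +kernel))
    (e_rel k h hk 5 19 46 15 (by decide +kernel))
    (e_rel k h hk 5 20 5 15 (by decide +kernel))
    (e_rel k h hk 5 22 33 0 (by decide +kernel))
    (e_rel k h hk 6 19 9 3 (by decide +kernel))
    (e_rel k h hk 6 20 30 62 (by decide +kernel))
    (e_rel k h hk 6 22 23 45 (by decide +kernel))
    (e_rel k h hk 7 18 12 2 (by decide +kernel))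
    (e_rel k h hk 7 22 11 1 (by decide +kernel))
    (e_rel k h hk 7 23 54 3 (by decide +kernel))
    (e_rel k h hk 8 18 16 3 (by decide +kernel))
    (e_rel k h hk 8 21 5 15 (by decide +kernel))
    (e_rel k h hk 8 22 83 21 (by decide +kernel))
    (e_rel k h hk 8 23 26 46 (by decide +kernel))
    (e_rel k h hk 9 21 72 6 (by decide +kernel))
    (e_rel k h hk 9 22 7 2 (by decide +kernel))
    (e_rel k h hk 9 23 9 3 (by decide +kernel))
    (e_rel k h hk 10 16 11 1 (by decide +kernel))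
    (e_rel k h hk 10 23 27 49 (by decide +kernel))
    (e_rel k h hk 10 24 26 51 (by decide +kernel))
    (e_rel k h hk 11 16 76 75 (by decide +kernel))
    (e_rel k h hk 11 19 25 50 (by decide +kernel))
    (e_rel k h hk 11 23 7 2 (by decide +kernel))
    (e_rel k h hk 11 24 14 13 (by decide +kernel))
    (e_rel k h hk 12 19 2 7 (by decide +kernel))
    (e_rel k h hk 12 23 80 25 (by decide +kernel))
    (e_rel k h hk 12 24 27 49 (by decide +kernel))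
    (e_rel k h hk 13 17 53 10 (by decide +kernel))
    (e_rel k h hk 13 18 73 6 (by decide +kernel))
    (e_rel k h hk 13 24 45 7 (by decide +kernel))
    (e_rel k h hk 14 17 22 55 (by decide +kernel))
    (e_rel k h hk 14 18 7 2 (by decide +kernel))
    (e_rel k h hk 14 20 64 14 (by decide +kernel))
    (e_rel k h hk 14 21 20 6 (by decide +kernel))
    (e_rel k h hk 14 24 32 51 (by decide +kernel))
    (e_rel k h hk 15 20 4 7 (by decide +kernel))
    (e_rel k h hk 15 21 21 54 (by decide +kernel))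
    (e_rel k h hk 15 24 52 9 (by decide +kernel))
    (q_rel k h hk 0 4 16 10 11 87 (by decide +kernel))
    (q_rel k h hk 0 7 22 4 52 97 (by decide +kernel))
    (q_rel k h hk 0 10 23 7 54 101 (by decide +kernel))
    (q_rel k h hk 0 10 24 13 45 57 (by decide +kernel))
    (q_rel k h hk 0 13 17 4 12 98 (by decide +kernel))
    (q_rel k h hk 0 13 18 7 30 73 (by decide +kernel))
    (q_rel k h hk 1 4 17 14 22 67 (by decide +kernel))
    (q_rel k h hk 1 4 22 8 83 107 (by decide +kernel))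
    (q_rel k h hk 1 5 17 13 53 94 (by decide +kernel))
    (q_rel k h hk 1 5 19 11 25 47 (by decide +kernel))
    (q_rel k h hk 1 5 22 7 11 41 (by decide +kernel))
    (q_rel k h hk 1 7 23 11 7 90 (by decide +kernel))
    (q_rel k h hk 1 8 21 14 43 44 (by decide +kernel))
    (q_rel k h hk 1 8 23 10 27 104 (by decide +kernel))
    (q_rel k h hk 1 10 16 5 86 115 (by decide +kernel))
    (q_rel k h hk 1 11 16 4 23 76 (by decide +kernel))
    (q_rel k h hk 1 13 18 8 16 93 (by decide +kernel))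
    (q_rel k h hk 1 13 24 11 16 90 (by decide +kernel))
    (q_rel k h hk 1 14 18 7 12 42 (by decide +kernel))
    (q_rel k h hk 1 14 20 5 5 71 (by decide +kernel))
    (q_rel k h hk 1 14 24 10 26 116 (by decide +kernel))
    (q_rel k h hk 2 5 16 11 76 83 (by decide +kernel))
    (q_rel k h hk 2 5 17 14 102 114 (by decide +kernel))
    (q_rel k h hk 2 5 19 12 2 46 (by decide +kernel))
    (q_rel k h hk 2 5 20 15 12 18 (by decide +kernel))
    (q_rel k h hk 2 5 22 9 7 33 (by decide +kernel))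
    (q_rel k h hk 2 6 22 8 86 103 (by decide +kernel))
    (q_rel k h hk 2 9 21 14 20 72 (by decide +kernel))
    (q_rel k h hk 2 11 19 6 31 112 (by decide +kernel))
    (q_rel k h hk 2 11 23 9 9 41 (by decide +kernel))
    (q_rel k h hk 2 12 23 8 26 103 (by decide +kernel))
    (q_rel k h hk 2 12 24 14 32 118 (by decide +kernel))
    (q_rel k h hk 2 14 18 8 54 56 (by decide +kernel))
    (q_rel k h hk 2 14 20 6 30 112 (by decide +kernel))
    (q_rel k h hk 2 15 21 8 5 91 (by decide +kernel))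
    (q_rel k h hk 2 15 24 11 14 97 (by decide +kernel))
    (q_rel k h hk 3 6 20 15 16 61 (by decide +kernel))
    (q_rel k h hk 3 9 22 6 23 89 (by decide +kernel))
    (q_rel k h hk 3 12 19 6 9 41 (by decide +kernel))
    (q_rel k h hk 3 12 23 9 59 109 (by decide +kernel))
    (q_rel k h hk 3 15 21 9 82 83 (by decide +kernel))
    (q_rel k h hk 3 15 24 12 27 52 (by decide +kernel))
  obtain ⟨a, h0, h1, h2, h3, h4, h5, h6, h7, h8, h9, h10, h11, h12, h13, h14, h15, h16, h17, h18, h19, h20, h21, h22, h23, h24, h25, h26, h27, h28, h29, h30, h31, h32, h33, h34, h35, h36, h37, h38, h39, h40, h41, h42, h43, h44, h45, h46, h47, h48, h49, h50, h51, h52, h53, h54, h55, h56, h57, h58, h59, h60, h61, h62, h63, h64, h65⟩ := hS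
  have key : ∀ p ∈ edL, (k (rtb p.1 p.2) p.1 = a p.2 + k (rtb p.2 p.2) p.2 - a p.1 ∧ k (rtb p.2 p.1) p.2 = a p.1 + k (rtb p.1 p.1) p.1 - a p.2) := by
    unfold edL
    simp only [List.forall_mem_cons]
    exact ⟨h0, h1, h2, h3, h4, h5, h6, h7, h8, h9, h10, h11, h12, h13, h14, h15, h16, h17, h18, h19, h20, h21, h22, h23, h24, h25, h26, h27, h28, h29, h30, h31, h32, h33, h34, h35, h36, h37, h38, h39, h40, h41, h42, h43, h44, h45, h46, h47, h48, h49, h50, h51, h52, h53, h54, h55, h56, h57, h58, h59, h60, h61, h62, h63, h64, h65, fun _ h => absurd h List.not_mem_nil⟩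
  refine ⟨a, fun y => a y + k (rtb y y) y, ?_⟩
  intro F hF x hx
  have hc := c_ed
  rw [List.all_eq_true] at hc
  have hc1 := hc F (List.mem_range.2 hF)
  rw [List.all_eq_true] at hc1
  have hc2 := hc1 x (List.mem_range.2 hx)
  rw [Bool.or_eq_true] at hc2
  rw [hk F hF x hx]
  rcases hc2 with hc2 | hc2
  · rw [Nat.beq_eq] at hc2
    rw [hc2]; ring
  · rw [List.any_eq_true] at hc2
    obtain ⟨p, hp, hp'⟩ := hc2
    rw [Bool.or_eq_true, Bool.and_eq_true, Bool.and_eq_true, Nat.beq_eq, Nat.beq_eq, Nat.beq_eq, Nat.beq_eq] at hp'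
    obtain ⟨k1, k2⟩ := key p hp
    rcases hp' with ⟨e1, e2⟩ | ⟨e1, e2⟩
    · rw [← e1, ← e2] at *
      linarith
    · rw [← e1, ← e2] at *
      linarith
end HB
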