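import Pool.Agent.Helper24.HB.N1
import Pool.Agent.Helper24.HB.Chk1
import Pool.Agent.Helper24.HB.Chk2
import Pool.Agent.Helper24.HB.Chk3
import Pool.Agent.Helper24.HB.K1
set_option autoImplicit false
noncomputable section
namespace HB

lemma all_lt {n : ℕ} {p : ℕ → Bool} (h : (List.range n).all p = true) {x : ℕ} (hx : x < n) : p x = true :=
  List.all_eq_true.1 h x (List.mem_range.2 hx)

lemma adj_mem {F G : ℕ} (hF : F < 120) (hG : G < 120) (h : adjb F G = true) : G ∈ nbl F := by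
  have h1 := c_nb F hF
  have h2 := all_lt h1 hG
  simp only [beq_iff_eq] at h2
  rw [h] at h2
  obtain ⟨H, hH, hHG⟩ := List.any_eq_true.1 h2.symm
  rw [Nat.beq_eq] at hHG
  rwa [hHG] at hH
lemma mem_adj {F G : ℕ} (hF : F < 120) (hG : G < 120) (h : G ∈ nbl F) : adjb F G = true := by
  have h1 := c_nb F hF
  have h2 := all_lt h1 hG
  simp only [beq_iff_eq] at h2
  rw [h2, List.any_eq_true]
  exact ⟨G, h, by rw [Nat.beq_eq]⟩

lemma bd (F x : ℕ) (hF : F < 120) (hx : x < 25) : actb F x < 25 ∧ actb F (actb F x) = x := by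
  have h := all_lt (all_lt c_bd hF) hx
  rw [Bool.and_eq_true, Nat.blt_eq, Nat.beq_eq] at h
  exact h
lemma trbd (x y k : ℕ) (hx : x < 25) (hy : y < 25) (hk : k < 5) : trb x y k < 5 ∧ trb y x (trb x y k) = k ∧ (x = y → trb x y k = k) := by
  have h := all_lt (all_lt (all_lt c_trbd hx) hy) hk
  simp only [Bool.and_eq_true, Nat.blt_eq, Nat.beq_eq, Bool.or_eq_true, Bool.not_eq_true'] at h
  refine ⟨h.1.1, h.1.2, fun e => ?_⟩
  rcases h.2 with h2 | h2
  · subst e
    simp at h2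
  · exact h2
lemma tr_same (x k : ℕ) (hx : x < 25) (hk : k < 5) : trb x x k = k := (trbd x x k hx hx hk).2.2 rfl
lemma comm_all (F G x : ℕ) (hF : F < 120) (hG : G ∈ nbl F) (hx : x < 25) : actb F (actb G x) = actb G (actb F x) ∧
    ∀ k < 5, trb (actb F x) (actb G (actb F x)) (trb x (actb F x) k) = trb (actb G x) (actb F (actb G x)) (trb x (actb G x) k) := by
  have h := all_lt (List.all_eq_true.1 (c_comm F hF) G hG) hx
  rw [Bool.or_eq_true] at h
  rcases h with h | h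
  · rw [Bool.and_eq_true, Nat.beq_eq, Nat.beq_eq] at h
    rw [h.1, h.2, h.1]
    exact ⟨rfl, fun _ _ => rfl⟩
  · rw [Bool.and_eq_true, Nat.beq_eq] at h
    refine ⟨h.1, fun k hk => ?_⟩
    have := all_lt h.2 hk
    rwa [Nat.beq_eq] at this

/-- the 25 point set with the action of the reflection group of the 120-cell -/
def W120 : WSet C120 (Fin 25) where
  act F x := ⟨actb F.1 x.1, (bd _ _ F.2 x.2).1⟩
  inv F x := Fin.ext (bd _ _ F.2 x.2).2
  comm F G h x := Fin.ext (comm_all _ _ _ F.2 (adj_mem F.2 G.2 h) x.2).1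

/-- position of root `k` at state `x` -/
def Z120 (x : Fin 25) (k : Fin 5) : ℂ := ⟨(zre x.1 k.1 : ℝ) / 2, ((zim x.1 k.1 : ℝ) - 2) / 2⟩

lemma land_bit (a b c d i : ℕ) : (Nat.land (Nat.land a b) (Nat.land c d)).testBit i =
    ((a.testBit i && b.testBit i) && (c.testBit i && d.testBit i)) := by
  have e : Nat.land (Nat.land a b) (Nat.land c d) = ((a &&& b) &&& (c &&& d)) := rfl
  rw [e, Nat.testBit_and, Nat.testBit_and, Nat.testBit_and]
lemma okc_bits (c : ℕ) (hc : c < 16) (h : okc c = true) : (c.testBit 0 = true ∨ c.testBit 1 = true) ∧ (c.testBit 2 = true ∨ c.testBit 3 = true) := by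
  interval_cases c <;> revert h <;> decide
lemma sg_spec (x k l : ℕ) (hx : x < 25) (hk : k < 5) (hl : l < 5) :
    ((sgb x k l).testBit 0 = true → zre x l ≤ zre x k) ∧ ((sgb x k l).testBit 1 = true → zre x k ≤ zre x l) ∧
    ((sgb x k l).testBit 2 = true → zre x k = zre x l → zim x l < zim x k) ∧
    ((sgb x k l).testBit 3 = true → zre x k = zre x l → zim x k < zim x l) := by
  have h := all_lt (all_lt (all_lt c_sg hx) hk) hl
  simp only [Bool.and_eq_true, beq_iff_eq] at h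
  obtain ⟨⟨⟨h0, h1⟩, h2⟩, h3⟩ := h
  rw [h0, h1, h2, h3]
  refine ⟨fun h => Nat.le_of_ble_eq_true h, fun h => Nat.le_of_ble_eq_true h, fun h e => ?_, fun h e => ?_⟩
  · rw [Bool.or_eq_true] at h
    rcases h with h | h
    · rw [e] at h; simp at h
    · rwa [Nat.blt_eq] at h
  · rw [Bool.or_eq_true] at h
    rcases h with h | h
    · rw [e] at h; simp at h
    · rwa [Nat.blt_eq] at h

theorem c_nlt : (List.range 120).all (fun F => (nbl F).all fun G => Nat.blt G 120) = true := by decide +kernel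
lemma nbl_lt {F G : ℕ} (hF : F < 120) (h : G ∈ nbl F) : G < 120 := by
  have := List.all_eq_true.1 (all_lt c_nlt hF) G h
  rwa [Nat.blt_eq] at this
lemma okq_all (F G x : ℕ) (hF : F < 120) (hG : G ∈ nbl F) (hx : x < 25) :
    okq x (actb F x) (actb G x) (actb G (actb F x)) = true := by
  have h := all_lt (List.all_eq_true.1 (c_u F hF) G hG) hx
  rw [Bool.or_eq_true] at h
  rcases h with h | h
  · rw [Bool.and_eq_true, Nat.beq_eq, Nat.beq_eq] at h
    rw [h.1, h.2]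
    exact all_lt c_q0 hx
  · rw [Nat.beq_eq] at h
    have hb1 := (bd F x hF hx).1
    have hb2 : actb G x < 25 := (bd G x (nbl_lt hF hG) hx).1
    have hb3 : actb G (actb F x) < 25 := (bd G _ (nbl_lt hF hG) hb1).1
    have hq := all_lt (all_lt (all_lt c_q hx) hb1) hb2
    rw [Bool.or_eq_true, h] at hq
    rcases hq with hq | hq
    · rw [Nat.beq_eq] at hq; omega
    · exact hq

lemma dif_spec (x : ℕ) (hx : x < 25) (k l : ℕ) (hk : k < 5) (hl : l < 5) :
    ((sgb x k l).testBit 0 = true → (0:ℝ) ≤ (zre x k : ℝ)/2 - (zre x l : ℝ)/2) ∧ ((sgb x k l).testBit 1 = true → (zre x k : ℝ)/2 - (zre x l : ℝ)/2 ≤ 0) ∧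
    ((sgb x k l).testBit 2 = true → (zre x k : ℝ)/2 - (zre x l : ℝ)/2 = 0 → 0 < ((zim x k : ℝ) - 2)/2 - ((zim x l : ℝ) - 2)/2) ∧
    ((sgb x k l).testBit 3 = true → (zre x k : ℝ)/2 - (zre x l : ℝ)/2 = 0 → ((zim x k : ℝ) - 2)/2 - ((zim x l : ℝ) - 2)/2 < 0) := by
  obtain ⟨h0, h1, h2, h3⟩ := sg_spec x k l hx hk hl
  refine ⟨fun h => ?_, fun h => ?_, fun h e => ?_, fun h e => ?_⟩
  · have : (zre x l : ℝ) ≤ zre x k := by exact_mod_cast h0 h
    linarith
  · have : (zre x k : ℝ) ≤ zre x l := by exact_mod_cast h1 h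
    linarith
  · have e' : zre x k = zre x l := by
      have : (zre x k : ℝ) = zre x l := by linarith
      exact_mod_cast this
    have : (zim x l : ℝ) < zim x k := by exact_mod_cast h2 h e'
    linarith
  · have e' : zre x k = zre x l := by
      have : (zre x k : ℝ) = zre x l := by linarith
      exact_mod_cast this
    have : (zim x k : ℝ) < zim x l := by exact_mod_cast h3 h e'
    linarith

lemma sgb_lt (x k l : ℕ) : sgb x k l < 16 := Nat.mod_lt _ (by norm_num)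

lemma lex_of_okq (x y z u : Fin 25) (k l k1 l1 k2 l2 k3 l3 : Fin 5) (hkl : k ≠ l)
    (e1 : (k1 : ℕ) = trb x y k) (e2 : (l1 : ℕ) = trb x y l) (e3 : (k2 : ℕ) = trb x z k) (e4 : (l2 : ℕ) = trb x z l)
    (e5 : (k3 : ℕ) = trb y u (trb x y k)) (e6 : (l3 : ℕ) = trb y u (trb x y l))
    (h : okq x y z u = true) :
    LexGood [Z120 x k - Z120 x l, Z120 y k1 - Z120 y l1, Z120 z k2 - Z120 z l2, Z120 u k3 - Z120 u l3] := by
  have h1 := all_lt (all_lt h k.2) l.2
  rw [Bool.or_eq_true, Nat.beq_eq] at h1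
  have h2 := h1.resolve_left (fun e => hkl (Fin.ext e))
  rw [← e5, ← e6, ← e1, ← e2, ← e3, ← e4] at h2
  have hlt : Nat.land (Nat.land (sgb x k l) (sgb y k1 l1)) (Nat.land (sgb z k2 l2) (sgb u k3 l3)) < 16 := by
    have : Nat.land (Nat.land (sgb x k l) (sgb y k1 l1)) (Nat.land (sgb z k2 l2) (sgb u k3 l3)) ≤ Nat.land (sgb x k l) (sgb y k1 l1) := Nat.and_le_left
    have h' : Nat.land (sgb x k l) (sgb y k1 l1) ≤ sgb x k l := Nat.and_le_left
    have := sgb_lt x k l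
    omega
  obtain ⟨ha, hb⟩ := okc_bits _ hlt h2
  simp only [land_bit, Bool.and_eq_true] at ha hb
  obtain ⟨x0, x1, x2, x3⟩ := dif_spec x x.2 k l k.2 l.2
  obtain ⟨y0, y1, y2, y3⟩ := dif_spec y y.2 k1 l1 k1.2 l1.2
  obtain ⟨z0, z1, z2, z3⟩ := dif_spec z z.2 k2 l2 k2.2 l2.2
  obtain ⟨u0, u1, u2, u3⟩ := dif_spec u u.2 k3 l3 k3.2 l3.2
  constructor
  · rcases ha with ⟨⟨a, b⟩, c, d⟩ | ⟨⟨a, b⟩, c, d⟩
    · left
      simp only [List.forall_mem_cons]
      exact ⟨x0 a, y0 b, z0 c, u0 d, fun _ h => absurd h List.not_mem_nil⟩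
    · right
      simp only [List.forall_mem_cons]
      exact ⟨x1 a, y1 b, z1 c, u1 d, fun _ h => absurd h List.not_mem_nil⟩
  · rcases hb with ⟨⟨a, b⟩, c, d⟩ | ⟨⟨a, b⟩, c, d⟩
    · left
      simp only [List.forall_mem_cons]
      exact ⟨x2 a, y2 b, z2 c, u2 d, fun _ h => absurd h List.not_mem_nil⟩
    · right
      simp only [List.forall_mem_cons]
      exact ⟨x3 a, y3 b, z3 c, u3 d, fun _ h => absurd h List.not_mem_nil⟩

/-- transport as a function on `Fin 5` -/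
def T120 (x y : Fin 25) (k : Fin 5) : Fin 5 := ⟨trb x y k, (trbd _ _ _ x.2 y.2 k.2).1⟩

lemma nbl_adj (F : ℕ) (hF : F < 120) : ∃ G < 120, adjb F G = true := by
  have hm : (nbN >>> (7 * (12 * F + 0))) % 128 ∈ nbl F := by
    unfold nbl
    exact List.mem_map_of_mem (List.mem_range.2 (by norm_num))
  exact ⟨_, nbl_lt hF hm, mem_adj hF (nbl_lt hF hm) hm⟩

/-- the combinatorial data over the 120-cell -/
def D120 : Comb C120 (Fin 25) where
  W := W120
  tr := T120
  Z := Z120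
  tr_self s k := Fin.ext (tr_same _ _ s.2 k.2)
  tr_inv i s k := Fin.ext (trbd _ _ _ s.2 (W120.act i s).2 k.2).2.1
  tr_sq i j h s k := Fin.ext ((comm_all _ _ _ i.2 (adj_mem i.2 j.2 h) s.2).2 k.1 k.2)
  tri i j l h1 h2 h3 s := by
    have h := c_tri i.1 i.2
    have h' := List.all_eq_true.1 (List.all_eq_true.1 h _ (adj_mem i.2 j.2 h1)) _ (adj_mem i.2 l.2 h3)
    have hjl : ((nbl j.1).any fun K => Nat.beq K l.1) = true := by
      rw [List.any_eq_true]; exact ⟨l.1, adj_mem j.2 l.2 h2, by rw [Nat.beq_eq]⟩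
    simp only [hjl, Bool.not_true, Bool.false_or] at h'
    have h'' := all_lt h' s.2
    simp only [Bool.or_eq_true, Nat.beq_eq] at h''
    have ev : ∀ f : Fin 120, (W120.act f s).1 = actb f.1 s.1 := fun _ => rfl
    simp only [Fin.ext_iff, ev]
    tauto
  nbr i := by
    obtain ⟨G, hG, h⟩ := nbl_adj i.1 i.2
    exact ⟨⟨G, hG⟩, h⟩
  pos i j h s k l hkl := by
    apply lex_of_okq s (W120.act i s) (W120.act j s) (W120.act j (W120.act i s)) k l _ _ _ _ _ _ hkl rfl rfl rfl rfl rfl rfl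
    exact okq_all _ _ _ i.2 (adj_mem i.2 j.2 h) s.2

def evW : List (List ℕ) := [[], [22, 11], [30, 22, 12, 11], [23, 7, 52, 11], [11, 0], [61, 12, 11, 0], [23, 52, 11, 0], [52, 0], [19, 22, 11, 0], [7, 52, 11, 0], [45, 0], [23, 22, 11, 0], [27, 45, 12, 0], [12, 0], [22, 12, 11, 0], [52, 45, 12, 0], [23, 11], [12, 11], [73, 12], [46, 61, 12, 11], [64, 22, 12, 11], [20, 22, 12, 11], [52, 11], [27, 45], [45, 12]]
def odW : List (List ℕ) := [[0], [22, 11, 0], [30, 22, 12, 11, 0], [23, 7, 52, 11, 0], [11], [61, 12, 11], [23, 52, 11], [52], [19, 22, 11], [7, 52, 11], [45], [23, 22, 11], [27, 45, 12], [12], [22, 12, 11], [52, 45, 12], [23, 11, 0], [12, 11, 0], [73, 12, 0], [46, 61, 12, 11, 0], [64, 22, 12, 11, 0], [20, 22, 12, 11, 0], [52, 11, 0], [27, 45, 0], [45, 12, 0]]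
def mw1 : List ℕ := [52, 7, 22, 11]
def mw2 : List ℕ := [12, 16, 85, 45]

theorem c_words : (List.range 25).all (fun x => (evW.getD x []).all (fun F => Nat.blt F 120) && (odW.getD x []).all (fun F => Nat.blt F 120) &&
   Nat.beq ((evW.getD x []).foldr actb 0) x && Nat.beq ((odW.getD x []).foldr actb 0) x && Nat.beq ((evW.getD x []).length % 2) 0 &&
   Nat.beq ((odW.getD x []).length % 2) 1) = true := by decide +kernel

def toF (n : ℕ) : Fin 120 := Fin.ofNat 120 n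
lemma toF_val {n : ℕ} (h : n < 120) : (toF n).1 = n := by simp [toF, Nat.mod_eq_of_lt h]
lemma tau_toF (w : List ℕ) (hw : ∀ F ∈ w, F < 120) (s : Fin 25) : (W120.tau (w.map toF) s).1 = w.foldr actb s.1 := by
  induction w with
  | nil => rfl
  | cons F w ih =>
    rw [List.map_cons, tau_cons, List.foldr_cons, ← ih (fun G hG => hw G (List.mem_cons_of_mem _ hG))]
    change actb (toF F).1 _ = _
    rw [toF_val (hw F List.mem_cons_self)]
theorem htr120 (s : Fin 25) : (∃ w : List (Fin 120), Even w.length ∧ W120.tau w 0 = s) ∧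
    (∃ w : List (Fin 120), Odd w.length ∧ W120.tau w 0 = s) := by
  have h := all_lt c_words s.2
  simp only [Bool.and_eq_true, Nat.beq_eq] at h
  obtain ⟨⟨⟨⟨⟨h1, h2⟩, h3⟩, h4⟩, h5⟩, h6⟩ := h
  rw [List.all_eq_true] at h1 h2
  constructor
  · refine ⟨(evW.getD s.1 []).map toF, ?_, Fin.ext ?_⟩
    · rw [List.length_map]; exact Nat.even_iff.2 h5
    · rw [tau_toF _ (fun F hF => by have := h1 F hF; rwa [Nat.blt_eq] at this)]; exact h3
  · refine ⟨(odW.getD s.1 []).map toF, ?_, Fin.ext ?_⟩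
    · rw [List.length_map]; exact Nat.odd_iff.2 h6
    · rw [tau_toF _ (fun F hF => by have := h2 F hF; rwa [Nat.blt_eq] at this)]; exact h4
theorem mono120 (k : Fin 5) : D120.rtau [52, 7, 22, 11] (0, k) ≠ (0, k) ∨ D120.rtau [12, 16, 85, 45] (0, k) ≠ (0, k) := by
  revert k
  decide +kernel
theorem mono120a : W120.tau [52, 7, 22, 11] 0 = 0 ∧ W120.tau [12, 16, 85, 45] 0 = 0 := by decide +kernel

theorem k120 (k : Fin 120 → Fin 25 → ℤ)
    (h : ∀ i j, C120.adj i j → ∀ s, k i s - k j (W120.act j (W120.act i s)) + k i (W120.act j (W120.act i s)) - k j s = 0) :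
    ∃ a b : Fin 25 → ℤ, ∀ i s, k i s = b (W120.act i s) - a s := by
  let kk : ℕ → ℕ → ℤ := fun F x => k (Fin.ofNat 120 F) (Fin.ofNat 25 x)
  have e1 : ∀ F x (hF : F < 120) (hx : x < 25), kk F x = k ⟨F, hF⟩ ⟨x, hx⟩ := by
    intro F x hF hx
    have a1 : Fin.ofNat 120 F = ⟨F, hF⟩ := Fin.ext (Nat.mod_eq_of_lt hF)
    have a2 : Fin.ofNat 25 x = ⟨x, hx⟩ := Fin.ext (Nat.mod_eq_of_lt hx)
    simp only [kk, a1, a2]
  obtain ⟨a, b, hab⟩ := k_nat kk (by
    intro F hF G hG x hx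
    have hG' := nbl_lt hF hG
    have r := h ⟨F, hF⟩ ⟨G, hG'⟩ (mem_adj hF hG' hG) ⟨x, hx⟩
    have b1 := (bd F x hF hx).1
    have b2 := (bd G _ hG' b1).1
    rw [e1 F x hF hx, e1 G _ hG' b2, e1 F _ hF b2, e1 G x hG' hx]
    exact r) (fun F hF x hx => (bd F x hF hx).2)
  refine ⟨fun x => a x.1, fun x => b x.1, ?_⟩
  intro i s
  have := hab i.1 i.2 s.1 s.2
  rw [e1 i.1 s.1 i.2 s.2] at this
  exact this
end HB
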