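import Pool.Agent.Helper24.HB.Comb
set_option autoImplicit false
noncomputable section
namespace HB
namespace D1
theorem descent_coeff {X : Type*} [TopologicalSpace X] (s : Finset (Fin 5))
    (F : Fin 5 → X → Polynomial ℂ) (h : ∀ k n, Continuous fun x => (F k x).coeff n) :
    ∀ n, Continuous fun x => (∏ k ∈ s, F k x).coeff n := by
  classical
  induction s using Finset.induction_on with
  | empty =>
    intro n
    simp only [Finset.prod_empty]
    exact continuous_const
  | insert a s ha ih =>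
    intro n
    simp only [Finset.prod_insert ha, Polynomial.coeff_mul]
    exact continuous_finset_sum _ fun x _ => (h a x.1).mul (ih x.2)

/-- the root polynomial -/
def descent_Q {S : Type} (b : (Fin 5 → ℝ) → S → Fin 5 → ℂ) (s : S) (p : Fin 5 → ℝ) :
    Polynomial ℂ := ∏ k : Fin 5, (Polynomial.X - Polynomial.C (b p s k))

theorem descent_Q_cont {S : Type} (b : (Fin 5 → ℝ) → S → Fin 5 → ℂ)
    (hb1 : ∀ s k, Continuous fun p => b p s k) (s : S) (n : ℕ) :
    Continuous fun p => (descent_Q b s p).coeff n := by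
  unfold descent_Q
  refine descent_coeff Finset.univ (fun k p => Polynomial.X - Polynomial.C (b p s k)) ?_ n
  intro k m
  simp only [Polynomial.coeff_sub, Polynomial.coeff_C]
  refine continuous_const.sub ?_
  by_cases hm : m = 0
  · simp only [hm, if_true]
    exact hb1 s k
  · simp only [hm, if_false]
    exact continuous_const

theorem descent_Q_act {ι : Type} (C : Cell ι) {S : Type} (D : Comb C S)
    (b : (Fin 5 → ℝ) → S → Fin 5 → ℂ)
    (hb2 : ∀ p ∈ C.P, ∀ i, B p (C.e i) = 0 → ∀ s k,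
      b p (D.W.act i s) (D.tr s (D.W.act i s) k) = b p s k)
    (p : Fin 5 → ℝ) (hp : p ∈ C.P) (i : ι) (hi : B p (C.e i) = 0) (s : S) :
    descent_Q b (D.W.act i s) p = descent_Q b s p := by
  unfold descent_Q
  have hinj : Function.Injective (fun k => D.tr s (D.W.act i s) k) :=
    Function.LeftInverse.injective (g := fun k => D.tr (D.W.act i s) s k)
      (fun k => D.tr_inv i s k)
  have hbij : Function.Bijective (fun k => D.tr s (D.W.act i s) k) :=
    Finite.injective_iff_bijective.1 hinj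
  rw [← hbij.prod_comp (fun k => (Polynomial.X - Polynomial.C (b p (D.W.act i s) k)))]
  exact Finset.prod_congr rfl fun k _ => by rw [hb2 p hp i hi s k]

theorem descent_Q_tau {ι : Type} (C : Cell ι) {S : Type} (D : Comb C S)
    (b : (Fin 5 → ℝ) → S → Fin 5 → ℂ)
    (hb2 : ∀ p ∈ C.P, ∀ i, B p (C.e i) = 0 → ∀ s k,
      b p (D.W.act i s) (D.tr s (D.W.act i s) k) = b p s k)
    (p : Fin 5 → ℝ) (hp : p ∈ C.P) (v : List ι) (hv : ∀ i ∈ v, B p (C.e i) = 0) (s : S) :
    descent_Q b (D.W.tau v s) p = descent_Q b s p := by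
  induction v with
  | nil => rfl
  | cons i v ih =>
    rw [tau_cons, descent_Q_act C D b hb2 p hp i (hv i List.mem_cons_self),
      ih fun j hj => hv j (List.mem_cons_of_mem _ hj)]

theorem descent_rho_fix {ι : Type} (C : Cell ι) (p : Fin 5 → ℝ) (v : List ι)
    (hv : ∀ i ∈ v, B p (C.e i) = 0) : C.rho v p = p := by
  induction v with
  | nil => rfl
  | cons i v ih =>
    rw [rho_cons, ih fun j hj => hv j (List.mem_cons_of_mem _ hj)]
    unfold refl
    rw [hv i List.mem_cons_self]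
    simp

theorem descent_finite (ι : Type) [Fintype ι] : {v : List ι | v.Nodup}.Finite := by
  classical
  have : Finite {l : List ι // l.Nodup} := Finite.of_fintype _
  exact Set.finite_coe_iff.1 this

/-- Descent of the root polynomials to all of hyperbolic space. -/
theorem descent {ι : Type} [Fintype ι] (C : Cell ι) {S : Type} (D : Comb C S)
    (b : (Fin 5 → ℝ) → S → Fin 5 → ℂ) (hb1 : ∀ s k, Continuous fun p => b p s k)
    (hb2 : ∀ p ∈ C.P, ∀ i, B p (C.e i) = 0 → ∀ s k, b p (D.W.act i s) (D.tr s (D.W.act i s) k) = b p s k)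
    (hcov : ∀ q ∈ Hyp, ∃ w : List ι, C.rho w q ∈ C.P)
    (hT : ∀ (w : List ι) (p : Fin 5 → ℝ), p ∈ C.P → C.rho w p ∈ C.P → C.rho w p = p ∧
      ∃ v : List ι, (∀ i ∈ v, B p (C.e i) = 0) ∧ (∀ x, C.rho w x = C.rho v x) ∧ (∀ s, D.W.tau w s = D.W.tau v s))
    (hloc : ∀ p ∈ C.P, ∃ ε > 0, ∀ q ∈ Hyp, dist q p < ε → ∃ v : List ι, v.Nodup ∧ (∀ i ∈ v, B p (C.e i) = 0) ∧ C.rho v q ∈ C.P) :
    ∃ Pol : S → (Fin 5 → ℝ) → Polynomial ℂ,
      (∀ s n, ContinuousOn (fun q => (Pol s q).coeff n) Hyp) ∧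
      (∀ s i, ∀ q ∈ Hyp, Pol (D.W.act i s) (refl (C.e i) q) = Pol s q) ∧
      (∀ s, ∀ q ∈ C.P, Pol s q = ∏ k : Fin 5, (Polynomial.X - Polynomial.C (b q s k))) := by
  classical
  choose w0 hw0 using hcov
  let Pol : S → (Fin 5 → ℝ) → Polynomial ℂ := fun s q =>
    if h : q ∈ Hyp then descent_Q b (D.W.tau (w0 q h) s) (C.rho (w0 q h) q) else 0
  have key : ∀ (s : S) (q : Fin 5 → ℝ) (hq : q ∈ Hyp) (w : List ι), C.rho w q ∈ C.P →
      Pol s q = descent_Q b (D.W.tau w s) (C.rho w q) := by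
    intro s q hq w hw
    have h1 : Pol s q = descent_Q b (D.W.tau (w0 q hq) s) (C.rho (w0 q hq) q) := dif_pos hq
    rw [h1]
    have h2 : C.rho (w0 q hq ++ w.reverse) (C.rho w q) = C.rho (w0 q hq) q := by
      rw [rho_append, rho_reverse]
    obtain ⟨h3, v, hv1, -, hv3⟩ := hT (w0 q hq ++ w.reverse) (C.rho w q) hw (by
      rw [h2]
      exact hw0 q hq)
    rw [h2] at h3
    have h4 : D.W.tau (w0 q hq) s = D.W.tau v (D.W.tau w s) := by
      rw [← hv3, tau_append, tau_reverse]
    rw [h3, h4]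
    exact descent_Q_tau C D b hb2 _ hw v hv1 _
  refine ⟨Pol, ?_, ?_, ?_⟩
  · intro s n q0 hq0
    set w := w0 q0 hq0 with hw
    have hp0 : C.rho w q0 ∈ C.P := hw0 q0 hq0
    obtain ⟨ε, hε, hloc0⟩ := hloc _ hp0
    have hval : Pol s q0 = descent_Q b (D.W.tau w s) (C.rho w q0) := key s q0 hq0 w hp0
    intro U hU
    change ∀ᶠ q in nhdsWithin q0 Hyp, (Pol s q).coeff n ∈ U
    have hfin : {v : List ι | v.Nodup ∧ ∀ i ∈ v, B (C.rho w q0) (C.e i) = 0}.Finite :=
      (descent_finite ι).subset fun v hv => hv.1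
    have h1 : ∀ᶠ q in nhds q0, ∀ v ∈ {v : List ι | v.Nodup ∧ ∀ i ∈ v, B (C.rho w q0) (C.e i) = 0},
        (descent_Q b (D.W.tau v (D.W.tau w s)) (C.rho v (C.rho w q))).coeff n ∈ U := by
      rw [Filter.eventually_all_finite hfin]
      intro v hv
      have hc : Continuous fun q =>
          (descent_Q b (D.W.tau v (D.W.tau w s)) (C.rho v (C.rho w q))).coeff n :=
        (descent_Q_cont b hb1 _ n).comp ((continuous_rho C v).comp (continuous_rho C w))
      have hq : (descent_Q b (D.W.tau v (D.W.tau w s)) (C.rho v (C.rho w q0))).coeff n =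
          (Pol s q0).coeff n := by
        rw [hval, descent_rho_fix C _ v hv.2, descent_Q_tau C D b hb2 _ hp0 v hv.2]
      refine hc.continuousAt.eventually ?_
      change U ∈ nhds ((descent_Q b (D.W.tau v (D.W.tau w s)) (C.rho v (C.rho w q0))).coeff n)
      rw [hq]
      exact hU
    have h2 : ∀ᶠ q in nhds q0, dist (C.rho w q) (C.rho w q0) < ε := by
      have hc : Continuous fun q => dist (C.rho w q) (C.rho w q0) :=
        (continuous_rho C w).dist continuous_const
      exact hc.continuousAt.eventually_lt_const (by simpa using hε)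
    filter_upwards [mem_nhdsWithin_of_mem_nhds h1, mem_nhdsWithin_of_mem_nhds h2,
      self_mem_nhdsWithin] with q hq1 hq2 hq3
    obtain ⟨v, hv1, hv2, hv3⟩ := hloc0 (C.rho w q) (rho_mem_Hyp C w hq3) hq2
    have h3 := hq1 v ⟨hv1, hv2⟩
    rw [← rho_append, ← tau_append] at h3
    rw [key s q hq3 (v ++ w) (by rw [rho_append]; exact hv3)]
    exact h3
  · intro s i q hq
    have h1 : C.rho (w0 q hq ++ [i]) (refl (C.e i) q) = C.rho (w0 q hq) q := by
      rw [rho_append, rho_cons, rho_nil, refl_refl _ _ (C.self i)]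
    rw [key _ _ (refl_mem_Hyp (C.self i) hq) (w0 q hq ++ [i]) (by rw [h1]; exact hw0 q hq),
      key s q hq (w0 q hq) (hw0 q hq), h1, tau_append, tau_cons, tau_nil, D.W.inv]
  · intro s q hq
    exact key s q hq.1 [] hq
end D1
end HB
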