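import Pool.Agent.Helper24.HB.Comb
set_option autoImplicit false
noncomputable section
namespace HB
namespace G12
lemma tits_B_refl_self {e x : Fin 5 → ℝ} (he : B e e = 1) : B (refl e x) e = - B x e := by
  unfold refl
  rw [B_sub_left, B_smul_left, he]
  ring
lemma tits_B_refl_orth {e f x : Fin 5 → ℝ} (h : B e f = 0) : B (refl e x) f = B x f := by
  unfold refl
  rw [B_sub_left, B_smul_left, h]
  ring
lemma tits_neg {ι : Type} (C : Cell ι) (i j : ι) (hij : i ≠ j) (hadj : ¬ C.adj i j)
    (z : Fin 5 → ℝ) (hz : z ∈ Hyp) (hj : 0 ≤ B z (C.e j)) : B z (C.e i) ≤ 0 := by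
  set u : Fin 5 → ℝ := C.e i + C.e j with hu
  have huu : B u u ≤ -1 := by
    have h1 := C.far i j hij hadj
    rw [hu, B_add_left, B_add_right, B_add_right, C.self, C.self, B_symm (C.e j) (C.e i)]
    linarith
  have hou : B o u < 0 := by
    rw [hu, B_add_right]
    have h1 := C.cen i
    have h2 := C.cen j
    linarith
  have hu4 : 0 < u 4 := by
    rw [B_o_left] at hou
    linarith
  set s : ℝ := √(-B u u) with hs
  have hspos : 0 < s := Real.sqrt_pos.2 (by linarith)
  have hss : s * s = -B u u := Real.mul_self_sqrt (by linarith)
  have hmem : (s⁻¹) • u ∈ Hyp := by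
    refine ⟨?_, ?_⟩
    · rw [B_smul_left, B_smul_right]
      have : B u u = -(s * s) := by linarith
      rw [this]
      field_simp
    · simp only [Pi.smul_apply, smul_eq_mul]
      positivity
  have h3 := B_le_neg_one hz hmem
  rw [B_smul_right] at h3
  have h4 : B z u < 0 := by
    by_contra hcon
    push Not at hcon
    have : 0 ≤ s⁻¹ * B z u := mul_nonneg (inv_nonneg.2 hspos.le) hcon
    linarith
  rw [hu, B_add_right] at h4
  linarith

/-- Tits' lemma for right-angled reflection groups. -/
theorem tits {ι : Type} (C : Cell ι) {R : Type} (W : WSet C R) :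
    ∀ (n : ℕ) (w : List ι), w.length ≤ n → ∀ i, (∀ y ∈ C.P, B (C.rho w y) (C.e i) ≤ 0) ∨
      ∃ w' : List ι, w'.length + 1 ≤ n ∧ (∀ x, C.rho w x = refl (C.e i) (C.rho w' x)) ∧
        (∀ r, W.tau w r = W.act i (W.tau w' r)) := by
  classical
  intro n
  induction n with
  | zero =>
    intro w hw i
    have : w = [] := List.length_eq_zero_iff.1 (by omega)
    rw [this]
    left
    intro y hy
    exact hy.2 i
  | succ n ih =>
    intro w hw i
    rcases w with _ | ⟨j, w1⟩
    · left
      intro y hy
      exact hy.2 i
    · rw [List.length_cons] at hw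
      have hw1 : w1.length ≤ n := by omega
      by_cases hij : i = j
      · right
        refine ⟨w1, by omega, ?_, ?_⟩
        · intro x
          rw [rho_cons, hij]
        · intro r
          rw [tau_cons, hij]
      · rcases ih w1 hw1 j with hl | ⟨w2, hw2, hr2, ht2⟩
        · by_cases hadj : C.adj j i
          · rcases ih w1 hw1 i with hl' | ⟨w2, hw2, hr2, ht2⟩
            · left
              intro y hy
              rw [rho_cons, tits_B_refl_orth (C.orth j i hadj)]
              exact hl' y hy
            · right
              refine ⟨j :: w2, ?_, ?_, ?_⟩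
              · rw [List.length_cons]
                omega
              · intro x
                rw [rho_cons, hr2, rho_cons, refl_comm _ _ _ (C.orth j i hadj)]
              · intro r
                rw [tau_cons, ht2, tau_cons, W.comm j i hadj]
          · left
            intro y hy
            have hz : C.rho (j :: w1) y ∈ Hyp := rho_mem_Hyp C _ hy.1
            apply tits_neg C i j hij (fun h => hadj (C.symm _ _ h)) _ hz
            rw [rho_cons, tits_B_refl_self (C.self j)]
            have := hl y hy
            linarith
        · have hr3 : ∀ x, C.rho (j :: w1) x = C.rho w2 x := by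
            intro x
            rw [rho_cons, hr2, refl_refl _ _ (C.self j)]
          have ht3 : ∀ r, W.tau (j :: w1) r = W.tau w2 r := by
            intro r
            rw [tau_cons, ht2, W.inv]
          rcases ih w2 (by omega) i with hl' | ⟨w3, hw3, hr4, ht4⟩
          · left
            intro y hy
            rw [hr3]
            exact hl' y hy
          · right
            refine ⟨w3, by omega, ?_, ?_⟩
            · intro x
              rw [hr3, hr4]
            · intro r
              rw [ht3, ht4]
/-- a point of the cell mapped into the cell is fixed, by a word in the walls through it -/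
theorem tits_fix {ι : Type} (C : Cell ι) {R : Type} (W : WSet C R) (w : List ι) (p : Fin 5 → ℝ)
    (hp : p ∈ C.P) (hw : C.rho w p ∈ C.P) :
    C.rho w p = p ∧ ∃ v : List ι, (∀ i ∈ v, B p (C.e i) = 0) ∧ (∀ x, C.rho w x = C.rho v x) ∧
      (∀ r, W.tau w r = W.tau v r) := by
  obtain ⟨n, hn⟩ : ∃ n, w.length ≤ n := ⟨_, le_rfl⟩
  induction n generalizing w with
  | zero =>
    have : w = [] := List.length_eq_zero_iff.1 (by omega)
    subst this
    exact ⟨rfl, [], by simp, fun _ => rfl, fun _ => rfl⟩
  | succ n ih =>
    rcases w with _ | ⟨i, w1⟩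
    · exact ⟨rfl, [], by simp, fun _ => rfl, fun _ => rfl⟩
    · rw [List.length_cons] at hn
      rcases tits C W w1.length w1 le_rfl i with hl | ⟨w2, hw2, hr2, ht2⟩
      · have h1 := hl p hp
        have h2 := hw.2 i
        rw [rho_cons, tits_B_refl_self (C.self i)] at h2
        have h3 : B (C.rho w1 p) (C.e i) = 0 := by linarith
        have h4 : C.rho (i :: w1) p = C.rho w1 p := by
          rw [rho_cons]
          unfold refl
          rw [h3, mul_zero, zero_smul, sub_zero]
        rw [h4] at hw
        obtain ⟨h5, v, hv1, hv2, hv3⟩ := ih w1 hw (by omega)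
        refine ⟨by rw [h4, h5], i :: v, ?_, ?_, ?_⟩
        · intro j hj
          rcases List.mem_cons.1 hj with rfl | hj
          · rw [h5] at h3
            exact h3
          · exact hv1 j hj
        · intro x
          rw [rho_cons, rho_cons, hv2]
        · intro r
          rw [tau_cons, tau_cons, hv3]
      · have hr3 : ∀ x, C.rho (i :: w1) x = C.rho w2 x := by
          intro x
          rw [rho_cons, hr2, refl_refl _ _ (C.self i)]
        have ht3 : ∀ r, W.tau (i :: w1) r = W.tau w2 r := by
          intro r
          rw [tau_cons, ht2, W.inv]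
        rw [hr3] at hw
        obtain ⟨h5, v, hv1, hv2, hv3⟩ := ih w2 hw (by omega)
        refine ⟨by rw [hr3, h5], v, hv1, ?_, ?_⟩
        · intro x
          rw [hr3, hv2]
        · intro r
          rw [ht3, hv3]
end G12
end HB
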