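import Pool.Agent.Helper24.HB.Comb
set_option autoImplicit false
noncomputable section
namespace HB
namespace G3
theorem lc_orth {ι : Type} (C : Cell ι) {p : Fin 5 → ℝ} (hp : p ∈ Hyp) {i j : ι} (hij : i ≠ j)
    (hi : B p (C.e i) = 0) (hj : B p (C.e j) = 0) : B (C.e i) (C.e j) = 0 := by
  by_cases ha : C.adj i j
  · exact C.orth i j ha
  · exfalso
    have hf := C.far i j hij ha
    set c := -(2 + 2 * B (C.e i) (C.e j)) with hc
    have hc1 : 1 ≤ c := by rw [hc]; linarith
    have hsq : 0 < Real.sqrt c := Real.sqrt_pos.2 (by linarith)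
    have hss : Real.sqrt c * Real.sqrt c = c := Real.mul_self_sqrt (by linarith)
    set y := (Real.sqrt c)⁻¹ • (C.e i + C.e j) with hy
    have hyy : B y y = -1 := by
      rw [hy, B_smul_left, B_smul_right, B_add_left, B_add_right, B_add_right, C.self i, C.self j,
        B_symm (C.e j) (C.e i)]
      have h1 : 1 + B (C.e i) (C.e j) + (B (C.e i) (C.e j) + 1) = -c := by rw [hc]; ring
      rw [h1]
      have h2 : (Real.sqrt c)⁻¹ * ((Real.sqrt c)⁻¹ * -c) = -(c / (Real.sqrt c * Real.sqrt c)) := by
        field_simp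
      rw [h2, hss, div_self (by linarith)]
    have hyo : B y o < 0 := by
      rw [hy, B_smul_left, B_add_left, B_symm _ o, B_symm _ o]
      have h1 := C.cen i
      have h2 := C.cen j
      exact mul_neg_of_pos_of_neg (inv_pos.2 hsq) (by linarith)
    have hyH := mem_Hyp_of_neg hyy o_mem hyo
    have h3 := B_le_neg_one hp hyH
    rw [hy, B_smul_right, B_add_right, hi, hj] at h3
    norm_num at h3

theorem lc_rho {ι : Type} (C : Cell ι) {p : Fin 5 → ℝ} (hp : p ∈ Hyp) (v : List ι) (hv : v.Nodup)
    (hN : ∀ i ∈ v, B p (C.e i) = 0) (q : Fin 5 → ℝ) (i : ι) (hi : B p (C.e i) = 0) :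
    (i ∈ v → B (C.rho v q) (C.e i) = - B q (C.e i)) ∧
    (i ∉ v → B (C.rho v q) (C.e i) = B q (C.e i)) := by
  induction v with
  | nil => simp
  | cons j w ih =>
    rw [List.nodup_cons] at hv
    have ih' := ih hv.2 (fun i hi => hN i (List.mem_cons_of_mem _ hi))
    have hj : B p (C.e j) = 0 := hN j List.mem_cons_self
    have e1 : B (C.rho (j :: w) q) (C.e i) =
        B (C.rho w q) (C.e i) - 2 * B (C.rho w q) (C.e j) * B (C.e j) (C.e i) := by
      rw [rho_cons, refl, B_sub_left, B_smul_left]
    by_cases hij : i = j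
    · subst hij
      constructor
      · intro _
        rw [e1, C.self i, ih'.2 hv.1]
        ring
      · intro h
        exact absurd List.mem_cons_self h
    · rw [e1, lc_orth C hp (Ne.symm hij) hj hi, mul_zero, sub_zero]
      constructor
      · intro h
        exact ih'.1 ((List.mem_cons.1 h).resolve_left hij)
      · intro h
        exact ih'.2 (fun h' => h (List.mem_cons_of_mem _ h'))

theorem lc_fix {ι : Type} (C : Cell ι) {p : Fin 5 → ℝ} (v : List ι)
    (hN : ∀ i ∈ v, B p (C.e i) = 0) : C.rho v p = p := by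
  induction v with
  | nil => rfl
  | cons j w ih =>
    rw [rho_cons, ih (fun i hi => hN i (List.mem_cons_of_mem _ hi)), refl, hN j List.mem_cons_self]
    simp


theorem local_cover {ι : Type} [Fintype ι] (C : Cell ι) {p : Fin 5 → ℝ} (hp : p ∈ C.P) :
    ∃ ε > 0, ∀ q ∈ Hyp, dist q p < ε → ∃ v : List ι, v.Nodup ∧ (∀ i ∈ v, B p (C.e i) = 0) ∧ C.rho v q ∈ C.P := by
  classical
  have hpH := hp.1
  have hev : ∀ᶠ q in nhds p, ∀ s : Finset ι, ∀ i : ι, (∀ j ∈ s, B p (C.e j) = 0) →
      B p (C.e i) ≠ 0 → B (C.rho s.toList q) (C.e i) < 0 := by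
    rw [Filter.eventually_all]
    intro s
    rw [Filter.eventually_all]
    intro i
    by_cases h1 : ∀ j ∈ s, B p (C.e j) = 0
    · by_cases h2 : B p (C.e i) = 0
      · exact Filter.Eventually.of_forall fun q _ h => absurd h2 h
      · have h3 : B p (C.e i) < 0 := lt_of_le_of_ne (hp.2 i) h2
        have hc : Continuous fun q => B (C.rho s.toList q) (C.e i) :=
          continuous_B (continuous_rho C _) continuous_const
        have h4 : B (C.rho s.toList p) (C.e i) < 0 := by
          rw [lc_fix C _ (fun j hj => h1 j (Finset.mem_toList.1 hj))]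
          exact h3
        have h5 := (hc.tendsto p).eventually (gt_mem_nhds h4)
        filter_upwards [h5] with q hq _ _ using hq
    · exact Filter.Eventually.of_forall fun q h => absurd h h1
  obtain ⟨ε, hε, hball⟩ := Metric.eventually_nhds_iff.1 hev
  refine ⟨ε, hε, ?_⟩
  intro q hq hd
  set s : Finset ι := Finset.univ.filter (fun i => B p (C.e i) = 0 ∧ 0 < B q (C.e i)) with hs
  have hsN : ∀ j ∈ s, B p (C.e j) = 0 := fun j hj => (Finset.mem_filter.1 hj).2.1
  have hsN' : ∀ j ∈ s.toList, B p (C.e j) = 0 := fun j hj => hsN j (Finset.mem_toList.1 hj)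
  refine ⟨s.toList, Finset.nodup_toList s, hsN', rho_mem_Hyp C _ hq, ?_⟩
  intro i
  by_cases hi : B p (C.e i) = 0
  · obtain ⟨h1, h2⟩ := lc_rho C hpH s.toList (Finset.nodup_toList s) hsN' q i hi
    by_cases his : i ∈ s.toList
    · rw [h1 his]
      have := (Finset.mem_filter.1 (Finset.mem_toList.1 his)).2.2
      linarith
    · rw [h2 his]
      by_contra hc
      push Not at hc
      exact his (Finset.mem_toList.2 (Finset.mem_filter.2 ⟨Finset.mem_univ _, hi, hc⟩))
  · exact (hball hd s i hsN hi).le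
end G3
end HB
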