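import Pool.Agent.Helper24.HB.Comb
set_option autoImplicit false
noncomputable section
namespace HB
namespace G4
lemma covering_num (c δ b M z : ℝ) (hc1 : 1 ≤ c) (hc2 : c < 1 + δ) (hδ : δ ≤ 1)
    (hM2 : b ^ 2 ≤ M ^ 2) (hb : 1 ≤ b ^ 2) (hz : z ^ 2 ≤ (c ^ 2 - 1) * (b ^ 2 - 1)) :
    (z + (c - 1) * b) ^ 2 ≤ 8 * δ * M ^ 2 := by
  have hδ0 : 0 ≤ δ := by linarith
  have hcc : c ^ 2 - 1 ≤ 3 * δ := by nlinarith
  have hcc0 : 0 ≤ c ^ 2 - 1 := by nlinarith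
  have hz6 : z ^ 2 ≤ 3 * δ * M ^ 2 := by
    refine hz.trans ?_
    have h1 : b ^ 2 - 1 ≤ M ^ 2 := by linarith
    exact mul_le_mul hcc h1 (by linarith) (by linarith)
  have h2 : (z + (c - 1) * b) ^ 2 ≤ 2 * z ^ 2 + 2 * ((c - 1) ^ 2 * b ^ 2) := by
    have := sq_nonneg (z - (c - 1) * b)
    have e1 : (z - (c - 1) * b) ^ 2 + (z + (c - 1) * b) ^ 2 =
      2 * z ^ 2 + 2 * ((c - 1) ^ 2 * b ^ 2) := by ring
    linarith
  have h3 : (c - 1) ^ 2 ≤ δ := by nlinarith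
  have h4 : (c - 1) ^ 2 * b ^ 2 ≤ δ * M ^ 2 := mul_le_mul h3 hM2 (sq_nonneg _) hδ0
  linarith

lemma covering_est {a b : Fin 5 → ℝ} (ha : a ∈ Hyp) (hb : b ∈ Hyp) (M δ : ℝ) (hM : b 4 ≤ M)
    (hδ : δ ≤ 1) (h : -(1 + δ) < B a b) :
    (a 0 - b 0) ^ 2 + (a 1 - b 1) ^ 2 + (a 2 - b 2) ^ 2 + (a 3 - b 3) ^ 2 + (a 4 - b 4) ^ 2 ≤
      δ * (2 + 16 * M ^ 2) := by
  have hc1 : 1 ≤ -B a b := by linarith [B_le_neg_one ha hb]
  set c : ℝ := -B a b with hc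
  have hc2 : c < 1 + δ := by linarith
  obtain ⟨ha1, ha2⟩ := ha
  obtain ⟨hb1, hb2⟩ := hb
  have hcB : B a b = -c := by rw [hc]; ring
  unfold B at ha1 hb1 hcB
  -- the vector z = a - c b
  have hz1 : (a 0 - c * b 0) * b 0 + (a 1 - c * b 1) * b 1 + (a 2 - c * b 2) * b 2 +
      (a 3 - c * b 3) * b 3 = (a 4 - c * b 4) * b 4 := by
    linear_combination hcB - c * hb1
  have hz2 : (a 0 - c * b 0) ^ 2 + (a 1 - c * b 1) ^ 2 + (a 2 - c * b 2) ^ 2 +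
      (a 3 - c * b 3) ^ 2 = (a 4 - c * b 4) ^ 2 + (c ^ 2 - 1) := by
    linear_combination ha1 - 2 * c * hcB + c ^ 2 * hb1
  have hb3 : b 0 ^ 2 + b 1 ^ 2 + b 2 ^ 2 + b 3 ^ 2 = b 4 ^ 2 - 1 := by linarith
  generalize hz0' : a 0 - c * b 0 = z0 at hz1 hz2
  generalize hz1' : a 1 - c * b 1 = z1 at hz1 hz2
  generalize hz2' : a 2 - c * b 2 = z2 at hz1 hz2
  generalize hz3' : a 3 - c * b 3 = z3 at hz1 hz2
  generalize hz4' : a 4 - c * b 4 = z4 at hz1 hz2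
  have hCS : (z0 * b 0 + z1 * b 1 + z2 * b 2 + z3 * b 3) ^ 2 ≤
      (z0 ^ 2 + z1 ^ 2 + z2 ^ 2 + z3 ^ 2) * (b 0 ^ 2 + b 1 ^ 2 + b 2 ^ 2 + b 3 ^ 2) := by
    nlinarith [sq_nonneg (z0 * b 1 - z1 * b 0), sq_nonneg (z0 * b 2 - z2 * b 0),
      sq_nonneg (z0 * b 3 - z3 * b 0), sq_nonneg (z1 * b 2 - z2 * b 1),
      sq_nonneg (z1 * b 3 - z3 * b 1), sq_nonneg (z2 * b 3 - z3 * b 2)]
  rw [hz1, hz2, hb3] at hCS
  have hz5 : z4 ^ 2 ≤ (c ^ 2 - 1) * (b 4 ^ 2 - 1) := by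
    have e1 : (z4 ^ 2 + (c ^ 2 - 1)) * (b 4 ^ 2 - 1) =
      z4 ^ 2 * b 4 ^ 2 - z4 ^ 2 + (c ^ 2 - 1) * (b 4 ^ 2 - 1) := by ring
    have e2 : (z4 * b 4) ^ 2 = z4 ^ 2 * b 4 ^ 2 := by ring
    rw [e1, e2] at hCS
    linarith
  have hM2 : b 4 ^ 2 ≤ M ^ 2 := pow_le_pow_left₀ hb2.le hM 2
  have hb4 : 1 ≤ b 4 ^ 2 := by
    have := sq_nonneg (b 0)
    have := sq_nonneg (b 1)
    have := sq_nonneg (b 2)
    have := sq_nonneg (b 3)
    linarith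
  have h44 := covering_num c δ (b 4) M z4 hc1 hc2 hδ hM2 hb4 hz5
  have h1 : a 4 - b 4 = z4 + (c - 1) * b 4 := by rw [← hz4']; ring
  have h5 : (a 0 - b 0) ^ 2 + (a 1 - b 1) ^ 2 + (a 2 - b 2) ^ 2 + (a 3 - b 3) ^ 2 =
      (a 4 - b 4) ^ 2 + 2 * (c - 1) := by
    linear_combination ha1 + hb1 - 2 * hcB
  rw [h5, h1]
  linarith

lemma covering_unif {ι : Type} [Fintype ι] (C : Cell ι) (hc : IsCompact C.P)
    (hloc : ∀ p ∈ C.P, ∃ ε > 0, ∀ q ∈ Hyp, dist q p < ε → ∃ v : List ι, v.Nodup ∧ (∀ i ∈ v, B p (C.e i) = 0) ∧ C.rho v q ∈ C.P) :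
    ∃ δ > 0, ∀ p ∈ C.P, ∀ q ∈ Hyp, -(1 + δ) < B q p → ∃ v : List ι, C.rho v q ∈ C.P := by
  choose! ε hε hloc using hloc
  obtain ⟨r, hr, hball⟩ := lebesgue_number_lemma_of_metric (s := C.P)
    (c := fun p : C.P => Metric.ball p.1 (ε p.1)) hc (fun p => Metric.isOpen_ball)
    (fun p hp => Set.mem_iUnion.2 ⟨⟨p, hp⟩, Metric.mem_ball_self (hε p hp)⟩)
  obtain ⟨M, hM⟩ := hc.exists_bound_of_continuousOn
    (f := fun x : Fin 5 → ℝ => x 4) (continuous_apply 4).continuousOn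
  set K : ℝ := 2 + 16 * M ^ 2 with hK
  have hKpos : 0 < K := by positivity
  refine ⟨min 1 (r ^ 2 / (2 * K)), lt_min one_pos (by positivity), fun p hp q hq hqp => ?_⟩
  set δ := min 1 (r ^ 2 / (2 * K)) with hδ
  have h1 : δ ≤ 1 := min_le_left _ _
  have h2 : δ ≤ r ^ 2 / (2 * K) := min_le_right _ _
  have h3 := covering_est hq hp.1 M δ ((le_abs_self _).trans (hM p hp)) h1 hqp
  have h4 : δ * K < r ^ 2 := by
    calc δ * K ≤ r ^ 2 / (2 * K) * K := by gcongr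
      _ = r ^ 2 / 2 := by field_simp
      _ < r ^ 2 := by have : 0 < r ^ 2 := by positivity
                      linarith
  have h5 := h3.trans_lt h4
  have hd : dist q p < r := by
    rw [dist_pi_lt_iff hr]
    intro j
    rw [Real.dist_eq]
    refine abs_lt_of_sq_lt_sq ?_ hr.le
    have g0 := sq_nonneg (q 0 - p 0)
    have g1 := sq_nonneg (q 1 - p 1)
    have g2 := sq_nonneg (q 2 - p 2)
    have g3 := sq_nonneg (q 3 - p 3)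
    have g4 := sq_nonneg (q 4 - p 4)
    fin_cases j <;> simp only [Fin.zero_eta, Fin.mk_one, Fin.reduceFinMk] <;> linarith
  obtain ⟨i, hi⟩ := hball p hp
  have h6 : q ∈ Metric.ball i.1 (ε i.1) := hi (Metric.mem_ball.2 hd)
  obtain ⟨v, _, _, hv⟩ := hloc i.1 i.2 q hq (Metric.mem_ball.1 h6)
  exact ⟨v, hv⟩

theorem covering {ι : Type} [Fintype ι] (C : Cell ι) (hc : IsCompact C.P)
    (hloc : ∀ p ∈ C.P, ∃ ε > 0, ∀ q ∈ Hyp, dist q p < ε → ∃ v : List ι, v.Nodup ∧ (∀ i ∈ v, B p (C.e i) = 0) ∧ C.rho v q ∈ C.P)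
    (hH : Nonempty (Hyp ≃ₜ (Fin 4 → ℝ))) :
    ∀ q ∈ Hyp, ∃ w : List ι, C.rho w q ∈ C.P := by
  obtain ⟨δ, hδ, hunif⟩ := covering_unif C hc hloc
  obtain ⟨hh⟩ := hH
  have : PreconnectedSpace Hyp := ⟨by
    rw [← hh.symm.surjective.range_eq]
    exact isPreconnected_range hh.symm.continuous⟩
  set D : Set Hyp := {q | ∃ w : List ι, C.rho w q.1 ∈ C.P} with hD
  -- D is invariant under the closeness relation
  have hrel : ∀ q q' : Hyp, q ∈ D → -(1 + δ) < B q'.1 q.1 → q' ∈ D := by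
    rintro q q' ⟨w, hw⟩ hB
    obtain ⟨v, hv⟩ := hunif _ hw (C.rho w q'.1) (rho_mem_Hyp C w q'.2) (by rw [B_rho]; exact hB)
    exact ⟨v ++ w, by rw [rho_append]; exact hv⟩
  have hnb : ∀ q : Hyp, IsOpen {q' : Hyp | -(1 + δ) < B q'.1 q.1} := fun q =>
    isOpen_lt continuous_const (continuous_B continuous_subtype_val continuous_const)
  have hself : ∀ q : Hyp, q ∈ {q' : Hyp | -(1 + δ) < B q'.1 q.1} := by
    intro q
    show -(1 + δ) < B q.1 q.1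
    rw [q.2.1]
    linarith
  have hopen : IsOpen D := by
    rw [isOpen_iff_forall_mem_open]
    intro q hq
    exact ⟨_, fun q' hq' => hrel q q' hq hq', hnb q, hself q⟩
  have hclosed : IsClosed D := by
    rw [← isOpen_compl_iff, isOpen_iff_forall_mem_open]
    intro q hq
    refine ⟨_, fun q' hq' hq'D => hq ?_, hnb q, hself q⟩
    refine hrel q' q hq'D ?_
    rw [B_symm]
    exact hq'
  have huniv : D = Set.univ := IsClopen.eq_univ ⟨hclosed, hopen⟩ ⟨⟨o, o_mem⟩, [], o_mem_P C⟩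
  intro q hq
  have h1 : (⟨q, hq⟩ : Hyp) ∈ D := by rw [huniv]; trivial
  exact h1
end G4
end HB
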