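import Pool.Agent.Helper24.HB.Comb
set_option autoImplicit false
noncomputable section
namespace HB
namespace GT
open scoped Manifold ContDiff

section aux12335
variable {E : Type} [NormedAddCommGroup E] [NormedSpace ℝ E]
    {G : Type} [Group G] [TopologicalSpace G] [IsTopologicalGroup G]

def ch12335 (φ : OpenPartialHomeomorph G E) (g : G) : OpenPartialHomeomorph G E :=
  (Homeomorph.mulLeft g⁻¹).transOpenPartialHomeomorph φ

omit [NormedSpace ℝ E] in
theorem ch12335_apply (φ : OpenPartialHomeomorph G E) (g x : G) :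
    ch12335 φ g x = φ (g⁻¹ * x) := rfl

omit [NormedSpace ℝ E] in
theorem ch12335_symm_apply (φ : OpenPartialHomeomorph G E) (g : G) (y : E) :
    (ch12335 φ g).symm y = g * φ.symm y := by
  change (g⁻¹)⁻¹ * φ.symm y = g * φ.symm y
  rw [inv_inv]

omit [NormedSpace ℝ E] in
theorem ch12335_source (φ : OpenPartialHomeomorph G E) (g x : G) :
    x ∈ (ch12335 φ g).source ↔ g⁻¹ * x ∈ φ.source := Iff.rfl

omit [NormedSpace ℝ E] in
theorem ch12335_target (φ : OpenPartialHomeomorph G E) (g : G) :
    (ch12335 φ g).target = φ.target := rfl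

@[reducible] def cs12335 (φ : OpenPartialHomeomorph G E) (h1 : (1 : G) ∈ φ.source) : ChartedSpace E G where
  atlas := Set.range (ch12335 φ)
  chartAt g := ch12335 φ g
  mem_chart_source g := by rw [ch12335_source, inv_mul_cancel]; exact h1
  chart_mem_atlas g := Set.mem_range_self g

omit [NormedSpace ℝ E] in
theorem open12335 (φ : OpenPartialHomeomorph G E) (g h : G) :
    IsOpen {p : E × E | p.1 ∈ φ.target ∧ p.2 ∈ φ.target ∧ g * φ.symm p.1 * h * φ.symm p.2 ∈ φ.source} := by
  have hc : ContinuousOn (fun p : E × E => g * φ.symm p.1 * h * φ.symm p.2)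
      (φ.target ×ˢ φ.target) := by
    have c1 : ContinuousOn (fun p : E × E => φ.symm p.1) (φ.target ×ˢ φ.target) :=
      φ.continuousOn_symm.comp continuousOn_fst (fun p hp => hp.1)
    have c2 : ContinuousOn (fun p : E × E => φ.symm p.2) (φ.target ×ˢ φ.target) :=
      φ.continuousOn_symm.comp continuousOn_snd (fun p hp => hp.2)
    exact (((continuousOn_const.mul c1).mul continuousOn_const).mul c2)
  have := hc.isOpen_inter_preimage (φ.open_target.prod φ.open_target) φ.open_source
  convert this using 1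
  ext p
  simp only [Set.mem_setOf_eq, Set.mem_inter_iff, Set.mem_prod, Set.mem_preimage]
  tauto

omit [NormedSpace ℝ E] in
theorem open12335' (φ : OpenPartialHomeomorph G E) (g h : G) :
    IsOpen {x : E | x ∈ φ.target ∧ g * (φ.symm x)⁻¹ * h ∈ φ.source} := by
  have hc : ContinuousOn (fun x : E => g * (φ.symm x)⁻¹ * h) φ.target := by
    exact ((continuousOn_const.mul φ.continuousOn_symm.inv).mul continuousOn_const)
  exact hc.isOpen_inter_preimage φ.open_target φ.open_source

end aux12335

/-- A topological group with one chart around `1` in which all translated multiplications and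
inversions are smooth is a Lie group (charts = left translates). -/
theorem lie_of_chart {E : Type} [NormedAddCommGroup E] [NormedSpace ℝ E]
    {G : Type} [Group G] [TopologicalSpace G] [IsTopologicalGroup G]
    (φ : OpenPartialHomeomorph G E) (h1 : (1 : G) ∈ φ.source)
    (hmul : ∀ g h : G, ContDiffOn ℝ ∞ (fun p : E × E => φ (g * φ.symm p.1 * h * φ.symm p.2))
      {p | p.1 ∈ φ.target ∧ p.2 ∈ φ.target ∧ g * φ.symm p.1 * h * φ.symm p.2 ∈ φ.source})
    (hinv : ∀ g h : G, ContDiffOn ℝ ∞ (fun x : E => φ (g * (φ.symm x)⁻¹ * h))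
      {x | x ∈ φ.target ∧ g * (φ.symm x)⁻¹ * h ∈ φ.source}) :
    ∃ _ : ChartedSpace E G, LieGroup (modelWithCornersSelf ℝ E) ((⊤ : ℕ∞) : WithTop ℕ∞) G := by
  letI cs := cs12335 φ h1
  refine ⟨cs, ?_⟩
  have ht1 : φ 1 ∈ φ.target := φ.map_source h1
  have hs1 : φ.symm (φ 1) = 1 := φ.left_inv h1
  -- manifold
  haveI hM : IsManifold (modelWithCornersSelf ℝ E) ((⊤ : ℕ∞) : WithTop ℕ∞) G := by
    apply isManifold_of_contDiffOn
    rintro e e' ⟨g, rfl⟩ ⟨h, rfl⟩
    have key : ContDiffOn ℝ ∞ (fun x : E => φ (h⁻¹ * g * φ.symm x))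
        {x | x ∈ φ.target ∧ h⁻¹ * g * φ.symm x ∈ φ.source} := by
      have h2 := (hmul (h⁻¹ * g) 1).comp
        (f := fun x : E => (x, φ 1)) (s := {x | x ∈ φ.target ∧ h⁻¹ * g * φ.symm x ∈ φ.source})
        (contDiff_id.prodMk contDiff_const).contDiffOn
        (by
          rintro x ⟨hx, hx'⟩
          refine ⟨hx, ht1, ?_⟩
          simp only [hs1, mul_one]
          exact hx')
      refine h2.congr ?_
      intro x hx
      simp only [Function.comp_apply, hs1, mul_one]
    have hset : (modelWithCornersSelf ℝ E).symm ⁻¹' ((ch12335 φ g).symm ≫ₕ ch12335 φ h).source ∩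
        Set.range (modelWithCornersSelf ℝ E) =
        {x | x ∈ φ.target ∧ h⁻¹ * g * φ.symm x ∈ φ.source} := by
      ext x
      simp only [modelWithCornersSelf_coe_symm, modelWithCornersSelf_coe, Set.range_id,
        Set.inter_univ, Set.preimage_id, OpenPartialHomeomorph.trans_source,
        OpenPartialHomeomorph.symm_source, Set.mem_inter_iff, Set.mem_preimage, Set.mem_setOf_eq]
      rw [ch12335_target, ch12335_source, ch12335_symm_apply, mul_assoc]
    rw [hset]
    refine key.congr ?_
    intro x hx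
    simp only [modelWithCornersSelf_coe, modelWithCornersSelf_coe_symm, Function.comp_apply, id,
      OpenPartialHomeomorph.coe_trans]
    rw [ch12335_apply, ch12335_symm_apply, mul_assoc]
  have hmulS : ContMDiff ((modelWithCornersSelf ℝ E).prod (modelWithCornersSelf ℝ E))
      (modelWithCornersSelf ℝ E) ((⊤ : ℕ∞) : WithTop ℕ∞) (fun p : G × G => p.1 * p.2) := by
    rintro ⟨g, h⟩
    rw [contMDiffAt_iff]
    refine ⟨continuous_mul.continuousAt, ?_⟩
    have hmem : ((φ 1, φ 1) : E × E) ∈ {p : E × E | p.1 ∈ φ.target ∧ p.2 ∈ φ.target ∧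
        ((g * h)⁻¹ * g) * φ.symm p.1 * h * φ.symm p.2 ∈ φ.source} := by
      refine ⟨ht1, ht1, ?_⟩
      simp only [hs1]
      have : (g * h)⁻¹ * g * 1 * h * 1 = 1 := by group
      rw [this]
      exact h1
    have h3 := (hmul ((g * h)⁻¹ * g) h).contDiffAt ((open12335 φ _ _).mem_nhds hmem)
    have hpt : extChartAt ((modelWithCornersSelf ℝ E).prod (modelWithCornersSelf ℝ E)) (g, h) (g, h)
        = (φ 1, φ 1) := by
      rw [extChartAt_prod]
      simp only [PartialEquiv.prod_coe, extChartAt, OpenPartialHomeomorph.extend,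
        PartialEquiv.coe_trans, Function.comp_apply]
      change (ch12335 φ g g, ch12335 φ h h) = _
      rw [ch12335_apply, ch12335_apply, inv_mul_cancel, inv_mul_cancel]
    rw [hpt]
    refine ContDiffAt.contDiffWithinAt ?_
    refine h3.congr_of_eventuallyEq ?_
    refine Filter.Eventually.of_forall fun p => ?_
    simp only [Function.comp_apply]
    rw [extChartAt_prod]
    change ch12335 φ (g * h) ((ch12335 φ g).symm p.1 * (ch12335 φ h).symm p.2) = _
    rw [ch12335_apply, ch12335_symm_apply, ch12335_symm_apply]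
    congr 1
    group
  have hinvS : ContMDiff (modelWithCornersSelf ℝ E)
      (modelWithCornersSelf ℝ E) ((⊤ : ℕ∞) : WithTop ℕ∞) (fun a : G => a⁻¹) := by
    intro g
    rw [contMDiffAt_iff]
    refine ⟨continuous_inv.continuousAt, ?_⟩
    have hmem : (φ 1 : E) ∈ {x : E | x ∈ φ.target ∧ g * (φ.symm x)⁻¹ * g⁻¹ ∈ φ.source} := by
      refine ⟨ht1, ?_⟩
      simp only [hs1]
      have : g * (1 : G)⁻¹ * g⁻¹ = 1 := by group
      rw [this]
      exact h1
    have h3 := (hinv g g⁻¹).contDiffAt ((open12335' φ _ _).mem_nhds hmem)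
    have hpt : extChartAt (modelWithCornersSelf ℝ E) g g = φ 1 := by
      change ch12335 φ g g = _
      rw [ch12335_apply, inv_mul_cancel]
    rw [hpt]
    refine ContDiffAt.contDiffWithinAt ?_
    refine h3.congr_of_eventuallyEq ?_
    refine Filter.Eventually.of_forall fun p => ?_
    simp only [Function.comp_apply]
    change ch12335 φ (g⁻¹) (((ch12335 φ g).symm p)⁻¹) = _
    rw [ch12335_apply, ch12335_symm_apply]
    congr 1
    group
  exact { contMDiff_mul := hmulS, contMDiff_inv := hinvS }
end GT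
end HB
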