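import Pool.Agent.Helper24.HB.Comb
set_option autoImplicit false
noncomputable section
namespace HB
namespace H1
/-- parity of a word -/
def par12710 {ι : Type} : List ι → Bool
  | [] => false
  | _ :: w => !(par12710 w)

lemma par_append12710 {ι : Type} (v w : List ι) : par12710 (v ++ w) = xor (par12710 v) (par12710 w) := by
  induction v with
  | nil => simp [par12710]
  | cons i v ih => simp [par12710, ih]

lemma par_reverse12710 {ι : Type} (v : List ι) : par12710 v.reverse = par12710 v := by
  induction v with
  | nil => rfl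
  | cons i v ih => simp [par12710, ih, par_append12710]

lemma par_even12710 {ι : Type} (v : List ι) : Even v.length ↔ par12710 v = false := by
  induction v with
  | nil => simp [par12710]
  | cons i v ih =>
    rw [List.length_cons, Nat.even_add_one, ih]
    simp [par12710]

lemma par_odd12710 {ι : Type} (v : List ι) : Odd v.length ↔ par12710 v = true := by
  rw [← Nat.not_even_iff_odd, par_even12710]
  simp

/-- Triviality of homomorphisms on closed even words from the vanishing of the first cohomology. -/
theorem hom_trivial {ι : Type} (C : Cell ι) {S : Type} (W : WSet C S) (s0 : S)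
    (hk : ∀ k : ι → S → ℤ, (∀ i j, C.adj i j → ∀ s, k i s - k j (W.act j (W.act i s)) + k i (W.act j (W.act i s)) - k j s = 0) →
      ∃ a b : S → ℤ, ∀ i s, k i s = b (W.act i s) - a s)
    (htr : ∀ s, (∃ w : List ι, Even w.length ∧ W.tau w s0 = s) ∧ (∃ w : List ι, Odd w.length ∧ W.tau w s0 = s))
    (κ : List ι → ℤ)
    (hadd : ∀ w1 w2 : List ι, Even w1.length → Even w2.length → W.tau w1 s0 = s0 → W.tau w2 s0 = s0 →
      κ (w1 ++ w2) = κ w1 + κ w2)
    (hrho : ∀ w1 w2 : List ι, Even w1.length → Even w2.length → W.tau w1 s0 = s0 → W.tau w2 s0 = s0 →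
      (∀ x, C.rho w1 x = C.rho w2 x) → κ w1 = κ w2) :
    ∀ w : List ι, Even w.length → W.tau w s0 = s0 → κ w = 0 := by
  have hch : ∀ (s : S) (ε : Bool), ∃ w : List ι, W.tau w s0 = s ∧ par12710 w = ε := by
    intro s ε
    cases ε with
    | false =>
      obtain ⟨w, hw, hs⟩ := (htr s).1
      exact ⟨w, hs, (par_even12710 w).mp hw⟩
    | true =>
      obtain ⟨w, hw, hs⟩ := (htr s).2
      exact ⟨w, hs, (par_odd12710 w).mp hw⟩
  choose t ht hpt using hch
  have hnil : κ [] = 0 := by
    have := hadd [] [] (by simp) (by simp) rfl rfl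
    simp at this
    exact this
  -- the closed words
  let Wd : List ι → S → Bool → List ι := fun u s ε =>
    (t (W.tau u s) (xor ε (par12710 u))).reverse ++ (u ++ t s ε)
  have hWd : ∀ u s ε, Wd u s ε = (t (W.tau u s) (xor ε (par12710 u))).reverse ++ (u ++ t s ε) := fun _ _ _ => rfl
  have hback : ∀ s ε, W.tau (t s ε).reverse s = s0 := by
    intro s ε
    have := tau_reverse W (t s ε) s0
    rwa [ht] at this
  have hcl : ∀ u s ε, W.tau (Wd u s ε) s0 = s0 := by
    intro u s ε
    rw [hWd, tau_append, tau_append, ht, hback]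
  have hev : ∀ u s ε, Even (Wd u s ε).length := by
    intro u s ε
    rw [par_even12710, hWd, par_append12710, par_append12710, par_reverse12710, hpt, hpt]
    cases ε <;> cases par12710 u <;> rfl
  have hmul : ∀ v u s ε, κ (Wd (v ++ u) s ε) = κ (Wd v (W.tau u s) (xor ε (par12710 u))) + κ (Wd u s ε) := by
    intro v u s ε
    rw [← hadd _ _ (hev _ _ _) (hev _ _ _) (hcl _ _ _) (hcl _ _ _)]
    apply hrho _ _ (hev _ _ _) _ (hcl _ _ _)
    · rw [tau_append, hcl, hcl]
    · intro x
      rw [hWd, hWd, hWd]
      have e1 : xor ε (par12710 (v ++ u)) = xor (xor ε (par12710 u)) (par12710 v) := by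
        rw [par_append12710]
        cases ε <;> cases par12710 u <;> cases par12710 v <;> rfl
      rw [e1, tau_append]
      simp only [rho_append]
      rw [rho_reverse']
    · rw [par_even12710, par_append12710, (par_even12710 _).mp (hev _ _ _), (par_even12710 _).mp (hev _ _ _)]
      rfl
  have hcongr : ∀ u u' s ε, (∀ x, C.rho u x = C.rho u' x) → W.tau u s = W.tau u' s → par12710 u = par12710 u' →
      κ (Wd u s ε) = κ (Wd u' s ε) := by
    intro u u' s ε h1 h2 h3
    apply hrho _ _ (hev _ _ _) (hev _ _ _) (hcl _ _ _) (hcl _ _ _)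
    intro x
    rw [hWd, hWd, h2, h3]
    simp only [rho_append]
    rw [h1]
  have hempty : ∀ s ε, κ (Wd [] s ε) = 0 := by
    intro s ε
    rw [← hnil]
    apply hrho _ _ (hev _ _ _) (by simp) (hcl _ _ _) rfl
    intro x
    rw [hWd]
    have e1 : xor ε (par12710 ([] : List ι)) = ε := by cases ε <;> rfl
    rw [e1, tau_nil, List.nil_append, rho_append, rho_reverse]
    rfl
  -- step inverse
  have hinv : ∀ i s ε, κ (Wd [i] (W.act i s) (!ε)) = - κ (Wd [i] s ε) := by
    intro i s ε
    have h1 := hmul [i] [i] s ε
    have h2 : κ (Wd ([i] ++ [i]) s ε) = κ (Wd [] s ε) := by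
      apply hcongr
      · intro x
        simp only [List.cons_append, List.nil_append, rho_cons, rho_nil]
        rw [refl_refl _ _ (C.self i)]
      · simp only [List.cons_append, List.nil_append, tau_cons, tau_nil, W.inv]
      · simp [par12710]
    rw [h2, hempty] at h1
    have e1 : xor ε (par12710 [i]) = !ε := by cases ε <;> rfl
    have e2 : W.tau [i] s = W.act i s := rfl
    rw [e1, e2] at h1
    linarith
  have hneg : ∀ i s, κ (Wd [i] s true) = - κ (Wd [i] (W.act i s) false) := by
    intro i s
    have := hinv i (W.act i s) false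
    rw [W.inv] at this
    exact this
  have hcom : ∀ i j, C.adj i j → ∀ s ε, κ (Wd [i] (W.act j s) (!ε)) + κ (Wd [j] s ε) =
      κ (Wd [j] (W.act i s) (!ε)) + κ (Wd [i] s ε) := by
    intro i j hij s ε
    have h1 := hmul [i] [j] s ε
    have h2 := hmul [j] [i] s ε
    have h3 : κ (Wd ([i] ++ [j]) s ε) = κ (Wd ([j] ++ [i]) s ε) := by
      apply hcongr
      · intro x
        simp only [List.cons_append, List.nil_append, rho_cons, rho_nil]
        rw [refl_comm _ _ _ (C.orth i j hij)]
      · simp only [List.cons_append, List.nil_append, tau_cons, tau_nil]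
        exact W.comm i j hij s
      · simp [par12710]
    have e1 : ∀ i : ι, xor ε (par12710 [i]) = !ε := by intro i; cases ε <;> rfl
    have e2 : ∀ i : ι, W.tau [i] s = W.act i s := fun _ => rfl
    rw [e1, e2] at h1 h2
    linarith
  obtain ⟨a, b, hab⟩ := hk (fun i s => κ (Wd [i] s false)) (by
    intro i j hij s
    have h1 := hcom i j hij s false
    have h2 : (!false) = true := rfl
    rw [h2, hneg, hneg, W.comm i j hij] at h1
    linarith)
  -- potential
  let N : S → Bool → ℤ := fun s ε => if ε then b s else a s
  have hstep : ∀ i s ε, κ (Wd [i] s ε) = N (W.act i s) (!ε) - N s ε := by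
    intro i s ε
    cases ε with
    | false => exact hab i s
    | true =>
      rw [hneg, hab i (W.act i s), W.inv]
      show -(b s - a (W.act i s)) = a (W.act i s) - b s
      ring
  have hall : ∀ (w : List ι) (s : S) (ε : Bool), κ (Wd w s ε) = N (W.tau w s) (xor ε (par12710 w)) - N s ε := by
    intro w
    induction w with
    | nil =>
      intro s ε
      rw [hempty]
      have e1 : xor ε (par12710 ([] : List ι)) = ε := by cases ε <;> rfl
      rw [e1, tau_nil, sub_self]
    | cons i w ih =>
      intro s ε
      have h1 := hmul [i] w s ε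
      rw [hstep, ih] at h1
      have h2 : ([i] ++ w : List ι) = i :: w := rfl
      rw [h2] at h1
      rw [h1, tau_cons]
      have e1 : xor ε (par12710 (i :: w)) = !(xor ε (par12710 w)) := by
        show xor ε (!(par12710 w)) = _
        cases ε <;> cases par12710 w <;> rfl
      rw [e1]
      ring
  intro w hw hws
  have hpw := (par_even12710 w).mp hw
  have h1 := hall w s0 false
  rw [hws, hpw] at h1
  have e1 : xor false false = false := rfl
  rw [e1, sub_self] at h1
  have h2 : Wd w s0 false = (t s0 false).reverse ++ (w ++ t s0 false) := by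
    rw [hWd, hws, hpw]
    rfl
  have hte : Even (t s0 false).length := (par_even12710 _).mpr (hpt _ _)
  have hre : Even (t s0 false).reverse.length := by
    rw [List.length_reverse]
    exact hte
  have hwt : Even (w ++ t s0 false).length := by
    rw [List.length_append]
    exact hw.add hte
  rw [h2, hadd _ _ hre hwt (hback _ _) (by rw [tau_append, ht, hws]), hadd _ _ hw hte hws (ht _ _)] at h1
  have h3 := hempty s0 false
  have h4 : Wd [] s0 false = (t s0 false).reverse ++ t s0 false := rfl
  rw [h4, hadd _ _ hre hte (hback _ _) (ht _ _)] at h3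
  linarith
end H1
end HB
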