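import Pool.Agent.Helper24.HB.Comb
set_option autoImplicit false
noncomputable section
namespace HB
namespace LP12
theorem lp_contract {X Y : Type} [TopologicalSpace X] [TopologicalSpace Y] (H : unitInterval × X → X)
    (hH : Continuous H) (h1 : ∀ x, H (1, x) = x) (q : X → Y) (j : Y → X) (hq : Continuous q) (hj : Continuous j)
    (h0 : ∀ x, H (0, x) = j (q x)) (hY : LP Y) : LP X := by
  intro f hf hf0
  obtain ⟨g0, hg0, hg0e⟩ := hY (fun y => f (j y)) (hf.comp hj) (fun y => hf0 _)
  let Ff : C(unitInterval × X, {z : ℂ // z ≠ 0}) :=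
    ⟨fun p => ⟨f (H p), hf0 _⟩, (hf.comp hH).subtype_mk _⟩
  let g : C(X, ℂ) := ⟨fun x => g0 (q x), hg0.comp hq⟩
  have hz : ∀ x, Ff (0, x) = (⟨Complex.exp (g x), Complex.exp_ne_zero _⟩ : {z : ℂ // z ≠ 0}) := by
    intro x
    apply Subtype.ext
    change f (H (0, x)) = Complex.exp (g0 (q x))
    rw [h0, ← hg0e]
  have cov := Complex.isCoveringMap_exp
  let L := cov.liftHomotopy Ff g hz
  refine ⟨fun x => L (1, x), L.continuous.comp (by fun_prop), ?_⟩
  intro x
  have h2 := congrFun (cov.liftHomotopy_lifts Ff g hz) (1, x)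
  have h3 := congrArg Subtype.val h2
  change Complex.exp (L (1, x)) = f (H (1, x)) at h3
  rw [h3, h1]
end LP12
end HB
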