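import Pool.Agent.Helper24.HB.Comb
import Pool.Agent.Helper24.HB.LP12
set_option autoImplicit false
noncomputable section
namespace HB
namespace LP3
open LP12
theorem exp_one_const {Z : Type} [TopologicalSpace Z] [PreconnectedSpace Z] (φ : Z → ℂ)
    (hφ : Continuous φ) (h : ∀ z, Complex.exp (φ z) = 1) (a b : Z) : φ a = φ b := by
  have h1 : ∀ z, ∃ n : ℤ, φ z = n * (2 * Real.pi * Complex.I) := fun z =>
    Complex.exp_eq_one_iff.1 (h z)
  choose n hn using h1
  have hpi : Real.pi ≠ 0 := Real.pi_ne_zero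
  have h2 : ∀ z, ((n z : ℤ) : ℝ) = (φ z).im / (2 * Real.pi) := by
    intro z
    have e : (φ z).im = (n z : ℝ) * (2 * Real.pi) := by
      have e0 : φ z = (((n z : ℝ) * (2 * Real.pi) : ℝ) : ℂ) * Complex.I := by
        rw [hn z]; push_cast; ring
      rw [e0]
      simp only [Complex.mul_im, Complex.ofReal_re, Complex.ofReal_im, Complex.I_im, Complex.I_re]
      ring
    rw [e]
    field_simp
  have h3 : Continuous n := by
    rw [Int.isClosedEmbedding_coe_real.isInducing.continuous_iff]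
    have : ((Int.cast : ℤ → ℝ) ∘ n) = fun z => (φ z).im / (2 * Real.pi) := by
      funext z
      exact h2 z
    rw [this]
    exact (Complex.continuous_im.comp hφ).div_const _
  have h4 : n a = n b := PreconnectedSpace.constant inferInstance h3
  rw [hn a, hn b, h4]

theorem lp_half {Y : Type} [TopologicalSpace Y] (hY : LP Y) (s : ℝ) (hs : s * s = 1) :
    LP {p : Metric.sphere (0 : Quaternion ℝ) 1 × Y // 0 ≤ s * p.1.1.re} := by
  let D := {p : Metric.sphere (0 : Quaternion ℝ) 1 × Y // 0 ≤ s * p.1.1.re}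
  have hnorm : ∀ p : D, ‖p.1.1.1‖ = 1 := fun p => mem_sphere_zero_iff_norm.1 p.1.1.2
  have hsabs : |s| = 1 := by
    have h1 : |s| * |s| = 1 := by rw [abs_mul_abs_self, hs]
    nlinarith [abs_nonneg s]
  have hsnorm : ‖(s : Quaternion ℝ)‖ = 1 := by
    rw [Quaternion.norm_coe, Real.norm_eq_abs, hsabs]
  let v : unitInterval × D → Quaternion ℝ := fun x =>
    (1 - (x.1 : ℝ)) • (s : Quaternion ℝ) + (x.1 : ℝ) • x.2.1.1.1
  have hv : Continuous v := by
    have h1 : Continuous fun x : unitInterval × D => (x.1 : ℝ) :=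
      continuous_subtype_val.comp continuous_fst
    have h2 : Continuous fun x : unitInterval × D => x.2.1.1.1 :=
      continuous_subtype_val.comp (continuous_fst.comp (continuous_subtype_val.comp continuous_snd))
    exact ((continuous_const.sub h1).smul continuous_const).add (h1.smul h2)
  have hre : ∀ x, s * (v x).re = (1 - (x.1 : ℝ)) + (x.1 : ℝ) * (s * x.2.1.1.1.re) := by
    intro x
    have e : (v x).re = (1 - (x.1 : ℝ)) * s + (x.1 : ℝ) * x.2.1.1.1.re := by
      simp [v]
    rw [e]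
    linear_combination (1 - (x.1 : ℝ)) * hs
  have hre0 : ∀ x, 0 ≤ s * (v x).re := by
    intro x
    rw [hre x]
    have h1 := x.1.2.1
    have h2 := x.1.2.2
    have h3 := x.2.2
    have h4 := mul_nonneg h1 h3
    linarith
  have hvne : ∀ x, v x ≠ 0 := by
    intro x hx
    have h1 := x.1.2.1
    have h2 := x.1.2.2
    have h3 := x.2.2
    have h4 := mul_nonneg h1 h3
    have h5 := hre x
    rw [hx] at h5
    simp only [Quaternion.re_zero, mul_zero] at h5
    have h6 : (x.1 : ℝ) = 1 := by linarith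
    have h7 : v x = x.2.1.1.1 := by simp [v, h6]
    have h8 := hnorm x.2
    rw [← h7, hx, norm_zero] at h8
    exact zero_ne_one h8
  have hvn : ∀ x, 0 < ‖v x‖ := fun x => norm_pos_iff.2 (hvne x)
  have hmem : ∀ x, (‖v x‖⁻¹) • v x ∈ Metric.sphere (0 : Quaternion ℝ) 1 := by
    intro x
    rw [mem_sphere_zero_iff_norm, norm_smul, norm_inv, norm_norm]
    exact inv_mul_cancel₀ (hvn x).ne'
  have hhalf : ∀ x, 0 ≤ s * ((‖v x‖⁻¹) • v x).re := by
    intro x
    have e : ((‖v x‖⁻¹) • v x).re = ‖v x‖⁻¹ * (v x).re := by simp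
    rw [e]
    have := mul_nonneg (inv_nonneg.2 (hvn x).le) (hre0 x)
    calc (0 : ℝ) ≤ ‖v x‖⁻¹ * (s * (v x).re) := this
      _ = s * (‖v x‖⁻¹ * (v x).re) := by ring
  let H : unitInterval × D → D := fun x =>
    ⟨(⟨(‖v x‖⁻¹) • v x, hmem x⟩, x.2.1.2), hhalf x⟩
  have hH : Continuous H := by
    apply Continuous.subtype_mk
    apply Continuous.prodMk
    · apply Continuous.subtype_mk
      exact (hv.norm.inv₀ fun x => (hvn x).ne').smul hv
    · exact continuous_snd.comp (continuous_subtype_val.comp continuous_snd)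
  have h1 : ∀ x, H (1, x) = x := by
    intro x
    have e : v (1, x) = x.1.1.1 := by simp [v]
    have e2 : ‖v (1, x)‖ = 1 := by rw [e]; exact hnorm x
    apply Subtype.ext
    apply Prod.ext
    · apply Subtype.ext
      change (‖v (1, x)‖⁻¹) • v (1, x) = x.1.1.1
      rw [e2, inv_one, one_smul, e]
    · rfl
  have hmem1 : (s : Quaternion ℝ) ∈ Metric.sphere (0 : Quaternion ℝ) 1 := by
    rw [mem_sphere_zero_iff_norm]; exact hsnorm
  have hhalf1 : 0 ≤ s * (s : Quaternion ℝ).re := by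
    rw [Quaternion.re_coe, hs]; exact zero_le_one
  let q : D → Y := fun x => x.1.2
  let j : Y → D := fun y => ⟨(⟨(s : Quaternion ℝ), hmem1⟩, y), hhalf1⟩
  have hq : Continuous q := continuous_snd.comp continuous_subtype_val
  have hj : Continuous j := by
    apply Continuous.subtype_mk
    exact continuous_const.prodMk continuous_id
  have h0 : ∀ x, H (0, x) = j (q x) := by
    intro x
    have e : v (0, x) = (s : Quaternion ℝ) := by simp [v]
    have e2 : ‖v (0, x)‖ = 1 := by rw [e]; exact hsnorm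
    apply Subtype.ext
    apply Prod.ext
    · apply Subtype.ext
      change (‖v (0, x)‖⁻¹) • v (0, x) = (s : Quaternion ℝ)
      rw [e2, inv_one, one_smul, e]
    · rfl
  exact lp_contract H hH h1 q j hq hj h0 hY

/-- TARGET -/
theorem lp_sphere {Y : Type} [TopologicalSpace Y] [ConnectedSpace Y] (hY : LP Y) :
    LP (Metric.sphere (0 : Quaternion ℝ) 1 × Y) := by
  intro f hf hf0
  have hre : Continuous fun p : Metric.sphere (0 : Quaternion ℝ) 1 × Y => p.1.1.re :=
    Quaternion.continuous_re.comp (continuous_subtype_val.comp continuous_fst)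
  obtain ⟨gp, hgp, hgp1⟩ := lp_half hY 1 (by norm_num) (fun p => f p.1)
    (hf.comp continuous_subtype_val) (fun p => hf0 p.1)
  obtain ⟨gm, hgm, hgm1⟩ := lp_half hY (-1) (by norm_num) (fun p => f p.1)
    (hf.comp continuous_subtype_val) (fun p => hf0 p.1)
  -- the equator
  let S2 := Metric.sphere (0 : EuclideanSpace ℝ (Fin 3)) 1
  have hS2 : IsConnected (Metric.sphere (0 : EuclideanSpace ℝ (Fin 3)) 1) := by
    apply isConnected_sphere _ _ zero_le_one
    rw [← Module.finrank_eq_rank, finrank_euclideanSpace_fin]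
    norm_num
  have : ConnectedSpace S2 := isConnected_iff_connectedSpace.1 hS2
  let e : EuclideanSpace ℝ (Fin 3) → Quaternion ℝ := fun v => ⟨0, v 0, v 1, v 2⟩
  have he : Continuous e := by
    have e1 : e = fun v => (v 0) • (⟨0, 1, 0, 0⟩ : Quaternion ℝ) + (v 1) • (⟨0, 0, 1, 0⟩ : Quaternion ℝ)
        + (v 2) • (⟨0, 0, 0, 1⟩ : Quaternion ℝ) := by
      funext v
      ext <;> simp [e]
    rw [e1]
    have hc : ∀ i : Fin 3, Continuous fun v : EuclideanSpace ℝ (Fin 3) => v i := fun i => by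
      fun_prop
    exact (((hc 0).smul continuous_const).add ((hc 1).smul continuous_const)).add
      ((hc 2).smul continuous_const)
  have hen : ∀ v, ‖e v‖ = ‖v‖ := by
    intro v
    have h1 : ‖e v‖ * ‖e v‖ = ‖v‖ * ‖v‖ := by
      rw [← Quaternion.normSq_eq_norm_mul_self, Quaternion.normSq_def', ← sq,
        EuclideanSpace.norm_sq_eq, Fin.sum_univ_three]
      simp [e]
    exact (mul_self_inj (norm_nonneg _) (norm_nonneg _)).1 h1
  have hmem : ∀ x : S2 × Y, e x.1.1 ∈ Metric.sphere (0 : Quaternion ℝ) 1 := by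
    intro x
    rw [mem_sphere_zero_iff_norm, hen]
    exact mem_sphere_zero_iff_norm.1 x.1.2
  let τ : S2 × Y → Metric.sphere (0 : Quaternion ℝ) 1 × Y := fun x => (⟨e x.1.1, hmem x⟩, x.2)
  have hτ : Continuous τ := by
    apply Continuous.prodMk
    · apply Continuous.subtype_mk
      exact he.comp (continuous_subtype_val.comp continuous_fst)
    · exact continuous_snd
  have hτre : ∀ x, (τ x).1.1.re = 0 := fun x => rfl
  have hτs : ∀ p : Metric.sphere (0 : Quaternion ℝ) 1 × Y, p.1.1.re = 0 → ∃ x, τ x = p := by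
    intro p hp
    let w : EuclideanSpace ℝ (Fin 3) := !₂[p.1.1.imI, p.1.1.imJ, p.1.1.imK]
    have hw : e w = p.1.1 := by
      ext
      · exact hp.symm
      · simp [e, w]
      · simp [e, w]
      · simp [e, w]
    have hw1 : w ∈ Metric.sphere (0 : EuclideanSpace ℝ (Fin 3)) 1 := by
      rw [mem_sphere_zero_iff_norm, ← hen, hw]
      exact mem_sphere_zero_iff_norm.1 p.1.2
    refine ⟨(⟨w, hw1⟩, p.2), ?_⟩
    apply Prod.ext
    · apply Subtype.ext
      exact hw
    · rfl
  have hp0 : ∀ x, 0 ≤ (1 : ℝ) * (τ x).1.1.re := by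
    intro x; rw [hτre x, mul_zero]
  have hm0 : ∀ x, 0 ≤ (-1 : ℝ) * (τ x).1.1.re := by
    intro x; rw [hτre x, mul_zero]
  let φ : S2 × Y → ℂ := fun x => gp ⟨τ x, hp0 x⟩ - gm ⟨τ x, hm0 x⟩
  have hφ : Continuous φ :=
    (hgp.comp (hτ.subtype_mk _)).sub (hgm.comp (hτ.subtype_mk _))
  have hφ1 : ∀ x, Complex.exp (φ x) = 1 := by
    intro x
    change Complex.exp (gp ⟨τ x, hp0 x⟩ - gm ⟨τ x, hm0 x⟩) = 1
    rw [Complex.exp_sub, ← hgp1, ← hgm1]
    exact div_self (hf0 _)
  have hne : Nonempty (S2 × Y) := inferInstance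
  obtain ⟨x0⟩ := hne
  have hφc : ∀ x, φ x = φ x0 := fun x => exp_one_const φ hφ hφ1 x x0
  set c : ℂ := φ x0 with hc
  have hc1 : Complex.exp c = 1 := hφ1 x0
  have hagree : ∀ (p : Metric.sphere (0 : Quaternion ℝ) 1 × Y) (h1 : 0 ≤ (1 : ℝ) * p.1.1.re)
      (h2 : 0 ≤ (-1 : ℝ) * p.1.1.re), gp ⟨p, h1⟩ - c = gm ⟨p, h2⟩ := by
    intro p h1 h2
    have h3 : p.1.1.re = 0 := by linarith
    obtain ⟨x, hx⟩ := hτs p h3
    subst hx
    have := hφc x
    change gp ⟨τ x, hp0 x⟩ - gm ⟨τ x, hm0 x⟩ = c at this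
    rw [← this]
    ring
  classical
  let G : Metric.sphere (0 : Quaternion ℝ) 1 × Y → ℂ := fun p =>
    if h : 0 ≤ (1 : ℝ) * p.1.1.re then gp ⟨p, h⟩ - c
    else gm ⟨p, by
      have h' := not_le.1 h
      linarith⟩
  have hG1 : ∀ (p : Metric.sphere (0 : Quaternion ℝ) 1 × Y) (h1 : 0 ≤ (1 : ℝ) * p.1.1.re),
      G p = gp ⟨p, h1⟩ - c := by
    intro p h1
    simp only [G]
    rw [dif_pos h1]
  have hG2 : ∀ (p : Metric.sphere (0 : Quaternion ℝ) 1 × Y) (h1 : 0 ≤ (-1 : ℝ) * p.1.1.re),
      G p = gm ⟨p, h1⟩ := by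
    intro p h1
    by_cases h : 0 ≤ (1 : ℝ) * p.1.1.re
    · rw [hG1 p h]
      exact hagree p h h1
    · simp only [G]
      rw [dif_neg h]
  refine ⟨G, ?_, ?_⟩
  · rw [← continuousOn_univ]
    have hu : (Set.univ : Set (Metric.sphere (0 : Quaternion ℝ) 1 × Y)) =
        {p | 0 ≤ (1 : ℝ) * p.1.1.re} ∪ {p | 0 ≤ (-1 : ℝ) * p.1.1.re} := by
      ext p
      simp only [Set.mem_univ, true_iff, Set.mem_union, Set.mem_ofPred_eq]
      rcases le_total 0 p.1.1.re with h | h
      · left; linarith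
      · right; linarith
    rw [hu]
    apply ContinuousOn.union_of_isClosed
    · rw [continuousOn_iff_continuous_domRestrict]
      have : (Set.domRestrict {p : Metric.sphere (0 : Quaternion ℝ) 1 × Y | 0 ≤ (1 : ℝ) * p.1.1.re} G) =
          fun p => gp ⟨p.1, p.2⟩ - c := by
        funext p
        exact hG1 p.1 p.2
      rw [this]
      exact hgp.sub continuous_const
    · rw [continuousOn_iff_continuous_domRestrict]
      have : (Set.domRestrict {p : Metric.sphere (0 : Quaternion ℝ) 1 × Y | 0 ≤ (-1 : ℝ) * p.1.1.re} G) =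
          fun p => gm ⟨p.1, p.2⟩ := by
        funext p
        exact hG2 p.1 p.2
      rw [this]
      exact hgm
    · exact isClosed_le continuous_const (continuous_const.mul hre)
    · exact isClosed_le continuous_const (continuous_const.mul hre)
  · intro p
    rcases le_total 0 p.1.1.re with h | h
    · have h1 : 0 ≤ (1 : ℝ) * p.1.1.re := by linarith
      rw [hG1 p h1, Complex.exp_sub, hc1, div_one]
      exact hgp1 ⟨p, h1⟩
    · have h1 : 0 ≤ (-1 : ℝ) * p.1.1.re := by linarith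
      rw [hG2 p h1]
      exact hgm1 ⟨p, h1⟩
end LP3
end HB
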