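import Pool.Agent.Helper24.HB.Comb
set_option autoImplicit false
noncomputable section
namespace HB
namespace LPG
instance S3_conn : ConnectedSpace S3 := by
  refine isConnected_iff_connectedSpace.1 (isConnected_sphere ?_ 0 zero_le_one)
  rw [Quaternion.rank_eq_four]
  norm_num

theorem LP_PUnit : LP PUnit := by
  intro f _ h0
  exact ⟨fun _ => Complex.log (f PUnit.unit), continuous_const, fun _ =>
    (Complex.exp_log (h0 PUnit.unit)).symm⟩

theorem LP_of_homeo {X Y : Type} [TopologicalSpace X] [TopologicalSpace Y] (h : X ≃ₜ Y)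
    (hX : LP X) : LP Y := by
  intro f hf h0
  obtain ⟨g, hg, hgf⟩ := hX (f ∘ h) (hf.comp h.continuous) (fun x => h0 _)
  refine ⟨g ∘ h.symm, hg.comp h.symm.continuous, fun y => ?_⟩
  have := hgf (h.symm y)
  simpa using this

/-- TARGETS (all other results enter as hypotheses) -/
theorem K_conn (hspin : ∃ Φ : S3 × S3 → G5, Continuous Φ ∧ (∀ q, gact (Φ q) o = o) ∧
    (∀ g : G5, gact g o = o → ∃ q, Φ q = g) ∧
    (∀ a b : S3, Φ (-a, -b) = Φ (a, b)) ∧
    (∀ q q' : S3 × S3, Φ q = Φ q' → q' = q ∨ q' = (-q.1, -q.2))) :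
    IsPreconnected {k : G5 | gact k o = o} := by
  obtain ⟨Φ, hc, h1, h2, -, -⟩ := hspin
  have h : {k : G5 | gact k o = o} = Set.range Φ := by
    ext k
    constructor
    · intro hk
      obtain ⟨q, hq⟩ := h2 k hk
      exact ⟨q, hq⟩
    · rintro ⟨q, rfl⟩
      exact h1 q
  rw [h]
  exact isPreconnected_range hc

theorem b_inv_mem (b : Hyp → G5) (hb2 : ∀ p : Hyp, gact (b p) o = p) (g : G5) :
    gact ((b ⟨gact g o, gact_mem_Hyp g o_mem⟩)⁻¹ * g) o = o := by
  obtain ⟨p, hp⟩ : ∃ p : Hyp, p = ⟨gact g o, gact_mem_Hyp g o_mem⟩ := ⟨_, rfl⟩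
  rw [← hp, gact_mul]
  have h2 : gact g o = gact (b p) o := by rw [hb2 p, hp]
  rw [h2]
  exact gact_inv_cancel _ _

theorem G5_conn (hspin : ∃ Φ : S3 × S3 → G5, Continuous Φ ∧ (∀ q, gact (Φ q) o = o) ∧
    (∀ g : G5, gact g o = o → ∃ q, Φ q = g) ∧
    (∀ a b : S3, Φ (-a, -b) = Φ (a, b)) ∧
    (∀ q q' : S3 × S3, Φ q = Φ q' → q' = q ∨ q' = (-q.1, -q.2)))
    (hb : ∃ b : Hyp → G5, Continuous b ∧ ∀ p : Hyp, gact (b p) o = p)
    (hH : Nonempty (Hyp ≃ₜ (Fin 4 → ℝ))) : ConnectedSpace G5 := by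
  obtain ⟨b, hbc, hb2⟩ := hb
  obtain ⟨h⟩ := hH
  have hK : ConnectedSpace {k : G5 | gact k o = o} :=
    isConnected_iff_connectedSpace.1 ⟨⟨1, gact_one o⟩, K_conn hspin⟩
  have hHyp : ConnectedSpace Hyp := h.symm.surjective.connectedSpace h.symm.continuous
  have hF : Continuous (fun q : Hyp × {k : G5 | gact k o = o} => b q.1 * (q.2 : G5)) :=
    (hbc.comp continuous_fst).mul (continuous_subtype_val.comp continuous_snd)
  have hS : Function.Surjective (fun q : Hyp × {k : G5 | gact k o = o} => b q.1 * (q.2 : G5)) := by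
    intro g
    refine ⟨(⟨gact g o, gact_mem_Hyp g o_mem⟩,
      ⟨(b ⟨gact g o, gact_mem_Hyp g o_mem⟩)⁻¹ * g, b_inv_mem b hb2 g⟩), ?_⟩
    exact mul_inv_cancel_left _ _
  exact hS.connectedSpace hF

theorem int_diff (X : Type) [TopologicalSpace X] [PreconnectedSpace X] (D : X → ℂ)
    (hD : Continuous D) (h : ∀ x, Complex.exp (D x) = 1) (x y : X) : D x = D y := by
  have h1 : ∀ x, ∃ n : ℤ, D x = n * (2 * Real.pi * Complex.I) := fun x =>
    Complex.exp_eq_one_iff.1 (h x)
  choose n hn using h1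
  have hpi : (2 * (Real.pi : ℝ)) ≠ 0 := by positivity
  have h2 : ∀ x, ((n x : ℤ) : ℝ) = (D x).im / (2 * Real.pi) := by
    intro x
    rw [hn x]
    have : ((n x : ℂ) * (2 * Real.pi * Complex.I)).im = n x * (2 * Real.pi) := by
      have e : ((n x : ℂ) * (2 * Real.pi * Complex.I)) =
          (((n x : ℝ) * (2 * Real.pi) : ℝ) : ℂ) * Complex.I := by
        push_cast; ring
      rw [e, Complex.mul_I_im, Complex.ofReal_re]
    rw [this]
    field_simp
  have h3 : Continuous (fun x => ((n x : ℤ) : ℝ)) := by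
    have : (fun x => ((n x : ℤ) : ℝ)) = fun x => (D x).im / (2 * Real.pi) := funext h2
    rw [this]
    exact (Complex.continuous_im.comp hD).div_const _
  have h4 : Continuous n := Int.isClosedEmbedding_coe_real.isEmbedding.continuous_iff.2 h3
  have h5 : n x = n y := PreconnectedSpace.constant inferInstance h4
  rw [hn x, hn y, h5]

theorem LP_K (hspin : ∃ Φ : S3 × S3 → G5, Continuous Φ ∧ (∀ q, gact (Φ q) o = o) ∧
    (∀ g : G5, gact g o = o → ∃ q, Φ q = g) ∧
    (∀ a b : S3, Φ (-a, -b) = Φ (a, b)) ∧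
    (∀ q q' : S3 × S3, Φ q = Φ q' → q' = q ∨ q' = (-q.1, -q.2)))
    (hS : LP (S3 × S3)) : LP {k : G5 // gact k o = o} := by
  obtain ⟨Φ, hc, h1, h2, h3, h4⟩ := hspin
  intro f hf hf0
  let Φ' : S3 × S3 → {k : G5 // gact k o = o} := fun q => ⟨Φ q, h1 q⟩
  have hΦ' : Continuous Φ' := hc.subtype_mk _
  have hsurj : Function.Surjective Φ' := by
    rintro ⟨k, hk⟩
    obtain ⟨q, hq⟩ := h2 k hk
    exact ⟨q, Subtype.ext hq⟩
  have hquot : Topology.IsQuotientMap Φ' := hΦ'.isClosedMap.isQuotientMap hΦ' hsurj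
  obtain ⟨g, hg, hgf⟩ := hS (f ∘ Φ') (hf.comp hΦ') (fun q => hf0 _)
  let σ : S3 × S3 → S3 × S3 := fun q => (-q.1, -q.2)
  have hσ : Continuous σ := (continuous_fst.neg).prodMk (continuous_snd.neg)
  have hσσ : ∀ q, σ (σ q) = q := fun q => by
    simp only [σ, neg_neg]
  have hΦσ : ∀ q, Φ' (σ q) = Φ' q := fun q => Subtype.ext (h3 q.1 q.2)
  have hexp : ∀ q, Complex.exp (g (σ q) - g q) = 1 := by
    intro q
    rw [Complex.exp_sub, ← hgf, ← hgf]
    show f (Φ' (σ q)) / f (Φ' q) = 1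
    rw [hΦσ q, div_self (hf0 _)]
  have hconst := int_diff (S3 × S3) (fun q => g (σ q) - g q) ((hg.comp hσ).sub hg) hexp
  have hinv : ∀ q, g (σ q) = g q := by
    intro q
    have h5 := hconst q (σ q)
    simp only [hσσ] at h5
    have h6 : g (σ q) - g q = 0 := by
      have h7 : (2 : ℂ) * (g (σ q) - g q) = 0 := by linear_combination h5
      simpa using h7
    exact sub_eq_zero.1 h6
  have hfib : ∀ q q', Φ' q = Φ' q' → g q = g q' := by
    intro q q' hqq
    have h5 : Φ q = Φ q' := congrArg Subtype.val hqq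
    rcases h4 q q' h5 with h6 | h6
    · rw [h6]
    · rw [h6]
      exact (hinv q).symm
  let g' : {k : G5 // gact k o = o} → ℂ := fun k => g (hsurj k).choose
  have hg' : g' ∘ Φ' = g := by
    funext q
    exact hfib _ _ (hsurj (Φ' q)).choose_spec
  refine ⟨g', ?_, ?_⟩
  · rw [hquot.continuous_iff, hg']
    exact hg
  · intro k
    obtain ⟨q, rfl⟩ := hsurj k
    have h5 := hgf q
    have h6 : g' (Φ' q) = g q := congrFun hg' q
    rw [h6]
    exact h5

theorem G5_LP (hspin : ∃ Φ : S3 × S3 → G5, Continuous Φ ∧ (∀ q, gact (Φ q) o = o) ∧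
    (∀ g : G5, gact g o = o → ∃ q, Φ q = g) ∧
    (∀ a b : S3, Φ (-a, -b) = Φ (a, b)) ∧
    (∀ q q' : S3 × S3, Φ q = Φ q' → q' = q ∨ q' = (-q.1, -q.2)))
    (hb : ∃ b : Hyp → G5, Continuous b ∧ ∀ p : Hyp, gact (b p) o = p)
    (hH : Nonempty (Hyp ≃ₜ (Fin 4 → ℝ)))
    (hsph : ∀ (Y : Type) [TopologicalSpace Y] [ConnectedSpace Y], LP Y → LP (S3 × Y))
    (hcontr : ∀ (X Y : Type) [TopologicalSpace X] [TopologicalSpace Y] (H : unitInterval × X → X),
      Continuous H → (∀ x, H (1, x) = x) → ∀ (q : X → Y) (j : Y → X), Continuous q → Continuous j →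
      (∀ x, H (0, x) = j (q x)) → LP Y → LP X) : LP G5 := by
  have hS1 : LP (S3 × PUnit) := hsph PUnit LP_PUnit
  have hS2 : LP (S3 × (S3 × PUnit)) := hsph (S3 × PUnit) hS1
  have hS3 : LP (S3 × S3) := by
    intro f hf h0
    obtain ⟨g, hg, hgf⟩ := hS2 (fun q => f (q.1, q.2.1))
      (hf.comp (continuous_fst.prodMk (continuous_fst.comp continuous_snd))) (fun q => h0 _)
    refine ⟨fun q => g (q.1, (q.2, PUnit.unit)),
      hg.comp (continuous_fst.prodMk (continuous_snd.prodMk continuous_const)), fun q => ?_⟩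
    exact hgf (q.1, (q.2, PUnit.unit))
  have hK := LP_K hspin hS3
  obtain ⟨b, hbc, hb2⟩ := hb
  obtain ⟨h⟩ := hH
  let o' : Hyp := ⟨o, o_mem⟩
  let P : G5 → Hyp := fun g => ⟨gact g o, gact_mem_Hyp g o_mem⟩
  have hP : Continuous P :=
    (continuous_gact.comp (continuous_id.prodMk continuous_const)).subtype_mk _
  let H : unitInterval × G5 → G5 := fun q =>
    b (h.symm ((1 - (q.1 : ℝ)) • h o' + (q.1 : ℝ) • h (P q.2))) * ((b (P q.2))⁻¹ * q.2)
  have hPs : Continuous (fun q : unitInterval × G5 => P q.2) := hP.comp continuous_snd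
  have ht : Continuous (fun q : unitInterval × G5 => (q.1 : ℝ)) :=
    continuous_subtype_val.comp continuous_fst
  have hHc : Continuous H := by
    refine Continuous.mul ?_ ?_
    · refine hbc.comp (h.symm.continuous.comp ?_)
      exact ((continuous_const.sub ht).smul continuous_const).add
        (ht.smul (h.continuous.comp hPs))
    · exact (hbc.comp hPs).inv.mul continuous_snd
  let q : G5 → {k : G5 // gact k o = o} := fun g => ⟨(b (P g))⁻¹ * g, b_inv_mem b hb2 g⟩
  have hq : Continuous q := ((hbc.comp hP).inv.mul continuous_id).subtype_mk _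
  let j : {k : G5 // gact k o = o} → G5 := fun k => b o' * (k : G5)
  have hj : Continuous j := continuous_const.mul continuous_subtype_val
  refine hcontr G5 {k : G5 // gact k o = o} H hHc ?_ q j hq hj ?_ hK
  · intro g
    show b (h.symm ((1 - ((1 : unitInterval) : ℝ)) • h o' + ((1 : unitInterval) : ℝ) • h (P g))) *
      ((b (P g))⁻¹ * g) = g
    simp
  · intro g
    show b (h.symm ((1 - ((0 : unitInterval) : ℝ)) • h o' + ((0 : unitInterval) : ℝ) • h (P g))) *
      ((b (P g))⁻¹ * g) = b o' * ((b (P g))⁻¹ * g)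
    simp
end LPG
end HB
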