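import Pool.Agent.Helper24.HB.Comb
set_option autoImplicit false
noncomputable section
namespace HB
namespace M3
lemma quot_ext {g h : G5} (hgh : ∀ x, gact g x = gact h x) : g = h := by
  apply Subtype.ext
  apply Units.ext
  apply Matrix.toLin'.injective
  apply LinearMap.ext
  intro x
  rw [Matrix.toLin'_apply, Matrix.toLin'_apply]
  exact hgh x

lemma quot_const (hconn : ConnectedSpace G5) (h : G5 → ℂ) (hc : Continuous h)
    (hn : ∀ g, ∃ n : ℤ, h g = n) (g g' : G5) : h g = h g' := by
  choose n hn using hn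
  have hcn : Continuous n := by
    rw [Int.isClosedEmbedding_coe_real.isEmbedding.continuous_iff]
    have e : (Int.cast ∘ n : G5 → ℝ) = fun g => (h g).re := by
      funext g
      rw [hn g]
      simp
    rw [e]
    exact Complex.continuous_re.comp hc
  have := (isPreconnected_univ (α := G5)).constant hcn.continuousOn (Set.mem_univ g) (Set.mem_univ g')
  rw [hn g, hn g', this]

/-- every nowhere zero continuous function on the quotient has a continuous logarithm -/
theorem quot_log {ι : Type} (C : Cell ι) {S : Type} (W : WSet C S) (s0 : S)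
    (hconn : ConnectedSpace G5)
    (hLP : ∀ f : G5 → ℂ, Continuous f → (∀ y, f y ≠ 0) → ∃ g : G5 → ℂ, Continuous g ∧ ∀ y, f y = Complex.exp (g y))
    (heven : ∀ w : List ι, Even w.length → ∃ g : G5, ∀ x, gact g x = C.rho w x)
    (hH : ∀ κ : List ι → ℤ,
      (∀ w1 w2 : List ι, Even w1.length → Even w2.length → W.tau w1 s0 = s0 → W.tau w2 s0 = s0 →
        κ (w1 ++ w2) = κ w1 + κ w2) →
      (∀ w1 w2 : List ι, Even w1.length → Even w2.length → W.tau w1 s0 = s0 → W.tau w2 s0 = s0 →
        (∀ x, C.rho w1 x = C.rho w2 x) → κ w1 = κ w2) →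
      ∀ w : List ι, Even w.length → W.tau w s0 = s0 → κ w = 0)
    (f : C(G5 ⧸ Gam C W s0, ℂ)) (hf : ∀ x, f x ≠ 0) :
    ∃ g : C(G5 ⧸ Gam C W s0, ℂ), ∀ x, f x = Complex.exp (g x) := by
  have hpi : (2 * (Real.pi : ℂ) * Complex.I) ≠ 0 := Complex.two_pi_I_ne_zero
  obtain ⟨L, hL, hLf⟩ := hLP (fun g => f (QuotientGroup.mk g))
    (f.continuous.comp QuotientGroup.continuous_mk) (fun g => hf _)
  have hmk : ∀ g γ : G5, γ ∈ Gam C W s0 →
      (QuotientGroup.mk (g * γ) : G5 ⧸ Gam C W s0) = QuotientGroup.mk g := by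
    intro g γ hγ
    rw [eq_comm, QuotientGroup.eq, inv_mul_cancel_left]
    exact hγ
  have hex : ∀ γ : G5, ∃ c : ℤ, γ ∈ Gam C W s0 →
      ∀ g, L (g * γ) = L g + c * (2 * Real.pi * Complex.I) := by
    intro γ
    by_cases hγ : γ ∈ Gam C W s0
    · have hn : ∀ g, ∃ n : ℤ, (L (g * γ) - L g) / (2 * Real.pi * Complex.I) = n := by
        intro g
        have h1 : Complex.exp (L (g * γ)) = Complex.exp (L g) := by
          rw [← hLf, ← hLf, hmk g γ hγ]
        obtain ⟨n, hn⟩ := Complex.exp_eq_exp_iff_exists_int.1 h1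
        refine ⟨n, ?_⟩
        rw [hn]
        field_simp
        ring
      have hcont : Continuous fun g => (L (g * γ) - L g) / (2 * Real.pi * Complex.I) :=
        ((hL.comp (continuous_mul_const γ)).sub hL).div_const _
      obtain ⟨c, hc⟩ := hn 1
      refine ⟨c, fun _ g => ?_⟩
      have h2 := quot_const hconn _ hcont hn g 1
      rw [hc] at h2
      rw [div_eq_iff hpi] at h2
      linear_combination h2
    · exact ⟨0, fun h => absurd h hγ⟩
  choose χ hχ using hex
  have hadd : ∀ γ γ' : G5, γ ∈ Gam C W s0 → γ' ∈ Gam C W s0 → χ (γ * γ') = χ γ + χ γ' := by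
    intro γ γ' h h'
    have e1 := hχ (γ * γ') ((Gam C W s0).mul_mem h h') 1
    have e2 := hχ γ h 1
    have e3 := hχ γ' h' (1 * γ)
    rw [mul_assoc] at e3
    rw [e2] at e3
    rw [e1] at e3
    have e4 : ((χ (γ * γ') : ℤ) : ℂ) * (2 * Real.pi * Complex.I) =
        ((χ γ + χ γ' : ℤ) : ℂ) * (2 * Real.pi * Complex.I) := by
      push_cast
      linear_combination e3
    exact_mod_cast mul_right_cancel₀ hpi e4
  have hev : ∀ w : List ι, ∃ g : G5, Even w.length → ∀ x, gact g x = C.rho w x := by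
    intro w
    by_cases h : Even w.length
    · obtain ⟨g, hg⟩ := heven w h
      exact ⟨g, fun _ => hg⟩
    · exact ⟨1, fun h' => absurd h' h⟩
  choose gw hgw using hev
  have hmem : ∀ w : List ι, Even w.length → W.tau w s0 = s0 → gw w ∈ Gam C W s0 :=
    fun w h1 h2 => ⟨w, h1, h2, hgw w h1⟩
  have hz := hH (fun w => χ (gw w)) (by
      intro w1 w2 h1 h2 t1 t2
      have h12 : Even (w1 ++ w2).length := by rw [List.length_append]; exact h1.add h2
      have e : gw (w1 ++ w2) = gw w1 * gw w2 := by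
        apply quot_ext
        intro x
        rw [hgw _ h12, gact_mul, rho_append, hgw _ h2, hgw _ h1]
      show χ (gw (w1 ++ w2)) = χ (gw w1) + χ (gw w2)
      rw [e]
      exact hadd _ _ (hmem w1 h1 t1) (hmem w2 h2 t2)) (by
      intro w1 w2 h1 h2 _ _ hr
      have e : gw w1 = gw w2 := by
        apply quot_ext
        intro x
        rw [hgw _ h1, hgw _ h2, hr]
      show χ (gw w1) = χ (gw w2)
      rw [e])
  have hinv : ∀ g γ : G5, γ ∈ Gam C W s0 → L (g * γ) = L g := by
    intro g γ hγ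
    obtain ⟨w, h1, h2, h3⟩ := id hγ
    have e : γ = gw w := by
      apply quot_ext
      intro x
      rw [h3, hgw _ h1]
    have e0 : χ γ = 0 := by
      rw [e]
      exact hz w h1 h2
    rw [hχ γ hγ g, e0]
    simp
  let ℓ : G5 ⧸ Gam C W s0 → ℂ := fun x => L (Quotient.out x)
  have hℓ : ∀ g : G5, ℓ (QuotientGroup.mk g) = L g := by
    intro g
    have h1 : (QuotientGroup.mk (Quotient.out (QuotientGroup.mk g : G5 ⧸ Gam C W s0)) :
        G5 ⧸ Gam C W s0) = QuotientGroup.mk g := Quotient.out_eq _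
    rw [QuotientGroup.eq] at h1
    have h2 := hinv (Quotient.out (QuotientGroup.mk g : G5 ⧸ Gam C W s0)) _ h1
    rw [mul_inv_cancel_left] at h2
    exact h2.symm
  have hℓc : Continuous ℓ := by
    rw [(QuotientGroup.isQuotientMap_mk (Gam C W s0)).continuous_iff]
    have e : ℓ ∘ QuotientGroup.mk = L := funext hℓ
    rw [e]
    exact hL
  refine ⟨⟨ℓ, hℓc⟩, fun x => ?_⟩
  obtain ⟨g, rfl⟩ := QuotientGroup.mk_surjective x
  show f (QuotientGroup.mk g) = Complex.exp (ℓ (QuotientGroup.mk g))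
  rw [hℓ]
  exact hLf g
end M3
end HB
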