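import Pool.Agent.Helper24.HB.Comb
set_option autoImplicit false
noncomputable section
namespace HB
namespace M45
/-- evaluation ring homomorphism -/
def ev {X : Type} [TopologicalSpace X] (x : X) : C(X, ℂ) →+* ℂ where
  toFun f := f x
  map_one' := rfl
  map_mul' _ _ := rfl
  map_zero' := rfl
  map_add' _ _ := rfl

theorem mkpoly {X : Type} [TopologicalSpace X] (F : X → Polynomial ℂ) (n : ℕ) (hdeg : ∀ x, (F x).natDegree = n)
    (hmon : ∀ x, (F x).Monic) (hcont : ∀ m, Continuous fun x => (F x).coeff m) :
    ∃ p : Polynomial C(X, ℂ), p.Monic ∧ ∀ x, p.map (ev x) = F x := by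
  let c : ℕ → C(X, ℂ) := fun m => ⟨fun x => (F x).coeff m, hcont m⟩
  let p : Polynomial C(X, ℂ) := ∑ m ∈ Finset.range (n + 1), Polynomial.monomial m (c m)
  have hcoeff : ∀ k, p.coeff k = if k < n + 1 then c k else 0 := by
    intro k
    simp only [p, Polynomial.finset_sum_coeff, Polynomial.coeff_monomial]
    rw [Finset.sum_ite_eq']
    simp
  have h1 : c n = 1 := by
    ext x
    have h2 := (hmon x).coeff_natDegree
    rw [hdeg x] at h2
    exact h2
  refine ⟨p, ?_, fun x => ?_⟩
  · refine Polynomial.monic_of_natDegree_le_of_coeff_eq_one n ?_ ?_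
    · rw [Polynomial.natDegree_le_iff_coeff_eq_zero]
      intro N hN
      rw [hcoeff, if_neg (by omega)]
    · rw [hcoeff, if_pos (by omega), h1]
  · ext k
    rw [Polynomial.coeff_map, hcoeff]
    by_cases hk : k < n + 1
    · rw [if_pos hk]
      rfl
    · rw [if_neg hk, map_zero]
      symm
      apply Polynomial.coeff_eq_zero_of_natDegree_lt
      rw [hdeg x]
      omega

theorem nd_deriv {R : Type} [CommRing R] (p : Polynomial R) (hm : p.Monic) (m : ℕ)
    (hpm : p.natDegree = m + 1) (hne : ((m + 1 : ℕ) : R) ≠ 0) :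
    (Polynomial.derivative p).natDegree = m := by
  apply Polynomial.natDegree_eq_of_le_of_coeff_ne_zero
  · have := Polynomial.natDegree_derivative_le p
    rw [hpm] at this
    exact this
  · rw [Polynomial.coeff_derivative]
    have h1 := hm.coeff_natDegree
    rw [hpm] at h1
    rw [h1, one_mul]
    exact_mod_cast hne

/-- a monic polynomial over `C(X)`, `X` compact Hausdorff nonempty, which is separable at every point is separable -/
theorem sep_of_pointwise {X : Type} [TopologicalSpace X] [CompactSpace X] [T2Space X] [Nonempty X]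
    (p : Polynomial C(X, ℂ)) (hm : p.Monic)
    (h : ∀ x, (p.map (ev x)).Separable) : p.Separable := by
  rcases Nat.eq_zero_or_pos p.natDegree with h0 | h0
  · rw [Polynomial.eq_one_of_monic_natDegree_zero hm h0]
    exact Polynomial.separable_one
  · obtain ⟨m, hpm⟩ : ∃ m, p.natDegree = m + 1 := ⟨p.natDegree - 1, by omega⟩
    have hneC : ((m + 1 : ℕ) : ℂ) ≠ 0 := by exact_mod_cast Nat.succ_ne_zero m
    have hneX : ((m + 1 : ℕ) : C(X, ℂ)) ≠ 0 := by
      intro hcon
      obtain ⟨x⟩ := ‹Nonempty X›
      have h2 := congrArg (ev x) hcon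
      rw [map_natCast, map_zero] at h2
      exact hneC h2
    have hd1 := nd_deriv p hm m hpm hneX
    show IsCoprime p (Polynomial.derivative p)
    rw [← Polynomial.isUnit_resultant_iff_isCoprime hm, ContinuousMap.isUnit_iff_forall_ne_zero]
    intro x
    have hmx : (p.map (ev x)).Monic := hm.map _
    have hpx : (p.map (ev x)).natDegree = m + 1 := by rw [hm.natDegree_map, hpm]
    have hd2 := nd_deriv (p.map (ev x)) hmx m hpx hneC
    have h3 : IsUnit (Polynomial.resultant (p.map (ev x)) (Polynomial.derivative (p.map (ev x)))) :=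
      (Polynomial.isUnit_resultant_iff_isCoprime hmx).2 (h x)
    rw [hpx, hd2, Polynomial.derivative_map, Polynomial.resultant_map_map] at h3
    have h4 := h3.ne_zero
    rw [hpm, hd1]
    exact h4
end M45
end HB
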