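import Pool.Agent.Helper24.HB.Comb
set_option autoImplicit false
noncomputable section
namespace HB
namespace M6a
lemma j12892_P_conn {ι : Type} (C : Cell ι) : IsPreconnected C.P := by
  refine isPreconnected_of_forall o ?_
  intro p hp
  have hp4 : 1 ≤ p 4 := by
    have := B_le_neg_one o_mem hp.1
    rw [B_o_left] at this
    linarith
  set c : ℝ → (Fin 5 → ℝ) := fun t => (1 - t) • o + t • p with hc
  have hBcc : ∀ t, - B (c t) (c t) = (1 - t) ^ 2 + t ^ 2 + 2 * t * (1 - t) * p 4 := by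
    intro t
    simp only [hc, B_add_left, B_add_right, B_smul_left, B_smul_right, B_o_right, B_o_left, hp.1.1]
    simp [o]
    ring
  have hpos : ∀ t ∈ Set.Icc (0:ℝ) 1, 1 ≤ - B (c t) (c t) := by
    intro t ht
    rw [hBcc]
    have h1 : 0 ≤ t * (1 - t) := mul_nonneg ht.1 (by linarith [ht.2])
    nlinarith
  set γ : ℝ → (Fin 5 → ℝ) := fun t => (Real.sqrt (- B (c t) (c t)))⁻¹ • c t with hγ
  have hcc : Continuous c := by
    rw [hc]
    exact ((continuous_const.sub continuous_id).smul continuous_const).add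
      (continuous_id.smul continuous_const)
  have hγc : ContinuousOn γ (Set.Icc 0 1) := by
    have h1 : Continuous fun t => Real.sqrt (- B (c t) (c t)) :=
      Real.continuous_sqrt.comp (continuous_B hcc hcc).neg
    refine (h1.continuousOn.inv₀ ?_).smul hcc.continuousOn
    intro t ht
    have := hpos t ht
    exact (Real.sqrt_pos.2 (by linarith)).ne'
  refine ⟨γ '' Set.Icc 0 1, ?_, ⟨0, by simp, ?_⟩, ⟨1, by simp, ?_⟩,
    isPreconnected_Icc.image γ hγc⟩
  · rintro _ ⟨t, ht, rfl⟩
    have h1 := hpos t ht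
    have hs : 0 < Real.sqrt (- B (c t) (c t)) := Real.sqrt_pos.2 (by linarith)
    have hss : Real.sqrt (- B (c t) (c t)) ^ 2 = - B (c t) (c t) := Real.sq_sqrt (by linarith)
    constructor
    · refine mem_Hyp_of_neg (p := o) ?_ o_mem ?_
      · simp only [hγ, B_smul_left, B_smul_right]
        have h2 : B (c t) (c t) = - Real.sqrt (- B (c t) (c t)) ^ 2 := by linarith
        generalize Real.sqrt (- B (c t) (c t)) = r at *
        rw [h2]
        field_simp
      · simp only [hγ, B_smul_left]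
        apply mul_neg_of_pos_of_neg (inv_pos.2 hs)
        rw [B_o_right]
        simp only [hc, Pi.add_apply, Pi.smul_apply, smul_eq_mul]
        have ho : o 4 = 1 := by simp [o]
        rw [ho]
        have h3 : t * 1 ≤ t * p 4 := mul_le_mul_of_nonneg_left hp4 ht.1
        linarith
    · intro i
      simp only [hγ, B_smul_left]
      apply mul_nonpos_of_nonneg_of_nonpos (inv_pos.2 hs).le
      simp only [hc, B_add_left, B_smul_left]
      have h4 : (1 - t) * B o (C.e i) ≤ 0 :=
        mul_nonpos_of_nonneg_of_nonpos (by linarith [ht.2]) (C.cen i).le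
      have h5 : t * B p (C.e i) ≤ 0 := mul_nonpos_of_nonneg_of_nonpos ht.1 (hp.2 i)
      linarith
  · show (Real.sqrt (- B (c 0) (c 0)))⁻¹ • c 0 = o
    rw [hBcc 0]
    simp [hc]
  · show (Real.sqrt (- B (c 1) (c 1)))⁻¹ • c 1 = p
    rw [hBcc 1]
    simp [hc]

/-- chambers in the group are connected and nonempty; walls of the cell are nonempty -/
theorem chamber_conn {ι : Type} (C : Cell ι) (w : List ι)
    (bst : Hyp → G5) (hb : Continuous bst) (hbo : ∀ p : Hyp, gact (bst p) o = p)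
    (hK : IsPreconnected {k : G5 | gact k o = o}) :
    IsPreconnected {g : G5 | C.rho w (gact g⁻¹ o) ∈ C.P} := by
  have hP' : IsPreconnected {p : Hyp | (p : Fin 5 → ℝ) ∈ C.P} := by
    rw [← Topology.IsInducing.subtypeVal.isPreconnected_image]
    have : (Subtype.val '' {p : Hyp | (p : Fin 5 → ℝ) ∈ C.P}) = C.P := by
      ext x
      constructor
      · rintro ⟨p, hp, rfl⟩; exact hp
      · intro hx; exact ⟨⟨x, hx.1⟩, hx, rfl⟩
    rw [this]
    exact j12892_P_conn C
  set ψ : Hyp → Hyp := fun y => ⟨C.rho w.reverse y, rho_mem_Hyp C _ y.2⟩ with hψ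
  have hψc : Continuous ψ :=
    Continuous.subtype_mk ((continuous_rho C _).comp continuous_subtype_val) _
  have hQ : IsPreconnected {p : Hyp | C.rho w p ∈ C.P} := by
    have : {p : Hyp | C.rho w p ∈ C.P} = ψ '' {p : Hyp | (p : Fin 5 → ℝ) ∈ C.P} := by
      ext p
      constructor
      · intro hp
        refine ⟨⟨C.rho w p, rho_mem_Hyp C _ p.2⟩, hp, ?_⟩
        apply Subtype.ext
        exact rho_reverse C w p
      · rintro ⟨y, hy, rfl⟩
        show C.rho w (C.rho w.reverse y) ∈ C.P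
        rw [rho_reverse']
        exact hy
    rw [this]
    exact hP'.image ψ hψc.continuousOn
  have himg : {g : G5 | C.rho w (gact g⁻¹ o) ∈ C.P} =
      (fun q : Hyp × G5 => (bst q.1 * q.2)⁻¹) ''
        ({p : Hyp | C.rho w p ∈ C.P} ×ˢ {k : G5 | gact k o = o}) := by
    ext g
    constructor
    · intro hg
      set p : Hyp := ⟨gact g⁻¹ o, gact_mem_Hyp _ o_mem⟩ with hp
      refine ⟨(p, (bst p)⁻¹ * g⁻¹), ⟨hg, ?_⟩, ?_⟩
      · show gact ((bst p)⁻¹ * g⁻¹) o = o
        rw [gact_mul]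
        have : gact g⁻¹ o = gact (bst p) o := (hbo p).symm
        rw [this, gact_inv_cancel]
      · show (bst p * ((bst p)⁻¹ * g⁻¹))⁻¹ = g
        group
    · rintro ⟨⟨p, k⟩, ⟨hp, hk⟩, rfl⟩
      show C.rho w (gact ((bst p * k)⁻¹)⁻¹ o) ∈ C.P
      have hk' : gact k o = o := hk
      rw [inv_inv, gact_mul, hk', hbo]
      exact hp
  rw [himg]
  refine (hQ.prod hK).image _ (Continuous.continuousOn ?_)
  exact ((hb.comp continuous_fst).mul continuous_snd).inv

theorem wall_nonempty {ι : Type} (C : Cell ι) (i : ι) : ∃ p ∈ C.P, B p (C.e i) = 0 := by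
  classical
  set b := B o (C.e i) with hb
  have hb0 : b < 0 := C.cen i
  have hoo : B o o = -1 := o_mem.1
  set q : Fin 5 → ℝ := o - b • C.e i with hq
  have hqi : B q (C.e i) = 0 := by
    rw [hq, B_sub_left, B_smul_left, C.self i]; ring
  have hqq : B q q = -(1 + b ^ 2) := by
    rw [hq]
    simp only [B_sub_left, B_sub_right, B_smul_left, B_smul_right, C.self i, hoo, B_symm (C.e i) o, ← hb]
    ring
  have hqo : B q o = -(1 + b ^ 2) := by
    rw [hq]
    simp only [B_sub_left, B_smul_left, hoo, B_symm (C.e i) o, ← hb]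
    ring
  have hs : 0 < Real.sqrt (1 + b ^ 2) := Real.sqrt_pos.2 (by positivity)
  have hss : Real.sqrt (1 + b ^ 2) ^ 2 = 1 + b ^ 2 := Real.sq_sqrt (by positivity)
  refine ⟨(Real.sqrt (1 + b ^ 2))⁻¹ • q, ⟨?_, ?_⟩, ?_⟩
  · refine mem_Hyp_of_neg (p := o) ?_ o_mem ?_
    · rw [B_smul_left, B_smul_right, hqq]
      have h2 : -(1 + b ^ 2) = - Real.sqrt (1 + b ^ 2) ^ 2 := by rw [hss]
      rw [h2]
      field_simp
    · rw [B_smul_left, hqo]
      apply mul_neg_of_pos_of_neg (inv_pos.2 hs)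
      nlinarith [sq_nonneg b]
  · intro j
    rw [B_smul_left]
    apply mul_nonpos_of_nonneg_of_nonpos (inv_pos.2 hs).le
    by_cases hij : i = j
    · rw [← hij, hqi]
    · rw [hq, B_sub_left, B_smul_left]
      have h1 := (C.cen j).le
      by_cases ha : C.adj i j
      · rw [C.orth i j ha]; linarith
      · have h2 := C.far i j hij ha
        nlinarith
  · rw [B_smul_left, hqi, mul_zero]

/-- continuous selection among finitely many pairwise distinct continuous functions -/
theorem select {X : Type} [TopologicalSpace X] {s : Set X} (hs : IsPreconnected s) (hne : s.Nonempty)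
    (A : X → ℂ) (hA : Continuous A) (c : Fin 5 → X → ℂ) (hc : ∀ k, Continuous (c k))
    (hd : ∀ x ∈ s, ∀ k l, k ≠ l → c k x ≠ c l x) (h : ∀ x ∈ s, ∃ k, A x = c k x) :
    ∃ k, ∀ x ∈ s, A x = c k x := by
  obtain ⟨x0, hx0⟩ := hne
  obtain ⟨k0, hk0⟩ := h x0 hx0
  refine ⟨k0, fun x hx => ?_⟩
  by_contra hcon
  have h1 := isPreconnected_closed_iff.1 hs {x | A x = c k0 x}
    (⋃ k ∈ ({k | k ≠ k0} : Set (Fin 5)), {x | A x = c k x}) (isClosed_eq hA (hc k0))
    ((Set.toFinite _).isClosed_biUnion fun k _ => isClosed_eq hA (hc k)) ?_ ⟨x0, hx0, hk0⟩ ?_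
  · obtain ⟨y, hy, hy1, hy2⟩ := h1
    rw [Set.mem_iUnion₂] at hy2
    obtain ⟨k, hk, hyk⟩ := hy2
    have e1 : A y = c k0 y := hy1
    have e2 : A y = c k y := hyk
    exact hd y hy k k0 hk (e2.symm.trans e1)
  · intro y hy
    obtain ⟨k, hk⟩ := h y hy
    by_cases hkk : k = k0
    · left; rw [← hkk]; exact hk
    · right
      rw [Set.mem_iUnion₂]
      exact ⟨k, hkk, hk⟩
  · obtain ⟨k, hk⟩ := h x hx
    refine ⟨x, hx, ?_⟩
    rw [Set.mem_iUnion₂]
    refine ⟨k, ?_, hk⟩
    intro hkk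
    exact hcon (by rw [hk, hkk])
end M6a
end HB
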