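import Pool.Agent.Helper24.HB.Comb
set_option autoImplicit false
noncomputable section
namespace HB
namespace M6b
/-- TARGET: a continuous root on the quotient is fixed by all closed even words. -/
theorem no_root {ι : Type} (C : Cell ι) {S : Type} (D : Comb C S) (s0 : S)
    (b : (Fin 5 → ℝ) → S → Fin 5 → ℂ) (hb1 : ∀ s k, Continuous fun p => b p s k)
    (hb2 : ∀ p ∈ C.P, ∀ i, B p (C.e i) = 0 → ∀ s k, b p (D.W.act i s) (D.tr s (D.W.act i s) k) = b p s k)
    (hb3 : ∀ p ∈ C.P, ∀ s k l, k ≠ l → b p s k ≠ b p s l)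
    (Pol : S → (Fin 5 → ℝ) → Polynomial ℂ)
    (hP2 : ∀ s i, ∀ q ∈ Hyp, Pol (D.W.act i s) (refl (C.e i) q) = Pol s q)
    (hP3 : ∀ s, ∀ q ∈ C.P, Pol s q = ∏ k : Fin 5, (Polynomial.X - Polynomial.C (b q s k)))
    (hch : ∀ w : List ι, IsPreconnected {g : G5 | C.rho w (gact g⁻¹ o) ∈ C.P})
    (hwall : ∀ i, ∃ p ∈ C.P, B p (C.e i) = 0)
    (htrans : ∀ p ∈ Hyp, ∃ g : G5, gact g o = p)
    (hsel : ∀ (s : Set G5), IsPreconnected s → s.Nonempty → ∀ (A : G5 → ℂ), Continuous A →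
      ∀ (c : Fin 5 → G5 → ℂ), (∀ k, Continuous (c k)) → (∀ x ∈ s, ∀ k l, k ≠ l → c k x ≠ c l x) →
      (∀ x ∈ s, ∃ k, A x = c k x) → ∃ k, ∀ x ∈ s, A x = c k x)
    (heven : ∀ w : List ι, Even w.length → ∃ g : G5, ∀ x, gact g x = C.rho w x)
    (A : G5 → ℂ) (hA : Continuous A) (hAinv : ∀ g : G5, ∀ γ ∈ Gam C D.W s0, A (g * γ) = A g)
    (hroot : ∀ g : G5, (Pol s0 (gact g⁻¹ o)).eval (A g) = 0) :
    ∃ k0 : Fin 5, ∀ w : List ι, Even w.length → D.W.tau w s0 = s0 → D.rtau w (s0, k0) = (s0, k0) := by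
  have hPw : ∀ (w : List ι) (s : S), ∀ q ∈ Hyp, Pol (D.W.tau w s) (C.rho w q) = Pol s q := by
    intro w s q hq
    induction w with
    | nil => rfl
    | cons i w ih =>
      rw [tau_cons, rho_cons, hP2 _ _ _ (rho_mem_Hyp C w hq), ih]
  have hoH : ∀ g : G5, gact g o ∈ Hyp := fun g => gact_mem_Hyp g o_mem
  have hex : ∀ w : List ι, ∃ k : Fin 5, ∀ g ∈ {g : G5 | C.rho w (gact g⁻¹ o) ∈ C.P},
      A g = b (C.rho w (gact g⁻¹ o)) (D.W.tau w s0) k := by
    intro w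
    refine hsel _ (hch w) ?_ A hA (fun k g => b (C.rho w (gact g⁻¹ o)) (D.W.tau w s0) k) ?_ ?_ ?_
    · obtain ⟨h, hh⟩ := htrans (C.rho w.reverse o) (rho_mem_Hyp C _ o_mem)
      refine ⟨h⁻¹, ?_⟩
      simp only [Set.mem_setOf_eq, inv_inv]
      rw [hh, rho_reverse']
      exact o_mem_P C
    · intro k
      refine (hb1 _ k).comp ((continuous_rho C w).comp ?_)
      exact continuous_gact.comp (continuous_inv.prodMk continuous_const)
    · intro g hg k l hkl
      exact hb3 _ hg _ k l hkl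
    · intro g hg
      have h1 := hroot g
      rw [← hPw w s0 _ (hoH g⁻¹), hP3 _ _ hg, Polynomial.eval_prod, Finset.prod_eq_zero_iff] at h1
      obtain ⟨k, -, hk⟩ := h1
      refine ⟨k, ?_⟩
      rw [Polynomial.eval_sub, Polynomial.eval_X, Polynomial.eval_C] at hk
      exact sub_eq_zero.1 hk
  choose kk hkk using hex
  have hclaim : ∀ w : List ι, D.rtau w (s0, kk []) = (D.W.tau w s0, kk w) := by
    intro w
    induction w with
    | nil => rfl
    | cons i w ih =>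
      have h0 : D.rtau (i :: w) (s0, kk []) = D.ract i (D.rtau w (s0, kk [])) := rfl
      rw [h0, ih]
      obtain ⟨p, hp, hpi⟩ := hwall i
      obtain ⟨h, hh⟩ := htrans (C.rho w.reverse p) (rho_mem_Hyp C _ hp.1)
      have hrp : refl (C.e i) p = p := by
        unfold refl; rw [hpi]; simp
      have e1 : C.rho w (gact (h⁻¹)⁻¹ o) = p := by
        rw [inv_inv, hh, rho_reverse']
      have e2 : C.rho (i :: w) (gact (h⁻¹)⁻¹ o) = p := by
        rw [rho_cons, e1, hrp]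
      have a1 := hkk w h⁻¹ (by simp only [Set.mem_setOf_eq]; rw [e1]; exact hp)
      have a2 := hkk (i :: w) h⁻¹ (by simp only [Set.mem_setOf_eq]; rw [e2]; exact hp)
      rw [e1] at a1
      rw [e2, tau_cons] at a2
      have a3 := hb2 p hp i hpi (D.W.tau w s0) (kk w)
      have a4 : kk (i :: w) = D.tr (D.W.tau w s0) (D.W.act i (D.W.tau w s0)) (kk w) := by
        by_contra hne
        apply hb3 p hp (D.W.act i (D.W.tau w s0)) _ _ hne
        rw [← a2, a3, ← a1]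
      unfold Comb.ract
      rw [tau_cons, a4]
  refine ⟨kk [], ?_⟩
  intro w hw hws
  rw [hclaim w, hws]
  obtain ⟨γ, hγ⟩ := heven w hw
  have hmem : γ ∈ Gam C D.W s0 := ⟨w, hw, hws, hγ⟩
  have e1 : C.rho [] (gact (1 : G5)⁻¹ o) = o := by rw [rho_nil, inv_one, gact_one]
  have e2 : C.rho w (gact γ⁻¹ o) = o := by rw [← hγ, gact_cancel_inv]
  have a1 := hkk [] 1 (by simp only [Set.mem_setOf_eq]; rw [e1]; exact o_mem_P C)
  have a2 := hkk w γ (by simp only [Set.mem_setOf_eq]; rw [e2]; exact o_mem_P C)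
  rw [e1, tau_nil] at a1
  rw [e2, hws] at a2
  have a3 := hAinv 1 γ hmem
  rw [one_mul] at a3
  have : kk w = kk [] := by
    by_contra hne
    apply hb3 o (o_mem_P C) s0 _ _ hne
    rw [← a1, ← a2, a3]
  rw [this]
end M6b
end HB
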