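import Pool.Agent.Helper24.HB.Comb
set_option autoImplicit false
noncomputable section
namespace HB
/-- a vector orthogonal to a timelike vector is not timelike -/
lemma orth_timelike235 (u z : Fin 5 → ℝ) (hu : B u u < 0) (hzu : B z u = 0) : 0 ≤ B z z := by
  unfold B at *
  by_contra hc
  push Not at hc
  obtain ⟨Zs, hZs⟩ : ∃ Zs, Zs = z 0 ^ 2 + z 1 ^ 2 + z 2 ^ 2 + z 3 ^ 2 := ⟨_, rfl⟩
  obtain ⟨Us, hUs⟩ : ∃ Us, Us = u 0 ^ 2 + u 1 ^ 2 + u 2 ^ 2 + u 3 ^ 2 := ⟨_, rfl⟩
  obtain ⟨d, hd⟩ : ∃ d, d = z 0 * u 0 + z 1 * u 1 + z 2 * u 2 + z 3 * u 3 := ⟨_, rfl⟩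
  have h1 : d ^ 2 ≤ Zs * Us := by
    rw [hd, hZs, hUs]
    nlinarith [sq_nonneg (z 0 * u 1 - z 1 * u 0), sq_nonneg (z 0 * u 2 - z 2 * u 0),
      sq_nonneg (z 0 * u 3 - z 3 * u 0), sq_nonneg (z 1 * u 2 - z 2 * u 1),
      sq_nonneg (z 1 * u 3 - z 3 * u 1), sq_nonneg (z 2 * u 3 - z 3 * u 2)]
  have h2 : d = z 4 * u 4 := by linarith
  have h3 : Us < u 4 ^ 2 := by rw [hUs]; linarith
  have h4 : Zs < z 4 ^ 2 := by rw [hZs]; linarith
  have h5 : 0 ≤ Us := by rw [hUs]; positivity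
  have h6 : 0 ≤ Zs := by rw [hZs]; positivity
  have h7 : Zs * Us ≤ Zs * u 4 ^ 2 := mul_le_mul_of_nonneg_left h3.le h6
  have h8 : Zs * u 4 ^ 2 < z 4 ^ 2 * u 4 ^ 2 := mul_lt_mul_of_pos_right h4 (by linarith)
  rw [h2, mul_pow] at h1
  linarith

lemma wt_pos235 {ι : Type} (C : Cell ι) {p : Fin 5 → ℝ} {i : ι} (hi : 0 < C.wt p i) :
    -(1 / 2) < B p (C.e i) := by
  unfold Cell.wt at hi
  by_contra hc
  push Not at hc
  rw [max_eq_left (by linarith)] at hi
  linarith

lemma wt_nonneg235 {ι : Type} (C : Cell ι) (p : Fin 5 → ℝ) (i : ι) : 0 ≤ C.wt p i := by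
  unfold Cell.wt
  have := le_max_left 0 (1 + 2 * B p (C.e i))
  linarith

/-- two walls both close to a point of the cell are adjacent -/
theorem near_adj {ι : Type} (C : Cell ι) {p : Fin 5 → ℝ} (hp : p ∈ C.P) {i j : ι} (hij : i ≠ j)
    (hi : 0 < C.wt p i) (hj : 0 < C.wt p j) : C.adj i j := by
  by_contra h
  have hfar := C.far i j hij h
  obtain ⟨c, hc⟩ : ∃ c, c = -B (C.e i) (C.e j) := ⟨_, rfl⟩
  have hc32 : 3 / 2 ≤ c := by rw [hc]; linarith
  have hBij : B (C.e i) (C.e j) = -c := by rw [hc]; ring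
  have hBji : B (C.e j) (C.e i) = -c := by rw [B_symm, hBij]
  obtain ⟨a, ha⟩ : ∃ a, a = B p (C.e i) := ⟨_, rfl⟩
  obtain ⟨a', ha'⟩ : ∃ a', a' = B p (C.e j) := ⟨_, rfl⟩
  have ha1 : -(1 / 2) < a := by rw [ha]; exact wt_pos235 C hi
  have ha2 : a ≤ 0 := by rw [ha]; exact hp.2 i
  have ha1' : -(1 / 2) < a' := by rw [ha']; exact wt_pos235 C hj
  have ha2' : a' ≤ 0 := by rw [ha']; exact hp.2 j
  have hden : 0 < c ^ 2 - 1 := by nlinarith
  obtain ⟨s, hs⟩ : ∃ s, s = -(a + c * a') / (c ^ 2 - 1) := ⟨_, rfl⟩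
  obtain ⟨t, ht⟩ : ∃ t, t = -(a' + c * a) / (c ^ 2 - 1) := ⟨_, rfl⟩
  have hs' : s * (c ^ 2 - 1) = -(a + c * a') := by
    rw [hs]; exact div_mul_cancel₀ _ hden.ne'
  have ht' : t * (c ^ 2 - 1) = -(a' + c * a) := by
    rw [ht]; exact div_mul_cancel₀ _ hden.ne'
  have e1 : a - s + c * t = 0 := by
    have : (a - s + c * t) * (c ^ 2 - 1) = 0 := by
      linear_combination (-1 : ℝ) * hs' + c * ht'
    rcases mul_eq_zero.1 this with h1 | h1
    · exact h1
    · exact absurd h1 hden.ne'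
  have e2 : a' - t + c * s = 0 := by
    have : (a' - t + c * s) * (c ^ 2 - 1) = 0 := by
      linear_combination (-1 : ℝ) * ht' + c * hs'
    rcases mul_eq_zero.1 this with h1 | h1
    · exact h1
    · exact absurd h1 hden.ne'
  have hz : 0 ≤ B (p - s • C.e i - t • C.e j) (p - s • C.e i - t • C.e j) := by
    apply orth_timelike235 (C.e i + C.e j)
    · simp only [B_add_left, B_add_right, C.self, hBij, hBji]
      linarith
    · simp only [B_add_right, B_sub_left, B_smul_left, C.self, hBij, hBji, ← ha, ← ha']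
      linarith
  have hzz : B (p - s • C.e i - t • C.e j) (p - s • C.e i - t • C.e j)
      = -1 - s * a - t * a' := by
    simp only [B_sub_left, B_sub_right, B_smul_left, B_smul_right, C.self, hBij, hBji,
      B_symm (C.e i) p, B_symm (C.e j) p, ← ha, ← ha', hp.1.1]
    linear_combination (-s) * e1 - t * e2
  rw [hzz] at hz
  have h1 : 0 ≤ (-1 - s * a - t * a') * (c ^ 2 - 1) := mul_nonneg hz hden.le
  have h2 : (-1 - s * a - t * a') * (c ^ 2 - 1)
      = -(c ^ 2 - 1) + (a ^ 2 + 2 * c * (a * a') + a' ^ 2) := by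
    linear_combination (-a) * hs' - a' * ht'
  have h3 : a ^ 2 < 1 / 4 := by nlinarith
  have h4 : a' ^ 2 < 1 / 4 := by nlinarith
  have h5 : a * a' ≤ 1 / 4 := by nlinarith
  have h6 : 2 * c * (a * a') ≤ 2 * c * (1 / 4) := mul_le_mul_of_nonneg_left h5 (by linarith)
  nlinarith
/-- the averaging operator at one wall -/
def Comb.T235 {ι : Type} {C : Cell ι} {S : Type} (D : Comb C S) (p : Fin 5 → ℝ) (i : ι)
    (Z : S × Fin 5 → ℂ) : S × Fin 5 → ℂ :=
  fun r => ((1 - C.wt p i : ℝ) : ℂ) * Z r + ((C.wt p i : ℝ) : ℂ) * Z (D.ract i r)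

lemma avg_eq235 {ι : Type} {C : Cell ι} {S : Type} (D : Comb C S) (p : Fin 5 → ℝ) (L : List ι) :
    D.avg p L = L.foldr (D.T235 p) (fun r => D.Z r.1 r.2) := rfl

lemma avg_cons235 {ι : Type} {C : Cell ι} {S : Type} (D : Comb C S) (p : Fin 5 → ℝ) (i : ι)
    (L : List ι) (r : S × Fin 5) :
    D.avg p (i :: L) r = ((1 - C.wt p i : ℝ) : ℂ) * D.avg p L r
      + ((C.wt p i : ℝ) : ℂ) * D.avg p L (D.ract i r) := rfl

lemma ract_inv235 {ι : Type} {C : Cell ι} {S : Type} (D : Comb C S) (i : ι) (r : S × Fin 5) :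
    D.ract i (D.ract i r) = r := by
  obtain ⟨s, k⟩ := r
  unfold Comb.ract
  simp only [D.W.inv, D.tr_inv]

lemma ract_comm235 {ι : Type} {C : Cell ι} {S : Type} (D : Comb C S) (i j : ι) (h : C.adj i j)
    (r : S × Fin 5) : D.ract j (D.ract i r) = D.ract i (D.ract j r) := by
  obtain ⟨s, k⟩ := r
  have h1 := D.W.comm i j h s
  have h2 := D.tr_sq i j h s k
  unfold Comb.ract
  exact Prod.ext h1.symm h2

lemma T_comm235 {ι : Type} {C : Cell ι} {S : Type} (D : Comb C S) {p : Fin 5 → ℝ} (hp : p ∈ C.P)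
    (i j : ι) (Y : S × Fin 5 → ℂ) : D.T235 p i (D.T235 p j Y) = D.T235 p j (D.T235 p i Y) := by
  by_cases hij : i = j
  · rw [hij]
  funext r
  have key : ((C.wt p i : ℝ) : ℂ) * ((C.wt p j : ℝ) : ℂ) * Y (D.ract j (D.ract i r))
      = ((C.wt p i : ℝ) : ℂ) * ((C.wt p j : ℝ) : ℂ) * Y (D.ract i (D.ract j r)) := by
    rcases (wt_nonneg235 C p i).eq_or_lt with h1 | h1
    · rw [← h1]
      simp
    rcases (wt_nonneg235 C p j).eq_or_lt with h2 | h2
    · rw [← h2]
      simp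
    rw [ract_comm235 D i j (near_adj C hp hij h1 h2)]
  unfold Comb.T235
  linear_combination key

/-- continuity and invariance of the averages under walls through the point -/
theorem avg_props {ι : Type} [Fintype ι] (C : Cell ι) {S : Type} (D : Comb C S) :
    (∀ (L : List ι) (r : S × Fin 5), Continuous fun p => D.avg p L r) ∧
    (∀ p ∈ C.P, ∀ L : List ι, L.Nodup → ∀ i ∈ L, B p (C.e i) = 0 → ∀ r, D.avg p L (D.ract i r) = D.avg p L r) := by
  constructor
  · intro L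
    induction L with
    | nil =>
      intro r
      exact continuous_const
    | cons i L ih =>
      intro r
      have hw : Continuous fun p => C.wt p i := by
        unfold Cell.wt
        exact continuous_const.mul (continuous_const.max (continuous_const.add
          (continuous_const.mul (continuous_B continuous_id continuous_const))))
      simp only [avg_cons235]
      exact ((Complex.continuous_ofReal.comp (continuous_const.sub hw)).mul (ih r)).add
        ((Complex.continuous_ofReal.comp hw).mul (ih (D.ract i r)))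
  · intro p hp L _ i hi hB r
    obtain ⟨L₁, L₂, rfl⟩ := List.append_of_mem hi
    have : LeftCommutative (D.T235 p) := ⟨fun a b Y => T_comm235 D hp a b Y⟩
    have hperm : D.avg p (L₁ ++ i :: L₂) = D.avg p (i :: (L₁ ++ L₂)) := by
      rw [avg_eq235, avg_eq235]
      exact List.Perm.foldr_eq List.perm_middle _
    have hw : C.wt p i = 1 / 2 := by
      unfold Cell.wt
      rw [hB]
      norm_num
    rw [hperm, avg_cons235, avg_cons235, ract_inv235, hw]
    push_cast
    ring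
end HB
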