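import Pool.Agent.Helper24.HB.Comb
import Pool.Agent.Helper24.HB.R1
set_option autoImplicit false
noncomputable section
namespace HB
namespace R2
theorem avg_distinct_orbit {ι T S : Type} [Nonempty ι] (adj : ι → ι → Prop)
    (nbr : ∀ i, ∃ j, adj i j)
    (N : Set ι) (hN : ∀ i ∈ N, ∀ j ∈ N, i ≠ j → adj i j) (R : ι → T → T)
    (hinv : ∀ i x, R i (R i x) = x) (hcomm : ∀ i j, adj i j → ∀ x, R i (R j x) = R j (R i x))
    (a : ι → S) (s : S) (π0 : T) (h1 : ∀ i, a i = s → R i π0 = π0)
    (h2 : ∀ i j, a i = a j → R i π0 = R j π0)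
    (tri : ∀ i j l, adj i j → adj j l → adj i l → a i = s ∨ a j = s ∨ a l = s ∨ a i = a j ∨
      a i = a l ∨ a j = a l) :
    ∃ i0 j0, adj i0 j0 ∧ ∃ Ω : Set T, π0 ∈ Ω ∧
      (∀ x ∈ Ω, x = π0 ∨ x = R i0 π0 ∨ x = R j0 π0 ∨ x = R j0 (R i0 π0)) ∧
      ∀ i ∈ N, ∀ x ∈ Ω, R i x ∈ Ω := by
  by_cases hA : ∀ i ∈ N, a i = s
  · obtain ⟨i0⟩ := ‹Nonempty ι›
    obtain ⟨j0, hj0⟩ := nbr i0
    refine ⟨i0, j0, hj0, {π0}, rfl, ?_, ?_⟩
    · intro x hx
      exact Or.inl hx
    · intro i hi x hx
      have hx' : x = π0 := hx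
      rw [hx', h1 i (hA i hi)]
      rfl
  · push Not at hA
    obtain ⟨i0, hi0, hai0⟩ := hA
    by_cases hB : ∀ i ∈ N, a i = s ∨ a i = a i0
    · obtain ⟨j0, hj0⟩ := nbr i0
      refine ⟨i0, j0, hj0, {π0, R i0 π0}, Or.inl rfl, ?_, ?_⟩
      · intro x hx
        rcases hx with hx | hx
        · exact Or.inl hx
        · exact Or.inr (Or.inl hx)
      · intro i hi x hx
        rcases hB i hi with h | h
        · have hne : i ≠ i0 := by
            rintro rfl
            exact hai0 h
          have hadj := hN i hi i0 hi0 hne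
          rcases hx with hx | hx
          · left
            rw [hx, h1 i h]
          · right
            have hx' : x = R i0 π0 := hx
            show R i x = R i0 π0
            rw [hx', hcomm i i0 hadj, h1 i h]
        · rcases hx with hx | hx
          · right
            show R i x = R i0 π0
            rw [hx, h2 i i0 h]
          · left
            have hx' : x = R i0 π0 := hx
            rw [hx', ← h2 i i0 h, hinv]
    · push Not at hB
      obtain ⟨j0, hj0, haj0, haj0'⟩ := hB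
      have hne0 : i0 ≠ j0 := by
        rintro rfl
        exact haj0' rfl
      have hadj0 : adj i0 j0 := hN i0 hi0 j0 hj0 hne0
      refine ⟨i0, j0, hadj0, {x | x = π0 ∨ x = R i0 π0 ∨ x = R j0 π0 ∨ x = R j0 (R i0 π0)},
        Or.inl rfl, fun x hx => hx, ?_⟩
      intro i hi x hx
      have hcase : a i = s ∨ a i = a i0 ∨ a i = a j0 := by
        by_cases e1 : i = i0
        · right; left; rw [e1]
        by_cases e2 : i = j0
        · right; right; rw [e2]
        rcases tri i i0 j0 (hN i hi i0 hi0 e1) hadj0 (hN i hi j0 hj0 e2) with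
          h | h | h | h | h | h
        · exact Or.inl h
        · exact absurd h hai0
        · exact absurd h haj0
        · exact Or.inr (Or.inl h)
        · exact Or.inr (Or.inr h)
        · exact absurd h.symm haj0'
      show R i x = π0 ∨ R i x = R i0 π0 ∨ R i x = R j0 π0 ∨ R i x = R j0 (R i0 π0)
      rcases hcase with h | h | h
      · have n1 : i ≠ i0 := by
          rintro rfl
          exact hai0 h
        have n2 : i ≠ j0 := by
          rintro rfl
          exact haj0 h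
        have c1 := hcomm i i0 (hN i hi i0 hi0 n1)
        have c2 := hcomm i j0 (hN i hi j0 hj0 n2)
        rcases hx with hx | hx | hx | hx
        · left; rw [hx, h1 i h]
        · right; left; rw [hx, c1, h1 i h]
        · right; right; left; rw [hx, c2, h1 i h]
        · right; right; right; rw [hx, c2, c1, h1 i h]
      · have n2 : i ≠ j0 := by
          rintro rfl
          exact haj0' h
        have c2 := hcomm i j0 (hN i hi j0 hj0 n2)
        have e0 := h2 i i0 h
        rcases hx with hx | hx | hx | hx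
        · right; left; rw [hx, e0]
        · left; rw [hx, ← e0, hinv]
        · right; right; right; rw [hx, c2, e0]
        · right; right; left; rw [hx, ← e0, c2, hinv]
      · have n1 : i ≠ i0 := by
          rintro rfl
          exact haj0' h.symm
        have c1 := hcomm i i0 (hN i hi i0 hi0 n1)
        have c0 := hcomm i0 j0 hadj0
        have e0 := h2 i j0 h
        rcases hx with hx | hx | hx | hx
        · right; right; left; rw [hx, e0]
        · right; right; right; rw [hx, c1, e0, c0]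
        · left; rw [hx, ← e0, hinv]
        · right; left; rw [hx, ← c0, ← e0, c1, hinv]

theorem avg_distinct_K (l : List ℂ) (h : LexGood l) :
    ∃ K : Set ℂ, (∀ x ∈ K, ∀ y ∈ K, ∀ w : ℝ, 0 ≤ w → w < 1 →
      ((1 - w : ℝ) : ℂ) * x + ((w : ℝ) : ℂ) * y ∈ K) ∧ (0 : ℂ) ∉ K ∧ ∀ d ∈ l, d ∈ K := by
  obtain ⟨h1, h2⟩ := h
  obtain ⟨σ, hσ⟩ : ∃ σ : ℝ, ∀ d ∈ l, 0 ≤ σ * d.re ∧ σ ≠ 0 := by
    rcases h1 with h1 | h1
    · exact ⟨1, fun d hd => ⟨by rw [one_mul]; exact h1 d hd, one_ne_zero⟩⟩
    · exact ⟨-1, fun d hd => ⟨by have := h1 d hd; linarith, by norm_num⟩⟩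
  obtain ⟨τ, hτ⟩ : ∃ τ : ℝ, ∀ d ∈ l, d.re = 0 → 0 < τ * d.im := by
    rcases h2 with h2 | h2
    · exact ⟨1, fun d hd hr => by rw [one_mul]; exact h2 d hd hr⟩
    · exact ⟨-1, fun d hd hr => by have := h2 d hd hr; linarith⟩
  refine ⟨{z | 0 ≤ σ * z.re ∧ σ ≠ 0 ∧ (z.re = 0 → 0 < τ * z.im)}, ?_, ?_, ?_⟩
  · rintro x ⟨hx1, hσ0, hx2⟩ y ⟨hy1, -, hy2⟩ w hw0 hw1
    have ere : (((1 - w : ℝ) : ℂ) * x + ((w : ℝ) : ℂ) * y).re = (1 - w) * x.re + w * y.re := by
      rw [Complex.add_re, Complex.re_ofReal_mul, Complex.re_ofReal_mul]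
    have eim : (((1 - w : ℝ) : ℂ) * x + ((w : ℝ) : ℂ) * y).im = (1 - w) * x.im + w * y.im := by
      rw [Complex.add_im, Complex.im_ofReal_mul, Complex.im_ofReal_mul]
    have hw1' : 0 < 1 - w := by linarith
    refine ⟨?_, hσ0, ?_⟩
    · rw [ere]
      have e : σ * ((1 - w) * x.re + w * y.re) = (1 - w) * (σ * x.re) + w * (σ * y.re) := by ring
      rw [e]
      positivity
    · intro h0
      rw [ere] at h0
      rw [eim]
      have e : (1 - w) * (σ * x.re) + w * (σ * y.re) = 0 := by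
        have : (1 - w) * (σ * x.re) + w * (σ * y.re) = σ * ((1 - w) * x.re + w * y.re) := by ring
        rw [this, h0, mul_zero]
      have p1 : 0 ≤ (1 - w) * (σ * x.re) := by positivity
      have p2 : 0 ≤ w * (σ * y.re) := by positivity
      have q1 : (1 - w) * (σ * x.re) = 0 := by linarith
      have q2 : w * (σ * y.re) = 0 := by linarith
      have r1 : x.re = 0 := by
        rcases mul_eq_zero.1 q1 with h | h
        · linarith
        · rcases mul_eq_zero.1 h with h | h
          · exact absurd h hσ0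
          · exact h
      have s1 := hx2 r1
      have s2 : 0 ≤ w * (τ * y.im) := by
        rcases mul_eq_zero.1 q2 with h | h
        · rw [h, zero_mul]
        · rcases mul_eq_zero.1 h with h | h
          · exact absurd h hσ0
          · exact mul_nonneg hw0 (hy2 h).le
      have e2 : τ * ((1 - w) * x.im + w * y.im) = (1 - w) * (τ * x.im) + w * (τ * y.im) := by ring
      rw [e2]
      have := mul_pos hw1' s1
      linarith
  · rintro ⟨-, -, h0⟩
    have := h0 Complex.zero_re
    rw [Complex.zero_im, mul_zero] at this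
    exact lt_irrefl _ this
  · intro d hd
    exact ⟨(hσ d hd).1, (hσ d hd).2, hτ d hd⟩

theorem avg_distinct_inv {ι : Type} {C : Cell ι} {S : Type} (D : Comb C S) (i : ι)
    (r : S × Fin 5) : D.ract i (D.ract i r) = r := by
  obtain ⟨s, k⟩ := r
  show (D.W.act i (D.W.act i s), D.tr (D.W.act i s) (D.W.act i (D.W.act i s))
    (D.tr s (D.W.act i s) k)) = (s, k)
  rw [D.W.inv, D.tr_inv]

theorem avg_distinct_comm {ι : Type} {C : Cell ι} {S : Type} (D : Comb C S) (i j : ι)
    (h : C.adj i j) (r : S × Fin 5) : D.ract i (D.ract j r) = D.ract j (D.ract i r) := by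
  obtain ⟨s, k⟩ := r
  exact Prod.ext (D.W.comm i j h s) (D.tr_sq i j h s k).symm

theorem avg_distinct_wt {ι : Type} (C : Cell ι) {p : Fin 5 → ℝ} (hp : p ∈ C.P) (i : ι) :
    0 ≤ C.wt p i ∧ C.wt p i < 1 := by
  have h := hp.2 i
  unfold Cell.wt
  constructor
  · have := le_max_left 0 (1 + 2 * B p (C.e i))
    linarith
  · have : max 0 (1 + 2 * B p (C.e i)) ≤ 1 := max_le zero_le_one (by linarith)
    linarith

theorem avg_distinct_ind {ι : Type} (C : Cell ι) {S : Type} (D : Comb C S) {p : Fin 5 → ℝ}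
    (hp : p ∈ C.P) (K : Set ℂ) (hK : ∀ x ∈ K, ∀ y ∈ K, ∀ w : ℝ, 0 ≤ w → w < 1 →
      ((1 - w : ℝ) : ℂ) * x + ((w : ℝ) : ℂ) * y ∈ K) (Ω : Set ((S × Fin 5) × (S × Fin 5)))
    (hΩ : ∀ i, 0 < C.wt p i → ∀ x ∈ Ω, (D.ract i x.1, D.ract i x.2) ∈ Ω)
    (h0 : ∀ x ∈ Ω, D.Z x.1.1 x.1.2 - D.Z x.2.1 x.2.2 ∈ K) (L : List ι) :
    ∀ x ∈ Ω, D.avg p L x.1 - D.avg p L x.2 ∈ K := by
  induction L with
  | nil => exact h0
  | cons i L ih =>
    intro x hx
    have e : ∀ r, D.avg p (i :: L) r = ((1 - C.wt p i : ℝ) : ℂ) * D.avg p L r +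
        ((C.wt p i : ℝ) : ℂ) * D.avg p L (D.ract i r) := fun r => rfl
    rw [e, e]
    obtain ⟨w0, w1⟩ := avg_distinct_wt C hp i
    rcases w0.lt_or_eq with h | h
    · have h1 := hK _ (ih x hx) _ (ih _ (hΩ i h x hx)) _ w0 w1
      have e2 : ((1 - C.wt p i : ℝ) : ℂ) * D.avg p L x.1 +
          ((C.wt p i : ℝ) : ℂ) * D.avg p L (D.ract i x.1) -
          (((1 - C.wt p i : ℝ) : ℂ) * D.avg p L x.2 +
          ((C.wt p i : ℝ) : ℂ) * D.avg p L (D.ract i x.2)) =
          ((1 - C.wt p i : ℝ) : ℂ) * (D.avg p L x.1 - D.avg p L x.2) +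
          ((C.wt p i : ℝ) : ℂ) * (D.avg p L (D.ract i x.1) - D.avg p L (D.ract i x.2)) := by
        ring
      rw [e2]
      exact h1
    · rw [← h]
      have := ih x hx
      simpa using this

/-- TARGET: the averaged roots stay distinct -/
theorem avg_distinct {ι : Type} [Fintype ι] [Nonempty ι] (C : Cell ι) {S : Type} (D : Comb C S) :
    ∀ p ∈ C.P, ∀ (L : List ι) (s : S) (k l : Fin 5), k ≠ l → D.avg p L (s, k) ≠ D.avg p L (s, l) := by
  intro p hp L s k l hkl heq
  have hN : ∀ i ∈ {i | 0 < C.wt p i}, ∀ j ∈ {i | 0 < C.wt p i}, i ≠ j → C.adj i j :=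
    fun i hi j hj hij => near_adj C hp hij hi hj
  obtain ⟨i0, j0, hadj, Ω, hΩ0, hΩ1, hΩ2⟩ := avg_distinct_orbit
    (T := (S × Fin 5) × (S × Fin 5)) C.adj D.nbr
    {i | 0 < C.wt p i} hN (fun i x => (D.ract i x.1, D.ract i x.2))
    (fun i x => Prod.ext (avg_distinct_inv D i x.1) (avg_distinct_inv D i x.2))
    (fun i j h x => Prod.ext (avg_distinct_comm D i j h x.1) (avg_distinct_comm D i j h x.2))
    (fun i => D.W.act i s) s ((s, k), (s, l))
    (by
      intro i hi
      have hi' : D.W.act i s = s := hi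
      show ((D.W.act i s, D.tr s (D.W.act i s) k), (D.W.act i s, D.tr s (D.W.act i s) l)) =
        ((s, k), (s, l))
      rw [hi', D.tr_self, D.tr_self])
    (by
      intro i j hij
      have hij' : D.W.act i s = D.W.act j s := hij
      show ((D.W.act i s, D.tr s (D.W.act i s) k), (D.W.act i s, D.tr s (D.W.act i s) l)) =
        ((D.W.act j s, D.tr s (D.W.act j s) k), (D.W.act j s, D.tr s (D.W.act j s) l))
      rw [hij'])
    (fun i j l h1 h2 h3 => D.tri i j l h1 h2 h3 s)
  obtain ⟨K, hK1, hK2, hK3⟩ := avg_distinct_K _ (D.pos i0 j0 hadj s k l hkl)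
  have h := avg_distinct_ind C D hp K hK1 Ω hΩ2 (by
    intro x hx
    rcases hΩ1 x hx with h | h | h | h
    · rw [h]
      apply hK3
      simp
    · rw [h]
      apply hK3
      simp [Comb.ract]
    · rw [h]
      apply hK3
      simp [Comb.ract]
    · rw [h]
      apply hK3
      simp [Comb.ract]) L ((s, k), (s, l)) hΩ0
  have h' : D.avg p L (s, k) - D.avg p L (s, l) ∈ K := h
  rw [heq, sub_self] at h'
  exact hK2 h'
end R2
end HB
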