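import Pool.Agent.Helper24.HB.Comb
set_option autoImplicit false
noncomputable section
namespace HB
namespace SPIN
/-! auxiliary lemmas for spin4 -/

def sp_q (x : Fin 5 → ℝ) : Quaternion ℝ := ⟨x 0, x 1, x 2, x 3⟩
def sp_v (p : Quaternion ℝ) (t : ℝ) : Fin 5 → ℝ := ![p.re, p.imI, p.imJ, p.imK, t]

lemma sp_q_v (p : Quaternion ℝ) (t : ℝ) : sp_q (sp_v p t) = p := rfl
lemma sp_v_four (p : Quaternion ℝ) (t : ℝ) : sp_v p t 4 = t := rfl
lemma sp_v_q (x : Fin 5 → ℝ) : sp_v (sp_q x) (x 4) = x := by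
  funext i
  fin_cases i <;> rfl
lemma sp_q_add (x y : Fin 5 → ℝ) : sp_q (x + y) = sp_q x + sp_q y := rfl
lemma sp_q_smul (c : ℝ) (x : Fin 5 → ℝ) : sp_q (c • x) = c • sp_q x := rfl
lemma sp_v_add (p q : Quaternion ℝ) (s t : ℝ) : sp_v (p + q) (s + t) = sp_v p s + sp_v q t := by
  funext i
  fin_cases i <;> rfl
lemma sp_v_smul (c : ℝ) (p : Quaternion ℝ) (t : ℝ) : sp_v (c • p) (c * t) = c • sp_v p t := by
  funext i
  fin_cases i <;> rfl
lemma sp_B (x y : Fin 5 → ℝ) : B x y = (sp_q x * star (sp_q y)).re - x 4 * y 4 := by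
  unfold B sp_q
  simp only [Quaternion.re_mul, Quaternion.re_star, Quaternion.imI_star, Quaternion.imJ_star,
    Quaternion.imK_star]
  ring

/-- the linear extension of a linear map of the quaternions -/
def sp_E (T : Quaternion ℝ →ₗ[ℝ] Quaternion ℝ) : (Fin 5 → ℝ) →ₗ[ℝ] (Fin 5 → ℝ) where
  toFun x := sp_v (T (sp_q x)) (x 4)
  map_add' x y := by
    rw [sp_q_add, map_add]
    exact sp_v_add _ _ _ _
  map_smul' c x := by
    rw [sp_q_smul, map_smul]
    exact sp_v_smul _ _ _

lemma sp_E_apply (T : Quaternion ℝ →ₗ[ℝ] Quaternion ℝ) (x : Fin 5 → ℝ) :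
    sp_E T x = sp_v (T (sp_q x)) (x 4) := rfl

lemma sp_E_comp (T T' : Quaternion ℝ →ₗ[ℝ] Quaternion ℝ) :
    sp_E (T.comp T') = (sp_E T).comp (sp_E T') := by
  apply LinearMap.ext
  intro x
  rfl

lemma sp_E_id : sp_E LinearMap.id = LinearMap.id := by
  apply LinearMap.ext
  intro x
  exact sp_v_q x

/-- x ↦ a x b* -/
def sp_L (a b : Quaternion ℝ) : Quaternion ℝ →ₗ[ℝ] Quaternion ℝ :=
  (LinearMap.mulRight ℝ (star b)).comp (LinearMap.mulLeft ℝ a)

lemma sp_L_apply (a b x : Quaternion ℝ) : sp_L a b x = a * x * star b := rfl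

lemma sp_L_mul (a b a' b' : Quaternion ℝ) : sp_L (a * a') (b * b') = (sp_L a b).comp (sp_L a' b') := by
  apply LinearMap.ext
  intro x
  simp only [sp_L_apply, LinearMap.comp_apply, star_mul, mul_assoc]

lemma sp_L_one : sp_L 1 1 = LinearMap.id := by
  apply LinearMap.ext
  intro x
  simp [sp_L_apply]

/-- x ↦ - x* -/
def sp_s : Quaternion ℝ →ₗ[ℝ] Quaternion ℝ where
  toFun x := - star x
  map_add' x y := by rw [star_add]; abel
  map_smul' c x := by
    rw [RingHom.id_apply, Quaternion.star_smul, smul_neg]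

lemma sp_s_apply (x : Quaternion ℝ) : sp_s x = - star x := rfl

lemma sp_s_s : sp_s.comp sp_s = LinearMap.id := by
  apply LinearMap.ext
  intro x
  simp [sp_s_apply]

lemma sp_s_L (a b : Quaternion ℝ) : sp_s.comp (sp_L a b) = (sp_L b a).comp sp_s := by
  apply LinearMap.ext
  intro x
  simp only [LinearMap.comp_apply, sp_s_apply, sp_L_apply, star_mul, star_star, mul_neg, neg_mul,
    mul_assoc]

/-- the matrix -/
def sp_M (T : Quaternion ℝ →ₗ[ℝ] Quaternion ℝ) : Matrix (Fin 5) (Fin 5) ℝ :=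
  LinearMap.toMatrix' (sp_E T)

lemma sp_M_mulVec (T : Quaternion ℝ →ₗ[ℝ] Quaternion ℝ) (x : Fin 5 → ℝ) :
    (sp_M T).mulVec x = sp_v (T (sp_q x)) (x 4) := by
  rw [sp_M, LinearMap.toMatrix'_mulVec]
  rfl

lemma sp_M_comp (T T' : Quaternion ℝ →ₗ[ℝ] Quaternion ℝ) : sp_M (T.comp T') = sp_M T * sp_M T' := by
  rw [sp_M, sp_E_comp, LinearMap.toMatrix'_comp]
  rfl

lemma sp_M_id : sp_M LinearMap.id = 1 := by
  rw [sp_M, sp_E_id, LinearMap.toMatrix'_id]

lemma sp_det_s : (sp_M sp_s).det = -1 := by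
  have h : sp_M sp_s = Matrix.diagonal ![-1, 1, 1, 1, 1] := by
    ext i j
    rw [sp_M, LinearMap.toMatrix'_apply]
    fin_cases i <;> fin_cases j <;>
      simp [sp_E_apply, sp_s_apply, sp_q, sp_v, Matrix.diagonal]
  rw [h, Matrix.det_diagonal]
  simp [Fin.prod_univ_five]

lemma sp_star_mul (a : S3) : star (a : Quaternion ℝ) * (a : Quaternion ℝ) = 1 := by
  have h : ‖(a : Quaternion ℝ)‖ = 1 := mem_sphere_zero_iff_norm.mp a.2
  rw [Quaternion.star_mul_self, Quaternion.normSq_eq_norm_mul_self, h]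
  simp

lemma sp_mul_star (a : S3) : (a : Quaternion ℝ) * star (a : Quaternion ℝ) = 1 := by
  have h : ‖(a : Quaternion ℝ)‖ = 1 := mem_sphere_zero_iff_norm.mp a.2
  rw [Quaternion.self_mul_star, Quaternion.normSq_eq_norm_mul_self, h]
  simp

lemma sp_re_comm (p q : Quaternion ℝ) : (p * q).re = (q * p).re := by
  simp only [Quaternion.re_mul]
  ring

lemma sp_B_pres (a b : S3) (x y : Fin 5 → ℝ) :
    B ((sp_M (sp_L a b)).mulVec x) ((sp_M (sp_L a b)).mulVec y) = B x y := by
  rw [sp_M_mulVec, sp_M_mulVec, sp_B, sp_B, sp_q_v, sp_q_v, sp_v_four, sp_v_four]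
  congr 1
  have h1 : (a : Quaternion ℝ) * sp_q x * star (b : Quaternion ℝ) *
      star ((a : Quaternion ℝ) * sp_q y * star (b : Quaternion ℝ)) =
      (a : Quaternion ℝ) * (sp_q x * star (sp_q y) * star (a : Quaternion ℝ)) := by
    rw [star_mul, star_mul, star_star]
    calc (a : Quaternion ℝ) * sp_q x * star (b : Quaternion ℝ) *
          ((b : Quaternion ℝ) * (star (sp_q y) * star (a : Quaternion ℝ)))
        = (a : Quaternion ℝ) * sp_q x * (star (b : Quaternion ℝ) * (b : Quaternion ℝ)) *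
          (star (sp_q y) * star (a : Quaternion ℝ)) := by noncomm_ring
      _ = _ := by rw [sp_star_mul]; noncomm_ring
  rw [sp_L_apply, sp_L_apply, h1, sp_re_comm, mul_assoc, sp_star_mul, mul_one]




lemma sp_det_sq (A : Matrix (Fin 5) (Fin 5) ℝ)
    (h : ∀ x y : Fin 5 → ℝ, B (A.mulVec x) (A.mulVec y) = B x y) : A.det * A.det = 1 := by
  let J : Matrix (Fin 5) (Fin 5) ℝ := Matrix.diagonal ![1, 1, 1, 1, -1]
  have hJ : ∀ x y : Fin 5 → ℝ, B x y = x ⬝ᵥ J.mulVec y := by
    intro x y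
    simp only [J, Matrix.mulVec_diagonal, dotProduct, Fin.sum_univ_five, B]
    simp
    ring
  have h1 : A.transpose * J * A = J := by
    ext i j
    have h2 := h (Pi.single i 1) (Pi.single j 1)
    rw [hJ, hJ] at h2
    have h3 : ∀ C : Matrix (Fin 5) (Fin 5) ℝ,
        (Pi.single i 1 : Fin 5 → ℝ) ⬝ᵥ C.mulVec (Pi.single j 1) = C i j := by
      intro C
      simp
    rw [h3 J] at h2
    rw [← h2, ← h3 (A.transpose * J * A)]
    rw [← Matrix.mulVec_mulVec, ← Matrix.mulVec_mulVec, Matrix.mulVec_transpose,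
      dotProduct_comm, ← Matrix.dotProduct_mulVec, dotProduct_comm]
  have h2 := congrArg Matrix.det h1
  rw [Matrix.det_mul, Matrix.det_mul, Matrix.det_transpose] at h2
  have h3 : J.det = -1 := by
    simp [J, Matrix.det_diagonal, Fin.prod_univ_five]
  rw [h3] at h2
  linarith

lemma sp_ext {p q : Quaternion ℝ} (h0 : p.re = q.re) (h1 : p.imI = q.imI) (h2 : p.imJ = q.imJ)
    (h3 : p.imK = q.imK) : p = q := QuaternionAlgebra.ext h0 h1 h2 h3

def sp_i : Quaternion ℝ := ⟨0, 1, 0, 0⟩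

lemma sp_i_norm : ‖sp_i‖ = 1 := by
  have h2 : ‖sp_i‖ * ‖sp_i‖ = 1 := by
    rw [← Quaternion.normSq_eq_norm_mul_self, Quaternion.normSq_def']
    have h0 : sp_i.re = 0 := rfl
    have h1 : sp_i.imI = 1 := rfl
    have h2 : sp_i.imJ = 0 := rfl
    have h3 : sp_i.imK = 0 := rfl
    rw [h0, h1, h2, h3]
    norm_num
  nlinarith [norm_nonneg sp_i]

lemma sp_i_mul : sp_i * sp_i = -1 := by
  have h0 : sp_i.re = 0 := rfl
  have h1 : sp_i.imI = 1 := rfl
  have h2 : sp_i.imJ = 0 := rfl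
  have h3 : sp_i.imK = 0 := rfl
  have e0 : (-1 : Quaternion ℝ).re = -1 := rfl
  have e1 : (-1 : Quaternion ℝ).imI = -0 := rfl
  have e2 : (-1 : Quaternion ℝ).imJ = -0 := rfl
  have e3 : (-1 : Quaternion ℝ).imK = -0 := rfl
  apply sp_ext
  · rw [Quaternion.re_mul, h0, h1, h2, h3, e0]
    norm_num
  · rw [Quaternion.imI_mul, h0, h1, h2, h3, e1]
    norm_num
  · rw [Quaternion.imJ_mul, h0, h1, h2, h3, e2]
    norm_num
  · rw [Quaternion.imK_mul, h0, h1, h2, h3, e3]
    norm_num

lemma sp_sq (a : S3) : ∃ c : S3, (c : Quaternion ℝ) * (c : Quaternion ℝ) = a := by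
  by_cases h : (1 : Quaternion ℝ) + (a : Quaternion ℝ) = 0
  · refine ⟨⟨sp_i, mem_sphere_zero_iff_norm.mpr sp_i_norm⟩, ?_⟩
    have h2 : (a : Quaternion ℝ) = -1 := by
      rw [eq_neg_iff_add_eq_zero, add_comm]
      exact h
    rw [h2]
    exact sp_i_mul
  · have hn : ‖(1 : Quaternion ℝ) + (a : Quaternion ℝ)‖ ≠ 0 := norm_ne_zero_iff.mpr h
    have h1 : ‖((‖(1 : Quaternion ℝ) + (a : Quaternion ℝ)‖⁻¹ : ℝ)) •
        ((1 : Quaternion ℝ) + (a : Quaternion ℝ))‖ = 1 := by
      rw [norm_smul, norm_inv, norm_norm, inv_mul_cancel₀ hn]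
    refine ⟨⟨_, mem_sphere_zero_iff_norm.mpr h1⟩, ?_⟩
    have ha : ‖(a : Quaternion ℝ)‖ = 1 := mem_sphere_zero_iff_norm.mp a.2
    have ha2 : Quaternion.normSq (a : Quaternion ℝ) = 1 := by
      rw [Quaternion.normSq_eq_norm_mul_self, ha, one_mul]
    have h2 : ‖(1 : Quaternion ℝ) + (a : Quaternion ℝ)‖ * ‖(1 : Quaternion ℝ) + (a : Quaternion ℝ)‖
        = 2 + 2 * (a : Quaternion ℝ).re := by
      rw [← Quaternion.normSq_eq_norm_mul_self, Quaternion.normSq_def']
      rw [Quaternion.normSq_def'] at ha2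
      simp only [Quaternion.re_add, Quaternion.imI_add, Quaternion.imJ_add, Quaternion.imK_add,
        Quaternion.re_one, Quaternion.imI_one, Quaternion.imJ_one, Quaternion.imK_one]
      nlinarith
    have h3 : ((1 : Quaternion ℝ) + (a : Quaternion ℝ)) * ((1 : Quaternion ℝ) + (a : Quaternion ℝ))
        = (2 + 2 * (a : Quaternion ℝ).re) • (a : Quaternion ℝ) := by
      rw [Quaternion.normSq_def'] at ha2
      apply sp_ext
      · simp only [Quaternion.re_mul, Quaternion.re_add, Quaternion.imI_add, Quaternion.imJ_add,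
          Quaternion.imK_add, Quaternion.re_one, Quaternion.imI_one, Quaternion.imJ_one,
          Quaternion.imK_one, Quaternion.re_smul, smul_eq_mul]
        nlinarith
      · simp only [Quaternion.imI_mul, Quaternion.re_add, Quaternion.imI_add, Quaternion.imJ_add,
          Quaternion.imK_add, Quaternion.re_one, Quaternion.imI_one, Quaternion.imJ_one,
          Quaternion.imK_one, Quaternion.imI_smul, smul_eq_mul]
        ring
      · simp only [Quaternion.imJ_mul, Quaternion.re_add, Quaternion.imI_add, Quaternion.imJ_add,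
          Quaternion.imK_add, Quaternion.re_one, Quaternion.imI_one, Quaternion.imJ_one,
          Quaternion.imK_one, Quaternion.imJ_smul, smul_eq_mul]
        ring
      · simp only [Quaternion.imK_mul, Quaternion.re_add, Quaternion.imI_add, Quaternion.imJ_add,
          Quaternion.imK_add, Quaternion.re_one, Quaternion.imI_one, Quaternion.imJ_one,
          Quaternion.imK_one, Quaternion.imK_smul, smul_eq_mul]
        ring
    change ((‖(1 : Quaternion ℝ) + (a : Quaternion ℝ)‖⁻¹ : ℝ)) •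
        ((1 : Quaternion ℝ) + (a : Quaternion ℝ)) * ((‖(1 : Quaternion ℝ) + (a : Quaternion ℝ)‖⁻¹ : ℝ)) •
        ((1 : Quaternion ℝ) + (a : Quaternion ℝ)) = a
    rw [smul_mul_smul_comm, h3, ← h2, smul_smul]
    have h4 : ‖(1 : Quaternion ℝ) + (a : Quaternion ℝ)‖⁻¹ * ‖(1 : Quaternion ℝ) + (a : Quaternion ℝ)‖⁻¹ *
        (‖(1 : Quaternion ℝ) + (a : Quaternion ℝ)‖ * ‖(1 : Quaternion ℝ) + (a : Quaternion ℝ)‖) = 1 := by
      field_simp
    rw [h4, one_smul]

lemma sp_det (a b : S3) : (sp_M (sp_L a b)).det = 1 := by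
  obtain ⟨c, hc⟩ := sp_sq a
  obtain ⟨d, hd⟩ := sp_sq b
  rw [← hc, ← hd, sp_L_mul, sp_M_comp, Matrix.det_mul]
  exact sp_det_sq _ (sp_B_pres c d)



def sp_U (a b : S3) : GL (Fin 5) ℝ where
  val := sp_M (sp_L a b)
  inv := sp_M (sp_L (star (a : Quaternion ℝ)) (star (b : Quaternion ℝ)))
  val_inv := by rw [← sp_M_comp, ← sp_L_mul, sp_mul_star, sp_mul_star, sp_L_one, sp_M_id]
  inv_val := by rw [← sp_M_comp, ← sp_L_mul, sp_star_mul, sp_star_mul, sp_L_one, sp_M_id]

lemma sp_44 (T : Quaternion ℝ →ₗ[ℝ] Quaternion ℝ) : sp_M T 4 4 = 1 := by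
  have h := mulVec_o_four (sp_M T)
  rw [sp_M_mulVec, sp_v_four] at h
  exact h.symm

def sp_Phi (q : S3 × S3) : G5 :=
  ⟨sp_U q.1 q.2, sp_B_pres q.1 q.2, sp_det q.1 q.2, by
    change 0 < sp_M (sp_L q.1 q.2) 4 4
    rw [sp_44]
    norm_num⟩

lemma sp_Phi_gact (q : S3 × S3) (x : Fin 5 → ℝ) :
    gact (sp_Phi q) x = sp_v (q.1 * sp_q x * star (q.2 : Quaternion ℝ)) (x 4) := by
  change (sp_M (sp_L q.1 q.2)).mulVec x = _
  rw [sp_M_mulVec, sp_L_apply]

lemma sp_M_entry (T : Quaternion ℝ →ₗ[ℝ] Quaternion ℝ) (i j : Fin 5) :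
    sp_M T i j = sp_v (T (sp_q (Pi.single j 1))) ((Pi.single j 1 : Fin 5 → ℝ) 4) i := by
  rw [← sp_M_mulVec]
  simp

lemma sp_v_cont {X : Type} [TopologicalSpace X] (f : X → Quaternion ℝ) (hf : Continuous f) (t : ℝ)
    (i : Fin 5) : Continuous fun x => sp_v (f x) t i := by
  fin_cases i
  · exact Quaternion.continuous_re.comp hf
  · exact Quaternion.continuous_imI.comp hf
  · exact Quaternion.continuous_imJ.comp hf
  · exact Quaternion.continuous_imK.comp hf
  · exact continuous_const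

lemma sp_M_cont {X : Type} [TopologicalSpace X] (f g : X → Quaternion ℝ) (hf : Continuous f)
    (hg : Continuous g) : Continuous fun x => sp_M (sp_L (f x) (g x)) := by
  apply continuous_matrix
  intro i j
  simp only [sp_M_entry, sp_L_apply]
  apply sp_v_cont
  exact (hf.mul continuous_const).mul hg.star

lemma sp_Phi_cont : Continuous sp_Phi := by
  apply Continuous.subtype_mk
  rw [Units.continuous_iff]
  constructor
  · exact sp_M_cont _ _ (continuous_subtype_val.comp continuous_fst)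
      (continuous_subtype_val.comp continuous_snd)
  · exact sp_M_cont _ _ (continuous_subtype_val.comp continuous_fst).star
      (continuous_subtype_val.comp continuous_snd).star

lemma sp_v_zero_one : sp_v 0 1 = o := by
  funext i
  fin_cases i <;> rfl

lemma sp_q_o : sp_q o = 0 := rfl

lemma sp_Phi_o (q : S3 × S3) : gact (sp_Phi q) o = o := by
  rw [sp_Phi_gact, sp_q_o, mul_zero, zero_mul]
  exact sp_v_zero_one

lemma sp_gact_ext {g h : G5} (H : ∀ x, gact g x = gact h x) : g = h := by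
  apply Subtype.ext
  apply Units.ext
  apply Matrix.ext_of_mulVec_single
  intro i
  exact H _

lemma sp_Phi_neg (a b : S3) : sp_Phi (-a, -b) = sp_Phi (a, b) := by
  apply sp_gact_ext
  intro x
  rw [sp_Phi_gact, sp_Phi_gact]
  congr 1
  change -(a : Quaternion ℝ) * sp_q x * star (-(b : Quaternion ℝ)) = _
  rw [star_neg]
  noncomm_ring

/-- a unit quaternion commuting with everything is ±1 -/
lemma sp_central (c : Quaternion ℝ) (hn : Quaternion.normSq c = 1) (h : ∀ x : Quaternion ℝ, c * x = x * c) :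
    c = 1 ∨ c = -1 := by
  have h1 := h ⟨0, 1, 0, 0⟩
  have h2 := h ⟨0, 0, 1, 0⟩
  have e1 : c.imJ = 0 := by
    have := congrArg QuaternionAlgebra.imK h1
    rw [Quaternion.imK_mul, Quaternion.imK_mul] at this
    dsimp only at this
    linarith
  have e2 : c.imK = 0 := by
    have := congrArg QuaternionAlgebra.imJ h1
    rw [Quaternion.imJ_mul, Quaternion.imJ_mul] at this
    dsimp only at this
    linarith
  have e3 : c.imI = 0 := by
    have := congrArg QuaternionAlgebra.imK h2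
    rw [Quaternion.imK_mul, Quaternion.imK_mul] at this
    dsimp only at this
    linarith
  rw [Quaternion.normSq_def', e1, e2, e3] at hn
  have h3 : (c.re - 1) * (c.re + 1) = 0 := by linarith
  rcases mul_eq_zero.mp h3 with h4 | h4
  · left
    have h5 : c.re = 1 := by linarith
    exact sp_ext h5 e3 e1 e2
  · right
    have h5 : c.re = -1 := by linarith
    apply sp_ext
    · rw [h5]; rfl
    · rw [e3]; exact (neg_zero).symm
    · rw [e1]; exact (neg_zero).symm
    · rw [e2]; exact (neg_zero).symm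

lemma sp_ker (q q' : S3 × S3) (h : sp_Phi q = sp_Phi q') : q' = q ∨ q' = (-q.1, -q.2) := by
  obtain ⟨a, b⟩ := q
  obtain ⟨a', b'⟩ := q'
  have h1 : ∀ x : Quaternion ℝ, (a : Quaternion ℝ) * x * star (b : Quaternion ℝ) =
      (a' : Quaternion ℝ) * x * star (b' : Quaternion ℝ) := by
    intro x
    have h2 := congrArg (fun g => gact g (sp_v x 0)) h
    simp only [sp_Phi_gact, sp_q_v] at h2
    have h3 := congrArg sp_q h2
    rwa [sp_q_v, sp_q_v] at h3
  have h2 : ∀ x : Quaternion ℝ, (star (a : Quaternion ℝ) * (a' : Quaternion ℝ)) * x =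
      x * (star (b : Quaternion ℝ) * (b' : Quaternion ℝ)) := by
    intro x
    calc (star (a : Quaternion ℝ) * (a' : Quaternion ℝ)) * x
        = star (a : Quaternion ℝ) * ((a' : Quaternion ℝ) * x * star (b' : Quaternion ℝ)) * b' := by
          have := sp_star_mul b'
          calc (star (a : Quaternion ℝ) * (a' : Quaternion ℝ)) * x
              = star (a : Quaternion ℝ) * (a' : Quaternion ℝ) * x * 1 := by rw [mul_one]
            _ = star (a : Quaternion ℝ) * (a' : Quaternion ℝ) * x *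
                (star (b' : Quaternion ℝ) * (b' : Quaternion ℝ)) := by rw [this]
            _ = _ := by noncomm_ring
      _ = star (a : Quaternion ℝ) * ((a : Quaternion ℝ) * x * star (b : Quaternion ℝ)) * b' := by
          rw [h1]
      _ = (star (a : Quaternion ℝ) * (a : Quaternion ℝ)) * x * star (b : Quaternion ℝ) * b' := by
          noncomm_ring
      _ = _ := by rw [sp_star_mul, one_mul, mul_assoc]
  have h3 : star (a : Quaternion ℝ) * (a' : Quaternion ℝ) =
      star (b : Quaternion ℝ) * (b' : Quaternion ℝ) := by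
    have := h2 1
    rwa [mul_one, one_mul] at this
  have h4 : Quaternion.normSq (star (a : Quaternion ℝ) * (a' : Quaternion ℝ)) = 1 := by
    have ha : ‖(a : Quaternion ℝ)‖ = 1 := mem_sphere_zero_iff_norm.mp a.2
    have ha' : ‖(a' : Quaternion ℝ)‖ = 1 := mem_sphere_zero_iff_norm.mp a'.2
    rw [map_mul, Quaternion.normSq_star, Quaternion.normSq_eq_norm_mul_self,
      Quaternion.normSq_eq_norm_mul_self, ha, ha']
    norm_num
  have h5 : (a' : Quaternion ℝ) = a * (star (a : Quaternion ℝ) * (a' : Quaternion ℝ)) := by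
    rw [← mul_assoc, sp_mul_star, one_mul]
  have h6 : (b' : Quaternion ℝ) = b * (star (b : Quaternion ℝ) * (b' : Quaternion ℝ)) := by
    rw [← mul_assoc, sp_mul_star, one_mul]
  rcases sp_central _ h4 (fun x => by rw [h2 x, h3]) with h7 | h7
  · left
    rw [← h3, h7, mul_one] at h6
    rw [h7, mul_one] at h5
    exact Prod.ext (Subtype.ext h5) (Subtype.ext h6)
  · right
    rw [← h3, h7, mul_neg, mul_one] at h6
    rw [h7, mul_neg, mul_one] at h5
    exact Prod.ext (Subtype.ext h5) (Subtype.ext h6)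


lemma sp_refl_apply (w x : Quaternion ℝ) (hw : ‖w‖ = 1) :
    w * (-star x) * w = x - (2 * (w * star x).re) • w := by
  have h1 : w * star x + x * star w = (2 * (w * star x).re) • (1 : Quaternion ℝ) := by
    have h2 := Quaternion.self_add_star' (w * star x)
    rw [star_mul, star_star] at h2
    rw [h2, ← Quaternion.coe_mul_eq_smul, mul_one]
  have h3 : star w * w = 1 := by
    rw [Quaternion.star_mul_self, Quaternion.normSq_eq_norm_mul_self, hw]
    simp
  have h4 : w * star x * w + x * (star w * w) = (2 * (w * star x).re) • w := by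
    calc w * star x * w + x * (star w * w) = (w * star x + x * star w) * w := by noncomm_ring
      _ = _ := by rw [h1, smul_mul_assoc, one_mul]
  rw [h3, mul_one] at h4
  rw [← h4]
  noncomm_ring

lemma sp_refl_eq (v : Quaternion ℝ) (hv : v ≠ 0) : ∃ w : S3, ∀ x : Quaternion ℝ,
    (ℝ ∙ v)ᗮ.reflection x = sp_L w (star (w : Quaternion ℝ)) (sp_s x) := by
  have hn : ‖v‖ ≠ 0 := norm_ne_zero_iff.mpr hv
  have h1 : ‖(‖v‖⁻¹ : ℝ) • v‖ = 1 := by
    rw [norm_smul, norm_inv, norm_norm, inv_mul_cancel₀ hn]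
  refine ⟨⟨_, mem_sphere_zero_iff_norm.mpr h1⟩, ?_⟩
  intro x
  rw [sp_s_apply, sp_L_apply, star_star]
  change _ = ((‖v‖⁻¹ : ℝ) • v) * (-star x) * ((‖v‖⁻¹ : ℝ) • v)
  rw [sp_refl_apply _ _ h1, Submodule.reflection_orthogonal_apply, Submodule.reflection_singleton_apply,
    Quaternion.inner_def, smul_mul_assoc, Quaternion.re_smul, smul_eq_mul, smul_smul]
  rw [neg_sub]
  congr 1
  rw [← Nat.cast_smul_eq_nsmul ℝ, smul_smul]
  congr 1
  simp only [RCLike.ofReal_real_eq_id, id_eq, Nat.cast_ofNat]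
  field_simp

lemma sp_list (l : List (Quaternion ℝ)) : ∃ a b : S3,
    (∀ x, (l.map fun v => (ℝ ∙ v)ᗮ.reflection).prod x = sp_L a b x) ∨
    (∀ x, (l.map fun v => (ℝ ∙ v)ᗮ.reflection).prod x = sp_L a b (sp_s x)) := by
  induction l with
  | nil =>
    refine ⟨⟨1, mem_sphere_zero_iff_norm.mpr norm_one⟩, ⟨1, mem_sphere_zero_iff_norm.mpr norm_one⟩, Or.inl ?_⟩
    intro x
    change x = sp_L 1 1 x
    rw [sp_L_one]
    rfl
  | cons v l ih =>
    obtain ⟨a, b, hab⟩ := ih
    by_cases hv : v = 0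
    · refine ⟨a, b, ?_⟩
      have h1 : (ℝ ∙ v)ᗮ.reflection = (1 : Quaternion ℝ ≃ₗᵢ[ℝ] Quaternion ℝ) := by
        ext1 x
        change (ℝ ∙ v)ᗮ.reflection x = x
        rw [hv, Submodule.reflection_eq_self_iff]
        simp
      rw [List.map_cons, List.prod_cons, h1, one_mul]
      exact hab
    · obtain ⟨w, hw⟩ := sp_refl_eq v hv
      have hws : ‖star (w : Quaternion ℝ)‖ = 1 := by
        rw [norm_star]
        exact mem_sphere_zero_iff_norm.mp w.2
      have hmul : ∀ p q : S3, ‖(p : Quaternion ℝ) * q‖ = 1 := by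
        intro p q
        rw [norm_mul, mem_sphere_zero_iff_norm.mp p.2, mem_sphere_zero_iff_norm.mp q.2, one_mul]
      refine ⟨⟨_, mem_sphere_zero_iff_norm.mpr (hmul w b)⟩,
        ⟨_, mem_sphere_zero_iff_norm.mpr (hmul ⟨_, mem_sphere_zero_iff_norm.mpr hws⟩ a)⟩, ?_⟩
      rcases hab with h | h
      · right
        intro x
        rw [List.map_cons, List.prod_cons]
        change (ℝ ∙ v)ᗮ.reflection ((l.map fun v => (ℝ ∙ v)ᗮ.reflection).prod x) = _
        rw [h, hw]
        change _ = sp_L (w * b) (star (w : Quaternion ℝ) * a) (sp_s x)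
        have h2 := LinearMap.congr_fun (sp_s_L a b) x
        rw [LinearMap.comp_apply, LinearMap.comp_apply] at h2
        rw [h2, sp_L_mul, LinearMap.comp_apply]
      · left
        intro x
        rw [List.map_cons, List.prod_cons]
        change (ℝ ∙ v)ᗮ.reflection ((l.map fun v => (ℝ ∙ v)ᗮ.reflection).prod x) = _
        rw [h, hw]
        change _ = sp_L (w * b) (star (w : Quaternion ℝ) * a) x
        have h2 := LinearMap.congr_fun (sp_s_L a b) (sp_s x)
        have h3 := LinearMap.congr_fun sp_s_s x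
        rw [LinearMap.comp_apply] at h3
        rw [LinearMap.comp_apply, LinearMap.comp_apply, h3] at h2
        rw [h2, sp_L_mul, LinearMap.comp_apply]
        rfl


lemma sp_surj (g : G5) (hg : gact g o = o) : ∃ q, sp_Phi q = g := by
  -- coordinate 4 is preserved
  have h4 : ∀ x, gact g x 4 = x 4 := by
    intro x
    have h := B_gact g x o
    rw [hg, B_o_right, B_o_right] at h
    linarith
  have hlin : ∀ x y : Fin 5 → ℝ, gact g (x + y) = gact g x + gact g y := by
    intro x y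
    exact Matrix.mulVec_add _ _ _
  have hsmul : ∀ (c : ℝ) (x : Fin 5 → ℝ), gact g (c • x) = c • gact g x := by
    intro c x
    exact Matrix.mulVec_smul _ _ _
  let T : Quaternion ℝ →ₗ[ℝ] Quaternion ℝ :=
    { toFun := fun p => sp_q (gact g (sp_v p 0))
      map_add' := by
        intro p q
        rw [← sp_q_add, ← hlin, ← sp_v_add, add_zero]
      map_smul' := by
        intro c p
        rw [RingHom.id_apply, ← sp_q_smul, ← hsmul, ← sp_v_smul, mul_zero] }
  have hT : ∀ p, T p = sp_q (gact g (sp_v p 0)) := fun p => rfl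
  have hgT : ∀ x, gact g x = sp_v (T (sp_q x)) (x 4) := by
    intro x
    have h1 : x = sp_v (sp_q x) 0 + (x 4) • o := by
      have h2 := sp_v_q x
      have h3 := sp_v_add (sp_q x) 0 0 (x 4)
      have h4 := sp_v_smul (x 4) 0 1
      rw [smul_zero, mul_one, sp_v_zero_one] at h4
      rw [add_zero, zero_add, h2, h4] at h3
      exact h3
    have h5 : gact g x = gact g (sp_v (sp_q x) 0) + (x 4) • o := by
      conv_lhs => rw [h1]
      rw [hlin, hsmul, hg]
    have h6 := sp_v_q (gact g x)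
    rw [h4] at h6
    rw [← h6]
    congr 1
    rw [h5, sp_q_add, sp_q_smul, sp_q_o, smul_zero, add_zero, hT]
  have hM : ((g : GL (Fin 5) ℝ) : Matrix (Fin 5) (Fin 5) ℝ) = sp_M T := by
    apply Matrix.ext_of_mulVec_single
    intro i
    rw [sp_M_mulVec]
    exact hgT _
  have hnorm : ∀ p, ‖T p‖ = ‖p‖ := by
    intro p
    have h1 := B_gact g (sp_v p 0) (sp_v p 0)
    rw [sp_B, sp_B, h4, sp_v_four, sp_q_v, ← hT] at h1
    rw [Quaternion.self_mul_star, Quaternion.self_mul_star, Quaternion.re_coe, Quaternion.re_coe,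
      Quaternion.normSq_eq_norm_mul_self, Quaternion.normSq_eq_norm_mul_self] at h1
    have h2 : ‖T p‖ * ‖T p‖ = ‖p‖ * ‖p‖ := by linarith
    exact (mul_self_inj (norm_nonneg _) (norm_nonneg _)).mp h2
  let Tli : Quaternion ℝ →ₗᵢ[ℝ] Quaternion ℝ := ⟨T, hnorm⟩
  obtain ⟨l, -, hl⟩ := (Tli.toLinearIsometryEquiv rfl).reflections_generate_dim
  obtain ⟨a, b, hab⟩ := sp_list l
  rw [← hl] at hab
  have hTl : ∀ x, Tli.toLinearIsometryEquiv rfl x = T x := fun x => rfl
  rcases hab with h | h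
  · refine ⟨(a, b), ?_⟩
    apply sp_gact_ext
    intro x
    rw [hgT, sp_Phi_gact, ← hTl, h]
    rfl
  · exfalso
    have h1 : T = (sp_L a b).comp sp_s := by
      apply LinearMap.ext
      intro x
      rw [← hTl, h]
      rfl
    have h2 := g.2.2.1
    rw [hM, h1, sp_M_comp, Matrix.det_mul, sp_det, sp_det_s] at h2
    norm_num at h2

/-- Spin(4) = S³×S³ → stabilizer of `o` in SO⁺(4,1). -/
theorem spin4 : ∃ Φ : S3 × S3 → G5, Continuous Φ ∧ (∀ q, gact (Φ q) o = o) ∧
    (∀ g : G5, gact g o = o → ∃ q, Φ q = g) ∧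
    (∀ a b : S3, Φ (-a, -b) = Φ (a, b)) ∧
    (∀ q q' : S3 × S3, Φ q = Φ q' → q' = q ∨ q' = (-q.1, -q.2)) :=
  ⟨sp_Phi, sp_Phi_cont, sp_Phi_o, sp_surj, sp_Phi_neg, sp_ker⟩
end SPIN
end HB
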