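import Pool.Agent.Helper24.HB.CombData
import Pool.Agent.Helper24.HB.GT
import Pool.Agent.Helper24.HB.CT
import Pool.Agent.Helper24.HB.LP3
import Pool.Agent.Helper24.HB.SPIN
import Pool.Agent.Helper24.HB.BOOST
import Pool.Agent.Helper24.HB.CPT
import Pool.Agent.Helper24.HB.G12
import Pool.Agent.Helper24.HB.G3
import Pool.Agent.Helper24.HB.G4
import Pool.Agent.Helper24.HB.R2
import Pool.Agent.Helper24.HB.D1
import Pool.Agent.Helper24.HB.H1
import Pool.Agent.Helper24.HB.M12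
import Pool.Agent.Helper24.HB.M3
import Pool.Agent.Helper24.HB.M45
import Pool.Agent.Helper24.HB.M6a
import Pool.Agent.Helper24.HB.M6b
import Pool.Agent.Helper24.HB.LPG
set_option autoImplicit false
noncomputable section
namespace HB

/-- the averaged roots over the 120-cell -/
def b120 (p : Fin 5 → ℝ) (s : Fin 25) (k : Fin 5) : ℂ := D120.avg p (Finset.univ.toList : List (Fin 120)) (s, k)

lemma b120_cont (s : Fin 25) (k : Fin 5) : Continuous fun p => b120 p s k := (avg_props C120 D120).1 _ _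
lemma b120_inv (p : Fin 5 → ℝ) (hp : p ∈ C120.P) (i : Fin 120) (h : B p (C120.e i) = 0) (s : Fin 25) (k : Fin 5) :
    b120 p (D120.W.act i s) (D120.tr s (D120.W.act i s) k) = b120 p s k :=
  (avg_props C120 D120).2 p hp _ (Finset.nodup_toList _) i (by simp) h (s, k)
lemma b120_ne (p : Fin 5 → ℝ) (hp : p ∈ C120.P) (s : Fin 25) (k l : Fin 5) (h : k ≠ l) : b120 p s k ≠ b120 p s l :=
  R2.avg_distinct C120 D120 p hp _ s k l h

lemma loc120 (p : Fin 5 → ℝ) (hp : p ∈ C120.P) : ∃ ε > 0, ∀ q ∈ Hyp, dist q p < ε →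
    ∃ v : List (Fin 120), v.Nodup ∧ (∀ i ∈ v, B p (C120.e i) = 0) ∧ C120.rho v q ∈ C120.P := G3.local_cover C120 hp
lemma cov120 (q : Fin 5 → ℝ) (hq : q ∈ Hyp) : ∃ w : List (Fin 120), C120.rho w q ∈ C120.P :=
  G4.covering C120 C120_compact (fun p hp => loc120 p hp) BOOST.Hyp_homeo q hq
lemma tits120 (w : List (Fin 120)) (p : Fin 5 → ℝ) (hp : p ∈ C120.P) (hw : C120.rho w p ∈ C120.P) :
    C120.rho w p = p ∧ ∃ v : List (Fin 120), (∀ i ∈ v, B p (C120.e i) = 0) ∧ (∀ x, C120.rho w x = C120.rho v x) ∧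
      (∀ s, W120.tau w s = W120.tau v s) := G12.tits_fix C120 W120 w p hp hw

theorem exPol : ∃ Pol : Fin 25 → (Fin 5 → ℝ) → Polynomial ℂ,
      (∀ s n, ContinuousOn (fun q => (Pol s q).coeff n) Hyp) ∧
      (∀ s i, ∀ q ∈ Hyp, Pol (D120.W.act i s) (refl (C120.e i) q) = Pol s q) ∧
      (∀ s, ∀ q ∈ C120.P, Pol s q = ∏ k : Fin 5, (Polynomial.X - Polynomial.C (b120 q s k))) :=
  D1.descent C120 D120 b120 b120_cont b120_inv cov120 tits120 loc120

lemma Pol_tau {Pol : Fin 25 → (Fin 5 → ℝ) → Polynomial ℂ}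
    (h2 : ∀ s i, ∀ q ∈ Hyp, Pol (D120.W.act i s) (refl (C120.e i) q) = Pol s q) (w : List (Fin 120)) (s : Fin 25)
    (q : Fin 5 → ℝ) (hq : q ∈ Hyp) : Pol (W120.tau w s) (C120.rho w q) = Pol s q := by
  induction w with
  | nil => rfl
  | cons i w ih =>
    rw [tau_cons, rho_cons, ← ih]
    exact h2 _ i _ (rho_mem_Hyp C120 w hq)

/-- the lattice -/
abbrev Γ120 : Subgroup G5 := Gam C120 W120 0

instance : IsClosed (Γ120 : Set G5) := M12.Gam_closed C120 W120 0 tits120
instance : CompactSpace (G5 ⧸ Γ120) :=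
  M12.quot_compact C120 W120 0 C120_compact cov120 htr120 CPT.cpt_G (CPT.even_word C120)
instance instConnG5 : ConnectedSpace G5 := LPG.G5_conn SPIN.spin4 BOOST.boost BOOST.Hyp_homeo

theorem log120 (f : C(G5 ⧸ Γ120, ℂ)) (hf : ∀ x, f x ≠ 0) : ∃ g : C(G5 ⧸ Γ120, ℂ), ∀ x, f x = Complex.exp (g x) :=
  M3.quot_log C120 W120 0 instConnG5
    (LPG.G5_LP SPIN.spin4 BOOST.boost BOOST.Hyp_homeo (fun Y _ _ h => LP3.lp_sphere h)
      (fun X Y _ _ H h1 h2 q j h3 h4 h5 h6 => LP12.lp_contract H h1 h2 q j h3 h4 h5 h6))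
    (CPT.even_word C120) (H1.hom_trivial C120 W120 0 k120 htr120) f hf

theorem final120 : ∃ p : Polynomial C(G5 ⧸ Γ120, ℂ), p.Monic ∧ p.Separable ∧
    ¬ ∃ s : Multiset C(G5 ⧸ Γ120, ℂ), p = (s.map (fun a => Polynomial.X - Polynomial.C a)).prod := by
  obtain ⟨Pol, hP1, hP2, hP3⟩ := exPol
  have hinv : ∀ (g γ : G5), γ ∈ Γ120 → Pol 0 (gact (g * γ)⁻¹ o) = Pol 0 (gact g⁻¹ o) := by
    intro g γ hγ
    obtain ⟨w, _, hw2, hw3⟩ := hγ
    have hq : gact (g * γ)⁻¹ o ∈ Hyp := gact_mem_Hyp _ o_mem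
    have h := Pol_tau hP2 w 0 _ hq
    rw [hw2, ← hw3] at h
    rw [← h, ← gact_mul]
    congr 2
    group
  have hF : ∀ a b : G5, (QuotientGroup.leftRel Γ120) a b → Pol 0 (gact a⁻¹ o) = Pol 0 (gact b⁻¹ o) := by
    intro a b hab
    rw [QuotientGroup.leftRel_apply] at hab
    have := hinv a (a⁻¹ * b) hab
    rw [← this]
    congr 2
    group
  let F : G5 ⧸ Γ120 → Polynomial ℂ := Quotient.lift (fun g : G5 => Pol 0 (gact g⁻¹ o)) hF
  have hFmk : ∀ g : G5, F (QuotientGroup.mk g) = Pol 0 (gact g⁻¹ o) := fun g => rfl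
  have hform : ∀ x, ∃ c : Fin 5 → ℂ, Function.Injective c ∧ F x = ∏ k : Fin 5, (Polynomial.X - Polynomial.C (c k)) := by
    intro x
    obtain ⟨g, rfl⟩ := QuotientGroup.mk_surjective x
    obtain ⟨w, hw⟩ := cov120 _ (gact_mem_Hyp g⁻¹ o_mem)
    refine ⟨b120 (C120.rho w (gact g⁻¹ o)) (W120.tau w 0), ?_, ?_⟩
    · intro k l hkl
      by_contra hne
      exact b120_ne _ hw _ k l hne hkl
    · rw [hFmk, ← Pol_tau hP2 w 0 _ (gact_mem_Hyp g⁻¹ o_mem), hP3 _ _ hw]
  have hdeg : ∀ x, (F x).natDegree = 5 := by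
    intro x
    obtain ⟨c, _, hc⟩ := hform x
    rw [hc, Polynomial.natDegree_prod_of_monic _ _ (fun k _ => Polynomial.monic_X_sub_C _)]
    simp
  have hmon : ∀ x, (F x).Monic := by
    intro x
    obtain ⟨c, _, hc⟩ := hform x
    rw [hc]
    exact Polynomial.monic_prod_of_monic _ _ (fun k _ => Polynomial.monic_X_sub_C _)
  have hcont : ∀ m, Continuous fun x => (F x).coeff m := by
    intro m
    have h1 : Continuous fun g : G5 => (Pol 0 (gact g⁻¹ o)).coeff m := by
      have hg : Continuous fun g : G5 => gact g⁻¹ o :=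
        continuous_gact.comp (continuous_inv.prodMk continuous_const)
      exact (hP1 0 m).comp_continuous hg (fun g => gact_mem_Hyp _ o_mem)
    exact (isQuotientMap_quot_mk.continuous_iff).2 h1
  obtain ⟨p, hpm, hp⟩ := M45.mkpoly F 5 hdeg hmon hcont
  have hne : Nonempty (G5 ⧸ Γ120) := ⟨QuotientGroup.mk 1⟩
  refine ⟨p, hpm, ?_, ?_⟩
  · apply M45.sep_of_pointwise p hpm
    intro x
    rw [hp x]
    obtain ⟨c, hc1, hc⟩ := hform x
    rw [hc]
    exact Polynomial.separable_prod_X_sub_C_iff.2 hc1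
  · rintro ⟨s, hs⟩
    have hs0 : ∃ a, a ∈ s := by
      by_contra hcon
      have : s = 0 := Multiset.eq_zero_of_forall_notMem (fun a ha => hcon ⟨a, ha⟩)
      rw [this] at hs
      have h1 := hp (QuotientGroup.mk 1)
      rw [hs] at h1
      have h2 := hdeg (QuotientGroup.mk 1)
      rw [← h1] at h2
      simp at h2
    obtain ⟨a, ha⟩ := hs0
    have hroot : ∀ x, (F x).eval (a x) = 0 := by
      intro x
      rw [← hp x]
      have h1 : p.eval a = 0 := by
        rw [hs, Polynomial.eval_multiset_prod, Multiset.map_map]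
        apply Multiset.prod_eq_zero
        rw [Multiset.mem_map]
        exact ⟨a, ha, by simp⟩
      have h2 : (p.map (M45.ev x)).eval (M45.ev x a) = M45.ev x (p.eval a) := by
        rw [Polynomial.eval_map, Polynomial.eval₂_at_apply]
      have h3 : M45.ev x a = a x := rfl
      rw [← h3, h2, h1, map_zero]
    obtain ⟨bst, hb1, hb2⟩ := BOOST.boost
    obtain ⟨k0, hk0⟩ := M6b.no_root C120 D120 0 b120 b120_cont b120_inv b120_ne Pol hP2 hP3
      (fun w => M6a.chamber_conn C120 w bst hb1 hb2 (LPG.K_conn SPIN.spin4))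
      (M6a.wall_nonempty C120)
      (fun p hp => ⟨bst ⟨p, hp⟩, hb2 ⟨p, hp⟩⟩)
      (fun s hs hne A hA c hc hd h => M6a.select hs hne A hA c hc hd h)
      (CPT.even_word C120)
      (fun g => a (QuotientGroup.mk g)) (a.continuous.comp QuotientGroup.continuous_mk)
      (fun g γ hγ => by
        congr 1
        rw [QuotientGroup.eq]
        have : (g * γ)⁻¹ * g = γ⁻¹ := by group
        rw [this]
        exact Subgroup.inv_mem _ hγ)
      (fun g => hroot (QuotientGroup.mk g))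
    rcases mono120 k0 with h | h
    · exact h (hk0 _ (by decide) mono120a.1)
    · exact h (hk0 _ (by decide) mono120a.2)
end HB
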