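import Pool.Agent.Helper24.HB.Comb
set_option autoImplicit false
noncomputable section
namespace HB
namespace M12
lemma hb836_eq_one {g : G5} (h : ∀ x, gact g x = x) : g = 1 := by
  apply Subtype.ext
  apply Units.ext
  change ((g : GL (Fin 5) ℝ) : Matrix (Fin 5) (Fin 5) ℝ) = 1
  apply Matrix.toLin'.injective
  apply LinearMap.ext
  intro x
  rw [Matrix.toLin'_apply, Matrix.toLin'_one]
  exact h x

lemma hb836_cont (y : Fin 5 → ℝ) : Continuous fun g : G5 => gact g y :=
  continuous_gact.comp (continuous_id.prodMk continuous_const)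

theorem Gam_closed {ι : Type} [Fintype ι] (C : Cell ι) {S : Type} (W : WSet C S) (s0 : S)
    (hT : ∀ (w : List ι) (p : Fin 5 → ℝ), p ∈ C.P → C.rho w p ∈ C.P → C.rho w p = p ∧
      ∃ v : List ι, (∀ i ∈ v, B p (C.e i) = 0) ∧ (∀ x, C.rho w x = C.rho v x) ∧ (∀ s, W.tau w s = W.tau v s)) :
    IsClosed (Gam C W s0 : Set G5) := by
  have hU : IsOpen {g : G5 | ∀ i, B (gact g o) (C.e i) < 0} := by
    rw [Set.setOf_forall]
    apply isOpen_iInter_of_finite
    intro i
    exact isOpen_lt (continuous_B (hb836_cont o) continuous_const) continuous_const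
  have hone : IsOpen ({1} : Set (Gam C W s0)) := by
    have e : ({1} : Set (Gam C W s0)) =
        (Subtype.val : Gam C W s0 → G5) ⁻¹' {g : G5 | ∀ i, B (gact g o) (C.e i) < 0} := by
      ext g
      constructor
      · intro hg
        rw [Set.mem_singleton_iff] at hg
        subst hg
        intro i
        change B (gact (1 : G5) o) (C.e i) < 0
        rw [gact_one]
        exact C.cen i
      · intro hg
        rw [Set.mem_singleton_iff]
        obtain ⟨w, -, -, hw⟩ := g.2
        have hP : C.rho w o ∈ C.P := by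
          rw [← hw]
          exact ⟨gact_mem_Hyp _ o_mem, fun i => (hg i).le⟩
        obtain ⟨-, v, hv1, hv2, -⟩ := hT w o (o_mem_P C) hP
        have hv : v = [] := by
          rw [List.eq_nil_iff_forall_not_mem]
          intro i hi
          have h1 := hv1 i hi
          have h2 := C.cen i
          linarith
        subst hv
        apply Subtype.ext
        apply hb836_eq_one
        intro x
        rw [hw, hv2]
        rfl
    rw [e]
    exact hU.preimage continuous_subtype_val
  haveI : DiscreteTopology (Gam C W s0) := discreteTopology_of_isOpen_singleton_one hone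
  exact Subgroup.isClosed_of_discrete
theorem quot_compact {ι : Type} [Fintype ι] (C : Cell ι) {S : Type} [Finite S] (W : WSet C S) (s0 : S)
    (hc : IsCompact C.P)
    (hcov : ∀ q ∈ Hyp, ∃ w : List ι, C.rho w q ∈ C.P)
    (htr : ∀ s, (∃ w : List ι, Even w.length ∧ W.tau w s0 = s) ∧ (∃ w : List ι, Odd w.length ∧ W.tau w s0 = s))
    (hcpt : ∀ K : Set (Fin 5 → ℝ), IsCompact K → K ⊆ Hyp → IsCompact {g : G5 | gact g⁻¹ o ∈ K})
    (heven : ∀ w : List ι, Even w.length → ∃ g : G5, ∀ x, gact g x = C.rho w x) :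
    CompactSpace (G5 ⧸ Gam C W s0) := by
  classical
  choose a ha1 ha2 using fun s => (htr s).1
  choose b hb1 hb2 using fun s => (htr s).2
  haveI : Fintype S := Fintype.ofFinite S
  let K : Set (Fin 5 → ℝ) := ⋃ s : S, (C.rho (a s).reverse '' C.P ∪ C.rho (b s).reverse '' C.P)
  have hK : IsCompact K := by
    apply isCompact_iUnion
    intro s
    exact (hc.image (continuous_rho C _)).union (hc.image (continuous_rho C _))
  have hKH : K ⊆ Hyp := by
    intro x hx
    obtain ⟨s, hs⟩ := Set.mem_iUnion.1 hx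
    rcases hs with ⟨y, hy, rfl⟩ | ⟨y, hy, rfl⟩
    · exact rho_mem_Hyp C _ hy.1
    · exact rho_mem_Hyp C _ hy.1
  have hcomp := hcpt K hK hKH
  have hcont : Continuous (QuotientGroup.mk : G5 → G5 ⧸ Gam C W s0) := QuotientGroup.continuous_mk
  have him := hcomp.image hcont
  refine ⟨?_⟩
  convert him
  symm
  rw [Set.eq_univ_iff_forall]
  intro x
  obtain ⟨g, rfl⟩ := QuotientGroup.mk_surjective x
  obtain ⟨w, hw⟩ := hcov (gact g⁻¹ o) (gact_mem_Hyp _ o_mem)
  -- the word bringing the state back
  obtain ⟨u, hu1, hu2, hu3⟩ : ∃ u : List ι, Even (u ++ w).length ∧ W.tau u (W.tau w s0) = s0 ∧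
      C.rho u '' C.P ⊆ K := by
    rcases Nat.even_or_odd w.length with hev | hod
    · refine ⟨(a (W.tau w s0)).reverse, ?_, ?_, ?_⟩
      · rw [List.length_append, List.length_reverse]
        exact (ha1 _).add hev
      · have := tau_reverse W (a (W.tau w s0)) s0
        rwa [ha2] at this
      · intro y hy
        exact Set.mem_iUnion.2 ⟨W.tau w s0, Or.inl hy⟩
    · refine ⟨(b (W.tau w s0)).reverse, ?_, ?_, ?_⟩
      · rw [List.length_append, List.length_reverse]
        exact (hb1 _).add_odd hod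
      · have := tau_reverse W (b (W.tau w s0)) s0
        rwa [hb2] at this
      · intro y hy
        exact Set.mem_iUnion.2 ⟨W.tau w s0, Or.inr hy⟩
  obtain ⟨δ, hδ⟩ := heven (u ++ w) hu1
  have hδΓ : δ ∈ Gam C W s0 := ⟨u ++ w, hu1, by rw [tau_append]; exact hu2, hδ⟩
  refine ⟨g * δ⁻¹, ?_, ?_⟩
  · change gact (g * δ⁻¹)⁻¹ o ∈ K
    rw [mul_inv_rev, inv_inv, gact_mul, hδ, rho_append]
    exact hu3 ⟨_, hw, rfl⟩
  · rw [QuotientGroup.eq]
    have e : (g * δ⁻¹)⁻¹ * g = δ := by group
    rw [e]
    exact hδΓ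
end M12
end HB
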