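import Pool.Agent.Helper24.HB.Comb
import Pool.Agent.Helper24.HB.Chk0
set_option autoImplicit false
noncomputable section
namespace HB
/-- coordinates of icosians -/
def qv (F i : ℕ) : ℝ := ((va F i : ℝ) + (vb F i : ℝ) * Real.goldenRatio) / 2
/-- outer normals of the right-angled 120-cell -/
def eF (F : ℕ) : Fin 5 → ℝ := ![√2 * Real.goldenRatio * qv F 0, √2 * Real.goldenRatio * qv F 1, √2 * Real.goldenRatio * qv F 2,
  √2 * Real.goldenRatio * qv F 3, √(Real.goldenRatio ^ 3)]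
theorem B_eF (F G : ℕ) : B (eF F) (eF G) = Real.goldenRatio ^ 2 * ((dA F G : ℝ) + (dB F G : ℝ) * Real.goldenRatio) / 2 - Real.goldenRatio ^ 3 := by
  have h2 : √2 * √2 = (2 : ℝ) := Real.mul_self_sqrt (by norm_num)
  have h3 : √(Real.goldenRatio ^ 3) * √(Real.goldenRatio ^ 3) = Real.goldenRatio ^ 3 :=
    Real.mul_self_sqrt (pow_pos Real.goldenRatio_pos 3).le
  have hφ : Real.goldenRatio ^ 2 = Real.goldenRatio + 1 := Real.goldenRatio_sq
  have hB : B (eF F) (eF G) = √2 * Real.goldenRatio * qv F 0 * (√2 * Real.goldenRatio * qv G 0) +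
      √2 * Real.goldenRatio * qv F 1 * (√2 * Real.goldenRatio * qv G 1) +
      √2 * Real.goldenRatio * qv F 2 * (√2 * Real.goldenRatio * qv G 2) +
      √2 * Real.goldenRatio * qv F 3 * (√2 * Real.goldenRatio * qv G 3) -
      √(Real.goldenRatio ^ 3) * √(Real.goldenRatio ^ 3) := rfl
  rw [hB]
  unfold qv dA dB
  push_cast
  linear_combination (Real.goldenRatio ^ 2 * (((va F 0 : ℝ) + (vb F 0 : ℝ) * Real.goldenRatio) * ((va G 0 : ℝ) + (vb G 0 : ℝ) * Real.goldenRatio)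
    + ((va F 1 : ℝ) + (vb F 1 : ℝ) * Real.goldenRatio) * ((va G 1 : ℝ) + (vb G 1 : ℝ) * Real.goldenRatio)
    + ((va F 2 : ℝ) + (vb F 2 : ℝ) * Real.goldenRatio) * ((va G 2 : ℝ) + (vb G 2 : ℝ) * Real.goldenRatio)
    + ((va F 3 : ℝ) + (vb F 3 : ℝ) * Real.goldenRatio) * ((va G 3 : ℝ) + (vb G 3 : ℝ) * Real.goldenRatio)) / 4) * h2
    + (Real.goldenRatio ^ 2 / 2 * ((vb F 0 : ℝ) * (vb G 0 : ℝ) + (vb F 1 : ℝ) * (vb G 1 : ℝ)
      + (vb F 2 : ℝ) * (vb G 2 : ℝ) + (vb F 3 : ℝ) * (vb G 3 : ℝ))) * hφ - h3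

theorem gr_lo : (1618 / 1000 : ℝ) < Real.goldenRatio := by
  unfold Real.goldenRatio
  have h : (2236 / 1000 : ℝ) < √5 := by
    rw [Real.lt_sqrt (by norm_num)]; norm_num
  linarith

theorem gr_lo2 : (161803 / 100000 : ℝ) < Real.goldenRatio := by
  unfold Real.goldenRatio
  have h : (223606 / 100000 : ℝ) < √5 := by
    rw [Real.lt_sqrt (by norm_num)]; norm_num
  linarith

theorem gr_hi : Real.goldenRatio < (161804 / 100000 : ℝ) := by
  unfold Real.goldenRatio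
  have h : √5 < (223608 / 100000 : ℝ) := by
    rw [Real.sqrt_lt' (by norm_num)]; norm_num
  linarith

/-- TARGET 1 -/
theorem eF_self (F : ℕ) (hF : F < 120) : B (eF F) (eF F) = 1 := by
  have h := List.all_eq_true.1 dot_self_all F (List.mem_range.2 hF)
  simp only [Bool.and_eq_true, decide_eq_true_eq] at h
  have hφ : Real.goldenRatio ^ 2 = Real.goldenRatio + 1 := Real.goldenRatio_sq
  rw [B_eF, h.1, h.2]
  push_cast
  linear_combination (1 - Real.goldenRatio) * hφ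
/-- TARGET 2 -/
theorem eF_orth (F G : ℕ) (h : adjb F G = true) : B (eF F) (eF G) = 0 := by
  simp only [adjb, Bool.and_eq_true, decide_eq_true_eq] at h
  rw [B_eF, h.1, h.2]
  push_cast
  ring
/-- TARGET 3 -/
theorem eF_far (F G : ℕ) (hF : F < 120) (hG : G < 120) (hFG : F ≠ G) (h : adjb F G = false) : B (eF F) (eF G) ≤ -(3/2) := by
  have h0 := List.all_eq_true.1 (List.all_eq_true.1 dot_all F (List.mem_range.2 hF)) G (List.mem_range.2 hG)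
  have hne : (F == G) = false := by simpa using hFG
  simp only [h, hne, Bool.false_or, Bool.or_eq_true, Bool.and_eq_true, decide_eq_true_eq] at h0
  have hφ : Real.goldenRatio ^ 2 = Real.goldenRatio + 1 := Real.goldenRatio_sq
  have hφ3 : Real.goldenRatio ^ 3 = 2 * Real.goldenRatio + 1 := by
    linear_combination (Real.goldenRatio + 1) * hφ
  have lo := gr_lo
  rw [B_eF, hφ, hφ3]
  rcases h0 with (((((h0 | h0) | h0) | h0) | h0) | h0) | h0 <;> rw [h0.1, h0.2] <;> push_cast <;>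
    nlinarith [hφ, lo]
/-- TARGET 4 -/
theorem adjb_symm (F G : ℕ) (h : adjb F G = true) : adjb G F = true := by
  have h1 : dA G F = dA F G := by unfold dA; ring
  have h2 : dB G F = dB F G := by unfold dB; ring
  unfold adjb at h ⊢
  rw [h1, h2]; exact h
/-- the right-angled 120-cell -/
def C120 : Cell (Fin 120) where
  e F := eF F.1
  adj F G := adjb F.1 G.1 = true
  symm F G h := adjb_symm _ _ h
  self F := eF_self _ F.2
  orth F G h := eF_orth _ _ h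
  far F G hne h := eF_far _ _ F.2 G.2 (fun e => hne (Fin.ext e)) (by simpa using h)
  cen F := by
    rw [B_o_left]
    have : 0 < √(Real.goldenRatio ^ 3) := Real.sqrt_pos.2 (pow_pos Real.goldenRatio_pos 3)
    simpa [eF] using this
def nuF (j : ℕ) : ℕ := (nuN >>> (7 * j)) % 128
def prF (F j : ℕ) : ℕ := (prodN >>> (7 * (12 * F + j))) % 128
/-- integer parts of the product -/
def zA (a b c d : ℤ) : ℤ := a * c + b * d
def zB (a b c d : ℤ) : ℤ := a * d + b * c + b * d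
/-- check of a Hamilton product -/
def chk (F G H : ℕ) : Bool :=
  let a0 := va F 0
  let b0 := vb F 0
  let a1 := va F 1
  let b1 := vb F 1
  let a2 := va F 2
  let b2 := vb F 2
  let a3 := va F 3
  let b3 := vb F 3
  let c0 := va G 0
  let d0 := vb G 0
  let c1 := va G 1
  let d1 := vb G 1
  let c2 := va G 2
  let d2 := vb G 2
  let c3 := va G 3
  let d3 := vb G 3
  decide (2 * va H 0 = zA a0 b0 c0 d0 - zA a1 b1 c1 d1 - zA a2 b2 c2 d2 - zA a3 b3 c3 d3) &&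
  decide (2 * vb H 0 = zB a0 b0 c0 d0 - zB a1 b1 c1 d1 - zB a2 b2 c2 d2 - zB a3 b3 c3 d3) &&
  decide (2 * va H 1 = zA a0 b0 c1 d1 + zA a1 b1 c0 d0 + zA a2 b2 c3 d3 - zA a3 b3 c2 d2) &&
  decide (2 * vb H 1 = zB a0 b0 c1 d1 + zB a1 b1 c0 d0 + zB a2 b2 c3 d3 - zB a3 b3 c2 d2) &&
  decide (2 * va H 2 = zA a0 b0 c2 d2 - zA a1 b1 c3 d3 + zA a2 b2 c0 d0 + zA a3 b3 c1 d1) &&
  decide (2 * vb H 2 = zB a0 b0 c2 d2 - zB a1 b1 c3 d3 + zB a2 b2 c0 d0 + zB a3 b3 c1 d1) &&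
  decide (2 * va H 3 = zA a0 b0 c3 d3 + zA a1 b1 c2 d2 - zA a2 b2 c1 d1 + zA a3 b3 c0 d0) &&
  decide (2 * vb H 3 = zB a0 b0 c3 d3 + zB a1 b1 c2 d2 - zB a2 b2 c1 d1 + zB a3 b3 c0 d0)

theorem prod_all : (List.range 120).all (fun F => (List.range 12).all (fun j => decide (prF F j < 120) && chk F (nuF j) (prF F j))) = true := by decide +kernel

theorem chk_real (F G H : ℕ) (h : chk F G H = true) :
    qv H 0 = qv F 0 * qv G 0 - qv F 1 * qv G 1 - qv F 2 * qv G 2 - qv F 3 * qv G 3 ∧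
    qv H 1 = qv F 0 * qv G 1 + qv F 1 * qv G 0 + qv F 2 * qv G 3 - qv F 3 * qv G 2 ∧
    qv H 2 = qv F 0 * qv G 2 - qv F 1 * qv G 3 + qv F 2 * qv G 0 + qv F 3 * qv G 1 ∧
    qv H 3 = qv F 0 * qv G 3 + qv F 1 * qv G 2 - qv F 2 * qv G 1 + qv F 3 * qv G 0 := by
  simp only [chk, Bool.and_eq_true] at h
  obtain ⟨⟨⟨⟨⟨⟨⟨e0, f0⟩, e1⟩, f1⟩, e2⟩, f2⟩, e3⟩, f3⟩ := h
  have e0 := of_decide_eq_true e0
  have f0 := of_decide_eq_true f0
  have e1 := of_decide_eq_true e1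
  have f1 := of_decide_eq_true f1
  have e2 := of_decide_eq_true e2
  have f2 := of_decide_eq_true f2
  have e3 := of_decide_eq_true e3
  have f3 := of_decide_eq_true f3
  unfold zA at e0 e1 e2 e3
  unfold zB at f0 f1 f2 f3
  have e0 := congrArg (fun t : ℤ => (t : ℝ)) e0
  have f0 := congrArg (fun t : ℤ => (t : ℝ)) f0
  have e1 := congrArg (fun t : ℤ => (t : ℝ)) e1
  have f1 := congrArg (fun t : ℤ => (t : ℝ)) f1
  have e2 := congrArg (fun t : ℤ => (t : ℝ)) e2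
  have f2 := congrArg (fun t : ℤ => (t : ℝ)) f2
  have e3 := congrArg (fun t : ℤ => (t : ℝ)) e3
  have f3 := congrArg (fun t : ℤ => (t : ℝ)) f3
  push_cast at e0 f0 e1 f1 e2 f2 e3 f3
  have hφ : Real.goldenRatio ^ 2 = Real.goldenRatio + 1 := Real.goldenRatio_sq
  unfold qv
  refine ⟨?_, ?_, ?_, ?_⟩
  · linear_combination (1 / 4) * e0 + (Real.goldenRatio / 4) * f0 -
      (((vb F 0 : ℝ) * vb G 0 - (vb F 1 : ℝ) * vb G 1 - (vb F 2 : ℝ) * vb G 2 - (vb F 3 : ℝ) * vb G 3) / 4) * hφ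
  · linear_combination (1 / 4) * e1 + (Real.goldenRatio / 4) * f1 -
      (((vb F 0 : ℝ) * vb G 1 + (vb F 1 : ℝ) * vb G 0 + (vb F 2 : ℝ) * vb G 3 - (vb F 3 : ℝ) * vb G 2) / 4) * hφ
  · linear_combination (1 / 4) * e2 + (Real.goldenRatio / 4) * f2 -
      (((vb F 0 : ℝ) * vb G 2 - (vb F 1 : ℝ) * vb G 3 + (vb F 2 : ℝ) * vb G 0 + (vb F 3 : ℝ) * vb G 1) / 4) * hφ
  · linear_combination (1 / 4) * e3 + (Real.goldenRatio / 4) * f3 -
      (((vb F 0 : ℝ) * vb G 3 + (vb F 1 : ℝ) * vb G 2 - (vb F 2 : ℝ) * vb G 1 + (vb F 3 : ℝ) * vb G 0) / 4) * hφ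

theorem qv_norm (F : ℕ) (hF : F < 120) : qv F 0 ^ 2 + qv F 1 ^ 2 + qv F 2 ^ 2 + qv F 3 ^ 2 = 1 := by
  have h := List.all_eq_true.1 dot_self_all F (List.mem_range.2 hF)
  rw [Bool.and_eq_true] at h
  obtain ⟨e, f⟩ := h
  have e := of_decide_eq_true e
  have f := of_decide_eq_true f
  unfold dA at e
  unfold dB at f
  have e := congrArg (fun t : ℤ => (t : ℝ)) e
  have f := congrArg (fun t : ℤ => (t : ℝ)) f
  push_cast at e f
  have hφ : Real.goldenRatio ^ 2 = Real.goldenRatio + 1 := Real.goldenRatio_sq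
  unfold qv
  linear_combination (1 / 4) * e + (Real.goldenRatio / 4) * f +
    (((vb F 0 : ℝ) * vb F 0 + (vb F 1 : ℝ) * vb F 1 + (vb F 2 : ℝ) * vb F 2 + (vb F 3 : ℝ) * vb F 3) / 4) * hφ

def dt (F : ℕ) (u0 u1 u2 u3 : ℝ) : ℝ := qv F 0 * u0 + qv F 1 * u1 + qv F 2 * u2 + qv F 3 * u3

theorem nu_gen (F : ℕ) (hF : F < 120) (u0 u1 u2 u3 : ℝ)
    (hmax : ∀ G < 120, dt G u0 u1 u2 u3 ≤ dt F u0 u1 u2 u3) (j : ℕ) (hj : j < 12) :
    qv (nuF j) 0 * (qv F 0 * u0 + qv F 1 * u1 + qv F 2 * u2 + qv F 3 * u3) +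
    qv (nuF j) 1 * (qv F 0 * u1 - qv F 1 * u0 - qv F 2 * u3 + qv F 3 * u2) +
    qv (nuF j) 2 * (qv F 0 * u2 + qv F 1 * u3 - qv F 2 * u0 - qv F 3 * u1) +
    qv (nuF j) 3 * (qv F 0 * u3 - qv F 1 * u2 + qv F 2 * u1 - qv F 3 * u0) ≤
    qv F 0 * u0 + qv F 1 * u1 + qv F 2 * u2 + qv F 3 * u3 := by
  have h := List.all_eq_true.1 (List.all_eq_true.1 prod_all F (List.mem_range.2 hF)) j (List.mem_range.2 hj)
  rw [Bool.and_eq_true, decide_eq_true_eq] at h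
  obtain ⟨h1, h2, h3, h4⟩ := chk_real _ _ _ h.2
  have h5 := hmax _ h.1
  unfold dt at h5
  rw [h1, h2, h3, h4] at h5
  refine le_trans (le_of_eq ?_) h5
  ring

theorem nu0 : ((va (nuF 0) 0, vb (nuF 0) 0, va (nuF 0) 1, vb (nuF 0) 1), (va (nuF 0) 2, vb (nuF 0) 2, va (nuF 0) 3, vb (nuF 0) 3)) = ((0, 1, 1, 0), (-1, 1, 0, 0)) := by decide +kernel
theorem nu1 : ((va (nuF 1) 0, vb (nuF 1) 0, va (nuF 1) 1, vb (nuF 1) 1), (va (nuF 1) 2, vb (nuF 1) 2, va (nuF 1) 3, vb (nuF 1) 3)) = ((0, 1, 1, 0), (1, -1, 0, 0)) := by decide +kernel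
theorem nu2 : ((va (nuF 2) 0, vb (nuF 2) 0, va (nuF 2) 1, vb (nuF 2) 1), (va (nuF 2) 2, vb (nuF 2) 2, va (nuF 2) 3, vb (nuF 2) 3)) = ((0, 1, -1, 0), (-1, 1, 0, 0)) := by decide +kernel
theorem nu3 : ((va (nuF 3) 0, vb (nuF 3) 0, va (nuF 3) 1, vb (nuF 3) 1), (va (nuF 3) 2, vb (nuF 3) 2, va (nuF 3) 3, vb (nuF 3) 3)) = ((0, 1, -1, 0), (1, -1, 0, 0)) := by decide +kernel
theorem nu4 : ((va (nuF 4) 0, vb (nuF 4) 0, va (nuF 4) 1, vb (nuF 4) 1), (va (nuF 4) 2, vb (nuF 4) 2, va (nuF 4) 3, vb (nuF 4) 3)) = ((0, 1, 0, 0), (1, 0, -1, 1)) := by decide +kernel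
theorem nu5 : ((va (nuF 5) 0, vb (nuF 5) 0, va (nuF 5) 1, vb (nuF 5) 1), (va (nuF 5) 2, vb (nuF 5) 2, va (nuF 5) 3, vb (nuF 5) 3)) = ((0, 1, 0, 0), (1, 0, 1, -1)) := by decide +kernel
theorem nu6 : ((va (nuF 6) 0, vb (nuF 6) 0, va (nuF 6) 1, vb (nuF 6) 1), (va (nuF 6) 2, vb (nuF 6) 2, va (nuF 6) 3, vb (nuF 6) 3)) = ((0, 1, 0, 0), (-1, 0, -1, 1)) := by decide +kernel
theorem nu7 : ((va (nuF 7) 0, vb (nuF 7) 0, va (nuF 7) 1, vb (nuF 7) 1), (va (nuF 7) 2, vb (nuF 7) 2, va (nuF 7) 3, vb (nuF 7) 3)) = ((0, 1, 0, 0), (-1, 0, 1, -1)) := by decide +kernel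
theorem nu8 : ((va (nuF 8) 0, vb (nuF 8) 0, va (nuF 8) 1, vb (nuF 8) 1), (va (nuF 8) 2, vb (nuF 8) 2, va (nuF 8) 3, vb (nuF 8) 3)) = ((0, 1, -1, 1), (0, 0, 1, 0)) := by decide +kernel
theorem nu9 : ((va (nuF 9) 0, vb (nuF 9) 0, va (nuF 9) 1, vb (nuF 9) 1), (va (nuF 9) 2, vb (nuF 9) 2, va (nuF 9) 3, vb (nuF 9) 3)) = ((0, 1, 1, -1), (0, 0, 1, 0)) := by decide +kernel
theorem nu10 : ((va (nuF 10) 0, vb (nuF 10) 0, va (nuF 10) 1, vb (nuF 10) 1), (va (nuF 10) 2, vb (nuF 10) 2, va (nuF 10) 3, vb (nuF 10) 3)) = ((0, 1, -1, 1), (0, 0, -1, 0)) := by decide +kernel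
theorem nu11 : ((va (nuF 11) 0, vb (nuF 11) 0, va (nuF 11) 1, vb (nuF 11) 1), (va (nuF 11) 2, vb (nuF 11) 2, va (nuF 11) 3, vb (nuF 11) 3)) = ((0, 1, 1, -1), (0, 0, -1, 0)) := by decide +kernel

theorem nu_use (j : ℕ) (a0 b0 a1 b1 a2 b2 a3 b3 : ℤ) (h : ((va (nuF j) 0, vb (nuF j) 0, va (nuF j) 1, vb (nuF j) 1), (va (nuF j) 2, vb (nuF j) 2, va (nuF j) 3, vb (nuF j) 3)) = ((a0, b0, a1, b1), (a2, b2, a3, b3)))
    (U0 U1 U2 U3 : ℝ)
    (hu : qv (nuF j) 0 * U0 + qv (nuF j) 1 * U1 + qv (nuF j) 2 * U2 + qv (nuF j) 3 * U3 ≤ U0) :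
    ((a0 : ℝ) + b0 * Real.goldenRatio) * U0 + ((a1 : ℝ) + b1 * Real.goldenRatio) * U1 +
    ((a2 : ℝ) + b2 * Real.goldenRatio) * U2 + ((a3 : ℝ) + b3 * Real.goldenRatio) * U3 ≤ 2 * U0 := by
  simp only [Prod.mk.injEq] at h
  obtain ⟨⟨h1, h2, h3, h4⟩, h5, h6, h7, h8⟩ := h
  unfold qv at hu
  rw [h1, h2, h3, h4, h5, h6, h7, h8] at hu
  linarith

theorem ineq_max (x y z m : ℝ) (hx : 0 ≤ x) (hy : 0 ≤ y) (hz : 0 ≤ z) (hxy : y ≤ x) (hxz : z ≤ x)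
    (h1 : x + 0.618 * y ≤ m) (h3 : z + 0.618 * x ≤ m) :
    0.622 * (x ^ 2 + y ^ 2 + z ^ 2) ≤ m ^ 2 := by
  have hm : x ≤ m := by nlinarith
  rcases le_total z y with hc | hc
  · have e1 : (x + 0.618 * y) ^ 2 ≤ m ^ 2 := by
      apply pow_le_pow_left₀ (by positivity) h1
    have e2 : y ^ 2 ≤ x * y := by nlinarith
    have e3 : z ^ 2 ≤ y ^ 2 := by nlinarith
    nlinarith [sq_nonneg x, sq_nonneg y]
  · have e1 : (z + 0.618 * x) ^ 2 ≤ m ^ 2 := by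
      apply pow_le_pow_left₀ (by positivity) h3
    have e2 : x ^ 2 ≤ m ^ 2 := by
      apply pow_le_pow_left₀ hx hm
    have e3 : z ^ 2 ≤ x * z := by nlinarith
    have e4 : y ^ 2 ≤ z ^ 2 := by nlinarith
    nlinarith [sq_nonneg x, sq_nonneg z]

theorem ineq_all (x y z m : ℝ) (hx : 0 ≤ x) (hy : 0 ≤ y) (hz : 0 ≤ z)
    (h1 : x + 0.618 * y ≤ m) (h2 : y + 0.618 * z ≤ m) (h3 : z + 0.618 * x ≤ m) :
    0.622 * (x ^ 2 + y ^ 2 + z ^ 2) ≤ m ^ 2 := by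
  rcases le_total y x with a | a
  · rcases le_total z x with b | b
    · exact ineq_max x y z m hx hy hz a b h1 h3
    · have := ineq_max z x y m hz hx hy b (a.trans b) h3 h2
      linarith
  · rcases le_total z y with b | b
    · have := ineq_max y z x m hy hz hx b a h2 h1
      linarith
    · have := ineq_max z x y m hz hx hy (a.trans b) b h3 h2
      linarith

theorem abs_comb (x y m : ℝ) (t : ℝ) (ht : 0 ≤ t) (h1 : x + t * y ≤ m) (h2 : x - t * y ≤ m) (h3 : -x + t * y ≤ m)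
    (h4 : -x - t * y ≤ m) : |x| + t * |y| ≤ m := by
  rcases abs_cases x with ⟨hx, _⟩ | ⟨hx, _⟩ <;> rcases abs_cases y with ⟨hy, _⟩ | ⟨hy, _⟩ <;>
    rw [hx, hy] <;> linarith

theorem max_bound (u0 u1 u2 u3 : ℝ) : ∃ F < 120, 0 ≤ dt F u0 u1 u2 u3 ∧
    0.81 * (u0 ^ 2 + u1 ^ 2 + u2 ^ 2 + u3 ^ 2) ≤ dt F u0 u1 u2 u3 ^ 2 := by
  obtain ⟨F, hF, hmax⟩ := Finset.exists_max_image (Finset.range 120) (fun G => dt G u0 u1 u2 u3)
    ⟨0, by simp⟩
  have hF := Finset.mem_range.1 hF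
  have hmax : ∀ G < 120, dt G u0 u1 u2 u3 ≤ dt F u0 u1 u2 u3 := fun G hG => hmax G (Finset.mem_range.2 hG)
  refine ⟨F, hF, ?_⟩
  have key := nu_gen F hF u0 u1 u2 u3 hmax
  have hn := qv_norm F hF
  have hid : (qv F 0 * u0 + qv F 1 * u1 + qv F 2 * u2 + qv F 3 * u3) ^ 2 +
    (qv F 0 * u1 - qv F 1 * u0 - qv F 2 * u3 + qv F 3 * u2) ^ 2 +
    (qv F 0 * u2 + qv F 1 * u3 - qv F 2 * u0 - qv F 3 * u1) ^ 2 +
    (qv F 0 * u3 - qv F 1 * u2 + qv F 2 * u1 - qv F 3 * u0) ^ 2 = u0 ^ 2 + u1 ^ 2 + u2 ^ 2 + u3 ^ 2 := by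
    linear_combination (u0 ^ 2 + u1 ^ 2 + u2 ^ 2 + u3 ^ 2) * hn
  unfold dt
  set U0 := qv F 0 * u0 + qv F 1 * u1 + qv F 2 * u2 + qv F 3 * u3 with hU0
  set U1 := qv F 0 * u1 - qv F 1 * u0 - qv F 2 * u3 + qv F 3 * u2 with hU1
  set U2 := qv F 0 * u2 + qv F 1 * u3 - qv F 2 * u0 - qv F 3 * u1 with hU2
  set U3 := qv F 0 * u3 - qv F 1 * u2 + qv F 2 * u1 - qv F 3 * u0 with hU3
  have k0 := nu_use 0 _ _ _ _ _ _ _ _ nu0 U0 U1 U2 U3 (key 0 (by norm_num))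
  have k1 := nu_use 1 _ _ _ _ _ _ _ _ nu1 U0 U1 U2 U3 (key 1 (by norm_num))
  have k2 := nu_use 2 _ _ _ _ _ _ _ _ nu2 U0 U1 U2 U3 (key 2 (by norm_num))
  have k3 := nu_use 3 _ _ _ _ _ _ _ _ nu3 U0 U1 U2 U3 (key 3 (by norm_num))
  have k4 := nu_use 4 _ _ _ _ _ _ _ _ nu4 U0 U1 U2 U3 (key 4 (by norm_num))
  have k5 := nu_use 5 _ _ _ _ _ _ _ _ nu5 U0 U1 U2 U3 (key 5 (by norm_num))
  have k6 := nu_use 6 _ _ _ _ _ _ _ _ nu6 U0 U1 U2 U3 (key 6 (by norm_num))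
  have k7 := nu_use 7 _ _ _ _ _ _ _ _ nu7 U0 U1 U2 U3 (key 7 (by norm_num))
  have k8 := nu_use 8 _ _ _ _ _ _ _ _ nu8 U0 U1 U2 U3 (key 8 (by norm_num))
  have k9 := nu_use 9 _ _ _ _ _ _ _ _ nu9 U0 U1 U2 U3 (key 9 (by norm_num))
  have k10 := nu_use 10 _ _ _ _ _ _ _ _ nu10 U0 U1 U2 U3 (key 10 (by norm_num))
  have k11 := nu_use 11 _ _ _ _ _ _ _ _ nu11 U0 U1 U2 U3 (key 11 (by norm_num))
  push_cast at k0 k1 k2 k3 k4 k5 k6 k7 k8 k9 k10 k11
  have lo := gr_lo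
  have hi := gr_hi
  have ht : (0 : ℝ) ≤ Real.goldenRatio - 1 := by linarith
  have a1 : |U1| + (Real.goldenRatio - 1) * |U2| ≤ (2 - Real.goldenRatio) * U0 :=
    abs_comb _ _ _ _ ht (by linarith) (by linarith) (by linarith) (by linarith)
  have a2 : |U2| + (Real.goldenRatio - 1) * |U3| ≤ (2 - Real.goldenRatio) * U0 :=
    abs_comb _ _ _ _ ht (by linarith) (by linarith) (by linarith) (by linarith)
  have a3 : |U3| + (Real.goldenRatio - 1) * |U1| ≤ (2 - Real.goldenRatio) * U0 :=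
    abs_comb _ _ _ _ ht (by linarith) (by linarith) (by linarith) (by linarith)
  have p1 := abs_nonneg U1
  have p2 := abs_nonneg U2
  have p3 := abs_nonneg U3
  have c : (0.618 : ℝ) ≤ Real.goldenRatio - 1 := by norm_num at lo ⊢; linarith
  have b1 := mul_le_mul_of_nonneg_right c p1
  have b2 := mul_le_mul_of_nonneg_right c p2
  have b3 := mul_le_mul_of_nonneg_right c p3
  have hi2 := ineq_all |U1| |U2| |U3| _ p1 p2 p3 (by linarith [a1, b2] : |U1| + 0.618 * |U2| ≤ (2 - Real.goldenRatio) * U0)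
    (by linarith [a2, b3]) (by linarith [a3, b1])
  rw [sq_abs, sq_abs, sq_abs, mul_pow] at hi2
  have hU0pos : 0 ≤ U0 := by
    have : 0 ≤ (2 - Real.goldenRatio) * U0 := by
      have := mul_nonneg ht p2
      linarith
    exact nonneg_of_mul_nonneg_right this (by linarith)
  refine ⟨hU0pos, ?_⟩
  have lo2 := gr_lo2
  have hm2 : (2 - Real.goldenRatio) ^ 2 ≤ 0.14590109 := by
    have := pow_le_pow_left₀ (by linarith) (by norm_num; linarith : 2 - Real.goldenRatio ≤ 0.38197) 2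
    norm_num at this ⊢
    linarith
  have hm3 := mul_le_mul_of_nonneg_right hm2 (sq_nonneg U0)
  rw [← hid]
  nlinarith [sq_nonneg U0]

theorem P_bound (p : Fin 5 → ℝ) (hp : p ∈ C120.P) : p 0 ^ 2 + p 1 ^ 2 + p 2 ^ 2 + p 3 ^ 2 ≤ 1000 := by
  obtain ⟨⟨h1, h2⟩, h3⟩ := hp
  obtain ⟨F, hF, hd, hb⟩ := max_bound (p 0) (p 1) (p 2) (p 3)
  have h4 : B p (eF F) ≤ 0 := h3 ⟨F, hF⟩
  have hB : B p (eF F) = √2 * Real.goldenRatio * dt F (p 0) (p 1) (p 2) (p 3) - p 4 * √(Real.goldenRatio ^ 3) := by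
    have : B p (eF F) = p 0 * (√2 * Real.goldenRatio * qv F 0) + p 1 * (√2 * Real.goldenRatio * qv F 1) +
        p 2 * (√2 * Real.goldenRatio * qv F 2) + p 3 * (√2 * Real.goldenRatio * qv F 3) -
        p 4 * √(Real.goldenRatio ^ 3) := rfl
    rw [this]; unfold dt; ring
  rw [hB] at h4
  have g0 := Real.goldenRatio_pos
  have h5 : √2 * Real.goldenRatio * dt F (p 0) (p 1) (p 2) (p 3) ≤ p 4 * √(Real.goldenRatio ^ 3) := by linarith
  have h6 : (√2 * Real.goldenRatio * dt F (p 0) (p 1) (p 2) (p 3)) ^ 2 ≤ (p 4 * √(Real.goldenRatio ^ 3)) ^ 2 :=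
    pow_le_pow_left₀ (by positivity) h5 2
  rw [mul_pow, mul_pow, mul_pow, Real.sq_sqrt (by norm_num), Real.sq_sqrt (by positivity)] at h6
  have h7 : p 4 ^ 2 = 1 + (p 0 ^ 2 + p 1 ^ 2 + p 2 ^ 2 + p 3 ^ 2) := by
    unfold B at h1; linarith
  rw [h7] at h6
  set N := p 0 ^ 2 + p 1 ^ 2 + p 2 ^ 2 + p 3 ^ 2 with hN
  have h8 : Real.goldenRatio ^ 2 * (2 * dt F (p 0) (p 1) (p 2) (p 3) ^ 2) ≤
      Real.goldenRatio ^ 2 * ((1 + N) * Real.goldenRatio) := by linarith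
  have h9 := le_of_mul_le_mul_left h8 (by positivity)
  have hi := gr_hi
  have hNn : 0 ≤ N := by positivity
  nlinarith [mul_le_mul_of_nonneg_left hi.le (by linarith : 0 ≤ 1 + N)]

/-- TARGET 5 -/
theorem C120_compact : IsCompact C120.P := by
  have hcl : IsClosed C120.P := by
    have he : C120.P = {x | B x x = -1} ∩ {x | 1 ≤ x 4} ∩ ⋂ i, {x | B x (C120.e i) ≤ 0} := by
      ext x
      simp only [Cell.P, Hyp, Set.mem_inter_iff, Set.mem_setOf_eq, Set.mem_iInter]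
      constructor
      · rintro ⟨⟨a, b⟩, c⟩
        refine ⟨⟨a, ?_⟩, c⟩
        unfold B at a
        nlinarith [sq_nonneg (x 0), sq_nonneg (x 1), sq_nonneg (x 2), sq_nonneg (x 3)]
      · rintro ⟨⟨a, b⟩, c⟩
        exact ⟨⟨a, by linarith⟩, c⟩
    rw [he]
    refine IsClosed.inter (IsClosed.inter ?_ ?_) (isClosed_iInter fun i => ?_)
    · exact isClosed_eq (continuous_B continuous_id continuous_id) continuous_const
    · exact isClosed_le continuous_const (continuous_apply 4)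
    · exact isClosed_le (continuous_B continuous_id continuous_const) continuous_const
  have hbd : Bornology.IsBounded C120.P := by
    refine (Metric.isBounded_closedBall (x := (0 : Fin 5 → ℝ)) (r := 32)).subset ?_
    intro p hp
    have hb := P_bound p hp
    have h1 : B p p = -1 := hp.1.1
    rw [mem_closedBall_zero_iff, pi_norm_le_iff_of_nonneg (by norm_num)]
    have hq : ∀ i, p i ^ 2 ≤ 1001 := by
      have s0 := sq_nonneg (p 0)
      have s1 := sq_nonneg (p 1)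
      have s2 := sq_nonneg (p 2)
      have s3 := sq_nonneg (p 3)
      unfold B at h1
      intro i
      fin_cases i
      · show p 0 ^ 2 ≤ 1001
        linarith
      · show p 1 ^ 2 ≤ 1001
        linarith
      · show p 2 ^ 2 ≤ 1001
        linarith
      · show p 3 ^ 2 ≤ 1001
        linarith
      · show p 4 ^ 2 ≤ 1001
        linarith
    intro i
    rw [Real.norm_eq_abs]
    refine abs_le.2 ⟨by nlinarith [hq i], by nlinarith [hq i]⟩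
  exact Metric.isCompact_of_isClosed_isBounded hcl hbd
end HB
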